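import Pool.Agent.P.MP_3bd355_an.Z.Stmts

/-! The case `A = 0`: package ANT1. -/

open Set Filter Metric Complex InnerProductSpace MeasureTheory
open scoped Topology ComplexConjugate Real

namespace Pool.Agent.P.MP_3bd355_an

namespace Ant1P

theorem re_div (ζ : ℂ) (m : ℝ) : (ζ / m).re = ζ.re / m := div_ofReal_re ζ m

theorem im_div (ζ : ℂ) (m : ℝ) : (ζ / m).im = ζ.im / m := div_ofReal_im ζ m

theorem lt1 {m a x : ℝ} (hm : 0 < m) (h : -(m * a) < x) : -a < x / m := by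
  rw [lt_div_iff₀ hm]; linarith

theorem lt2 {m a x : ℝ} (hm : 0 < m) (h : x < m * a) : x / m < a := by
  rw [div_lt_iff₀ hm]; linarith

theorem maps {a₁ a₃ b₃ b₂ m : ℝ} (hm : 0 < m) :
    MapsTo (fun ζ : ℂ => ζ / m) (Lc (m * a₁) (m * a₃) (m * b₃) (m * b₂)) (Lc a₁ a₃ b₃ b₂) := by
  rintro ζ ⟨h1, h2, h3, h4⟩
  refine ⟨?_, ?_, ?_, ?_⟩
  · rw [re_div]; exact lt1 hm h1
  · rw [re_div]; exact lt2 hm h2
  · rw [im_div]; exact lt1 hm h3
  · rw [re_div, im_div]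
    exact h4.imp (fun h => div_neg_of_neg_of_pos h hm) fun h => ⟨div_pos h.1 hm, lt2 hm h.2⟩

theorem lim {a₁ a₃ b₃ b₂ m c : ℝ} (hm : 0 < m) {s : ℂ → ℂ} {p q : ℂ} (e : p / m = q)
    (h : Tendsto (fun ζ => arg (s ζ)) (𝓝[Lc a₁ a₃ b₃ b₂] q) (𝓝 c)) :
    Tendsto (fun ζ : ℂ => arg (s (ζ / m))) (𝓝[Lc (m * a₁) (m * a₃) (m * b₃) (m * b₂)] p) (𝓝 c) := by
  subst e
  exact h.comp (((continuous_id.div_const (m : ℂ)).continuousWithinAt (x := p)).tendsto_nhdsWithin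
    (maps hm))

theorem asy {m C : ℝ} (hm : 0 < m) {f : ℝ → ℝ} (h : Tendsto (fun x => f x / x) (𝓝[>] 0) (𝓝 C)) :
    Tendsto (fun x => f (x / m) / x) (𝓝[>] 0) (𝓝 (C / m)) := by
  have h1 : Tendsto (fun x : ℝ => x / m) (𝓝[>] 0) (𝓝[>] 0) := by
    have := ((continuous_id.div_const m).continuousWithinAt (x := 0) (s := Ioi 0)).tendsto_nhdsWithin
      (t := Ioi 0) fun x hx => div_pos hx hm
    simpa using this
  refine ((h.comp h1).div_const m).congr fun x => ?_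
  simp only [Function.comp]
  rw [div_div, div_mul_cancel₀ _ hm.ne']

end Ant1P

open Ant1P in
theorem z_ant1 : Z_ANT1 := by
  intro a₁ a₃ b₃ b₂ m s h hm
  have hc : (m : ℂ) ≠ 0 := ofReal_ne_zero.2 hm.ne'
  have e1 : ∀ x : ℝ, (x : ℂ) / m = ((x / m : ℝ) : ℂ) := fun x => by push_cast; rfl
  have e2 : ∀ y : ℝ, (y : ℂ) * I / m = ((y / m : ℝ) : ℂ) * I := fun y => by push_cast; ring
  refine ⟨mul_pos hm h.a1, mul_pos hm h.a3, mul_pos hm h.b3, mul_pos hm h.b2,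
    h.d.comp (differentiableOn_id.div_const _) (maps hm), fun ζ hζ => h.quad _ (maps hm hζ),
    h.cont.comp (continuous_id.div_const (m : ℂ)).continuousOn ?_, fun x hx => ?_, fun y hy => ?_,
    fun y hy => ?_, fun x hx => ?_, fun y hy => ?_, fun x hx => ?_, ?_, ?_, ?_, ?_⟩
  · rintro ζ ((hζ | hζ) | hζ)
    · exact Or.inl (Or.inl (maps hm hζ))
    · refine Or.inl (Or.inr ⟨?_, ?_, ?_⟩)
      · exact (im_div ζ m).trans (by rw [hζ.1, zero_div])
      · exact (lt1 hm hζ.2.1).trans_eq (re_div ζ m).symm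
      · exact (re_div ζ m).trans_lt (div_neg_of_neg_of_pos hζ.2.2 hm)
    · refine Or.inr ⟨?_, ?_, ?_⟩
      · exact (re_div ζ m).trans (by rw [hζ.1, zero_div])
      · exact (div_pos hζ.2.1 hm).trans_eq (im_div ζ m).symm
      · exact (im_div ζ m).trans_lt (lt2 hm hζ.2.2)
  · rw [e1]; exact h.hor _ ⟨lt1 hm hx.1, div_neg_of_neg_of_pos hx.2 hm⟩
  · rw [e2]; exact h.ver _ ⟨div_pos hy.1 hm, lt2 hm hy.2⟩
  · exact Ant1P.lim hm (by push_cast; field_simp)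
      (h.argL (y / m) ⟨lt1 hm hy.1, div_neg_of_neg_of_pos hy.2 hm⟩)
  · exact Ant1P.lim hm (by push_cast; field_simp) (h.argB (x / m) ⟨lt1 hm hx.1, lt2 hm hx.2⟩)
  · exact Ant1P.lim hm (by push_cast; field_simp) (h.argR (y / m) ⟨lt1 hm hy.1, lt2 hm hy.2⟩)
  · exact Ant1P.lim hm (by push_cast; field_simp) (h.argT (x / m) ⟨div_pos hx.1 hm, lt2 hm hx.2⟩)
  · obtain ⟨C, hC, h1, h2⟩ := h.asy
    refine ⟨C / m, div_pos hC hm, ?_, ?_⟩
    · refine (asy hm (f := fun x => ‖s (-x)‖ ^ 3) h1).congr fun x => ?_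
      simp only [neg_div, e1]
    · refine (asy hm (f := fun y => ‖s (y * I)‖ ^ 3) h2).congr fun x => ?_
      simp only [e2]
  · simp only [e1]
    have := h.intH.comp_mul_right (c := m⁻¹)
    simp only [div_inv_eq_mul, zero_mul, ← div_eq_mul_inv] at this
    rwa [show -b₃ * m = -(m * b₃) by ring] at this
  · simp only [e2]
    have := h.intV.comp_mul_right (c := m⁻¹)
    simp only [div_inv_eq_mul, zero_mul, ← div_eq_mul_inv] at this
    rwa [mul_comm a₃] at this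
  · simp only [e1, e2]
    rw [intervalIntegral.integral_comp_div (fun x : ℝ => ‖s x‖) hm.ne',
      intervalIntegral.integral_comp_div (fun y : ℝ => ‖s (y * I)‖) hm.ne', zero_div, neg_div,
      mul_div_cancel_left₀ _ hm.ne', mul_div_cancel_left₀ _ hm.ne', h.sp]

end Pool.Agent.P.MP_3bd355_an
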