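import Pool.Agent.P.MP_3bd355_an.Z.Stmts

/-! The case `A = 0`: package ANT2. -/

open Set Filter Metric Complex InnerProductSpace MeasureTheory
open scoped Topology ComplexConjugate Real

namespace Pool.Agent.P.MP_3bd355_an

namespace Ant2P

theorem Lc_mono {a₁ a₃ b₃ b₂ a₃' b₃' b₂' : ℝ} (h3 : a₃ ≤ a₃') (hb3 : b₃ ≤ b₃') (hb2 : b₂ ≤ b₂') :
    Lc a₁ a₃ b₃ b₂ ⊆ Lc a₁ a₃' b₃' b₂' := by
  rintro ζ ⟨h1, h2, h4, h5⟩
  refine ⟨by linarith, by linarith, h4, h5.imp id fun h => ⟨h.1, by linarith [h.2]⟩⟩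

theorem closure_Lc (a₁ a₃ b₃ b₂ : ℝ) : closure (Lc a₁ a₃ b₃ b₂) ⊆
    {ζ : ℂ | -b₃ ≤ ζ.re ∧ ζ.re ≤ b₂ ∧ -a₁ ≤ ζ.im ∧ (ζ.im ≤ 0 ∨ (0 ≤ ζ.re ∧ ζ.im ≤ a₃))} := by
  refine closure_minimal ?_ ?_
  · rintro ζ ⟨h1, h2, h4, h5⟩
    exact ⟨h1.le, h2.le, h4.le, h5.imp le_of_lt fun h => ⟨h.1.le, h.2.le⟩⟩
  · exact (isClosed_le continuous_const continuous_re).inter
      ((isClosed_le continuous_re continuous_const).inter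
        ((isClosed_le continuous_const continuous_im).inter
          ((isClosed_le continuous_im continuous_const).union
            ((isClosed_le continuous_const continuous_re).inter
              (isClosed_le continuous_im continuous_const)))))

theorem bdd_Lc (a₁ a₃ b₃ b₂ : ℝ) : Bornology.IsBounded (Lc a₁ a₃ b₃ b₂) := by
  refine ((Metric.isBounded_Icc (-b₃) b₂).reProdIm (Metric.isBounded_Icc (-a₁) (max 0 a₃))).subset ?_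
  rintro ζ ⟨h1, h2, h4, h5⟩
  refine ⟨⟨h1.le, h2.le⟩, h4.le, ?_⟩
  rcases h5 with h | h
  · exact h.le.trans (le_max_left _ _)
  · exact h.2.le.trans (le_max_right _ _)

/-- The sides of the polygon. -/
theorem sides {a₁ a₃ b₃ b₂ : ℝ} (h1 : 0 < a₁) (h3 : 0 < a₃) (hb3 : 0 < b₃) (hb2 : 0 < b₂) {p : ℂ}
    (hp : p ∈ frontier (Lc a₁ a₃ b₃ b₂))
    (hS : p ∉ ({-b₃, 0, b₂} : Set ℝ) ×ℂ ({-a₁, 0, a₃} : Set ℝ)) :
    (p.re = -b₃ ∧ p.im ∈ Ioo (-a₁) 0) ∨ (p.im = -a₁ ∧ p.re ∈ Ioo (-b₃) b₂) ∨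
      (p.im = 0 ∧ p.re ∈ Ioo (-b₃) 0) ∨ (p.re = b₂ ∧ p.im ∈ Ioo (-a₁) a₃) ∨
      (p.im = a₃ ∧ p.re ∈ Ioo 0 b₂) ∨ (p.re = 0 ∧ p.im ∈ Ioo 0 a₃) := by
  have h4 := closure_Lc _ _ _ _ hp.1
  have h5 : p ∉ Lc a₁ a₃ b₃ b₂ := by
    have := hp.2
    rwa [(isOpen_Lc _ _ _ _).interior_eq] at this
  simp only [mem_reProdIm, mem_insert_iff, mem_singleton_iff] at hS
  simp only [Lc, mem_ofPred_eq] at h4 h5
  simp only [mem_Ioo]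
  grind

theorem arg_nonneg {w : ℂ} (h : 0 < w.re ∧ 0 < w.im) : 0 ≤ arg w := arg_nonneg_iff.2 h.2.le

theorem arg_le {w : ℂ} (h : 0 < w.re ∧ 0 < w.im) : arg w ≤ π / 2 :=
  arg_le_pi_div_two_iff.2 (Or.inl h.1.le)

theorem arg_hor {a₁ a₃ b₃ b₂ : ℝ} {s : ℂ → ℂ} (h : AS a₁ a₃ b₃ b₂ s) {x : ℝ}
    (hx : x ∈ Ioo (-b₃) 0) : Tendsto (fun ζ => arg (s ζ)) (𝓝[Lc a₁ a₃ b₃ b₂] x) (𝓝 0) := by
  have h1 := h.hor x hx
  have h2 : ContinuousWithinAt s (Lc a₁ a₃ b₃ b₂) x :=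
    (h.cont x (Or.inl (Or.inr ⟨ofReal_im _, hx.1, hx.2⟩))).mono fun _ hz => Or.inl (Or.inl hz)
  have h3 : arg (s x) = 0 := arg_eq_zero_iff.2 ⟨h1.2.le, h1.1⟩
  rw [← h3]
  exact (continuousAt_arg (Or.inl h1.2)).tendsto.comp h2

theorem arg_ver {a₁ a₃ b₃ b₂ : ℝ} {s : ℂ → ℂ} (h : AS a₁ a₃ b₃ b₂ s) {y : ℝ}
    (hy : y ∈ Ioo 0 a₃) :
    Tendsto (fun ζ => arg (s ζ)) (𝓝[Lc a₁ a₃ b₃ b₂] (y * I)) (𝓝 (π / 2)) := by
  have h1 := h.ver y hy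
  have h2 : ContinuousWithinAt s (Lc a₁ a₃ b₃ b₂) (y * I) :=
    (h.cont (y * I) (Or.inr ⟨by simp, by simpa using hy.1, by simpa using hy.2⟩)).mono
      fun _ hz => Or.inl (Or.inl hz)
  have h3 : arg (s (y * I)) = π / 2 := arg_eq_pi_div_two_iff.2 h1
  rw [← h3]
  exact (continuousAt_arg (Or.inr h1.2.ne')).tendsto.comp h2

theorem harm {a₁ a₃ b₃ b₂ : ℝ} {s : ℂ → ℂ} (h : AS a₁ a₃ b₃ b₂ s) {ζ : ℂ}
    (hζ : ζ ∈ Lc a₁ a₃ b₃ b₂) : HarmonicAt (fun y => arg (s y)) ζ :=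
  harm_arg (h.d.analyticOnNhd (isOpen_Lc _ _ _ _) ζ hζ) (Or.inl (h.quad ζ hζ).1)

end Ant2P

open Ant2P in
theorem z_ant2 : Z_ANT2 := by
  intro a₁ a₃ b₃ b₂ a₃' b₃' b₂' s s' h h' h3 h2 hb ζ hζ
  have hU : Lc a₁ a₃ b₃' b₂ ⊆ Lc a₁ a₃ b₃ b₂ := Lc_mono le_rfl hb le_rfl
  have hU' : Lc a₁ a₃ b₃' b₂ ⊆ Lc a₁ a₃' b₃' b₂' := Lc_mono h3 le_rfl h2
  have hh : HarmonicOnNhd (fun y => arg (s' y) - arg (s y)) (Lc a₁ a₃ b₃' b₂) := fun z hz =>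
    (harm h' (hU' hz)).sub (harm h (hU hz))
  have hA : ∀ p : ℂ, Tendsto (fun ζ => arg (s' ζ)) (𝓝[Lc a₁ a₃' b₃' b₂'] p) (𝓝 0) →
      LS (fun y => arg (s' y) - arg (s y)) (Lc a₁ a₃ b₃' b₂) p 0 := fun p hp =>
    ((LS.of_tendsto hp le_rfl).mono hU').of_le
      (eventually_nhdsWithin_of_forall fun z hz => sub_le_self _ (arg_nonneg (h.quad z (hU hz))))
  have hB : ∀ p : ℂ, Tendsto (fun ζ => arg (s ζ)) (𝓝[Lc a₁ a₃ b₃ b₂] p) (𝓝 (π / 2)) →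
      LS (fun y => arg (s' y) - arg (s y)) (Lc a₁ a₃ b₃' b₂) p 0 := fun p hp => by
    have h4 : LS (fun y => arg (s' y)) (Lc a₁ a₃ b₃' b₂) p (π / 2) :=
      LS.of_eventually (eventually_nhdsWithin_of_forall fun z hz => arg_le (h'.quad z (hU' hz)))
    have h5 := h4.sub_tendsto (hp.mono_left (nhdsWithin_mono _ hU))
    rwa [sub_self] at h5
  have hfin : (({-b₃', 0, b₂} : Set ℝ) ×ℂ ({-a₁, 0, a₃} : Set ℝ)).Finite :=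
    (((toFinite ({-b₃', 0, b₂} : Set ℝ)).prod (toFinite ({-a₁, 0, a₃} : Set ℝ))).preimage
      (f := equivRealProd) equivRealProd.injective.injOn).subset fun _ hz => hz
  have key := (Sub.of_harm hh).mpx (isOpen_Lc _ _ _ _) (bdd_Lc _ _ _ _)
    ⟨π / 2, fun z hz => by
      linarith [arg_le (h'.quad z (hU' hz)), arg_nonneg (h.quad z (hU hz))]⟩ hfin (c := 0)
    (fun p hp hS => ?_) ζ hζ
  · linarith
  rcases sides h.a1 h.a3 h'.b3 h.b2 hp hS with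
    ⟨e, hm⟩ | ⟨e, hm⟩ | ⟨e, hm⟩ | ⟨e, hm⟩ | ⟨e, hm⟩ | ⟨e, hm⟩
  · have e' : p = -b₃' + p.im * I := Complex.ext (by simp [e]) (by simp)
    exact hA p (e' ▸ h'.argL _ hm)
  · have e' : p = p.re - a₁ * I := Complex.ext (by simp) (by simp [e])
    exact hA p (e' ▸ h'.argB _ ⟨hm.1, hm.2.trans_le h2⟩)
  · have e' : p = p.re := Complex.ext (by simp) (by simp [e])
    exact hA p (e' ▸ arg_hor h' hm)
  · have e' : p = b₂ + p.im * I := Complex.ext (by simp [e]) (by simp)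
    exact hB p (e' ▸ h.argR _ hm)
  · have e' : p = p.re + a₃ * I := Complex.ext (by simp) (by simp [e])
    exact hB p (e' ▸ h.argT _ hm)
  · have e' : p = p.im * I := Complex.ext (by simp [e]) (by simp)
    exact hB p (e' ▸ arg_ver h hm)

end Pool.Agent.P.MP_3bd355_an
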