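import Pool.Agent.P.MP_3bd355_an.Z.Stmts

/-! The case `A = 0`: package ANT3. -/

open Set Filter Metric Complex InnerProductSpace MeasureTheory
open scoped Topology ComplexConjugate Real

namespace Pool.Agent.P.MP_3bd355_an

namespace Ant3P

/-- Monotonicity of the real part along a side on which the imaginary part vanishes. -/
theorem mono_side (F : ℂ → ℂ) (x₁ x₂ δ₀ : ℝ) (hx : x₁ < x₂) (hδ : 0 < δ₀)
    (hc : ContinuousOn F (Icc x₁ x₂ ×ℂ Icc (-δ₀) 0))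
    (hd : DifferentiableOn ℂ F (Ioo x₁ x₂ ×ℂ Ioo (-δ₀) 0))
    (hp : ∀ z ∈ Icc x₁ x₂ ×ℂ Icc (-δ₀) 0, 0 ≤ (F z).im)
    (h0 : ∀ x ∈ Icc x₁ x₂, (F x).im = 0) : (F x₂).re ≤ (F x₁).re := by
  by_contra hcon
  push Not at hcon
  have hv : ∀ x ∈ Icc x₁ x₂, ContinuousOn (fun y : ℝ => F (x + y * I)) (Icc (-δ₀) 0) := by
    intro x hx'
    refine hc.comp (by fun_prop) fun y hy => ?_
    simpa [mem_reProdIm] using ⟨hx', hy⟩
  have hh : ∀ y ∈ Icc (-δ₀) 0, ContinuousOn (fun x : ℝ => F (x + y * I)) (Icc x₁ x₂) := by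
    intro y hy
    refine hc.comp (by fun_prop) fun x hx' => ?_
    simpa [mem_reProdIm] using ⟨hx', hy⟩
  have m1 : x₁ ∈ Icc x₁ x₂ := ⟨le_rfl, hx.le⟩
  have m2 : x₂ ∈ Icc x₁ x₂ := ⟨hx.le, le_rfl⟩
  set g : ℝ → ℝ := fun y => (F (x₂ + y * I)).re - (F (x₁ + y * I)).re with hg
  have gc : ContinuousOn g (Icc (-δ₀) 0) :=
    (continuous_re.comp_continuousOn (hv x₂ m2)).sub (continuous_re.comp_continuousOn (hv x₁ m1))
  have g0 : 0 < g 0 := by simp only [hg]; simp; linarith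
  have hev : ∀ᶠ y in 𝓝[Icc (-δ₀) 0] 0, 0 < g y :=
    (gc 0 ⟨by linarith, le_rfl⟩).eventually (lt_mem_nhds g0)
  obtain ⟨ε, hε, hb⟩ := Metric.mem_nhdsWithin_iff.1 hev
  set δ := min δ₀ (ε / 2) with hδd
  have d0 : 0 < δ := lt_min hδ (by linarith)
  have d1 : δ ≤ δ₀ := min_le_left _ _
  have d2 : δ < ε := lt_of_le_of_lt (min_le_right _ _) (by linarith)
  have sub : Icc (-δ) 0 ⊆ Icc (-δ₀) 0 := Icc_subset_Icc (by linarith) le_rfl
  have gp : ∀ y ∈ Ioo (-δ) 0, 0 < g y := by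
    intro y hy
    refine hb ⟨?_, sub (Ioo_subset_Icc_self hy)⟩
    rw [mem_ball, Real.dist_eq, sub_zero, abs_lt]
    exact ⟨by linarith [hy.1], by linarith [hy.2]⟩
  have nd : -δ ≤ 0 := by linarith
  have ipos : 0 < ∫ y in (-δ)..0, g y :=
    intervalIntegral.intervalIntegral_pos_of_pos_on
      ((gc.mono sub).intervalIntegrable_of_Icc nd) gp (by linarith)
  have key := integral_boundary_rect_eq_zero_of_continuousOn_of_differentiableOn F
    (x₁ + (-δ : ℝ) * I) (x₂ + (0 : ℝ) * I) (by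
      refine hc.mono fun z hz => ?_
      simp only [mem_reProdIm, add_re, ofReal_re, mul_re, I_re, mul_zero, ofReal_im, I_im,
        mul_one, sub_self, add_zero, add_im, mul_im, zero_add] at hz ⊢
      rw [uIcc_of_le hx.le, uIcc_of_le nd] at hz
      exact ⟨hz.1, sub hz.2⟩) (by
      refine hd.mono fun z hz => ?_
      simp only [mem_reProdIm, add_re, ofReal_re, mul_re, I_re, mul_zero, ofReal_im, I_im,
        mul_one, sub_self, add_zero, add_im, mul_im, zero_add] at hz ⊢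
      rw [min_eq_left hx.le, max_eq_right hx.le, min_eq_left nd, max_eq_right nd] at hz
      exact ⟨hz.1, ⟨by linarith [hz.2.1], hz.2.2⟩⟩)
  simp only [add_re, ofReal_re, mul_re, I_re, mul_zero, ofReal_im, I_im,
    mul_one, sub_self, add_zero, add_im, mul_im, zero_add] at key
  have i1 : IntervalIntegrable (fun x : ℝ => F (x + (-δ : ℝ) * I)) volume x₁ x₂ :=
    (hh (-δ) (sub ⟨le_rfl, nd⟩)).intervalIntegrable_of_Icc hx.le
  have i2 : IntervalIntegrable (fun x : ℝ => F (x + (0 : ℝ) * I)) volume x₁ x₂ :=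
    (hh 0 (sub ⟨nd, le_rfl⟩)).intervalIntegrable_of_Icc hx.le
  have i3 : IntervalIntegrable (fun y : ℝ => F (x₂ + y * I)) volume (-δ) 0 :=
    ((hv x₂ m2).mono sub).intervalIntegrable_of_Icc nd
  have i4 : IntervalIntegrable (fun y : ℝ => F (x₁ + y * I)) volume (-δ) 0 :=
    ((hv x₁ m1).mono sub).intervalIntegrable_of_Icc nd
  have e1 : (∫ x in x₁..x₂, F (x + (-δ : ℝ) * I)).im = ∫ x in x₁..x₂, (F (x + (-δ : ℝ) * I)).im :=
    (imCLM.intervalIntegral_comp_comm i1).symm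
  have e2 : (∫ x in x₁..x₂, F (x + (0 : ℝ) * I)).im = ∫ x in x₁..x₂, (F (x + (0 : ℝ) * I)).im :=
    (imCLM.intervalIntegral_comp_comm i2).symm
  have e3 : (∫ y in (-δ)..0, F (x₂ + y * I)).re = ∫ y in (-δ)..0, (F (x₂ + y * I)).re :=
    (reCLM.intervalIntegral_comp_comm i3).symm
  have e4 : (∫ y in (-δ)..0, F (x₁ + y * I)).re = ∫ y in (-δ)..0, (F (x₁ + y * I)).re :=
    (reCLM.intervalIntegral_comp_comm i4).symm
  have p1 : 0 ≤ ∫ x in x₁..x₂, (F (x + (-δ : ℝ) * I)).im := by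
    refine intervalIntegral.integral_nonneg hx.le fun x hx' => hp _ ?_
    simpa [mem_reProdIm] using ⟨hx', d1, d0.le⟩
  have p2 : ∫ x in x₁..x₂, (F (x + (0 : ℝ) * I)).im = 0 := by
    rw [intervalIntegral.integral_congr (g := fun _ => (0 : ℝ))]
    · simp
    · intro x hx'
      rw [uIcc_of_le hx.le] at hx'
      simpa using h0 x hx'
  have e5 : ∫ y in (-δ)..0, g y =
      (∫ y in (-δ)..0, (F (x₂ + y * I)).re) - ∫ y in (-δ)..0, (F (x₁ + y * I)).re :=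
    intervalIntegral.integral_sub
      (((continuous_re.comp_continuousOn (hv x₂ m2)).mono sub).intervalIntegrable_of_Icc nd)
      (((continuous_re.comp_continuousOn (hv x₁ m1)).mono sub).intervalIntegrable_of_Icc nd)
  have k2 := congrArg Complex.im key
  simp only [smul_eq_mul, sub_im, add_im, mul_im, I_re, I_im, zero_mul, one_mul, zero_add,
    zero_im] at k2
  rw [e1, e2, e3, e4, p2] at k2
  linarith

/-- Passing to the limit at the corner. -/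
theorem lim_le {p q : ℝ → ℝ} {C C' R b : ℝ} (hC' : 0 < C') (hb : 0 < b)
    (hp : Tendsto (fun t => p t ^ 3 / t) (𝓝[>] 0) (𝓝 C))
    (hq : Tendsto (fun t => q t ^ 3 / t) (𝓝[>] 0) (𝓝 C'))
    (h : ∀ t ∈ Ioo 0 b, p t ^ 3 ≤ R * q t ^ 3) : C ≤ R * C' := by
  refine le_of_tendsto_of_tendsto hp (hq.const_mul R) ?_
  filter_upwards [Ioo_mem_nhdsGT hb] with t ht
  rw [← mul_div_assoc]
  exact div_le_div_of_nonneg_right (h t ht) ht.1.le

theorem lim_ge {p q : ℝ → ℝ} {C C' R b : ℝ} (hb : 0 < b)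
    (hp : Tendsto (fun t => p t ^ 3 / t) (𝓝[>] 0) (𝓝 C))
    (hq : Tendsto (fun t => q t ^ 3 / t) (𝓝[>] 0) (𝓝 C'))
    (h : ∀ t ∈ Ioo 0 b, R * q t ^ 3 ≤ p t ^ 3) : R * C' ≤ C := by
  refine le_of_tendsto_of_tendsto (hq.const_mul R) hp ?_
  filter_upwards [Ioo_mem_nhdsGT hb] with t ht
  rw [← mul_div_assoc]
  exact div_le_div_of_nonneg_right (h t ht) ht.1.le

/-- From logarithms to quotients. -/
theorem ratio_le {a b c d : ℝ} (ha : 0 < a) (hb : 0 < b) (hc : 0 < c) (hd : 0 < d)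
    (h : Real.log a - Real.log b ≤ Real.log c - Real.log d) : a / b ≤ c / d := by
  rw [← Real.log_div ha.ne' hb.ne', ← Real.log_div hc.ne' hd.ne'] at h
  exact (Real.log_le_log_iff (by positivity) (by positivity)).1 h

end Ant3P

open Ant3P in
theorem z_ant3 : Z_ANT3 := by
  intro a₁ a₃ b₃ b₂ a₃' b₃' b₂' s s' hs hs' h3 h2 hb harg
  set Ω := Lc a₁ a₃ b₃' b₂ with hΩ
  set W : Set ℂ := Ω ∪ {ζ | ζ.im = 0 ∧ -b₃' < ζ.re ∧ ζ.re < 0} ∪
    {ζ | ζ.re = 0 ∧ 0 < ζ.im ∧ ζ.im < a₃} with hW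
  have s1 : Ω ⊆ Lc a₁ a₃ b₃ b₂ := fun ζ h => ⟨by linarith [h.1], h.2.1, h.2.2.1, h.2.2.2⟩
  have s2 : Ω ⊆ Lc a₁ a₃' b₃' b₂' := fun ζ h =>
    ⟨h.1, by linarith [h.2.1], h.2.2.1, h.2.2.2.imp id fun k => ⟨k.1, by linarith [k.2]⟩⟩
  have c1 : ContinuousOn s W := hs.cont.mono (union_subset_union (union_subset_union s1
    fun ζ h => ⟨h.1, by linarith [h.2.1], h.2.2⟩) subset_rfl)
  have c2 : ContinuousOn s' W := hs'.cont.mono (union_subset_union (union_subset_union s2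
    subset_rfl) fun ζ h => ⟨h.1, h.2.1, by linarith [h.2.2]⟩)
  have hH : ∀ x ∈ Ioo (-b₃') 0, (s x).im = 0 ∧ 0 < (s x).re := fun x hx =>
    hs.hor x ⟨by linarith [hx.1], hx.2⟩
  have hV : ∀ y ∈ Ioo 0 a₃, (s' (y * I)).re = 0 ∧ 0 < (s' (y * I)).im := fun y hy =>
    hs'.ver y ⟨hy.1, by linarith [hy.2]⟩
  have eH : ∀ ζ : ℂ, ζ.im = 0 → ζ = (ζ.re : ℂ) := fun ζ h => Complex.ext (by simp) (by simp [h])
  have eV : ∀ ζ : ℂ, ζ.re = 0 → ζ = (ζ.im : ℂ) * I := fun ζ h =>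
    Complex.ext (by simp [h]) (by simp)
  have sl : ∀ ζ ∈ W, s ζ ∈ slitPlane ∧ s' ζ ∈ slitPlane := by
    rintro ζ ((h | h) | h)
    · exact ⟨Or.inl (hs.quad ζ (s1 h)).1, Or.inl (hs'.quad ζ (s2 h)).1⟩
    · rw [eH ζ h.1]
      exact ⟨Or.inl (hH _ h.2).2, Or.inl (hs'.hor _ h.2).2⟩
    · rw [eV ζ h.1]
      exact ⟨Or.inr (hs.ver _ h.2).2.ne', Or.inr (hV _ h.2).2.ne'⟩
  set f : ℂ → ℂ := fun ζ => log (s ζ) - log (s' ζ) with hf
  have fc : ContinuousOn f W :=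
    (c1.clog fun ζ h => (sl ζ h).1).sub (c2.clog fun ζ h => (sl ζ h).2)
  have fd : DifferentiableOn ℂ f Ω :=
    ((hs.d.mono s1).clog fun ζ h => (sl ζ (Or.inl (Or.inl h))).1).sub
      ((hs'.d.mono s2).clog fun ζ h => (sl ζ (Or.inl (Or.inl h))).2)
  have fim : ∀ ζ, (f ζ).im = arg (s ζ) - arg (s' ζ) := fun ζ => by simp [hf, log_im]
  have fre : ∀ ζ, (f ζ).re = Real.log ‖s ζ‖ - Real.log ‖s' ζ‖ := fun ζ => by simp [hf, log_re]
  have zH : ∀ x ∈ Ioo (-b₃') 0, (f x).im = 0 := fun x hx => by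
    rw [fim, arg_eq_zero_iff.2 ⟨(hH x hx).2.le, (hH x hx).1⟩,
      arg_eq_zero_iff.2 ⟨(hs'.hor x hx).2.le, (hs'.hor x hx).1⟩, sub_self]
  have zV : ∀ y ∈ Ioo 0 a₃, (f (y * I)).im = 0 := fun y hy => by
    rw [fim, arg_eq_pi_div_two_iff.2 (hs.ver y hy), arg_eq_pi_div_two_iff.2 (hV y hy), sub_self]
  have fp : ∀ ζ ∈ W, 0 ≤ (f ζ).im := by
    rintro ζ ((h | h) | h)
    · rw [fim]; linarith [harg ζ h]
    · rw [eH ζ h.1]; exact (zH _ h.2).ge
    · rw [eV ζ h.1]; exact (zV _ h.2).ge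
  have a1 := hs.a1
  have b2 := hs.b2
  have mH : ∀ x₁ ∈ Ioo (-b₃') 0, ∀ x₂ ∈ Ioo (-b₃') 0, x₁ < x₂ → (f x₂).re ≤ (f x₁).re := by
    intro x₁ h1 x₂ h2' hx
    have sb : Icc x₁ x₂ ×ℂ Icc (-(a₁ / 2)) 0 ⊆ W := by
      intro z hz
      obtain ⟨⟨k1, k2⟩, k3, k4⟩ := mem_reProdIm.1 hz
      rcases k4.lt_or_eq with k | k
      · exact Or.inl (Or.inl ⟨by linarith [h1.1], by linarith [h2'.2], by linarith, Or.inl k⟩)
      · exact Or.inl (Or.inr ⟨k, by linarith [h1.1], by linarith [h2'.2]⟩)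
    refine mono_side f x₁ x₂ (a₁ / 2) hx (by linarith) (fc.mono sb) (fd.mono fun z hz => ?_)
      (fun z hz => fp z (sb hz)) fun x k => zH x ⟨by linarith [h1.1, k.1], by linarith [h2'.2, k.2]⟩
    obtain ⟨⟨k1, k2⟩, k3, k4⟩ := mem_reProdIm.1 hz
    exact ⟨by linarith [h1.1], by linarith [h2'.2], by linarith, Or.inl k4⟩
  have mV : ∀ y₁ ∈ Ioo 0 a₃, ∀ y₂ ∈ Ioo 0 a₃, y₁ < y₂ → (f (y₂ * I)).re ≤ (f (y₁ * I)).re := by
    intro y₁ h1 y₂ h2' hy
    have sb : MapsTo (fun z : ℂ => z * I) (Icc y₁ y₂ ×ℂ Icc (-(b₂ / 2)) 0) W := by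
      intro z hz
      obtain ⟨⟨k1, k2⟩, k3, k4⟩ := mem_reProdIm.1 hz
      have r1 : (z * I).re = -z.im := by simp
      have r2 : (z * I).im = z.re := by simp
      have := hs'.b3
      rcases k4.lt_or_eq with k | k
      · refine Or.inl (Or.inl ⟨?_, ?_, ?_, Or.inr ⟨?_, ?_⟩⟩) <;> simp only [r1, r2] <;>
          linarith [h1.1, h2'.2]
      · refine Or.inr ⟨?_, ?_, ?_⟩ <;> simp only [r1, r2] <;> linarith [h1.1, h2'.2]
    have sb' : MapsTo (fun z : ℂ => z * I) (Ioo y₁ y₂ ×ℂ Ioo (-(b₂ / 2)) 0) Ω := by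
      intro z hz
      obtain ⟨⟨k1, k2⟩, k3, k4⟩ := mem_reProdIm.1 hz
      have r1 : (z * I).re = -z.im := by simp
      have r2 : (z * I).im = z.re := by simp
      have := hs'.b3
      refine ⟨?_, ?_, ?_, Or.inr ⟨?_, ?_⟩⟩ <;> simp only [r1, r2] <;> linarith [h1.1, h2'.2]
    exact mono_side (fun z => f (z * I)) y₁ y₂ (b₂ / 2) hy (by linarith)
      (fc.comp (by fun_prop) sb) (fd.comp (by fun_prop) sb') (fun z hz => fp _ (sb hz))
      fun y k => zV y ⟨by linarith [h1.1, k.1], by linarith [h2'.2, k.2]⟩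
  have np : ∀ ζ ∈ W, 0 < ‖s ζ‖ ∧ 0 < ‖s' ζ‖ := fun ζ h =>
    ⟨norm_pos_iff.2 (slitPlane_ne_zero (sl ζ h).1), norm_pos_iff.2 (slitPlane_ne_zero (sl ζ h).2)⟩
  have wH : ∀ x ∈ Ioo (-b₃') 0, (x : ℂ) ∈ W := fun x hx =>
    Or.inl (Or.inr ⟨by simp, by simpa using hx.1, by simpa using hx.2⟩)
  have wV : ∀ y ∈ Ioo 0 a₃, (y : ℂ) * I ∈ W := fun y hy =>
    Or.inr ⟨by simp, by simpa using hy.1, by simpa using hy.2⟩
  obtain ⟨C, hC, tH, tV⟩ := hs.asy
  obtain ⟨C', hC', tH', tV'⟩ := hs'.asy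
  set l : ℝ := (C / C') ^ ((3 : ℕ) : ℝ)⁻¹ with hl
  have l0 : 0 < l := Real.rpow_pos_of_pos (by positivity) _
  have l3 : l ^ 3 = C / C' := Real.rpow_inv_natCast_pow (by positivity) (by norm_num)
  refine ⟨l, l0, fun x hx => ?_, fun y hy => ?_⟩
  · obtain ⟨n1, n2⟩ := np _ (wH x hx)
    have := lim_le (p := fun t => ‖s (-t)‖) (q := fun t => ‖s' (-t)‖)
      (R := (‖s x‖ / ‖s' x‖) ^ 3) (b := -x) hC' (by linarith [hx.2]) tH tH' (by
        intro t ht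
        have mt : -t ∈ Ioo (-b₃') 0 := ⟨by linarith [hx.1, ht.2], by linarith [ht.1]⟩
        have k := mH x hx (-t) mt (by linarith [ht.2])
        obtain ⟨n3, n4⟩ := np _ (wH _ mt)
        rw [fre, fre] at k
        have k2 := ratio_le n3 n4 n1 n2 k
        rw [div_le_iff₀ n4] at k2
        push_cast at k2 n3
        rw [← mul_pow]
        exact pow_le_pow_left₀ n3.le k2 3)
    rw [← div_le_iff₀ hC', ← l3] at this
    have k := le_of_pow_le_pow_left₀ (by norm_num) (by positivity) this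
    rwa [le_div_iff₀ n2] at k
  · obtain ⟨n1, n2⟩ := np _ (wV y hy)
    have := lim_ge (p := fun t => ‖s (t * I)‖) (q := fun t => ‖s' (t * I)‖)
      (R := (‖s (y * I)‖ / ‖s' (y * I)‖) ^ 3) (b := y) hy.1 tV tV' (by
        intro t ht
        have mt : t ∈ Ioo 0 a₃ := ⟨ht.1, by linarith [hy.2, ht.2]⟩
        have k := mV t mt y hy ht.2
        obtain ⟨n3, n4⟩ := np _ (wV _ mt)
        rw [fre, fre] at k
        have k2 := ratio_le n1 n2 n3 n4 k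
        rw [le_div_iff₀ n4] at k2
        rw [← mul_pow]
        exact pow_le_pow_left₀ (by positivity) k2 3)
    rw [← le_div_iff₀ hC', ← l3] at this
    have k := le_of_pow_le_pow_left₀ (by norm_num) l0.le this
    rwa [div_le_iff₀ n2] at k

end Pool.Agent.P.MP_3bd355_an
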