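import Pool.Agent.P.MP_3bd355_an.Z.Stmts

/-! The case `A = 0`: package ANTI. -/

open Set Filter Metric Complex InnerProductSpace MeasureTheory
open scoped Topology ComplexConjugate Real

namespace Pool.Agent.P.MP_3bd355_an

namespace AntiP

theorem core (hANT2 : Z_ANT2) (hANT3 : Z_ANT3) {a₁ a₃ b₃ b₂ a₃' b₃' b₂' : ℝ} {s s' : ℂ → ℂ}
    (h : AS a₁ a₃ b₃ b₂ s) (h' : AS a₁ a₃' b₃' b₂' s') (h1 : a₃ < a₃') (h2 : b₂ ≤ b₂')
    (h3 : b₃' ≤ b₃) : False := by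
  obtain ⟨l, hl, hH, hV⟩ := hANT3 _ _ _ _ _ _ _ _ _ h h' h1.le h2 h3
    (hANT2 _ _ _ _ _ _ _ _ _ h h' h1.le h2 h3)
  have n3 : -b₃ ≤ -b₃' := neg_le_neg h3
  have n0 : -b₃' ≤ 0 := neg_nonpos.2 h'.b3.le
  have iH : IntervalIntegrable (fun x : ℝ => ‖s x‖) volume (-b₃') 0 :=
    h.intH.mono_set (by rw [uIcc_of_le n0, uIcc_of_le (n3.trans n0)]; exact Icc_subset_Icc_left n3)
  have iV1 : IntervalIntegrable (fun y : ℝ => ‖s' (y * I)‖) volume 0 a₃ :=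
    h'.intV.mono_set (by
      rw [uIcc_of_le h.a3.le, uIcc_of_le h'.a3.le]; exact Icc_subset_Icc_right h1.le)
  have iV2 : IntervalIntegrable (fun y : ℝ => ‖s' (y * I)‖) volume a₃ a₃' :=
    h'.intV.mono_set (by
      rw [uIcc_of_le h1.le, uIcc_of_le h'.a3.le]; exact Icc_subset_Icc_left h.a3.le)
  have k1 : ∫ x in (-b₃')..0, ‖s x‖ ≤ ∫ x in (-b₃)..0, ‖s x‖ :=
    intervalIntegral.integral_mono_interval n3 n0 le_rfl
      (Eventually.of_forall fun x => norm_nonneg _) h.intH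
  have k2 : ∫ x in (-b₃')..0, l * ‖s' x‖ ≤ ∫ x in (-b₃')..0, ‖s x‖ :=
    intervalIntegral.integral_mono_on_of_le_Ioo n0 (h'.intH.const_mul l) iH hH
  have k3 : ∫ y in (0 : ℝ)..a₃, ‖s (y * I)‖ ≤ ∫ y in (0 : ℝ)..a₃, l * ‖s' (y * I)‖ :=
    intervalIntegral.integral_mono_on_of_le_Ioo h.a3.le h.intV (iV1.const_mul l) hV
  have k4 : 0 < ∫ y in a₃..a₃', ‖s' (y * I)‖ :=
    intervalIntegral.intervalIntegral_pos_of_pos_on iV2 (fun y hy => norm_pos_iff.2 fun e => by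
      have := (h'.ver y ⟨h.a3.trans hy.1, hy.2⟩).2
      rw [e] at this
      exact lt_irrefl _ this) h1
  have k5 := intervalIntegral.integral_add_adjacent_intervals iV1 iV2
  rw [intervalIntegral.integral_const_mul] at k2 k3
  rw [h'.sp, ← k5] at k2
  rw [h.sp] at k1
  nlinarith [mul_pos hl k4]

end AntiP

theorem z_anti (hANT1 : Z_ANT1) (hANT2 : Z_ANT2) (hANT3 : Z_ANT3) : Z_ANTI := by
  intro a₁ a₃ b₃ b₂ a₁' a₃' b₃' b₂' s s' h h' h1 h2 h3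
  have hm : 0 < a₁ / a₁' := div_pos h.a1 h'.a1
  have k := hANT1 _ _ _ _ _ _ h' hm
  rw [div_mul_cancel₀ _ h'.a1.ne'] at k
  refine AntiP.core hANT2 hANT3 h k ?_ ?_ ?_
  · rw [div_mul_eq_mul_div, lt_div_iff₀ h'.a1]; linarith
  · rw [div_mul_eq_mul_div, le_div_iff₀ h'.a1]; linarith
  · rw [div_mul_eq_mul_div, div_le_iff₀ h'.a1]; linarith

end Pool.Agent.P.MP_3bd355_an
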