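import Pool.Agent.P.MP_3bd355_an.Z.Stmts

/-! The case `A = 0`: package AREA. -/

open Set Filter Metric Complex InnerProductSpace MeasureTheory
open scoped Topology ComplexConjugate Real

namespace Pool.Agent.P.MP_3bd355_an

namespace AreaP

theorem tri {φ : ℝ → ℝ} (hφ : Continuous φ) (h0 : ∀ t, 0 ≤ φ t) {s b e : ℝ} (hs : s ≤ b)
    (he : e = 2 * b - s) :
    ∫⁻ t in Ioo s e, ENNReal.ofReal (φ (b - |b - t|)) = ENNReal.ofReal (2 * ∫ t in s..b, φ t) := by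
  have hc : Continuous fun t => φ (b - |b - t|) := by fun_prop
  have hb : b ≤ e := by linarith
  rw [← ofReal_integral_eq_lintegral_ofReal
    ((hc.integrableOn_Icc (a := s) (b := e)).mono_set Ioo_subset_Icc_self)
    (Eventually.of_forall fun t => h0 _), ← integral_Ioc_eq_integral_Ioo,
    ← intervalIntegral.integral_of_le (hs.trans hb),
    ← intervalIntegral.integral_add_adjacent_intervals (hc.intervalIntegrable s b)
      (hc.intervalIntegrable b e)]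
  have e1 : ∫ t in s..b, φ (b - |b - t|) = ∫ t in s..b, φ t :=
    intervalIntegral.integral_congr fun t ht => by
      rw [uIcc_of_le hs] at ht
      rw [abs_of_nonneg (by linarith [ht.2])]
      ring_nf
  have e2 : ∫ t in b..e, φ (b - |b - t|) = ∫ t in b..e, φ (2 * b - t) :=
    intervalIntegral.integral_congr fun t ht => by
      rw [uIcc_of_le hb] at ht
      rw [abs_of_nonpos (by linarith [ht.1])]
      ring_nf
  rw [e1, e2, intervalIntegral.integral_comp_sub_left, he]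
  ring_nf

theorem cov (hCOV : Z_COV) {r x₀ : ℝ} {z₁ : ℂ} {f : Fl} (hf : FL r x₀ z₁ f) (h : ℂ → ENNReal) :
    ∫⁻ z in ann r, h z = ∫⁻ ζ in DD2 f.a₁ f.a₃ f.b₃ f.b₂,
      ENNReal.ofReal (‖deriv f.Z ζ‖ ^ 2) * h (f.Z ζ) := by
  rw [← hCOV _ _ h (isOpen_DD2 _ _ _ _) hf.fz.d hf.fz.inj]
  refine congrArg (fun μ => lintegral μ h) (Measure.restrict_congr_set ?_)
  refine ae_eq_set.2 ⟨hf.fz.full, ?_⟩
  rw [sdiff_eq_empty.2, measure_empty]
  rintro _ ⟨ζ, hζ, rfl⟩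
  exact (hf.fz.maps ζ hζ).1.1

end AreaP

open AreaP in
theorem z_area (hCOV : Z_COV) (hTON : Z_TON) : Z_AREA := by
  intro r x₀ z₁ f f' ω hf hf' hω
  obtain ⟨h3, h4⟩ := hf.sh.nonneg
  have h1 := hf.sh.1
  have h2 := hf.sh.2.1
  have c1 := cov hCOV hf' fun z => ENNReal.ofReal (ω (f.x z) ^ 2 * ‖f.Q z‖)
  have c2 := cov hCOV hf fun z => ENNReal.ofReal (ω (f.x z) ^ 2 * ‖f.Q z‖)
  have e1 : ∀ ζ, ENNReal.ofReal ((ω (f.x (f'.Z ζ)) * den f f' ζ) ^ 2) =
      ENNReal.ofReal (‖deriv f'.Z ζ‖ ^ 2) *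
        ENNReal.ofReal (ω (f.x (f'.Z ζ)) ^ 2 * ‖f.Q (f'.Z ζ)‖) := fun ζ => by
    rw [← ENNReal.ofReal_mul (by positivity), den, mul_pow, mul_pow, Real.sq_sqrt (norm_nonneg _)]
    ring_nf
  simp only [e1]
  rw [← c1, c2]
  have e2 : EqOn (fun ζ => ENNReal.ofReal (‖deriv f.Z ζ‖ ^ 2) *
      ENNReal.ofReal (ω (f.x (f.Z ζ)) ^ 2 * ‖f.Q (f.Z ζ)‖))
      (fun ζ => ENNReal.ofReal (ω (f.b₃ + f.b₂ - |f.b₃ + f.b₂ - ζ.re|) ^ 2))
      (DD2 f.a₁ f.a₃ f.b₃ f.b₂) := fun ζ hζ => by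
    have e := congrArg norm (hf.fz.ode ζ hζ)
    rw [norm_mul, norm_pow, norm_one] at e
    simp only
    rw [← ENNReal.ofReal_mul (by positivity), hf.fz.xZ ζ hζ]
    congr 1
    linear_combination ω (f.b₃ + f.b₂ - |f.b₃ + f.b₂ - ζ.re|) ^ 2 * e
  have hc : Continuous fun ζ : ℂ =>
      ENNReal.ofReal (ω (f.b₃ + f.b₂ - |f.b₃ + f.b₂ - ζ.re|) ^ 2) :=
    ENNReal.continuous_ofReal.comp (by fun_prop)
  rw [setLIntegral_congr_fun (isOpen_DD2 _ _ _ _).measurableSet e2,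
    hTON _ _ _ _ _ hf.sh hc.measurable.aemeasurable]
  have e3 : ∀ t y : ℝ, ((t : ℂ) + y * I).re = t := fun t y => by simp
  have hφ : Continuous fun t => ω t ^ 2 := by fun_prop
  have f1 := tri hφ (fun t => sq_nonneg _) (s := 0) (b := f.b₃ + f.b₂) (e := 2 * (f.b₃ + f.b₂))
    (by linarith) (by ring)
  have f2 := tri hφ (fun t => sq_nonneg _) (s := f.b₃) (b := f.b₃ + f.b₂) (e := f.b₃ + 2 * f.b₂)
    (by linarith) (by ring)
  have n1 : 0 ≤ ∫ t in (0 : ℝ)..(f.b₃ + f.b₂), ω t ^ 2 :=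
    intervalIntegral.integral_nonneg (by linarith) fun t _ => sq_nonneg _
  have n2 : 0 ≤ ∫ t in f.b₃..(f.b₃ + f.b₂), ω t ^ 2 :=
    intervalIntegral.integral_nonneg (by linarith) fun t _ => sq_nonneg _
  simp only [e3, f1, f2, setLIntegral_const, Real.volume_Ioo]
  rw [← ENNReal.ofReal_mul (by positivity), ← ENNReal.ofReal_mul (by positivity),
    ← ENNReal.ofReal_add (by rw [sub_zero]; positivity) (by rw [add_sub_cancel_left]; positivity)]
  congr 1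
  ring

end Pool.Agent.P.MP_3bd355_an
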