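import Pool.Agent.P.MP_3bd355_an.Z.Stmts

/-! The case `A = 0`: package ARITH. -/

open Set Filter Metric Complex InnerProductSpace MeasureTheory
open scoped Topology ComplexConjugate Real

namespace Pool.Agent.P.MP_3bd355_an

namespace ArithP

theorem ints {f : ℝ → ℝ} (hf : Continuous f) {c M b₃ b₂ ε : ℝ} (h3 : 0 ≤ b₃) (hε : 0 < ε)
    (hε2 : ε ≤ b₂) (h0 : ∀ t, 0 ≤ f t) (hM : ∀ t, f t ≤ M) (hl : ∀ t ≤ b₃, f t = c)
    (hr : ∀ t, b₃ + ε ≤ t → f t = 1) :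
    (∫ t in (0 : ℝ)..(b₃ + b₂), f t) = c * b₃ + (∫ t in b₃..(b₃ + b₂), f t) ∧
      b₂ - ε ≤ (∫ t in b₃..(b₃ + b₂), f t) ∧ (∫ t in b₃..(b₃ + b₂), f t) ≤ b₂ + M * ε := by
  have hi : ∀ a b, IntervalIntegrable f volume a b := fun a b => hf.intervalIntegrable a b
  have e1 : (∫ t in (0 : ℝ)..b₃, f t) = c * b₃ := by
    rw [intervalIntegral.integral_congr (g := fun _ => c)]
    · simp [mul_comm]
    · intro t ht
      rw [uIcc_of_le h3] at ht
      exact hl t ht.2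
  have e2 : (∫ t in (b₃ + ε)..(b₃ + b₂), f t) = b₂ - ε := by
    rw [intervalIntegral.integral_congr (g := fun _ => 1)]
    · simp
    · intro t ht
      rw [uIcc_of_le (by linarith)] at ht
      exact hr t ht.1
  have e3 : 0 ≤ ∫ t in b₃..(b₃ + ε), f t :=
    intervalIntegral.integral_nonneg (by linarith) fun t _ => h0 t
  have e4 : (∫ t in b₃..(b₃ + ε), f t) ≤ M * ε := by
    have := intervalIntegral.integral_mono_on (a := b₃) (b := b₃ + ε) (g := fun _ => M)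
      (by linarith) (hi _ _) (by simp) fun t _ => hM t
    simpa [mul_comm] using this
  have e5 := intervalIntegral.integral_add_adjacent_intervals (hi b₃ (b₃ + ε))
    (hi (b₃ + ε) (b₃ + b₂))
  have e6 := intervalIntegral.integral_add_adjacent_intervals (hi 0 b₃) (hi b₃ (b₃ + b₂))
  refine ⟨by rw [← e6, e1], ?_, ?_⟩ <;> linarith

theorem step {a₁ a₃ b₃ b₂ a₁' a₃' b₃' b₂' : ℝ} (h : Sh a₁ a₃ b₃ b₂) (h' : Sh a₁' a₃' b₃' b₂')
    (hJ : JI a₁ a₃ b₃ b₂ a₁' a₃' b₃' b₂') {p : ℝ} (hp : 0 < p) :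
    (a₁' * (p * b₃) + (a₁' + a₃') * b₂) ^ 2 ≤
      (a₁ * (p ^ 2 * b₃) + (a₁ + a₃) * b₂) * (a₁' * b₃' + (a₁' + a₃') * b₂') := by
  obtain ⟨h3, h4⟩ := h.nonneg
  obtain ⟨h3', h4'⟩ := h'.nonneg
  have h1 := h.1
  have h2 := h.2.1
  have h1' := h'.1
  have h2' := h'.2.1
  have key : ∀ ε ∈ Ioo 0 b₂, (a₁' * (p * b₃) + (a₁' + a₃') * (b₂ - ε)) ^ 2 ≤
      (a₁ * (p ^ 2 * b₃) + (a₁ + a₃) * (b₂ + (p + 1) ^ 2 * ε)) *
        (a₁' * b₃' + (a₁' + a₃') * b₂') := by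
    rintro ε ⟨hε, hε2⟩
    set ω : ℝ → ℝ := fun t => p + (1 - p) * max 0 (min 1 ((t - b₃) / ε)) with hω
    have hc : Continuous ω := by fun_prop
    have hb : ∀ t, 0 ≤ ω t ∧ ω t ≤ p + 1 := fun t => by
      have k1 : 0 ≤ max 0 (min 1 ((t - b₃) / ε)) := le_max_left _ _
      have k2 : max 0 (min 1 ((t - b₃) / ε)) ≤ 1 := max_le zero_le_one (min_le_left _ _)
      constructor <;> simp only [hω] <;> nlinarith
    have hl : ∀ t ≤ b₃, ω t = p := fun t ht => by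
      have : (t - b₃) / ε ≤ 0 := div_nonpos_of_nonpos_of_nonneg (by linarith) hε.le
      simp only [hω]
      rw [max_eq_left ((min_le_right _ _).trans this)]
      ring
    have hr : ∀ t, b₃ + ε ≤ t → ω t = 1 := fun t ht => by
      have : 1 ≤ (t - b₃) / ε := by rw [le_div_iff₀ hε]; linarith
      simp only [hω]
      rw [min_eq_left this, max_eq_right zero_le_one]
      ring
    obtain ⟨i1, i2, -⟩ := ints hc h4 hε hε2.le (fun t => (hb t).1) (fun t => (hb t).2) hl hr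
    obtain ⟨j1, -, j3⟩ := ints (f := fun t => ω t ^ 2) (c := p ^ 2) (M := (p + 1) ^ 2)
      (hc.pow 2) h4 hε hε2.le (fun t => sq_nonneg _)
      (fun t => pow_le_pow_left₀ (hb t).1 (hb t).2 2) (fun t ht => by rw [hl t ht])
      (fun t ht => by rw [hr t ht, one_pow])
    have hJ' := hJ ω hc fun t => (hb t).1
    rw [i1, j1] at hJ'
    generalize (∫ t in b₃..(b₃ + b₂), ω t) = I₁ at hJ' i2
    generalize (∫ t in b₃..(b₃ + b₂), ω t ^ 2) = I₂ at hJ' j3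
    have hA : 0 ≤ a₁' * b₃' + (a₁' + a₃') * b₂' := by positivity
    calc _ ≤ (a₁' * (p * b₃ + I₁) + a₃' * I₁) ^ 2 := by
          apply pow_le_pow_left₀
          · have : 0 ≤ b₂ - ε := by linarith
            positivity
          · have := mul_le_mul_of_nonneg_left i2 (show 0 ≤ a₁' + a₃' by positivity)
            linarith
      _ ≤ (a₁ * (p ^ 2 * b₃ + I₂) + a₃ * I₂) * (a₁' * b₃' + (a₁' + a₃') * b₂') := by
          convert hJ' using 2
          ring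
      _ ≤ _ := by
          apply mul_le_mul_of_nonneg_right _ hA
          have := mul_le_mul_of_nonneg_left j3 (show 0 ≤ a₁ + a₃ by positivity)
          linarith
  have t1 : Tendsto (fun ε : ℝ => (a₁' * (p * b₃) + (a₁' + a₃') * (b₂ - ε)) ^ 2) (𝓝[>] 0)
      (𝓝 ((a₁' * (p * b₃) + (a₁' + a₃') * (b₂ - 0)) ^ 2)) :=
    (Continuous.tendsto (by fun_prop) 0).mono_left nhdsWithin_le_nhds
  have t2 : Tendsto (fun ε : ℝ => (a₁ * (p ^ 2 * b₃) + (a₁ + a₃) * (b₂ + (p + 1) ^ 2 * ε)) *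
        (a₁' * b₃' + (a₁' + a₃') * b₂')) (𝓝[>] 0)
      (𝓝 ((a₁ * (p ^ 2 * b₃) + (a₁ + a₃) * (b₂ + (p + 1) ^ 2 * 0)) *
        (a₁' * b₃' + (a₁' + a₃') * b₂'))) :=
    (Continuous.tendsto (by fun_prop) 0).mono_left nhdsWithin_le_nhds
  have := le_of_tendsto_of_tendsto t1 t2 (by
    filter_upwards [Ioo_mem_nhdsGT h2] with ε hε using key ε hε)
  simpa using this

theorem best {a₁ a₃ b₃ b₂ a₁' a₃' b₃' b₂' : ℝ} (h : Sh a₁ a₃ b₃ b₂) (h' : Sh a₁' a₃' b₃' b₂')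
    (hJ : JI a₁ a₃ b₃ b₂ a₁' a₃' b₃' b₂') :
    (a₁' / a₁) ^ 2 * (a₁ * b₃) + ((a₁' + a₃') / (a₁ + a₃)) ^ 2 * ((a₁ + a₃) * b₂) ≤
      a₁' * b₃' + (a₁' + a₃') * b₂' := by
  obtain ⟨h3, h4⟩ := h.nonneg
  obtain ⟨h3', h4'⟩ := h'.nonneg
  have h1 := h.1
  have h2 := h.2.1
  have h1' := h'.1
  have h2' := h'.2.1
  have hp : 0 < a₁' * (a₁ + a₃) / (a₁ * (a₁' + a₃')) := by positivity
  have := step h h' hJ hp
  generalize a₁' * b₃' + (a₁' + a₃') * b₂' = A at this ⊢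
  have ha2 : 0 < a₁ + a₃ := by positivity
  have ha2' : 0 < a₁' + a₃' := by positivity
  generalize a₁ + a₃ = a₂ at *
  generalize a₁' + a₃' = a₂' at *
  set S := (a₁' / a₁) ^ 2 * (a₁ * b₃) + (a₂' / a₂) ^ 2 * (a₂ * b₂) with hS
  have hS0 : 0 < S := by positivity
  have e1 : a₁' * (a₁' * a₂ / (a₁ * a₂') * b₃) + a₂' * b₂ = a₂ / a₂' * S := by
    rw [hS]; field_simp
  have e2 : a₁ * ((a₁' * a₂ / (a₁ * a₂')) ^ 2 * b₃) + a₂ * b₂ = (a₂ / a₂') ^ 2 * S := by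
    rw [hS]; field_simp
  rw [e1, e2] at this
  have hq : 0 < (a₂ / a₂') ^ 2 * S := by positivity
  have e3 : (a₂ / a₂' * S) ^ 2 = (a₂ / a₂') ^ 2 * S * S := by ring
  rw [e3] at this
  exact le_of_mul_le_mul_left this hq

end ArithP

theorem z_arith : Z_ARITH := by
  intro a₁ a₃ b₃ b₂ a₁' a₃' b₃' b₂' h h' hJ hJ' hlt
  have k1 := ArithP.best h h' hJ
  have k2 := ArithP.best h' h hJ'
  obtain ⟨h3, h4⟩ := h.nonneg
  obtain ⟨h3', h4'⟩ := h'.nonneg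
  have h1 := h.1
  have h2 := h.2.1
  have h1' := h'.1
  have h2' := h'.2.1
  have ha2 : 0 < a₁ + a₃ := by positivity
  have ha2' : 0 < a₁' + a₃' := by positivity
  have hab : a₁' / a₁ < (a₁' + a₃') / (a₁ + a₃) := by
    rw [div_lt_div_iff₀ h1 ha2]; linarith
  have e1 : a₁ / a₁' = (a₁' / a₁)⁻¹ := by rw [inv_div]
  have e2 : (a₁ + a₃) / (a₁' + a₃') = ((a₁' + a₃') / (a₁ + a₃))⁻¹ := by rw [inv_div]
  rw [e1, e2] at k2
  have e3 : a₁' = a₁' / a₁ * a₁ := by field_simp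
  have e4 : a₁' + a₃' = (a₁' + a₃') / (a₁ + a₃) * (a₁ + a₃) := by field_simp
  have hα : 0 < a₁' / a₁ := by positivity
  generalize a₁' / a₁ = α at *
  generalize (a₁' + a₃') / (a₁ + a₃) = β at *
  have hβ : 0 < β := hα.trans hab
  set X := a₁' * b₃' - α ^ 2 * (a₁ * b₃) with hX
  set Y := (a₁' + a₃') * b₂' - β ^ 2 * ((a₁ + a₃) * b₂) with hY
  have k3 : 0 ≤ X + Y := by linarith
  have k4 : β ^ 2 * X + α ^ 2 * Y ≤ 0 := by
    have := mul_le_mul_of_nonneg_left k2 (show 0 ≤ α ^ 2 * β ^ 2 by positivity)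
    have e5 : α ^ 2 * β ^ 2 * (α⁻¹ ^ 2 * (a₁' * b₃') + β⁻¹ ^ 2 * ((a₁' + a₃') * b₂')) =
        β ^ 2 * (a₁' * b₃') + α ^ 2 * ((a₁' + a₃') * b₂') := by field_simp
    rw [e5] at this
    rw [hX, hY]
    linarith
  have hsq : α ^ 2 < β ^ 2 := pow_lt_pow_left₀ hab hα.le two_ne_zero
  have k5 : X ≤ 0 := by
    by_contra hc
    have hc' : 0 < X := not_le.1 hc
    have := mul_nonneg (sq_nonneg α) k3
    have := mul_pos (sub_pos.2 hsq) hc'
    nlinarith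
  have k6 : 0 ≤ Y := by linarith
  have r3 : b₃' * a₁ ≤ b₃ * a₁' := by
    have : α * (b₃' * a₁) ≤ α * (b₃ * a₁') := by
      rw [hX, e3] at k5
      rw [e3]
      nlinarith
    exact le_of_mul_le_mul_left this hα
  have r2 : b₂ * a₁' ≤ b₂' * a₁ := by
    have : β * (a₁ + a₃) * (β * b₂) ≤ β * (a₁ + a₃) * b₂' := by
      rw [hY, e4] at k6
      nlinarith
    have k7 : β * b₂ ≤ b₂' := le_of_mul_le_mul_left this (by positivity)
    have k8 : α * b₂ ≤ β * b₂ := mul_le_mul_of_nonneg_right hab.le h2.le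
    rw [e3]
    nlinarith
  refine ⟨?_, r2, r3⟩
  rcases h.2.2 with h5 | h5
  · exact h5.1
  · rcases h'.2.2 with h6 | h6
    · have := mul_pos h6.2 h1
      rw [h5.2, zero_mul] at r3
      exact absurd r3 (not_le.2 this)
    · rw [h5.1, h6.1, zero_mul, zero_mul] at hlt
      exact absurd hlt (lt_irrefl _)

end Pool.Agent.P.MP_3bd355_an
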