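import Pool.Agent.P.MP_3bd355_an.Z.Stmts

/-! The case `A = 0`: package AS. -/

open Set Filter Metric Complex InnerProductSpace MeasureTheory
open scoped Topology ComplexConjugate Real

namespace Pool.Agent.P.MP_3bd355_an

namespace AsP

variable {Λ u₀ c : ℝ} {T Φ U : ℂ → ℂ} {a₁ a₃ b₃ b₂ : ℝ}

theorem lo_of_lc {ζ : ℂ} (h : ζ ∈ Lc a₁ a₃ b₃ b₂) : ζ + (b₃ + a₁ * I) ∈ Lo a₁ a₃ b₃ b₂ := by
  obtain ⟨h1, h2, h3, h4⟩ := h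
  have e1 : (ζ + (b₃ + a₁ * I)).re = ζ.re + b₃ := by simp
  have e2 : (ζ + (b₃ + a₁ * I)).im = ζ.im + a₁ := by simp
  refine ⟨by rw [e1]; linarith, by rw [e1]; linarith, by rw [e2]; linarith, ?_⟩
  rw [e1, e2]
  rcases h4 with h4 | ⟨h4, h5⟩
  · left; linarith
  · right; exact ⟨by linarith, by linarith⟩

theorem cw (md : MD Λ u₀ c True T) (li : LI Λ True T Φ U a₁ a₃ b₃ b₂) {A : Set ℂ}
    (hA : ∀ ξ ∈ A, ξ + (b₃ + a₁ * I) ∈ Φ '' PC Λ True) {ζ u : ℂ} (hu : u ∈ PC Λ True)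
    (e : Φ u = ζ + (b₃ + a₁ * I)) (h0 : u ≠ u₀) (hi : 0 ≤ (T u).im) :
    Tendsto (fun ξ => rt (T (U (ξ + (b₃ + a₁ * I))))) (𝓝[A] ζ) (𝓝 (rt (T u))) := by
  have h1 : Tendsto (fun ξ : ℂ => ξ + (b₃ + a₁ * I)) (𝓝[A] ζ) (𝓝[Φ '' PC Λ True] (Φ u)) := by
    rw [tendsto_nhdsWithin_iff]
    refine ⟨?_, eventually_nhdsWithin_of_forall hA⟩
    rw [e]
    exact ((continuous_id.add continuous_const).tendsto ζ).mono_left nhdsWithin_le_nhds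
  have h2 : Tendsto U (𝓝[Φ '' PC Λ True] (Φ u)) (𝓝 u) := by
    have := li.cont (Φ u) ⟨u, hu, rfl⟩
    rwa [ContinuousWithinAt, li.linv u hu] at this
  exact (rt_cont hi).tendsto.comp ((md.ana u hu h0).continuousAt.tendsto.comp (h2.comp h1))

theorem lc_pp (li : LI Λ True T Φ U a₁ a₃ b₃ b₂) {ζ : ℂ} (h : ζ ∈ Lc a₁ a₃ b₃ b₂) :
    ∃ u ∈ PP Λ True, Φ u = ζ + (b₃ + a₁ * I) := by
  have := lo_of_lc h
  rwa [← li.img] at this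

theorem lc_pc (li : LI Λ True T Φ U a₁ a₃ b₃ b₂) :
    ∀ ξ ∈ Lc a₁ a₃ b₃ b₂, ξ + (b₃ + a₁ * I) ∈ Φ '' PC Λ True := fun _ h => by
  obtain ⟨u, hu, e⟩ := lc_pp li h
  exact ⟨u, PP_sub_PC _ _ hu, e⟩

theorem arg_zero (md : MD Λ u₀ c True T) (li : LI Λ True T Φ U a₁ a₃ b₃ b₂) {ζ u : ℂ}
    (hu : u ∈ PC Λ True) (e : Φ u = ζ + (b₃ + a₁ * I)) (h0 : u ≠ u₀) (hi : (T u).im = 0)
    (hr : 0 < (T u).re) :
    Tendsto (fun ξ => arg (rt (T (U (ξ + (b₃ + a₁ * I)))))) (𝓝[Lc a₁ a₃ b₃ b₂] ζ) (𝓝 0) := by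
  obtain ⟨h1, h2⟩ := rt_pos hi hr
  have h3 : arg (rt (T u)) = 0 := arg_eq_zero_iff.2 ⟨h2.le, h1⟩
  rw [← h3]
  exact (continuousAt_arg (Or.inl h2)).tendsto.comp (cw md li (lc_pc li) hu e h0 hi.ge)

theorem arg_half (md : MD Λ u₀ c True T) (li : LI Λ True T Φ U a₁ a₃ b₃ b₂) {ζ u : ℂ}
    (hu : u ∈ PC Λ True) (e : Φ u = ζ + (b₃ + a₁ * I)) (h0 : u ≠ u₀) (hi : (T u).im = 0)
    (hr : (T u).re < 0) :
    Tendsto (fun ξ => arg (rt (T (U (ξ + (b₃ + a₁ * I)))))) (𝓝[Lc a₁ a₃ b₃ b₂] ζ)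
      (𝓝 (π / 2)) := by
  obtain ⟨h1, h2⟩ := rt_neg hi hr
  have h3 : arg (rt (T u)) = π / 2 := arg_eq_pi_div_two_iff.2 ⟨h1, h2⟩
  rw [← h3]
  exact (continuousAt_arg (Or.inr h2.ne')).tendsto.comp (cw md li (lc_pc li) hu e h0 hi.ge)

theorem ne_of_im {u : ℂ} (h : 0 < u.im) : u ≠ u₀ := fun e => by
  rw [e] at h; simp at h

theorem top_eq {u : ℂ} (h : u.im = π) : u = u.re + π * I := by
  apply Complex.ext <;> simp [h]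

theorem bot_eq {u : ℂ} (h : u.im = 0) : u = u.re := by
  apply Complex.ext <;> simp [h]

theorem side_tl (md : MD Λ u₀ c True T) (lb : LB Λ u₀ c True T Φ a₁ a₃ b₃ b₂) {ζ : ℂ}
    (h1 : ζ.im = 0) (h2 : -b₃ < ζ.re) (h3 : ζ.re < 0) :
    ∃ u ∈ PC Λ True, Φ u = ζ + (b₃ + a₁ * I) ∧ u ≠ u₀ ∧ (T u).im = 0 ∧ 0 < (T u).re := by
  have h : ζ + (b₃ + a₁ * I) ∈ {ζ : ℂ | ζ.im = a₁ ∧ 0 < ζ.re ∧ ζ.re < b₃} := by
    refine ⟨by simp [h1], ?_, ?_⟩ <;> simp <;> linarith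
  rw [← lb.tl trivial] at h
  obtain ⟨u, ⟨k1, k2, k3⟩, e⟩ := h
  have hc := (md.cm trivial).2.1
  have h4 := md.tl trivial u.re ⟨k2.le, k3⟩
  rw [← top_eq k1] at h4
  exact ⟨u, ⟨k2.le, by linarith, k1 ▸ Real.pi_pos.le, fun _ => k1.le⟩, e,
    ne_of_im (k1 ▸ Real.pi_pos), h4⟩

theorem side_tr (md : MD Λ u₀ c True T) (lb : LB Λ u₀ c True T Φ a₁ a₃ b₃ b₂) {ζ : ℂ}
    (h1 : ζ.re = 0) (h2 : 0 < ζ.im) (h3 : ζ.im < a₃) :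
    ∃ u ∈ PC Λ True, Φ u = ζ + (b₃ + a₁ * I) ∧ u ≠ u₀ ∧ (T u).im = 0 ∧ (T u).re < 0 := by
  have h : ζ + (b₃ + a₁ * I) ∈ {ζ : ℂ | ζ.re = b₃ ∧ a₁ < ζ.im ∧ ζ.im < a₁ + a₃} := by
    refine ⟨by simp [h1], ?_, ?_⟩ <;> simp <;> linarith
  rw [← lb.tr trivial] at h
  obtain ⟨u, ⟨k1, k2, k3⟩, e⟩ := h
  have hc := (md.cm trivial).1
  have h4 := md.tr trivial u.re ⟨k2, k3.le⟩
  rw [← top_eq k1] at h4
  exact ⟨u, ⟨by linarith, k3.le, k1 ▸ Real.pi_pos.le, fun _ => k1.le⟩, e,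
    ne_of_im (k1 ▸ Real.pi_pos), h4⟩

end AsP

open AsP in
theorem z_as (hAS2 : Z_AS2) : Z_AS := by
  intro Λ u₀ c T Φ U a₁ a₃ b₃ b₂ md ph lb li
  obtain ⟨g1, g2, g3, g4⟩ := hAS2 Λ u₀ c T Φ U a₁ a₃ b₃ b₂ _ md ph lb li fun _ => rfl
  have ha3 : 0 < a₃ := lb.fin_iff.1 trivial
  have hb3 : 0 < b₃ := by
    rcases lb.sh.2.2 with h | h
    · exact h.2
    · exact absurd h.1 ha3.ne'
  have hΛ : 0 < Λ := md.u0.trans md.u1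
  refine ⟨lb.sh.1, ha3, hb3, lb.sh.2.1, ?_, ?_, ?_, ?_, ?_, ?_, ?_, ?_, ?_, g1, g2, g3, g4⟩
  · intro ζ hζ
    obtain ⟨u, hu, e⟩ := lc_pp li hζ
    have hU : U (ζ + (b₃ + a₁ * I)) = u := by rw [← e, li.linv u (PP_sub_PC _ _ hu)]
    have h1 : DifferentiableAt ℂ (fun ξ : ℂ => U (ξ + (b₃ + a₁ * I))) ζ :=
      (li.der _ (lo_of_lc hζ)).differentiableAt.comp ζ (differentiableAt_id.add_const _)
    have h2 : DifferentiableAt ℂ T (U (ζ + (b₃ + a₁ * I))) := by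
      rw [hU]
      exact (md.ana u (PP_sub_PC _ _ hu) (ne_of_im hu.2.2.1)).differentiableAt
    have h3 : DifferentiableAt ℂ rt (T (U (ζ + (b₃ + a₁ * I)))) := by
      rw [hU]
      have := md.im u hu
      exact (rt_analytic' this.le fun h => by rw [h] at this; simp at this).differentiableAt
    exact (h3.comp ζ (h2.comp ζ h1)).differentiableWithinAt
  · intro ζ hζ
    obtain ⟨u, hu, e⟩ := lc_pp li hζ
    have hU : U (ζ + (b₃ + a₁ * I)) = u := by rw [← e, li.linv u (PP_sub_PC _ _ hu)]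
    simp only [hU]
    exact rt_quad (md.im u hu)
  · have key : ∀ ζ ∈ Lc a₁ a₃ b₃ b₂ ∪ {ζ | ζ.im = 0 ∧ -b₃ < ζ.re ∧ ζ.re < 0} ∪
        {ζ | ζ.re = 0 ∧ 0 < ζ.im ∧ ζ.im < a₃},
        ∃ u ∈ PC Λ True, Φ u = ζ + (b₃ + a₁ * I) ∧ u ≠ u₀ ∧ 0 ≤ (T u).im := by
      rintro ζ ((hζ | hζ) | hζ)
      · obtain ⟨u, hu, e⟩ := lc_pp li hζ
        exact ⟨u, PP_sub_PC _ _ hu, e, ne_of_im hu.2.2.1, (md.im u hu).le⟩
      · obtain ⟨u, hu, e, h0, h1, -⟩ := side_tl md lb hζ.1 hζ.2.1 hζ.2.2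
        exact ⟨u, hu, e, h0, h1.ge⟩
      · obtain ⟨u, hu, e, h0, h1, -⟩ := side_tr md lb hζ.1 hζ.2.1 hζ.2.2
        exact ⟨u, hu, e, h0, h1.ge⟩
    intro ζ hζ
    obtain ⟨u, hu, e, h0, h1⟩ := key ζ hζ
    have hU : U (ζ + (b₃ + a₁ * I)) = u := by rw [← e, li.linv u hu]
    rw [ContinuousWithinAt, hU]
    refine cw md li (fun ξ hξ => ?_) hu e h0 h1
    obtain ⟨w, hw, e', -⟩ := key ξ hξ
    exact ⟨w, hw, e'⟩
  · intro x hx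
    obtain ⟨u, hu, e, -, h1, h2⟩ := side_tl md lb (ζ := (x : ℂ)) (by simp) (by simpa using hx.1)
      (by simpa using hx.2)
    have hU : U (x + (b₃ + a₁ * I)) = u := by rw [← e, li.linv u hu]
    simp only [hU]
    exact rt_pos h1 h2
  · intro y hy
    obtain ⟨u, hu, e, -, h1, h2⟩ := side_tr md lb (ζ := y * I) (by simp) (by simpa using hy.1)
      (by simpa using hy.2)
    have hU : U (y * I + (b₃ + a₁ * I)) = u := by rw [← e, li.linv u hu]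
    simp only [hU]
    exact rt_neg h1 h2
  · intro y hy
    have h : (-b₃ + y * I : ℂ) + (b₃ + a₁ * I) ∈ {ζ : ℂ | ζ.re = 0 ∧ 0 < ζ.im ∧ ζ.im < a₁} := by
      refine ⟨by simp, ?_, ?_⟩ <;> simp <;> linarith [hy.1, hy.2]
    rw [← lb.lf] at h
    obtain ⟨u, ⟨k1, k2, k3⟩, e⟩ := h
    have hu : u ∈ PC Λ True := ⟨k1.ge, k1 ▸ hΛ.le, k2.le, fun t => (k3 t).le⟩
    obtain ⟨h1, h2⟩ := md.lf u hu k1
    exact arg_zero md li hu e (ne_of_im k2) h1 h2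
  · intro x hx
    have h : (x - a₁ * I : ℂ) + (b₃ + a₁ * I) ∈
        {ζ : ℂ | ζ.im = 0 ∧ 0 < ζ.re ∧ ζ.re < b₃ + b₂} := by
      refine ⟨by simp, ?_, ?_⟩ <;> simp <;> linarith [hx.1, hx.2]
    rw [← lb.bl] at h
    obtain ⟨u, ⟨k1, k2, k3⟩, e⟩ := h
    have hu : u ∈ PC Λ True :=
      ⟨k2.le, by linarith [md.u1], k1.ge, fun _ => k1 ▸ Real.pi_pos.le⟩
    have h1 := md.bl u.re ⟨k2.le, k3⟩
    rw [← bot_eq k1] at h1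
    exact arg_zero md li hu e (fun h => by rw [h] at k3; simp at k3) h1.1 h1.2
  · intro y hy
    have h : (b₂ + y * I : ℂ) + (b₃ + a₁ * I) ∈
        {ζ : ℂ | ζ.re = b₃ + b₂ ∧ 0 < ζ.im ∧ ζ.im < a₁ + a₃} := by
      refine ⟨by simp [add_comm], ?_, ?_⟩ <;> simp <;> linarith [hy.1, hy.2]
    rw [← lb.br] at h
    obtain ⟨u, ⟨k1, k2, k3⟩, e⟩ := h
    have hu : u ∈ PC Λ True :=
      ⟨by linarith [md.u0], k3.le, k1.ge, fun _ => k1 ▸ Real.pi_pos.le⟩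
    have h1 := md.br u.re ⟨k2, k3.le⟩
    rw [← bot_eq k1] at h1
    exact arg_half md li hu e (fun h => by rw [h] at k2; simp at k2) h1.1 h1.2
  · intro x hx
    have h : (x + a₃ * I : ℂ) + (b₃ + a₁ * I) ∈
        {ζ : ℂ | ζ.im = a₁ + a₃ ∧ b₃ < ζ.re ∧ ζ.re < b₃ + b₂} := by
      refine ⟨by simp [add_comm], ?_, ?_⟩ <;> simp <;> linarith [hx.1, hx.2]
    rw [← lb.rg] at h
    obtain ⟨u, ⟨k1, k2, k3⟩, e⟩ := h
    have hu : u ∈ PC Λ True := ⟨k1 ▸ hΛ.le, k1.le, k2.le, fun t => (k3 t).le⟩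
    obtain ⟨h1, h2⟩ := md.rg u hu k1
    exact arg_half md li hu e (ne_of_im k2) h1 h2

end Pool.Agent.P.MP_3bd355_an
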