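import Pool.Agent.P.MP_3bd355_an.Z.Stmts

/-! The case `A = 0`: package AS2. -/

open Set Filter Metric Complex InnerProductSpace MeasureTheory
open scoped Topology ComplexConjugate Real

namespace Pool.Agent.P.MP_3bd355_an

namespace As2P

theorem oneSide {L b D : ℝ} {φ m σ : ℝ → ℝ} (hL : 0 < L) (hb : 0 < b) (hD : 0 < D)
    (hc : ContinuousOn φ (Icc 0 L)) (h0 : φ 0 = 0)
    (hd : ∀ h ∈ Ioo 0 L, HasDerivAt φ (√(m h)) h) (hp : ∀ h ∈ Ioo 0 L, 0 < m h)
    (hm : ContinuousOn m (Icc 0 L)) (hl : Tendsto (fun h => m h / h) (𝓝[>] 0) (𝓝 D))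
    (him : φ '' Ioo 0 L = Ioo 0 b) (hs : ∀ h ∈ Ioo 0 L, σ (φ h) = √(m h)) :
    Tendsto (fun x => σ x ^ 3 / x) (𝓝[>] 0) (𝓝 (3 / 2 * D)) ∧ IntervalIntegrable σ volume 0 b ∧
      ∫ x in (0 : ℝ)..b, σ x = ∫ h in (0 : ℝ)..L, m h := by
  have hmono : StrictMonoOn φ (Icc 0 L) := by
    refine strictMonoOn_of_deriv_pos (convex_Icc _ _) hc fun x hx => ?_
    rw [interior_Icc] at hx
    rw [(hd x hx).deriv]
    exact Real.sqrt_pos.2 (hp x hx)
  have hinj : InjOn φ (Ioo 0 L) := hmono.injOn.mono Ioo_subset_Icc_self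
  have hev : ∀ᶠ h in 𝓝[>] (0 : ℝ), h ∈ Ioo 0 L := Ioo_mem_nhdsGT hL
  have he : ∀ h ∈ Ioo 0 L, |√(m h)| • σ (φ h) = m h := fun h hh => by
    rw [hs h hh, abs_of_nonneg (Real.sqrt_nonneg _), smul_eq_mul, Real.mul_self_sqrt (hp h hh).le]
  refine ⟨?_, ?_, ?_⟩
  · have hsD : 0 < √D := Real.sqrt_pos.2 hD
    have h1 : Tendsto (fun h => √(m h / h)) (𝓝[>] 0) (𝓝 √D) := hl.sqrt
    have h2 : Tendsto (fun h => φ h / (h * √h)) (𝓝[>] 0) (𝓝 (2 / 3 * √D)) := by
      refine HasDerivAt.lhopital_zero_nhdsGT (f' := fun h => √(m h)) (g' := fun h => 3 / 2 * √h)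
        (hev.mono hd) (hev.mono fun h hh => ?_) (hev.mono fun h hh => ?_) ?_ ?_ ?_
      · have hs0 : 0 < √h := Real.sqrt_pos.2 hh.1
        refine ((hasDerivAt_id h).mul (Real.hasDerivAt_sqrt hh.1.ne')).congr_deriv ?_
        have : h = √h * √h := (Real.mul_self_sqrt hh.1.le).symm
        simp only [id]
        field_simp
        nlinarith
      · have hs0 : 0 < √h := Real.sqrt_pos.2 hh.1
        positivity
      · have := (hc 0 ⟨le_rfl, hL.le⟩).tendsto
        rw [h0] at this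
        exact this.mono_left (nhdsWithin_le_iff.2 (mem_of_superset hev Ioo_subset_Icc_self))
      · have : Continuous fun h : ℝ => h * √h := by fun_prop
        exact (this.tendsto' 0 0 (by simp)).mono_left nhdsWithin_le_nhds
      · refine (h1.const_mul (2 / 3)).congr' (hev.mono fun h hh => ?_)
        have hs0 : 0 < √h := Real.sqrt_pos.2 hh.1
        simp only
        rw [Real.sqrt_div (hp h hh).le]
        field_simp
    have h3 : Tendsto (fun h => σ (φ h) ^ 3 / φ h) (𝓝[>] 0) (𝓝 (3 / 2 * D)) := by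
      have h4 := (h1.pow 3).div h2 (by positivity)
      have e : √D ^ 3 / (2 / 3 * √D) = 3 / 2 * D := by
        have : D = √D * √D := (Real.mul_self_sqrt hD.le).symm
        field_simp
        nlinarith
      rw [e] at h4
      refine h4.congr' (hev.mono fun h hh => ?_)
      have hs0 : 0 < √h := Real.sqrt_pos.2 hh.1
      have h5 : 0 < φ h := (him.subset ⟨h, hh, rfl⟩).1
      have h6 : h = √h * √h := (Real.mul_self_sqrt hh.1.le).symm
      simp only [Pi.div_apply]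
      rw [hs h hh, Real.sqrt_div (hp h hh).le]
      field_simp
      rw [sq, ← h6]
    have h4 : 𝓝[>] (0 : ℝ) ≤ map φ (𝓝[>] 0) := by
      intro S hS
      obtain ⟨δ, hδ, hsub⟩ := (mem_nhdsGT_iff_exists_Ioo_subset).1 (inter_mem (mem_map.1 hS) hev)
      have hδ0 : 0 < δ := hδ
      have hδ1 : δ / 2 ∈ Ioo 0 L := (hsub ⟨half_pos hδ0, half_lt_self hδ0⟩).2
      have h5 := him.subset ⟨_, hδ1, rfl⟩
      filter_upwards [Ioo_mem_nhdsGT h5.1] with x hx
      obtain ⟨h, hh, rfl⟩ := him.superset ⟨hx.1, hx.2.trans h5.2⟩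
      have := (hmono.lt_iff_lt (Ioo_subset_Icc_self hh) (Ioo_subset_Icc_self hδ1)).1 hx.2
      exact (hsub ⟨hh.1, by linarith⟩).1
    exact (tendsto_map' h3).mono_left h4
  · rw [intervalIntegrable_iff_integrableOn_Ioo_of_le hb.le, ← him,
      integrableOn_image_iff_integrableOn_abs_deriv_smul measurableSet_Ioo
        (fun x hx => (hd x hx).hasDerivWithinAt) hinj]
    exact ((hm.integrableOn_Icc).mono_set Ioo_subset_Icc_self).congr_fun (fun h hh => (he h hh).symm)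
      measurableSet_Ioo
  · rw [intervalIntegral.integral_of_le hb.le, intervalIntegral.integral_of_le hL.le,
      integral_Ioc_eq_integral_Ioo, integral_Ioc_eq_integral_Ioo, ← him,
      integral_image_eq_integral_abs_deriv_smul measurableSet_Ioo
        (fun x hx => (hd x hx).hasDerivWithinAt) hinj]
    exact setIntegral_congr_fun measurableSet_Ioo he

section
variable {Λ u₀ c : ℝ} {T Φ : ℂ → ℂ}

theorem memPC {t : ℝ} (h0 : 0 ≤ t) (h1 : t ≤ Λ) : (t + π * I : ℂ) ∈ PC Λ True := by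
  refine ⟨by simpa using h0, by simpa using h1, ?_, fun _ => ?_⟩
  · simpa using Real.pi_pos.le
  · simp

theorem anaT (md : MD Λ u₀ c True T) {t : ℝ} (h0 : 0 ≤ t) (h1 : t ≤ Λ) :
    AnalyticAt ℂ T (t + π * I) :=
  md.ana _ (memPC h0 h1) fun e => by simpa using congrArg Complex.im e

theorem contT (md : MD Λ u₀ c True T) : ContinuousOn (fun t : ℝ => T (t + π * I)) (Icc 0 Λ) :=
  fun t ht => (ContinuousAt.comp (f := fun t : ℝ => (t + π * I : ℂ))
    (anaT md ht.1 ht.2).continuousAt (by fun_prop)).continuousWithinAt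

theorem contΦ (ph : PH Λ u₀ c True T Φ) : ContinuousOn (fun t : ℝ => Φ (t + π * I)) (Icc 0 Λ) :=
  ph.cont.comp (by fun_prop) fun t ht => memPC ht.1 ht.2

theorem derΦ (ph : PH Λ u₀ c True T Φ) {t : ℝ} (h0 : 0 < t) (h1 : t < Λ) (hc : t ≠ c) :
    HasDerivAt (fun t : ℝ => Φ (t + π * I)) (rt (T (t + π * I))) t := by
  obtain ⟨Φ', k1, k2⟩ := ph.ext _ (memPC h0.le h1.le) (fun e => by simpa using congrArg Complex.im e)
    fun _ e => hc (by simpa using congrArg Complex.re e)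
  have h2 : HasDerivAt (fun z : ℂ => Φ' (z + π * I)) (rt (T (t + π * I))) t :=
    k1.self_of_nhds.comp_add_const (t : ℂ) (π * I)
  refine h2.comp_ofReal.congr_of_eventuallyEq ?_
  have h3 : Tendsto (fun t : ℝ => (t + π * I : ℂ)) (𝓝 t) (𝓝[PC Λ True] (t + π * I)) := by
    refine tendsto_nhdsWithin_iff.2 ⟨Continuous.tendsto (by fun_prop) t, ?_⟩
    filter_upwards [Ioo_mem_nhds h0 h1] with y hy using memPC hy.1.le hy.2.le
  exact h3.eventually k2

theorem limT (md : MD Λ u₀ c True T) (e : ℝ) (he : |e| = 1) :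
    Tendsto (fun h : ℝ => ‖T ((c + e * h : ℝ) + π * I)‖ / h) (𝓝[>] 0)
      (𝓝 ‖deriv T (c + π * I)‖) := by
  obtain ⟨c0, c1, cz, -⟩ := md.cm trivial
  have h1 : HasDerivAt (fun z : ℂ => T (c + e * z + π * I)) (deriv T (c + π * I) * e) (0 : ℝ) := by
    have h2 : HasDerivAt T (deriv T (c + π * I)) (c + e * ((0 : ℝ) : ℂ) + π * I) := by
      simpa using (anaT md c0.le c1.le).differentiableAt.hasDerivAt
    exact (h2.comp ((0 : ℝ) : ℂ) ((((hasDerivAt_id ((0 : ℝ) : ℂ)).const_mul (e : ℂ)).const_add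
      (c : ℂ)).add_const (π * I))).congr_deriv (by rw [mul_one])
  have h2 := (hasDerivAt_iff_tendsto_slope_zero.1 h1.comp_ofReal).norm
  rw [norm_mul, norm_real, Real.norm_eq_abs, he, mul_one] at h2
  refine (h2.mono_left (nhdsWithin_mono _ fun x hx => ne_of_gt hx)).congr' ?_
  filter_upwards [self_mem_nhdsWithin] with h hh
  have hh' : (0 : ℝ) < h := hh
  simp [cz, abs_of_pos hh', div_eq_inv_mul]

theorem sideL {U s : ℂ → ℂ} {a₁ a₃ b₃ b₂ : ℝ} (md : MD Λ u₀ c True T) (ph : PH Λ u₀ c True T Φ)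
    (lb : LB Λ u₀ c True T Φ a₁ a₃ b₃ b₂) (li : LI Λ True T Φ U a₁ a₃ b₃ b₂)
    (hs : ∀ ζ, s ζ = rt (T (U (ζ + (b₃ + a₁ * I))))) :
    Tendsto (fun x : ℝ => ‖s (-x)‖ ^ 3 / x) (𝓝[>] 0) (𝓝 (3 / 2 * ‖deriv T (c + π * I)‖)) ∧
      IntervalIntegrable (fun x : ℝ => ‖s (-x)‖) volume 0 b₃ ∧
      ∫ x in (0 : ℝ)..b₃, ‖s (-x)‖ = ∫ h in (0 : ℝ)..c, ‖T ((c - h : ℝ) + π * I)‖ := by
  obtain ⟨c0, c1, cz, cd⟩ := md.cm trivial
  have ha₃ : 0 < a₃ := lb.fin_iff.1 trivial
  have hb₃ : 0 < b₃ := lb.sh.2.2.elim (fun h => h.2) fun h => absurd h.1 ha₃.ne'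
  have hD : 0 < ‖deriv T (c + π * I)‖ := norm_pos_iff.2 cd
  have hpc := lb.pc trivial
  refine oneSide (φ := fun h => b₃ - (Φ ((c - h : ℝ) + π * I)).re)
    (σ := fun x => ‖s (-x)‖) c0 hb₃ hD ?_ ?_ ?_ ?_ ?_ ?_ ?_ ?_
  · exact continuousOn_const.sub (continuous_re.comp_continuousOn
      ((contΦ ph).comp (f := fun h => c - h) (by fun_prop)
        fun h hh => ⟨by linarith [hh.2], by linarith [hh.1]⟩))
  · simp [hpc]
  · intro h hh
    obtain ⟨k1, k2⟩ := md.tl trivial (c - h) ⟨by linarith [hh.2], by linarith [hh.1]⟩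
    obtain ⟨k3, k4⟩ := rt_pos k1 k2
    have k5 := (derΦ ph (t := c - h) (by linarith [hh.2]) (by linarith [hh.1])
      (by linarith [hh.1])).comp_const_sub c h
    have k6 := (reCLM.hasFDerivAt.comp_hasDerivAt h k5).const_sub b₃
    refine k6.congr_deriv ?_
    rw [← norm_rt, ← abs_re_eq_norm.2 k3, abs_of_pos k4, reCLM_apply, neg_re, neg_neg]
  · intro h hh
    obtain ⟨k1, k2⟩ := md.tl trivial (c - h) ⟨by linarith [hh.2], by linarith [hh.1]⟩
    exact norm_pos_iff.2 fun e => by rw [e] at k2; simp at k2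
  · exact ((contT md).comp (f := fun h => c - h) (by fun_prop)
      fun h hh => ⟨by linarith [hh.2], by linarith [hh.1]⟩).norm
  · simpa [sub_eq_add_neg] using limT md (-1) (by simp)
  · ext x
    constructor
    · rintro ⟨h, hh, rfl⟩
      obtain ⟨-, k2, k3⟩ := (lb.tl trivial).subset ⟨(c - h : ℝ) + π * I,
        ⟨by simp, by simpa using hh.2, by simpa using hh.1⟩, rfl⟩
      exact ⟨sub_pos.2 k3, by simp only; linarith⟩
    · intro hx
      obtain ⟨u, ⟨k1, k2, k3⟩, k4⟩ := (lb.tl trivial).superset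
        (show ((b₃ - x : ℝ) + a₁ * I : ℂ) ∈ _ from
          ⟨by simp, by simpa using hx.2, by simpa using hx.1⟩)
      refine ⟨c - u.re, ⟨by linarith, by linarith⟩, ?_⟩
      have : ((c - (c - u.re) : ℝ) + π * I : ℂ) = u := by apply Complex.ext <;> simp [k1]
      simp only
      rw [this, k4]
      simp
  · intro h hh
    obtain ⟨k1, -, -⟩ := (lb.tl trivial).subset ⟨(c - h : ℝ) + π * I,
      ⟨by simp, by simpa using hh.2, by simpa using hh.1⟩, rfl⟩
    have e : -((b₃ - (Φ ((c - h : ℝ) + π * I)).re : ℝ) : ℂ) + (b₃ + a₁ * I) =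
        Φ ((c - h : ℝ) + π * I) := by
      apply Complex.ext
      · simp
      · rw [k1]; simp
    rw [hs, e, li.linv _ (memPC (by linarith [hh.2]) (by linarith [hh.1])), norm_rt]

theorem sideR {U s : ℂ → ℂ} {a₁ a₃ b₃ b₂ : ℝ} (md : MD Λ u₀ c True T) (ph : PH Λ u₀ c True T Φ)
    (lb : LB Λ u₀ c True T Φ a₁ a₃ b₃ b₂) (li : LI Λ True T Φ U a₁ a₃ b₃ b₂)
    (hs : ∀ ζ, s ζ = rt (T (U (ζ + (b₃ + a₁ * I))))) :
    Tendsto (fun y : ℝ => ‖s (y * I)‖ ^ 3 / y) (𝓝[>] 0) (𝓝 (3 / 2 * ‖deriv T (c + π * I)‖)) ∧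
      IntervalIntegrable (fun y : ℝ => ‖s (y * I)‖) volume 0 a₃ ∧
      ∫ y in (0 : ℝ)..a₃, ‖s (y * I)‖ = ∫ h in (0 : ℝ)..(Λ - c), ‖T ((c + h : ℝ) + π * I)‖ := by
  obtain ⟨c0, c1, cz, cd⟩ := md.cm trivial
  have ha₃ : 0 < a₃ := lb.fin_iff.1 trivial
  have hb₃ : 0 < b₃ := lb.sh.2.2.elim (fun h => h.2) fun h => absurd h.1 ha₃.ne'
  have hD : 0 < ‖deriv T (c + π * I)‖ := norm_pos_iff.2 cd
  have hpc := lb.pc trivial
  refine oneSide (φ := fun h => (Φ ((c + h : ℝ) + π * I)).im - a₁)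
    (σ := fun y => ‖s (y * I)‖) (sub_pos.2 c1) ha₃ hD ?_ ?_ ?_ ?_ ?_ ?_ ?_ ?_
  · exact (continuous_im.comp_continuousOn ((contΦ ph).comp (f := fun h => c + h) (by fun_prop)
      fun h hh => ⟨by linarith [hh.1], by linarith [hh.2]⟩)).sub continuousOn_const
  · simp [hpc]
  · intro h hh
    obtain ⟨k1, k2⟩ := md.tr trivial (c + h) ⟨by linarith [hh.1], by linarith [hh.2]⟩
    obtain ⟨k3, k4⟩ := rt_neg k1 k2
    have k5 := (derΦ ph (t := c + h) (by linarith [hh.1]) (by linarith [hh.2])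
      (by linarith [hh.1])).comp_const_add c h
    have k6 := (imCLM.hasFDerivAt.comp_hasDerivAt h k5).sub_const a₁
    refine k6.congr_deriv ?_
    rw [← norm_rt, ← abs_im_eq_norm.2 k3, abs_of_pos k4, imCLM_apply]
  · intro h hh
    obtain ⟨k1, k2⟩ := md.tr trivial (c + h) ⟨by linarith [hh.1], by linarith [hh.2]⟩
    exact norm_pos_iff.2 fun e => by rw [e] at k2; simp at k2
  · exact ((contT md).comp (f := fun h => c + h) (by fun_prop)
      fun h hh => ⟨by linarith [hh.1], by linarith [hh.2]⟩).norm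
  · simpa using limT md 1 abs_one
  · ext y
    constructor
    · rintro ⟨h, hh, rfl⟩
      obtain ⟨-, k2, k3⟩ := (lb.tr trivial).subset ⟨(c + h : ℝ) + π * I,
        ⟨by simp, by simpa using hh.1, by simpa using lt_sub_iff_add_lt'.1 hh.2⟩, rfl⟩
      exact ⟨sub_pos.2 k2, by simp only; linarith⟩
    · intro hy
      obtain ⟨u, ⟨k1, k2, k3⟩, k4⟩ := (lb.tr trivial).superset
        (show (b₃ + (a₁ + y : ℝ) * I : ℂ) ∈ _ from
          ⟨by simp, by simpa using hy.1, by simpa using hy.2⟩)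
      refine ⟨u.re - c, ⟨by linarith, by linarith⟩, ?_⟩
      have : ((c + (u.re - c) : ℝ) + π * I : ℂ) = u := by apply Complex.ext <;> simp [k1]
      simp only
      rw [this, k4]
      simp
  · intro h hh
    obtain ⟨k1, -, -⟩ := (lb.tr trivial).subset ⟨(c + h : ℝ) + π * I,
      ⟨by simp, by simpa using hh.1, by simpa using lt_sub_iff_add_lt'.1 hh.2⟩, rfl⟩
    have e : (((Φ ((c + h : ℝ) + π * I)).im - a₁ : ℝ) : ℂ) * I + (b₃ + a₁ * I) =
        Φ ((c + h : ℝ) + π * I) := by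
      apply Complex.ext
      · rw [k1]; simp
      · simp
    rw [hs, e, li.linv _ (memPC (by linarith [hh.1]) (by linarith [hh.2])), norm_rt]

end

end As2P

open As2P in
theorem z_as2 : Z_AS2 := by
  intro Λ u₀ c T Φ U a₁ a₃ b₃ b₂ s md ph lb li hs
  obtain ⟨c0, c1, cz, cd⟩ := md.cm trivial
  have hD : 0 < ‖deriv T (c + π * I)‖ := norm_pos_iff.2 cd
  have hL := sideL md ph lb li hs
  have hR := sideR md ph lb li hs
  refine ⟨⟨_, by positivity, hL.1, hR.1⟩, ?_, hR.2.1, ?_⟩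
  · have := (IntervalIntegrable.iff_comp_neg (f := fun x : ℝ => ‖s (-x)‖)).1 hL.2.1
    simpa using this.symm
  · have e1 : ∫ x in (-b₃)..0, ‖s x‖ = ∫ x in (0 : ℝ)..b₃, ‖s (-x)‖ := by
      have := intervalIntegral.integral_comp_neg (a := 0) (b := b₃) (fun x : ℝ => ‖s x‖)
      simpa using this.symm
    have e2 := intervalIntegral.integral_comp_sub_left (a := 0) (b := c)
      (fun t : ℝ => ‖T (t + π * I)‖) c
    have e3 := intervalIntegral.integral_comp_add_left (a := 0) (b := Λ - c)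
      (fun t : ℝ => ‖T (t + π * I)‖) c
    rw [e1, hL.2.2, hR.2.2, e2, e3, sub_self, sub_zero, add_zero, add_sub_cancel]
    have hre : ContinuousOn (fun t : ℝ => (T (t + π * I)).re) (Icc 0 Λ) :=
      continuous_re.comp_continuousOn (contT md)
    have e4 := intervalIntegral.integral_add_adjacent_intervals (μ := volume)
      ((hre.mono (Icc_subset_Icc_right c1.le)).intervalIntegrable_of_Icc c0.le)
      ((hre.mono (Icc_subset_Icc_left c0.le)).intervalIntegrable_of_Icc c1.le)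
    rw [md.sp trivial] at e4
    have e5 : ∫ t in (0 : ℝ)..c, ‖T (t + π * I)‖ = ∫ t in (0 : ℝ)..c, (T (t + π * I)).re := by
      refine intervalIntegral.integral_congr fun t ht => ?_
      rw [uIcc_of_le c0.le] at ht
      rcases ht.2.lt_or_eq with h | rfl
      · obtain ⟨k1, k2⟩ := md.tl trivial t ⟨ht.1, h⟩
        rw [← abs_re_eq_norm.2 k1, abs_of_pos k2]
      · simp [cz]
    have e6 : ∫ t in c..Λ, ‖T (t + π * I)‖ = ∫ t in c..Λ, -(T (t + π * I)).re := by
      refine intervalIntegral.integral_congr fun t ht => ?_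
      rw [uIcc_of_le c1.le] at ht
      rcases ht.1.lt_or_eq with h | rfl
      · obtain ⟨k1, k2⟩ := md.tr trivial t ⟨h, ht.2⟩
        rw [← abs_re_eq_norm.2 k1, abs_of_neg k2]
      · simp [cz]
    rw [e5, e6, intervalIntegral.integral_neg]
    linarith

end Pool.Agent.P.MP_3bd355_an
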