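import Pool.Agent.P.MP_3bd355_an.Z.Stmts

/-! The case `A = 0`: package CONJ. -/

open Set Filter Metric Complex InnerProductSpace MeasureTheory
open scoped Topology ComplexConjugate Real

namespace Pool.Agent.P.MP_3bd355_an

theorem conj_core {X S : Set ℂ} {v : ℂ → ℝ} {f : ℂ → ℂ} {B : ℝ} (hB : 0 < B) (hX : IsOpen X)
    (h0 : ∀ w ∈ X, w ≠ 0) (hv : HarmonicOnNhd v X) (hU : IsPreconnected (exp ⁻¹' X))
    (hf : ∀ z ∈ exp ⁻¹' X, HasDerivAt f (grad v (exp z) * exp z) z) (hSX : S ⊆ X)
    (hS : S.Nonempty) (hinj : InjOn f (exp ⁻¹' S)) :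
    ∃ (Λ : ℝ) (φ : ℂ → ℂ), 0 < Λ ∧ DifferentiableOn ℂ φ X ∧
      (∀ z ∈ X, ‖φ z‖ = Real.exp (-(Λ * v z / B))) ∧ InjOn φ S := by
  have hUo : IsOpen (exp ⁻¹' X) := hX.preimage continuous_exp
  have hvd : ∀ w ∈ X, DifferentiableAt ℝ v w := fun w hw =>
    (hv w hw).1.differentiableAt (by norm_num)
  -- the real part
  have hre : ∀ z ∈ exp ⁻¹' X, HasFDerivAt (fun y => (f y).re - v (exp y)) (0 : ℂ →L[ℝ] ℝ) z := by
    intro z hz
    have d1 : DifferentiableAt ℝ (fun y => (f y).re) z :=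
      reCLM.differentiableAt.comp z ((hf z hz).differentiableAt.restrictScalars ℝ)
    have d2 : DifferentiableAt ℝ (fun y => v (exp y)) z :=
      (hvd _ hz).comp z (Complex.differentiable_exp (𝕜 := ℝ) z)
    have d3 := (d1.sub d2).hasFDerivAt
    have e : fderiv ℝ ((fun y => (f y).re) - fun y => v (exp y)) z = 0 := by
      ext β
      rw [fderiv_eq_grad]
      have : grad ((fun y => (f y).re) - fun y => v (exp y)) z = 0 := by
        have := grad_sub d1 d2
        rw [grad_re (hf z hz).differentiableAt, grad_comp (hvd _ hz) differentiableAt_exp,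
          (hf z hz).deriv, Complex.deriv_exp, sub_self] at this
        exact this
      rw [this]
      simp
    rw [e] at d3
    exact d3
  obtain ⟨c0, hc0⟩ := hUo.exists_is_const_of_fderiv_eq_zero (𝕜 := ℝ) hU
    (fun z hz => (hre z hz).differentiableAt.differentiableWithinAt)
    (fun z hz => (hre z hz).fderiv)
  -- the period
  have hper : ∀ (Y : Set ℂ) (k : ℤ) (z : ℂ), z ∈ exp ⁻¹' Y → z + k * (2 * π * I) ∈ exp ⁻¹' Y := by
    intro Y k z hz
    rw [mem_preimage, Complex.exp_add, Complex.exp_int_mul_two_pi_mul_I, mul_one]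
    exact hz
  have hper1 : ∀ z ∈ exp ⁻¹' X, z + 2 * π * I ∈ exp ⁻¹' X := fun z hz => by
    simpa using hper X 1 z hz
  have hG : ∀ z ∈ exp ⁻¹' X, HasDerivAt (fun y => f (y + 2 * π * I) - f y) 0 z := by
    intro z hz
    have h1 := ((hf _ (hper1 z hz)).comp_add_const z (2 * π * I)).sub (hf z hz)
    rw [Complex.exp_add, Complex.exp_two_pi_mul_I, mul_one, sub_self] at h1
    exact h1
  obtain ⟨q, hq⟩ := hUo.exists_is_const_of_deriv_eq_zero (𝕜 := ℂ) hU
    (fun z hz => (hG z hz).differentiableAt.differentiableWithinAt)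
    (fun z hz => (hG z hz).deriv)
  have hqk : ∀ (k : ℤ), ∀ z ∈ exp ⁻¹' X, f (z + k * (2 * π * I)) = f z + k * q := by
    intro k
    induction k using Int.induction_on with
    | zero => intro z _; simp
    | succ n ih =>
      intro z hz
      have h1 := hq _ (hper X n z hz)
      have h2 := ih z hz
      have e : z + ((n : ℤ) + 1 : ℤ) * (2 * π * I) = z + (n : ℤ) * (2 * π * I) + 2 * π * I := by
        push_cast; ring
      rw [e]
      push_cast at h1 h2 ⊢
      linear_combination h1 + h2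
    | pred n ih =>
      intro z hz
      have h1 := hq _ (hper X (-(n : ℤ) - 1) z hz)
      have h2 := ih z hz
      have e : z + (-(n : ℤ) - 1 : ℤ) * (2 * π * I) + 2 * π * I
          = z + (-(n : ℤ) : ℤ) * (2 * π * I) := by
        push_cast; ring
      rw [e] at h1
      push_cast at h1 h2 ⊢
      linear_combination h2 - h1
  obtain ⟨w0, hw0⟩ := hS
  have hlog : ∀ (Y : Set ℂ), Y ⊆ X → ∀ w ∈ Y, log w ∈ exp ⁻¹' Y := fun Y hY w hw => by
    rw [mem_preimage, exp_log (h0 w (hY hw))]; exact hw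
  have hz0 := hlog S hSX w0 hw0
  have hz0X : log w0 ∈ exp ⁻¹' X := hSX hz0
  have hqre : q.re = 0 := by
    have h1 := hc0 _ (hper1 _ hz0X)
    have h2 := hc0 _ hz0X
    have h3 := congrArg Complex.re (hq _ hz0X)
    simp only [Complex.exp_add, Complex.exp_two_pi_mul_I, mul_one, sub_re] at h1 h2 h3
    linarith
  have hq0 : q.im ≠ 0 := by
    intro h
    have hq' : q = 0 := Complex.ext hqre h
    have h1 := hqk 1 _ hz0X
    rw [hq', mul_zero, add_zero] at h1
    have h2 := hinj (hper S 1 _ hz0) hz0 h1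
    have h3 : ((1 : ℤ) : ℂ) * (2 * π * I) = 0 := by linear_combination h2
    simp [Real.pi_ne_zero] at h3
  obtain ⟨σ, hσ, hσ2⟩ : ∃ σ : ℤ, (σ : ℝ) * q.im = |q.im| ∧ σ * σ = 1 := by
    rcases le_total 0 q.im with h | h
    · exact ⟨1, by simp [abs_of_nonneg h], by norm_num⟩
    · exact ⟨-1, by simp [abs_of_nonpos h], by norm_num⟩
  have hp : 0 < |q.im| := abs_pos.2 hq0
  set l : ℝ := 2 * π / |q.im| with hl
  have hl0 : 0 < l := div_pos Real.two_pi_pos hp
  have hσc : (σ : ℂ) * σ = 1 := by exact_mod_cast hσ2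
  have hlq : (l : ℂ) * q = σ * (2 * π * I) := by
    have e1 : q = (q.im : ℂ) * I := by
      apply Complex.ext <;> simp [hqre]
    have e2 : (l * |q.im| : ℝ) = 2 * π := by rw [hl]; field_simp
    have e3 : (l : ℂ) * (σ * q.im) = 2 * π := by
      rw [← hσ] at e2
      exact_mod_cast e2
    rw [e1]
    have e4 : ((q.im : ℂ) * I).im = q.im := by simp
    linear_combination (σ * I) * e3 - (l * q.im * I) * hσc
  set E : ℂ → ℂ := fun z => exp (-(l * (f z - c0))) with hE
  have hEk : ∀ (k : ℤ), ∀ z ∈ exp ⁻¹' X, E (z + k * (2 * π * I)) = E z := by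
    intro k z hz
    simp only [hE]
    rw [hqk k z hz]
    have : -((l : ℂ) * (f z + k * q - c0)) = -(l * (f z - c0)) + (-(k * σ) : ℤ) * (2 * π * I) := by
      push_cast
      linear_combination (-k) * hlq
    rw [this, Complex.exp_add, Complex.exp_int_mul_two_pi_mul_I, mul_one]
  have hEl : ∀ z ∈ exp ⁻¹' X, E (log (exp z)) = E z := by
    intro z hz
    obtain ⟨n, hn⟩ := Complex.exp_eq_exp_iff_exists_int.1 (exp_log (exp_ne_zero z))
    rw [hn, hEk n z hz]
  refine ⟨l * B, fun w => E (log w), mul_pos hl0 hB, fun w hw => ?_, fun w hw => ?_,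
    fun w1 h1 w2 h2 e => ?_⟩
  · have hw0 := h0 w hw
    have dL : DifferentiableAt ℂ (fun y => log w + log (y / w)) w := by
      refine (DifferentiableAt.clog (by fun_prop) ?_).const_add _
      rw [div_self hw0]
      exact one_mem_slitPlane
    have dE : DifferentiableAt ℂ E (log w + log (w / w)) := by
      rw [div_self hw0, log_one, add_zero]
      have := (hf _ (hlog X Subset.rfl w hw)).differentiableAt
      simp only [hE]
      fun_prop
    refine ((dE.comp w dL).congr_of_eventuallyEq ?_).differentiableWithinAt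
    filter_upwards [hX.mem_nhds hw] with y hy
    have e1 : exp (log w + log (y / w)) = y := by
      rw [Complex.exp_add, exp_log hw0, exp_log (div_ne_zero (h0 y hy) hw0)]
      field_simp
    have := hEl (log w + log (y / w)) (by rw [mem_preimage, e1]; exact hy)
    rw [e1] at this
    exact this
  · have h1 := hc0 _ (hlog X Subset.rfl w hw)
    simp only [exp_log (h0 w hw)] at h1
    simp only [hE, Complex.norm_exp]
    congr 1
    simp only [neg_re, mul_re, ofReal_re, ofReal_im, sub_re, zero_mul, sub_zero]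
    rw [← h1]
    field_simp
    ring
  · obtain ⟨n, hn⟩ := Complex.exp_eq_exp_iff_exists_int.1 e
    have a1 := hlog S hSX w1 h1
    have a2 := hlog S hSX w2 h2
    have hlc : (l : ℂ) ≠ 0 := by exact_mod_cast hl0.ne'
    have e1 : f (log w1) = f (log w2 + (-(n * σ) : ℤ) * (2 * π * I)) := by
      rw [hqk _ _ (hSX a2)]
      apply mul_left_cancel₀ hlc
      push_cast
      linear_combination -hn + (n * σ) * hlq + (n * (2 * π * I)) * hσc
    have e2 := hinj a1 (hper S _ _ a2) e1
    rw [← exp_log (h0 w1 (hSX h1)), e2, Complex.exp_add, Complex.exp_int_mul_two_pi_mul_I, mul_one,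
      exp_log (h0 w2 (hSX h2))]

theorem z_conj (hPRIM : Z_PRIM) (hCOVR : Z_COVR) (hSTRIP : Z_STRIP) : Z_CONJ := by
  intro r B x₀ z₁ a b c κ v g zc ba nh
  obtain ⟨ε, hε, hs⟩ := hSTRIP r B x₀ z₁ a b c κ v g zc ba nh
  have r0 := zc.ch.r0
  have hSX : {z : ℂ | r < ‖z‖ ∧ ‖z‖ < r + ε} ⊆ XX r κ := fun z hz => (hs z hz.1 hz.2).1
  have hpre : IsPreconnected (XX r κ) := by
    rw [← ba.main_eq]
    exact isPreconnected_connectedComponentIn
  obtain ⟨hUo, hU, hNC⟩ := hCOVR r ε κ r0 hε zc.crit.cont nh (zc.crit.end_zero rfl).1 hpre hSX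
  have hX : IsOpen (XX r κ) := by
    refine IsOpen.sdiff ?_ (isCompact_Icc.image_of_continuousOn zc.crit.cont).isClosed
    exact (isOpen_lt continuous_const continuous_norm).inter
      (isOpen_lt continuous_norm continuous_const)
  have h0 : ∀ w ∈ XX r κ, w ≠ 0 := fun w hw e => by
    have := hw.1.1
    rw [e, norm_zero] at this
    exact absurd r0 (not_lt.2 this.le)
  have hne : exp ⁻¹' XX r κ ≠ univ := fun e => by
    have : (0 : ℂ) ∈ exp ⁻¹' XX r κ := e ▸ mem_univ _
    have h1 := this.1.2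
    simp at h1
  obtain ⟨f, hf⟩ := hPRIM _ (fun z => grad v (exp z) * exp z) hUo hU hNC hne fun z hz =>
    (((grad_analytic (zc.crit.v_harm _ hz)).differentiableAt.comp z
      (Complex.differentiable_exp z)).mul (Complex.differentiable_exp z)).differentiableWithinAt
  have hstr : exp ⁻¹' {z : ℂ | r < ‖z‖ ∧ ‖z‖ < r + ε} =
      {z : ℂ | Real.log r < z.re} ∩ {z : ℂ | z.re < Real.log (r + ε)} := by
    ext z
    simp only [mem_preimage, mem_ofPred_eq, Complex.norm_exp, mem_inter_iff]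
    rw [Real.log_lt_iff_lt_exp r0, Real.lt_log_iff_exp_lt (by linarith)]
  have hinj : InjOn f (exp ⁻¹' {z : ℂ | r < ‖z‖ ∧ ‖z‖ < r + ε}) := by
    refine noshiro (ω := -1) (f' := fun z => grad v (exp z) * exp z) ?_
      (fun z hz => hf z (hSX hz)) fun z hz => ?_
    · rw [hstr]
      exact (convex_halfSpace_re_gt _).inter (convex_halfSpace_re_lt _)
    · have := (hs _ hz.1 hz.2).2
      rw [neg_one_mul, neg_re, mul_comm]
      linarith
  have hS : {z : ℂ | r < ‖z‖ ∧ ‖z‖ < r + ε}.Nonempty := by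
    refine ⟨((r + ε / 2 : ℝ) : ℂ), ?_⟩
    rw [mem_ofPred_eq, Complex.norm_real, Real.norm_eq_abs, abs_of_pos (by linarith)]
    constructor <;> linarith
  obtain ⟨Λ, φ, h1, h2, h3, h4⟩ := conj_core zc.ch.B0 hX h0 zc.crit.v_harm hU hf hSX hS hinj
  exact ⟨Λ, ε, φ, h1, hε, h2, h3, hSX, h4⟩

end Pool.Agent.P.MP_3bd355_an
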