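import Pool.Agent.P.MP_3bd355_an.Z.Stmts

/-! The case `A = 0`: package COV. -/

open Set Filter Metric Complex InnerProductSpace MeasureTheory
open scoped Topology ComplexConjugate Real

namespace Pool.Agent.P.MP_3bd355_an

namespace CovP

theorem det_hol (a : ℂ) :
    ((ContinuousLinearMap.toSpanSingleton ℂ a).restrictScalars ℝ : ℂ →L[ℝ] ℂ).det = ‖a‖ ^ 2 := by
  rw [ContinuousLinearMap.det, ← LinearMap.det_toMatrix Complex.basisOneI, Matrix.det_fin_two,
    ← Complex.normSq_eq_norm_sq]
  simp [LinearMap.toMatrix_apply, Complex.normSq_apply]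

end CovP

theorem z_cov : Z_COV := by
  intro U f h hU hd hi
  rw [lintegral_image_eq_lintegral_abs_det_fderiv_mul volume hU.measurableSet
    (fun z hz => ((hd.differentiableAt (hU.mem_nhds hz)).hasDerivAt.hasFDerivAt.restrictScalars
      ℝ).hasFDerivWithinAt) hi h]
  simp only [CovP.det_hol, abs_pow, abs_norm]

end Pool.Agent.P.MP_3bd355_an
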