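import Pool.Agent.P.MP_3bd355_an.Z.Stmts

/-! The case `A = 0`: package COVR. -/

open Set Filter Metric Complex InnerProductSpace MeasureTheory
open scoped Topology ComplexConjugate Real

namespace Pool.Agent.P.MP_3bd355_an

namespace CovrP

theorem unb {C : Set ℂ} (p : ℂ) (h : ∀ t : ℝ, p + t * I ∈ C) : ¬ Bornology.IsBounded C := by
  intro hb
  obtain ⟨M, hM⟩ := hb.exists_norm_le
  have h1 := (abs_im_le_norm _).trans (hM _ (h (|M| + 1 - p.im)))
  simp only [add_im, mul_im, ofReal_re, I_im, mul_one, ofReal_im, I_re, mul_zero, add_zero] at h1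
  linarith [le_abs_self (p.im + (|M| + 1 - p.im)), le_abs_self M]

theorem lift {κ : ℝ → ℂ} (hκ : ContinuousOn κ (Icc 0 1)) (h0 : ∀ t ∈ Icc (0 : ℝ) 1, κ t ≠ 0) :
    ∃ Γ : unitInterval → ℂ, Continuous Γ ∧ ∀ t, exp (Γ t) = κ t := by
  have hF : Continuous fun t : unitInterval => κ t :=
    hκ.comp_continuous continuous_subtype_val fun t => t.2
  obtain ⟨Γ, h1, -⟩ := isCoveringMap_exp.exists_path_lifts
    (⟨fun t => ⟨κ t, h0 _ t.2⟩, hF.subtype_mk _⟩ : C(unitInterval, {z : ℂ // z ≠ 0}))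
    (log (κ 0)) (Subtype.ext (exp_log (h0 0 ⟨le_rfl, zero_le_one⟩)).symm)
  exact ⟨Γ, Γ.continuous, fun t => congrArg Subtype.val (congrFun h1 t)⟩

theorem pre {X S : Set ℂ} (hX : IsOpen X) (hp : IsPreconnected X) (h0 : ∀ y ∈ X, y ≠ 0)
    (hS : IsPreconnected S)
    (hSX : S ⊆ exp ⁻¹' X) {s : ℂ} (hs : ∀ n : ℤ, s + n * (2 * π * I) ∈ S) :
    IsPreconnected (exp ⁻¹' X) := by
  have hO : IsOpen (exp ⁻¹' X) := hX.preimage continuous_exp
  have hs0 : s ∈ S := by simpa using hs 0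
  set U := connectedComponentIn (exp ⁻¹' X) s with hU
  have hSU : S ⊆ U := hS.subset_connectedComponentIn hs0 hSX
  have hUX : U ⊆ exp ⁻¹' X := connectedComponentIn_subset _ _
  have hinv : ∀ z ∈ U, ∀ n : ℤ, z + n * (2 * π * I) ∈ U := fun z hz n => by
    have h1 : IsPreconnected ((fun y => y + n * (2 * π * I)) '' U) :=
      isPreconnected_connectedComponentIn.image _ (by fun_prop)
    have h2 := h1.subset_connectedComponentIn (F := exp ⁻¹' X) ⟨s, hSU hs0, rfl⟩ (by
      rintro _ ⟨y, hy, rfl⟩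
      have := hUX hy
      rwa [mem_preimage, exp_add, exp_int_mul_two_pi_mul_I, mul_one])
    rw [hU, connectedComponentIn_eq (hSU (hs n))]
    exact h2 ⟨z, hz, rfl⟩
  have hW : IsOpen (exp ⁻¹' X \ U) := by
    rw [isOpen_iff_forall_mem_open]
    intro z hz
    refine ⟨connectedComponentIn (exp ⁻¹' X) z, fun y hy =>
      ⟨connectedComponentIn_subset _ _ hy, fun h => hz.2 ?_⟩, hO.connectedComponentIn,
      mem_connectedComponentIn hz.1⟩
    rw [hU, connectedComponentIn_eq h, ← connectedComponentIn_eq hy]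
    exact mem_connectedComponentIn hz.1
  have e : exp ⁻¹' X = U := by
    refine Subset.antisymm (fun z hz => ?_) hUX
    by_contra hc
    obtain ⟨_, -, ⟨a, ha, rfl⟩, b, hb, e⟩ := hp _ _ (isOpenMap_exp _ hO.connectedComponentIn)
      (isOpenMap_exp _ hW) (fun y hy => by
        by_cases h1 : log y ∈ U
        · exact Or.inl ⟨_, h1, exp_log (h0 y hy)⟩
        · exact Or.inr ⟨_, ⟨by rwa [mem_preimage, exp_log (h0 y hy)], h1⟩, exp_log (h0 y hy)⟩)
      ⟨_, hSX hs0, s, hSU hs0, rfl⟩ ⟨_, hz, z, ⟨hz, hc⟩, rfl⟩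
    obtain ⟨n, rfl⟩ := exp_eq_exp_iff_exists_int.1 e
    exact hb.2 (hinv a ha n)
  rw [e]
  exact isPreconnected_connectedComponentIn

end CovrP

open CovrP in
theorem z_covr : Z_COVR := by
  intro r ε κ hr hε hκ h1 h2 hp hS
  have hX : IsOpen (XX r κ) :=
    (isOpen_ann r).sdiff (isCompact_Icc.image_of_continuousOn hκ).isClosed
  have hR : Disjoint {z : ℂ | 0 ≤ z.re} (exp ⁻¹' XX r κ) := disjoint_left.2 fun z hz h => by
    have := h.1.2
    rw [norm_exp] at this
    exact absurd (Real.one_le_exp hz) (not_le.2 this)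
  refine ⟨hX.preimage continuous_exp, pre hX hp (fun y hy e => ?_)
    (S := {z : ℂ | Real.log r < z.re} ∩ {z : ℂ | z.re < Real.log (r + ε)})
    ((convex_halfSpace_re_gt _).inter (convex_halfSpace_re_lt _)).isPreconnected
    (fun z hz => hS ⟨?_, ?_⟩) (s := (Real.log (r + ε / 2) : ℝ)) fun n => ?_,
    NC_of_unb fun p hp => ?_⟩
  · have := hy.1.1
    rw [e, norm_zero] at this
    linarith
  · rw [norm_exp]
    exact (Real.log_lt_iff_lt_exp hr).1 hz.1
  · rw [norm_exp]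
    exact (Real.lt_log_iff_exp_lt (by linarith)).1 hz.2
  · have e : (((Real.log (r + ε / 2) : ℝ) : ℂ) + n * (2 * π * I)).re = Real.log (r + ε / 2) := by
      simp
    constructor
    · rw [mem_ofPred_eq, e]
      exact Real.log_lt_log hr (by linarith)
    · rw [mem_ofPred_eq, e]
      exact Real.log_lt_log (by linarith) (by linarith)
  by_cases a1 : p.re ≤ Real.log r
  · refine ⟨{z : ℂ | z.re ≤ Real.log r}, (convex_halfSpace_re_le _).isPreconnected, a1,
      disjoint_left.2 fun z hz h => ?_, unb p fun t => by simpa using a1⟩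
    have := h.1.1
    rw [norm_exp] at this
    exact absurd ((Real.log_lt_iff_lt_exp hr).2 this) (not_lt.2 hz)
  by_cases a2 : 0 ≤ p.re
  · exact ⟨_, (convex_halfSpace_re_ge _).isPreconnected, a2, hR, unb p fun t => by simpa using a2⟩
  have a3 : exp p ∈ κ '' Icc 0 1 := by
    by_contra hc
    refine hp ⟨⟨?_, ?_⟩, hc⟩
    · rw [norm_exp]
      exact (Real.log_lt_iff_lt_exp hr).1 (not_le.1 a1)
    · rw [norm_exp]
      exact Real.exp_lt_one_iff.2 (not_le.1 a2)
  obtain ⟨t, ht, e⟩ := a3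
  obtain ⟨Γ, g1, g2⟩ := lift hκ fun t ht e => by
    have := h1 t ht
    rw [e, norm_zero] at this
    linarith
  obtain ⟨n, hn⟩ := exp_eq_exp_iff_exists_int.1 (e.symm.trans (g2 ⟨t, ht⟩).symm)
  refine ⟨range (fun s => Γ s + n * (2 * π * I)) ∪ {z : ℂ | 0 ≤ z.re},
    IsPreconnected.union (Γ 1 + n * (2 * π * I)) ⟨1, rfl⟩ ?_ (isPreconnected_range (by fun_prop))
      (convex_halfSpace_re_ge _).isPreconnected, Or.inl ⟨_, hn.symm⟩,
    disjoint_union_left.2 ⟨disjoint_left.2 ?_, hR⟩, unb 0 fun t => Or.inr (by simp)⟩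
  · have := congrArg norm (g2 1)
    rw [norm_exp, Icc.coe_one, h2, Real.exp_eq_one_iff] at this
    simp [this]
  · rintro _ ⟨s, rfl⟩ h
    refine h.2 ⟨s, s.2, ?_⟩
    rw [exp_add, exp_int_mul_two_pi_mul_I, mul_one, g2]

end Pool.Agent.P.MP_3bd355_an
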