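import Pool.Agent.P.MP_3bd355_an.Z.Stmts

/-! The case `A = 0`: package DEG. -/

open Set Filter Metric Complex InnerProductSpace MeasureTheory
open scoped Topology ComplexConjugate Real

namespace Pool.Agent.P.MP_3bd355_an

namespace DegP

/-- At a critical point nearby values are taken twice. -/
theorem twice {φ : ℂ → ℂ} {x : ℂ} (ha : AnalyticAt ℂ φ x) (hn : ¬ ∀ᶠ z in 𝓝 x, φ z = φ x)
    (h0 : deriv φ x = 0) {V : Set ℂ} (hV : V ∈ 𝓝 x) :
    ∀ᶠ y in 𝓝[≠] (φ x), ∃ a ∈ V, ∃ b ∈ V, a ≠ b ∧ φ a = y ∧ φ b = y := by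
  have h1 : AnalyticAt ℂ (fun z => φ z - φ x) x := ha.sub analyticAt_const
  obtain ⟨n, g, hg, hg0, he⟩ := h1.exists_eventuallyEq_pow_smul_nonzero_iff.2
    (fun h => hn (h.mono fun z hz => sub_eq_zero.1 hz))
  have n0 : n ≠ 0 := by
    rintro rfl
    exact hg0 (by simpa using he.self_of_nhds.symm)
  have n1 : n ≠ 1 := by
    rintro rfl
    have h2 : HasDerivAt (fun z => (z - x) ^ 1 • g z + φ x) (g x) x := by
      have h3 := (((hasDerivAt_id x).sub_const x).mul hg.differentiableAt.hasDerivAt).add_const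
        (φ x)
      simp only [id, sub_self, zero_mul, add_zero, one_mul] at h3
      refine h3.congr_of_eventuallyEq (Eventually.of_forall fun z => ?_)
      simp
    have h4 : HasDerivAt φ (g x) x :=
      h2.congr_of_eventuallyEq (he.mono fun z hz => sub_eq_iff_eq_add.1 hz)
    exact hg0 (h4.deriv.symm.trans h0)
  have nc : (n : ℂ) ≠ 0 := Nat.cast_ne_zero.2 n0
  obtain ⟨c, hc⟩ := IsAlgClosed.exists_pow_nat_eq (g x) (Nat.pos_of_ne_zero n0)
  set χ : ℂ → ℂ := fun z => (z - x) * (c * exp (log (g z / g x) / n)) with hχ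
  have hL : AnalyticAt ℂ (fun z => log (g z / g x)) x :=
    (hg.div analyticAt_const hg0).clog (by simp [hg0])
  have hχa : AnalyticAt ℂ χ x :=
    (analyticAt_id.sub analyticAt_const).mul (analyticAt_const.mul
      (hL.div analyticAt_const nc).cexp)
  have hχ0 : χ x = 0 := by simp [hχ]
  have hp : ∀ᶠ z in 𝓝 x, φ z = φ x + χ z ^ n := by
    filter_upwards [he, hg.continuousAt.eventually_ne hg0] with z hz hz0
    rw [hχ]
    simp only
    rw [mul_pow, mul_pow, hc, ← exp_nat_mul, mul_div_cancel₀ _ nc, exp_log (div_ne_zero hz0 hg0),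
      mul_div_cancel₀ _ hg0, ← smul_eq_mul, ← hz]
    ring
  have ho : 𝓝 (χ x) ≤ map χ (𝓝 x) := hχa.eventually_constant_or_nhds_le_map_nhds.resolve_left
    fun h => hn (by
      filter_upwards [h, hp] with z e1 e2
      rw [e2, e1, hχ0, zero_pow n0, add_zero])
  obtain ⟨ε, hε, hb⟩ := Metric.mem_nhds_iff.1 (ho (image_mem_map (inter_mem hV hp)))
  rw [hχ0] at hb
  have hω := Complex.isPrimitiveRoot_exp n n0
  set ω := exp (2 * π * I / n)
  have hω1 : ω ≠ 1 := hω.ne_one (by omega)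
  have hωn : ‖ω‖ = 1 := hω.norm'_eq_one n0
  filter_upwards [self_mem_nhdsWithin, mem_nhdsWithin_of_mem_nhds
    (ball_mem_nhds (φ x) (pow_pos hε n))] with y hy hy'
  obtain ⟨w, hw⟩ := IsAlgClosed.exists_pow_nat_eq (y - φ x) (Nat.pos_of_ne_zero n0)
  have hw0 : w ≠ 0 := by
    rintro rfl
    exact hy (sub_eq_zero.1 (by rw [← hw, zero_pow n0]))
  have hwε : ‖w‖ < ε := by
    refine lt_of_pow_lt_pow_left₀ n hε.le ?_
    rw [← norm_pow, hw]
    exact mem_ball_iff_norm.1 hy'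
  obtain ⟨a, ⟨a1, a2⟩, a3⟩ := hb (mem_ball_zero_iff.2 hwε)
  obtain ⟨b, ⟨b1, b2⟩, b3⟩ := hb (show ω * w ∈ ball 0 ε from
    mem_ball_zero_iff.2 (by rwa [norm_mul, hωn, one_mul]))
  refine ⟨a, a1, b, b1, fun e => hω1 (mul_right_cancel₀ hw0 ?_), ?_, ?_⟩
  · rw [← b3, ← e, a3, one_mul]
  · rw [show φ a = _ from a2, a3, hw]; ring
  · rw [show φ b = _ from b2, b3, mul_pow, hω.pow_eq_one, hw]; ring

/-- Fibres of a proper map move semicontinuously. -/
theorem fib {X Y : Set ℂ} {φ : ℂ → ℂ} (hY : IsOpen Y) (hc : ContinuousOn φ X)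
    (hp : ∀ C : Set ℂ, IsCompact C → C ⊆ Y → IsCompact (X ∩ φ ⁻¹' C)) {y : ℂ} (hy : y ∈ Y)
    {O : Set ℂ} (hO : IsOpen O) (h : ∀ x ∈ X, φ x = y → x ∈ O) :
    ∀ᶠ y' in 𝓝 y, ∀ x ∈ X, φ x = y' → x ∈ O := by
  obtain ⟨C, hC, hCY, hCc⟩ := local_compact_nhds (hY.mem_nhds hy)
  have h1 : IsCompact (φ '' ((X ∩ φ ⁻¹' C) \ O)) :=
    ((hp C hCc hCY).diff hO).image_of_continuousOn (hc.mono fun x hx => hx.1.1)
  have h2 : y ∉ φ '' ((X ∩ φ ⁻¹' C) \ O) := by
    rintro ⟨x, hx, e⟩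
    exact hx.2 (h x hx.1.1 e)
  filter_upwards [hC, h1.isClosed.isOpen_compl.mem_nhds h2] with y' a b x hx e
  by_contra hn
  exact b ⟨x, ⟨⟨hx, by rw [mem_preimage, e]; exact a⟩, hn⟩, e⟩

end DegP

theorem z_deg : Z_DEG := by
  intro X Y N φ z hX hXc hY hYc hd hm hp hN hNX hi hz hf
  have ha : AnalyticOnNhd ℂ φ X := hd.analyticOnNhd hX
  have hn : ∀ x ∈ X, ¬ ∀ᶠ w in 𝓝 x, φ w = φ x := fun x hx h => by
    have h1 : EqOn φ (fun _ => φ x) X :=
      ha.eqOn_of_preconnected_of_eventuallyEq analyticOnNhd_const hXc hx h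
    have h2 : ∀ᶠ w in 𝓝[≠] z, w ∈ N := mem_nhdsWithin_of_mem_nhds (hN.mem_nhds hz)
    obtain ⟨w, hw, hw'⟩ := (h2.and self_mem_nhdsWithin).exists
    exact hw' (hi hw hz ((h1 (hNX hw)).trans (h1 (hNX hz)).symm))
  have ho : ∀ x ∈ X, 𝓝 (φ x) ≤ map φ (𝓝 x) := fun x hx =>
    (ha x hx).eventually_constant_or_nhds_le_map_nhds.resolve_left (hn x hx)
  set A : Set ℂ := {y | ∃ x ∈ X, φ x = y ∧ deriv φ x ≠ 0 ∧ ∀ x' ∈ X, φ x' = y → x' = x} with hA
  have hAo : IsOpen A := by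
    refine isOpen_iff_mem_nhds.2 ?_
    rintro _ ⟨x, hx, rfl, h0, hu⟩
    have hs : HasStrictDerivAt φ (deriv φ x) x := (ha x hx).hasStrictDerivAt
    have h1 := hs.eventually_left_inverse h0
    have h2 : ∀ᶠ w in 𝓝 x, deriv φ w ≠ 0 := (ha x hx).deriv.continuousAt.eventually_ne h0
    obtain ⟨O, hO, hOo, hxO⟩ := _root_.mem_nhds_iff.1 (h1.and (h2.and (hX.mem_nhds hx)))
    filter_upwards [DegP.fib hY hd.continuousOn hp (hm hx) hOo
      (fun x' hx' e => by rw [hu x' hx' e]; exact hxO),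
      ho x hx (image_mem_map (hOo.mem_nhds hxO))] with y h3 h4
    obtain ⟨w, hw, rfl⟩ := h4
    refine ⟨w, (hO hw).2.2, rfl, (hO hw).2.1, fun x' hx' e => ?_⟩
    rw [← (hO (h3 x' hx' e)).1, e, (hO hw).1]
  have htwo : ∀ y, (∃ a ∈ X, ∃ b ∈ X, a ≠ b ∧ φ a = y ∧ φ b = y) → y ∉ A := by
    rintro y ⟨a, a1, b, b1, hab, a2, b2⟩ ⟨x, -, -, -, hu⟩
    exact hab ((hu a a1 a2).trans (hu b b1 b2).symm)
  have hB : ∀ y ∈ Y, y ∉ A → y ∈ interior Aᶜ := fun y hy hyA => by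
    rw [mem_interior_iff_mem_nhds]
    by_cases h1 : ∃ x ∈ X, φ x = y
    · obtain ⟨x, hx, rfl⟩ := h1
      by_cases h0 : deriv φ x = 0
      · have h2 := DegP.twice (ha x hx) (hn x hx) h0 (hX.mem_nhds hx)
        filter_upwards [eventually_nhdsWithin_iff.1 h2] with y hy
        by_cases e : y = φ x
        · rw [e]; exact hyA
        · exact htwo y (hy e)
      · have h2 : ∃ x' ∈ X, φ x' = φ x ∧ x' ≠ x := by
          by_contra h3
          push Not at h3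
          exact hyA ⟨x, hx, rfl, h0, h3⟩
        obtain ⟨x', hx', e, hne⟩ := h2
        obtain ⟨U, V, hU, hV, hxU, hxV, hUV⟩ := t2_separation hne
        filter_upwards [ho x hx (image_mem_map (inter_mem (hV.mem_nhds hxV) (hX.mem_nhds hx))),
          e ▸ ho x' hx' (image_mem_map (inter_mem (hU.mem_nhds hxU) (hX.mem_nhds hx')))]
          with y h3 h4
        obtain ⟨a, a1, a2⟩ := h3
        obtain ⟨b, b1, b2⟩ := h4
        refine htwo y ⟨a, a1.2, b, b1.2, fun e => ?_, a2, b2⟩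
        exact disjoint_left.1 hUV b1.1 (e ▸ a1.1)
    · filter_upwards [DegP.fib hY hd.continuousOn hp hy isOpen_empty
        (fun x hx e => (h1 ⟨x, hx, e⟩).elim)] with y' h2
      rintro ⟨x, hx, e, -⟩
      exact h2 x hx e
  have hzA : φ z ∈ A := by
    refine ⟨z, hNX hz, rfl, fun h0 => ?_, fun x hx e => hi (hf x hx e) hz e⟩
    obtain ⟨y, a, a1, b, b1, hab, a2, b2⟩ :=
      (DegP.twice (ha z (hNX hz)) (hn z (hNX hz)) h0 (hN.mem_nhds hz)).exists
    exact hab (hi a1 b1 (a2.trans b2.symm))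
  have hYA : Y ⊆ A := hYc.subset_left_of_subset_union hAo isOpen_interior
    (disjoint_compl_right.mono_right interior_subset)
    (fun y hy => (em (y ∈ A)).imp id (hB y hy)) ⟨φ z, hm (hNX hz), hzA⟩
  refine ⟨⟨hm, fun a a1 b b1 e => ?_, fun y hy => ?_⟩, fun y hy => ?_⟩
  · by_contra hab
    exact htwo _ ⟨a, a1, b, b1, hab, rfl, e.symm⟩ (hYA (hm a1))
  · obtain ⟨x, hx, e, -⟩ := hYA hy
    exact ⟨x, hx, e⟩
  · obtain ⟨x, -, -, h0, hu⟩ := hYA (hm hy)
    rwa [hu y hy rfl]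

end Pool.Agent.P.MP_3bd355_an
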