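import Pool.Agent.P.MP_3bd355_an.Z.Stmts

/-! The case `A = 0`: package DEV1. -/

open Set Filter Metric Complex InnerProductSpace MeasureTheory
open scoped Topology ComplexConjugate Real

namespace Pool.Agent.P.MP_3bd355_an

namespace Dev1P

theorem two_sides {r : ℝ} (h0 : 0 < r) {p : ℂ} (hp : ‖p‖ = r) {O : Set ℂ} (hO : O ∈ 𝓝 p) :
    ∃ V ∈ 𝓝 p, V ⊆ O ∧ IsPreconnected (V ∩ {z | ‖z‖ < r}) ∧
      IsPreconnected (V ∩ {z | r < ‖z‖}) := by
  have hp0 : p ≠ 0 := norm_pos_iff.1 (hp ▸ h0)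
  have he : exp (log p) = p := exp_log hp0
  have hO' : exp ⁻¹' O ∈ 𝓝 (log p) := continuous_exp.continuousAt.preimage_mem_nhds (by rwa [he])
  obtain ⟨δ, hδ, hb⟩ := Metric.mem_nhds_iff.1 hO'
  have e1 : exp ⁻¹' {z : ℂ | ‖z‖ < r} = {w : ℂ | w.re < Real.log r} := by
    ext w
    simp only [mem_preimage, mem_ofPred_eq, norm_exp, Real.lt_log_iff_exp_lt h0]
  have e2 : exp ⁻¹' {z : ℂ | r < ‖z‖} = {w : ℂ | Real.log r < w.re} := by
    ext w
    simp only [mem_preimage, mem_ofPred_eq, norm_exp, Real.log_lt_iff_lt_exp h0]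
  refine ⟨exp '' ball (log p) δ, (isOpenMap_exp _ isOpen_ball).mem_nhds
    ⟨log p, mem_ball_self hδ, he⟩, image_subset_iff.2 hb, ?_, ?_⟩
  · rw [← image_inter_preimage, e1]
    exact ((convex_ball _ _).inter (convex_halfSpace_re_lt _)).isPreconnected.image _
      continuous_exp.continuousOn
  · rw [← image_inter_preimage, e2]
    exact ((convex_ball _ _).inter (convex_halfSpace_re_gt _)).isPreconnected.image _
      continuous_exp.continuousOn

open Classical in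
/-- The distance function unfolded across the ridge. -/
noncomputable def tht (r x₀ : ℝ) (f : Fl) (z : ℂ) : ℝ :=
  if z ∈ XX r f.κ then f.b₃ + f.b₂ - (f.N z / S0 x₀ z).re else 0

variable {r x₀ : ℝ} {z₁ : ℂ} {f : Fl}

theorem notX {κ : ℝ → ℂ} {z : ℂ} (hz : z ∈ ann r) (h : z ∉ XX r κ) : z ∈ KK κ := by
  by_contra hk
  exact h ⟨hz, hk⟩

theorem th_val (h : FL r x₀ z₁ f) {z : ℂ} (hz : z ∈ ann r) :
    tht r x₀ f z = f.x z ∨ tht r x₀ f z = 2 * (f.b₃ + f.b₂) - f.x z := by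
  rw [tht]
  split_ifs with hX
  · rcases eq_or_ne z x₀ with rfl | hne
    · obtain ⟨σ, -, -, k1, k2, -⟩ := h.fy.sig
      left
      rw [k2 _ k1]
      simp [S0]
    · have h0 : S0 x₀ z ^ 2 ≠ 0 := by
        rw [S0_sq hne]
        exact mul_ne_zero (norm_pos_iff.1 (h.ka.r0.trans hz.1)) (sub_ne_zero.2 hne)
      have e : (f.N z / S0 x₀ z) ^ 2 = ((f.b₃ + f.b₂ - f.x z : ℝ) : ℂ) ^ 2 := by
        rw [div_pow, h.fn.sq z hX, ← S0_sq hne, mul_div_cancel_right₀ _ h0]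
      rcases sq_eq_sq_iff_eq_or_eq_neg.1 e with e | e
      · left; rw [e, ofReal_re]; ring
      · right; rw [e, neg_re, ofReal_re]; ring
  · exact Or.inl (h.fx.zero z (notX hz hX)).symm

theorem th_rng (h : FL r x₀ z₁ f) {z : ℂ} (hz : z ∈ ann r) :
    0 ≤ tht r x₀ f z ∧ tht r x₀ f z ≤ 2 * (f.b₃ + f.b₂) := by
  have := h.fx.rng z
  rcases th_val h hz with e | e <;> rw [e] <;> constructor <;> linarith [this.1, this.2]

theorem th_near (h : FL r x₀ z₁ f) :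
    ∃ δ > 0, ∀ z ∈ ann r, f.x z < δ → tht r x₀ f z = f.x z := by
  obtain ⟨δ, hδ, hn⟩ := h.fn.near
  refine ⟨δ, hδ, fun z hz hx => ?_⟩
  rw [tht]
  split_ifs with hX
  · rw [(hn z hX hx).2, mul_div_cancel_right₀ _ (S0_ne (hn z hX hx).1), ofReal_re]; ring
  · exact (h.fx.zero z (notX hz hX)).symm

theorem th_zero (h : FL r x₀ z₁ f) {l : Filter ℂ} (hl : ∀ᶠ z in l, z ∈ ann r)
    (hx : Tendsto f.x l (𝓝 0)) : Tendsto (tht r x₀ f) l (𝓝 0) := by
  obtain ⟨δ, hδ, hn⟩ := th_near h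
  refine hx.congr' ?_
  filter_upwards [hl, hx.eventually (gt_mem_nhds hδ)] with z k1 k2
  exact (hn z k1 k2).symm

theorem H_cont (h : FL r x₀ z₁ f) {l : ℂ → ℂ} (hl : SQR z₁ f.κ l) {p : ℂ} (hp : p ∈ ann r)
    (hS : p ∉ Sig x₀) : ContinuousAt (fun z => l z * tht r x₀ f z) p := by
  have sub : ∀ z ∈ XX r f.κ, z ∈ ball (0 : ℂ) 1 \ KK f.κ := fun z hz =>
    ⟨mem_ball_zero_iff.2 hz.1.2, hz.2⟩
  by_cases hX : p ∈ XX r f.κ
  · have hn := h.ka.isOpen.mem_nhds hX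
    refine ((hl.cont.mono sub).continuousAt hn).mul (continuous_ofReal.continuousAt.comp ?_)
    refine (continuousAt_const.sub (continuous_re.continuousAt.comp
      ((h.fn.cont.continuousAt hn).div (S0_cont hS) (S0_ne hS)))).congr
        (f := fun z => f.b₃ + f.b₂ - (f.N z / S0 x₀ z).re) ?_
    filter_upwards [hn] with z hz
    exact (if_pos hz).symm
  · have hn := (isOpen_ann r).mem_nhds hp
    have e : tht r x₀ f p = 0 := if_neg hX
    rw [ContinuousAt, e, ofReal_zero, mul_zero]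
    have k := (h.fx.cont.continuousAt hn).tendsto
    rw [h.fx.zero p (notX hp hX)] at k
    have k2 := (th_zero h hn k).const_mul 2
    rw [mul_zero] at k2
    refine squeeze_zero_norm' ?_ k2
    filter_upwards [hn] with z hz
    rw [norm_mul, norm_real, Real.norm_of_nonneg (th_rng h hz).1]
    by_cases hzX : z ∈ XX r f.κ
    · refine mul_le_mul_of_nonneg_right ?_ (th_rng h hz).1
      refine (pow_le_pow_iff_left₀ (norm_nonneg _) zero_le_two two_ne_zero).1 ?_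
      rw [← norm_pow, hl.sq z (sub z hzX)]
      linarith [norm_sub_le z z₁, hz.2, h.ka.m1.2]
    · rw [show tht r x₀ f z = 0 from if_neg hzX]; simp

end Dev1P

open Dev1P in
theorem z_dev1 : Z_DEV1 := by
  intro r x₀ z₁ f f' l l' h h' hl hl'
  have r0 := h.ka.r0
  have r1 := h.ka.r1
  have sub : ∀ κ : ℝ → ℂ, ∀ z ∈ XX r κ, z ∈ ball (0 : ℂ) 1 \ KK κ := fun κ z hz =>
    ⟨mem_ball_zero_iff.2 hz.1.2, hz.2⟩
  have z1K : ∀ {g : Fl}, FL r x₀ z₁ g → z₁ ∈ KK g.κ := fun k =>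
    ⟨0, ⟨le_rfl, zero_le_one⟩, k.ka.start⟩
  have lne : ∀ {g : Fl} {m : ℂ → ℂ}, FL r x₀ z₁ g → SQR z₁ g.κ m →
      ∀ z ∈ ball (0 : ℂ) 1 \ KK g.κ, m z ≠ 0 := fun k km z hz e => by
    have := km.sq z hz
    rw [e, zero_pow two_ne_zero] at this
    exact hz.2 (sub_eq_zero.1 this.symm ▸ z1K k)
  set V₀ : Set ℂ := ball 0 r ∪ (ball 0 1 ∩ {z | 0 < z.im}) with hV₀
  have V1 : ∀ {g : Fl}, FL r x₀ z₁ g → V₀ ⊆ ball (0 : ℂ) 1 \ KK g.κ := fun k z hz => by
    rcases hz with hz | hz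
    · exact ⟨ball_subset_ball r1.le hz, fun hK =>
        absurd (mem_ball_zero_iff.1 hz) (not_lt.2 (k.ka.inner hK).1)⟩
    · exact ⟨hz.1, k.ka.upper hz.2⟩
  have V2 : IsPreconnected V₀ := by
    have hn : ‖I * ((r / 2 : ℝ) : ℂ)‖ = r / 2 := Top1P.norm_I_mul (by linarith)
    refine IsPreconnected.union (I * ((r / 2 : ℝ) : ℂ)) ?_ ⟨?_, ?_⟩
      (convex_ball _ _).isPreconnected
      ((convex_ball _ _).inter (convex_halfSpace_im_gt 0)).isPreconnected
    · rw [mem_ball_zero_iff, hn]; linarith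
    · rw [mem_ball_zero_iff, hn]; linarith
    · simpa using r0
  obtain ⟨c, hc, hcl⟩ := sq_sign V2 (hl.cont.mono (V1 h)) (hl'.cont.mono (V1 h'))
    (fun z hz => by rw [hl.sq z (V1 h hz), hl'.sq z (V1 h' hz)]) fun z hz => lne h' hl' z (V1 h' hz)
  have c2 : c ^ 2 = 1 := by rcases hc with rfl | rfl <;> simp
  set G : ℂ → ℝ := fun z => (c * (l z * tht r x₀ f z) / l' z).re with hG
  have Ge : ∀ z, G z = (c * l z / l' z).re * tht r x₀ f z := fun z => by
    rw [hG]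
    simp only
    rw [show c * (l z * tht r x₀ f z) / l' z = c * l z / l' z * tht r x₀ f z by ring, re_mul_ofReal]
  have sg : ∀ z ∈ XX r f.κ, z ∈ XX r f'.κ → c * l z / l' z = 1 ∨ c * l z / l' z = -1 :=
    fun z k k' => sq_eq_one_iff.1 (by
      rw [div_pow, mul_pow, c2, one_mul, hl.sq z (sub _ z k), ← hl'.sq z (sub _ z k'),
        div_self (pow_ne_zero 2 (lne h' hl' z (sub _ z k')))])
  have G1 : ∀ z ∈ XX r f'.κ, G z = tht r x₀ f z ∨ G z = -tht r x₀ f z := fun z hz => by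
    rw [Ge]
    by_cases hX : z ∈ XX r f.κ
    · rcases sg z hX hz with e | e <;> rw [e] <;> simp
    · rw [show tht r x₀ f z = 0 from if_neg hX]; simp
  have G2 : ∀ z ∈ XX r f'.κ, |G z| = tht r x₀ f z := fun z hz => by
    rcases G1 z hz with e | e <;> rw [e]
    · exact abs_of_nonneg (th_rng h hz.1).1
    · rw [abs_neg]; exact abs_of_nonneg (th_rng h hz.1).1
  have Gc : ContinuousOn G (XX r f'.κ \ Sig x₀) := fun p hp =>
    (continuous_re.continuousAt.comp ((continuousAt_const.mul (H_cont h hl hp.1.1 hp.2)).div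
      ((hl'.cont.mono (sub _)).continuousAt (h'.ka.isOpen.mem_nhds hp.1))
      (lne h' hl' p (sub _ p hp.1)))).continuousWithinAt
  have small : ∀ p, Tendsto f.x (𝓝[ann r] p) (𝓝 0) → LS G (XX r f'.κ) p 0 := fun p hp ε hε => by
    filter_upwards [nhdsWithin_mono p (sdiff_subset : XX r f'.κ ⊆ ann r)
      ((th_zero h self_mem_nhdsWithin hp).eventually (gt_mem_nhds hε)), self_mem_nhdsWithin]
      with z k1 k2
    rw [zero_add]
    exact (le_abs_self _).trans_lt (by rw [G2 z k2]; exact k1)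
  refine ⟨G, Gc, fun z hz => ?_, fun z hz hi => ?_, ?_, ⟨2 * (f.b₃ + f.b₂), fun z hz => ?_⟩, ?_,
    fun t ht hr => ?_⟩
  · rcases G1 z hz with e | e <;> rcases th_val h hz.1 with e' | e' <;> rw [e, e']
    · exact ⟨0, Or.inl (by simp)⟩
    · exact ⟨1, Or.inr (by simp)⟩
    · exact ⟨0, Or.inr (by simp)⟩
    · exact ⟨-1, Or.inl (by push_cast; ring)⟩
  · have k : z ∈ V₀ := Or.inr ⟨mem_ball_zero_iff.2 hz.2, hi⟩
    rw [Ge, hcl z k, ← mul_assoc, ← sq, c2, one_mul, div_self (lne h' hl' z (V1 h' k)), one_re,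
      one_mul]
    exact if_pos ⟨hz, h.ka.upper hi⟩
  · obtain ⟨δ, hδ, hn⟩ := h'.fn.near
    exact ⟨δ, hδ, Gc.mono fun z hz => ⟨hz.1, (hn z hz.1 hz.2).1⟩⟩
  · rw [G2 z hz]; exact (th_rng h hz.1).2
  · obtain ⟨S, hS, cov⟩ := h.ka.cov
    obtain ⟨S', hS', cov'⟩ := h'.ka.cov
    refine ⟨S ∪ S', hS.union hS', fun p hp hq => ?_⟩
    rcases hq with hq | ⟨hq, hK'⟩
    · exact small p (h.fx.out p hq)
    by_cases hK : p ∈ KK f.κ
    · exact small p (h.fx.hug p hq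
        ((cov p hK hq fun k => hp (Or.inl k)).2.mono fun q k => k.2))
    obtain ⟨⟨t, ht, rfl⟩, ev⟩ := cov' p hK' hq fun k => hp (Or.inr k)
    obtain ⟨V, hV, fl⟩ := hl'.flip t ht
    have pW : f'.κ t ∈ ball (0 : ℂ) 1 \ KK f.κ := ⟨mem_ball_zero_iff.2 (hq ▸ r1), hK⟩
    have Wn := (isOpen_ball.sdiff h.ka.isClosed).mem_nhds pW
    obtain ⟨O, hO, hOs, c1, c2'⟩ := two_sides r0 hq (inter_mem hV ev)
    obtain ⟨γ, γ0, t1, t2⟩ := fl O hO (fun z hz => (hOs hz).1) _ _ c1 c2' (by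
      ext z
      constructor
      · rintro ⟨k1, k2⟩
        rcases lt_or_gt_of_ne (fun e => k2 ((hOs k1).2.2 e)) with k | k
        · exact Or.inl ⟨k1, k⟩
        · exact Or.inr ⟨k1, k⟩
      · rintro (k | k)
        · exact ⟨k.1, fun e => k.2.ne ((hOs k.1).2.1 e)⟩
        · exact ⟨k.1, fun e => k.2.ne' ((hOs k.1).2.1 e)⟩)
    have lc := (hl.cont.continuousAt Wn).tendsto
    have hne : (𝓝[O ∩ {z | ‖z‖ < r}] (f'.κ t)).NeBot := by
      rw [inter_comm, nhdsWithin_inter_of_mem' (mem_nhdsWithin_of_mem_nhds hO),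
        ← mem_closure_iff_nhdsWithin_neBot, show {z : ℂ | ‖z‖ < r} = ball 0 r from
          Set.ext fun z => mem_ball_zero_iff.symm, closure_ball _ r0.ne', mem_closedBall_zero_iff]
      exact hq.le
    have e1 : l (f'.κ t) = c * γ := by
      refine tendsto_nhds_unique (lc.mono_left nhdsWithin_le_nhds)
        ((t1.const_mul c).congr' ?_)
      filter_upwards [self_mem_nhdsWithin] with z hz
      exact (hcl z (Or.inl (mem_ball_zero_iff.2 hz.2))).symm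
    have t3 := ((lc.mono_left (nhdsWithin_le_nhds (s := O ∩ {z | r < ‖z‖}))).const_mul c).div t2
      (neg_ne_zero.2 γ0)
    rw [e1, ← mul_assoc, ← sq, c2, one_mul, div_neg, div_self γ0] at t3
    have t4 : ∀ᶠ z in 𝓝[O ∩ {z | r < ‖z‖}] (f'.κ t), (c * l z / l' z).re < 0 :=
      ((continuous_re.tendsto _).comp t3).eventually (gt_mem_nhds (by simp))
    have le : 𝓝[XX r f'.κ] (f'.κ t) ≤ 𝓝[O ∩ {z | r < ‖z‖}] (f'.κ t) :=
      nhdsWithin_le_iff.2 (inter_mem (mem_nhdsWithin_of_mem_nhds hO)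
        (mem_of_superset self_mem_nhdsWithin fun z hz => hz.1.1))
    refine LS.of_eventually ?_
    filter_upwards [le t4, self_mem_nhdsWithin] with z k1 k2
    rw [Ge]
    exact mul_nonpos_of_nonpos_of_nonneg k1.le (th_rng h k2.1).1
  · obtain ⟨V, hV, fl⟩ := hl'.flip t ht
    refine ⟨V, hV, fun O hO hOV A₁ A₂ k1 k2 e => ?_⟩
    obtain ⟨γ, γ0, t1, t2⟩ := fl O hO hOV A₁ A₂ k1 k2 e
    have hc' := (H_cont h hl (p := f'.κ t) ⟨hr, (h'.ka.mem t ⟨ht.1.le, ht.2⟩).2⟩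
      (h'.ka.notSig ⟨t, Ioo_subset_Icc_self ht, rfl⟩)).tendsto.const_mul c
    refine ⟨(c * (l (f'.κ t) * tht r x₀ f (f'.κ t)) / γ).re, trivial,
      (continuous_re.tendsto _).comp ((hc'.mono_left nhdsWithin_le_nhds).div t1 γ0), ?_⟩
    rw [← neg_re, ← div_neg]
    exact (continuous_re.tendsto _).comp ((hc'.mono_left nhdsWithin_le_nhds).div t2
      (neg_ne_zero.2 γ0))

end Pool.Agent.P.MP_3bd355_an
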