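import Pool.Agent.P.MP_3bd355_an.Z.Stmts

/-! The case `A = 0`: package DEV2. -/

open Set Filter Metric Complex InnerProductSpace MeasureTheory
open scoped Topology ComplexConjugate Real

namespace Pool.Agent.P.MP_3bd355_an

theorem z_dev2 : Z_DEV2 := by
  intro r x₀ z₁ f f' G h h' hG
  have z0 : ∀ ζ ∈ DD2 f'.a₁ f'.a₃ f'.b₃ f'.b₂, f'.Z ζ ≠ 0 := fun ζ hζ =>
    norm_pos_iff.1 (h.ka.r0.trans (h'.fz.maps ζ hζ).1.1.1)
  have s0 : ∀ ζ ∈ DD2 f'.a₁ f'.a₃ f'.b₃ f'.b₂, f'.S ζ ≠ 0 := fun ζ hζ e => by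
    have := h'.fn.Ssq ζ hζ
    rw [e, zero_pow two_ne_zero] at this
    exact mul_ne_zero (z0 ζ hζ) (sub_ne_zero.2 (h'.fz.maps ζ hζ).2) this.symm
  have sg : ∀ ζ ∈ DD2 f'.a₁ f'.a₃ f'.b₃ f'.b₂,
      S0 x₀ (f'.Z ζ) / f'.S ζ = 1 ∨ S0 x₀ (f'.Z ζ) / f'.S ζ = -1 := fun ζ hζ =>
    sq_eq_one_iff.1 (by
      rw [div_pow, S0_sq (h'.fz.maps ζ hζ).2, ← h'.fn.Ssq ζ hζ,
        div_self (pow_ne_zero 2 (s0 ζ hζ))])
  refine ⟨fun ζ => f.b₃ + f.b₂ - (S0 x₀ (f'.Z ζ) / f'.S ζ).re * (f.b₃ + f.b₂ - G (f'.Z ζ)),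
    fun p hp => ?_, fun ζ hζ => ?_, ?_, hG.go⟩
  · have hn := (isOpen_DD2 _ _ _ _).mem_nhds hp
    have cZ : ContinuousAt f'.Z p := h'.fz.d.continuousOn.continuousAt hn
    have cS : ContinuousAt f'.S p := h'.fn.Sc.continuousAt hn
    have hX := (h'.fz.maps p hp).1
    refine ContinuousAt.continuousWithinAt ?_
    by_cases hS : f'.Z p ∈ Sig x₀
    · have hi : 0 < (f'.Z p).im :=
        ((Sig_im h.ka.x0 hS).resolve_left (z0 p hp)).resolve_left (h'.fz.maps p hp).2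
      have cN : ContinuousAt f.N (f'.Z p) :=
        h.fn.cont.continuousAt (h.ka.isOpen.mem_nhds ⟨hX.1, h.ka.upper hi⟩)
      refine (continuousAt_const.sub (continuous_re.continuousAt.comp
        ((cN.comp cZ).div cS (s0 p hp)))).congr
          (f := fun ζ => f.b₃ + f.b₂ - (f.N (f'.Z ζ) / f'.S ζ).re) ?_
      filter_upwards [hn, (continuous_im.continuousAt.comp cZ).eventually (lt_mem_nhds hi)]
        with ζ k1 k2
      have e0 : S0 x₀ (f'.Z ζ) ≠ 0 := fun e => by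
        rcases sg ζ k1 with k | k <;> rw [e] at k <;> simp at k
      have e1 : f.N (f'.Z ζ) / f'.S ζ =
          S0 x₀ (f'.Z ζ) / f'.S ζ * (f.N (f'.Z ζ) / S0 x₀ (f'.Z ζ)) := by
        have := s0 ζ k1
        field_simp
      rw [hG.up _ (h'.fz.maps ζ k1).1.1 k2, e1, sub_sub_cancel]
      rcases sg ζ k1 with k | k <;> rw [k] <;> simp
    · have cG : ContinuousAt G (f'.Z p) :=
        hG.cont.continuousAt ((h'.ka.isOpen.sdiff (isClosed_Sig x₀)).mem_nhds ⟨hX, hS⟩)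
      exact continuousAt_const.sub ((continuous_re.continuousAt.comp
        (((S0_cont hS).comp cZ).div cS (s0 p hp))).mul (continuousAt_const.sub (cG.comp cZ)))
  · obtain ⟨k, hk⟩ := hG.rel _ (h'.fz.maps ζ hζ).1
    rcases sg ζ hζ with e | e <;> simp only [e, neg_re, one_re]
    · exact ⟨k, by rcases hk with hk | hk <;> [left; right] <;> rw [hk] <;> ring⟩
    · exact ⟨1 - k, by rcases hk with hk | hk <;> [right; left] <;> rw [hk] <;> push_cast <;> ring⟩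
  · obtain ⟨δ, hδ, hn⟩ := h'.fn.near
    have hb : 0 < f'.b₃ + f'.b₂ := add_pos_of_nonneg_of_pos h'.sh.nonneg.2 h'.sh.2.1
    refine ⟨min δ (f'.b₃ + f'.b₂), lt_min hδ hb, fun t ht y hy => ?_⟩
    have t1 := (lt_min_iff.1 ht.2).1
    have t2 := (lt_min_iff.1 ht.2).2
    have t3 : ((f'.b₃ + f'.b₂ - t : ℝ) : ℂ) ≠ 0 := ofReal_ne_zero.2 (sub_pos.2 t2).ne'
    have key : ∀ s : ℝ, 0 < s → s < 2 * (f'.b₃ + f'.b₂) → |f'.b₃ + f'.b₂ - s| = f'.b₃ + f'.b₂ - t →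
        ((f'.b₃ + f'.b₂ - t : ℝ) : ℂ) * (S0 x₀ (f'.Z (s + y * I)) / f'.S (s + y * I)) =
          (f'.b₃ + f'.b₂ - s : ℝ) := fun s s1 s2 s3 => by
      have hm : (s + y * I : ℂ) ∈ DD2 f'.a₁ f'.a₃ f'.b₃ f'.b₂ :=
        ⟨by simpa using hy.1, Or.inl ⟨by simpa using s1, by simpa using s2, by simpa using hy.2⟩⟩
      have hre : (s + y * I : ℂ).re = s := by simp
      have hx : f'.x (f'.Z (s + y * I)) = t := by rw [h'.fz.xZ _ hm, hre, s3]; ring
      have e1 := (hn _ (h'.fz.maps _ hm).1 (hx ▸ t1)).2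
      rw [hx, h'.fn.NZ _ hm, hre] at e1
      rw [← mul_div_assoc, ← e1, mul_div_cancel_right₀ _ (s0 _ hm)]
    constructor
    · have e := key t ht.1 (by linarith) (abs_of_pos (sub_pos.2 t2))
      rw [mul_eq_left₀ t3] at e
      simp only [e, one_re]
      ring
    · have e := key (2 * (f'.b₃ + f'.b₂) - t) (by linarith) (by linarith [ht.1])
        (by rw [abs_of_neg (by linarith)]; ring)
      have e2 : S0 x₀ (f'.Z ((2 * (f'.b₃ + f'.b₂) - t : ℝ) + y * I)) /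
          f'.S ((2 * (f'.b₃ + f'.b₂) - t : ℝ) + y * I) = -1 :=
        mul_left_cancel₀ t3 (by rw [e]; push_cast; ring)
      simp only [e2, neg_re, one_re]
      ring

end Pool.Agent.P.MP_3bd355_an
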