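import Pool.Agent.P.MP_3bd355_an.Z.Stmts

/-! The case `A = 0`: package DI. -/

open Set Filter Metric Complex InnerProductSpace MeasureTheory
open scoped Topology ComplexConjugate Real

namespace Pool.Agent.P.MP_3bd355_an

namespace DiP

/-- A local logarithm at a point of the unit circle. -/
theorem loc_log (t : ℝ) : ∃ l : ℂ → ℂ,
    Tendsto l (𝓝[ball 0 1] (exp (I * t))) (𝓝[upH] (t : ℂ)) ∧
      ∀ᶠ w in 𝓝[ball (0 : ℂ) 1] (exp (I * t)), exp (I * l w) = w := by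
  have h1 : exp (I * t) * exp (-(I * t)) = 1 := by rw [← exp_add, add_neg_cancel, exp_zero]
  have hne : ∀ᶠ w in 𝓝[ball (0 : ℂ) 1] (exp (I * t)), w ≠ 0 :=
    mem_nhdsWithin_of_mem_nhds (isOpen_ne.mem_nhds (exp_ne_zero _))
  have he : ∀ w : ℂ, w ≠ 0 → exp (I * (t + -I * log (w * exp (-(I * t))))) = w := by
    intro w hw
    have e : I * (t + -I * log (w * exp (-(I * t)))) = I * t + log (w * exp (-(I * t))) := by
      linear_combination (-log (w * exp (-(I * t)))) * I_mul_I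
    rw [e, exp_add, exp_log (mul_ne_zero hw (exp_ne_zero _))]
    linear_combination w * h1
  refine ⟨fun w => t + -I * log (w * exp (-(I * t))), ?_, hne.mono he⟩
  rw [tendsto_nhdsWithin_iff]
  constructor
  · have hc : ContinuousAt (fun w : ℂ => t + -I * log (w * exp (-(I * t)))) (exp (I * t)) := by
      refine continuousAt_const.add (continuousAt_const.mul ?_)
      refine ContinuousAt.clog (by fun_prop) ?_
      rw [h1]
      exact one_mem_slitPlane
    have h2 := hc.tendsto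
    simp only [h1, log_one, mul_zero, add_zero] at h2
    exact h2.mono_left nhdsWithin_le_nhds
  · filter_upwards [hne, self_mem_nhdsWithin] with w hw hw1
    have h2 := UniFP.norm_expI (t + -I * log (w * exp (-(I * t))))
    rw [he w hw] at h2
    have h3 : ‖w‖ < 1 := mem_ball_zero_iff.1 hw1
    rw [h2, Real.exp_lt_one_iff] at h3
    exact neg_lt_zero.1 h3

theorem transfer {f : ℂ → ℝ} {t c : ℝ}
    (h : Tendsto (fun η => f (exp (I * η))) (𝓝[upH] (t : ℂ)) (𝓝 c)) :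
    Tendsto f (𝓝[ball 0 1] (exp (I * t))) (𝓝 c) := by
  obtain ⟨l, h1, h2⟩ := loc_log t
  refine (h.comp h1).congr' ?_
  filter_upwards [h2] with w hw
  simp only [Function.comp, hw]

/-- The Green function of a domain that is mapped onto the disc. -/
theorem green {X : Set ℂ} {x : ℂ} {φ : ℂ → ℂ} {g : ℂ → ℝ} (hX : IsOpen X)
    (hb : Bornology.IsBounded X) (hx : x ∈ X) (hd : DifferentiableOn ℂ φ X) (hi : InjOn φ X)
    (h0 : φ x = 0) (hne : deriv φ x ≠ 0)
    (hbd : ∀ p ∈ frontier X, Tendsto (fun z => ‖φ z‖) (𝓝[X] p) (𝓝 1))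
    (gh : HarmonicOnNhd g (X \ {x}))
    (gp : ∃ H : ℂ → ℝ, HarmonicAt H x ∧ ∀ᶠ z in 𝓝[≠] x, g z = H z - Real.log ‖z - x‖)
    (gb : ∀ p ∈ frontier X, Tendsto g (𝓝[X] p) (𝓝 0)) :
    ∀ z ∈ X, z ≠ x → g z = -Real.log ‖φ z‖ := by
  classical
  obtain ⟨H, hH, hg⟩ := gp
  set u : ℂ → ℝ := fun z =>
    if z = x then H x + Real.log ‖deriv φ x‖ else g z + Real.log ‖φ z‖ with hu
  have hφ0 : ∀ z ∈ X, z ≠ x → φ z ≠ 0 := fun z hz hzx e => hzx (hi hz hx (e.trans h0.symm))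
  have han : AnalyticAt ℂ φ x := hd.analyticAt (hX.mem_nhds hx)
  have hds : AnalyticAt ℂ (dslope φ x) x := by
    obtain ⟨q, hq⟩ := han
    exact ⟨_, hq.has_fpower_series_dslope_fslope⟩
  have hds0 : dslope φ x x ≠ 0 := by rwa [dslope_same]
  have huh : HarmonicOnNhd u X := by
    intro z hz
    by_cases hzx : z = x
    · subst hzx
      refine (harmonicAt_congr_nhds ?_).2 (hH.add (hds.harmonicAt_log_norm hds0))
      filter_upwards [eventually_nhdsWithin_iff.1 hg, hds.continuousAt.eventually_ne hds0] with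
        y hy hy0
      by_cases hyz : y = z
      · subst hyz
        simp [hu, dslope_same]
      · have e : φ y = (y - z) * dslope φ z y := by
          have := sub_smul_dslope φ z y
          rw [h0, sub_zero, smul_eq_mul] at this
          exact this.symm
        have hn : ‖y - z‖ ≠ 0 := norm_ne_zero_iff.2 (sub_ne_zero.2 hyz)
        simp only [hu, if_neg hyz, Pi.add_apply]
        rw [hy hyz, e, norm_mul, Real.log_mul hn (norm_ne_zero_iff.2 hy0)]
        ring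
    · refine (harmonicAt_congr_nhds ?_).2 ((gh z ⟨hz, hzx⟩).add
        ((hd.analyticAt (hX.mem_nhds hz)).harmonicAt_log_norm (hφ0 z hz hzx)))
      filter_upwards [isOpen_ne.mem_nhds hzx] with y hy
      simp only [hu, if_neg hy, Pi.add_apply]
  have hlim : ∀ p ∈ frontier X, Tendsto u (𝓝[X] p) (𝓝 0) := by
    intro p hp
    have hpx : p ≠ x := by
      rintro rfl
      rw [hX.frontier_eq] at hp
      exact hp.2 hx
    have h1 := (gb p hp).add ((hbd p hp).log one_ne_zero)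
    rw [Real.log_one, add_zero] at h1
    refine h1.congr' ?_
    filter_upwards [mem_nhdsWithin_of_mem_nhds (isOpen_ne.mem_nhds hpx)] with y hy
    simp only [hu, if_neg hy]
  intro z hz hzx
  have h1 := (Sub.of_harm huh).mp0 hX hb (c := 0)
    (fun p hp => LS.of_tendsto (hlim p hp) le_rfl) z hz
  have h2 := (Sub.of_harm (u := fun y => -u y) fun y hy => (huh y hy).neg).mp0 hX hb (c := 0)
    (fun p hp => LS.of_tendsto (hlim p hp).neg (by simp)) z hz
  simp only [hu, if_neg hzx] at h1 h2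
  linarith

/-- Points of `Zo` near a point that is congruent to an end. -/
theorem freq_Zo {s0 s1 x s : ℝ} (hlt : s0 < s1) (hs : s = s0 ∨ s = s1)
    (he : exp (I * x) = exp (I * s)) : ∃ᶠ t in 𝓝 x, t ∈ Zo s0 s1 := by
  obtain ⟨k, hk⟩ := exp_eq_exp_iff_exists_int.1 he
  have hx : x = s + 2 * π * k := by
    have := congrArg Complex.im hk
    simp at this
    linarith
  have hcl : s ∈ closure (Ioo s0 s1) := by
    rw [closure_Ioo hlt.ne]
    rcases hs with rfl | rfl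
    · exact ⟨le_rfl, hlt.le⟩
    · exact ⟨hlt.le, le_rfl⟩
  have hc : Tendsto (fun t : ℝ => t + 2 * π * k) (𝓝 s) (𝓝 x) := by
    rw [hx]
    exact (continuous_add_const _).tendsto s
  exact hc.frequently ((mem_closure_iff_frequently.1 hcl).mono fun t ht =>
    Zo_shift (Ioo_sub_Zo ht) k)

end DiP

open DiP in
theorem z_di : Z_DI := by
  intro r B x₀ z₁ a b c κ v g hZ hB hN
  have hC := hB.cont
  have hout : ∃ p ∈ KK κ, ‖p‖ = 1 :=
    ⟨κ 1, mem_image_of_mem κ ⟨zero_le_one, le_rfl⟩, (hZ.crit.end_zero rfl).1⟩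
  have hin : ∃ p ∈ KK κ, ‖p‖ = r := by
    by_contra hn
    refine hN fun t ht => ?_
    have hm : κ t ∈ KK κ := mem_image_of_mem κ ht
    exact lt_of_le_of_ne (hC.sub hm).1 fun e => hn ⟨_, hm, e.symm⟩
  have hOm : Om r (KK κ) = XX r κ := by
    rw [← hB.main_eq]
    refine Subset.antisymm ?_ UniFP.main_sub_Om
    rintro z ((hz | hz) | hz)
    · exact hz
    · obtain ⟨p, hp, hp1⟩ := hin
      exact absurd hp1 (hz.2 p hp)
    · obtain ⟨p, hp, hp1⟩ := hout
      exact absurd hp1 (hz.2 p hp)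
  have hXo : IsOpen (XX r κ) := hOm ▸ hC.isOpen_Om
  have hx : (x₀ : ℂ) ∈ XX r κ := ⟨hZ.ch.m0, hZ.crit.avoid⟩
  obtain ⟨φ, hd, hi, him, h0, hne⟩ := all_RM (XX r κ) x₀ hXo (hOm ▸ hC.preconn_Om)
    (hOm ▸ hC.nc_Om hout) (fun e => by
      obtain ⟨p, hp, -⟩ := hout
      exact (e ▸ mem_univ p : p ∈ XX r κ).2 hp) hx
  obtain ⟨ψ, hψ, hr, hbd⟩ := RMOP.inverse hXo hd hi him hne
  have hlt : ∀ z ∈ XX r κ, φ z ∈ ball (0 : ℂ) 1 := fun z hz => him ▸ mem_image_of_mem φ hz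
  have hfr : ∀ p ∈ frontier (XX r κ), Tendsto (fun z => ‖φ z‖) (𝓝[XX r κ] p) (𝓝 1) := by
    intro p hp
    refine hbd _ id self_mem_nhdsWithin fun K hK hKU => ?_
    rw [hXo.frontier_eq] at hp
    exact mem_nhdsWithin_of_mem_nhds (hK.isClosed.isOpen_compl.mem_nhds fun h1 => hp.2 (hKU h1))
  have hR : RMo r (KK κ) φ ψ := by
    refine ⟨hOm ▸ hd, hOm ▸ hi, fun z hz => mem_ball_zero_iff.1 (hlt z (hOm ▸ hz)),
      hψ.mono sdiff_subset, fun w hw => hOm ▸ hr w hw.1, hOm ▸ hfr, fun hn => ?_⟩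
    obtain ⟨p, hp, hp1⟩ := hout
    exact absurd hp1 (hn p hp)
  have hU : Unif r (KK κ) φ (fun η => ψ (exp (I * η))) 1 := by
    refine hR.unif hC one_pos fun p hp hp1 => ?_
    rw [hOm] at hp
    rcases hp1 with e | e
    · exact absurd e hp.1.1.ne'
    · exact absurd e hp.1.2.ne
  obtain ⟨s0, s1, hP⟩ := all_PIC _ _ _ _ _ hU
  have hind : ∀ x : ℝ, (fun η : ℂ => indicator (XX r κ) v (ψ (exp (I * η)))) =ᶠ[𝓝[upH] (x : ℂ)]
      fun η : ℂ => v (ψ (exp (I * η))) := by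
    intro x
    filter_upwards [hU.ev_main x] with η hη
    exact indicator_of_mem (hB.main_eq ▸ hη.2) v
  have hz0 : ∀ x ∈ Zo s0 s1,
      Tendsto (fun η : ℂ => v (ψ (exp (I * η)))) (𝓝[upH] (x : ℂ)) (𝓝 0) := fun x hx =>
    (hP.uz 0 B _ (Or.inl rfl) hB.sol x hx).congr' (hind x)
  have hzB : ∀ x : ℝ, (∃ q ∈ Ex r (KK κ),
      Tendsto (fun η : ℂ => ψ (exp (I * η))) (𝓝[upH] (x : ℂ)) (𝓝 q)) →
      Tendsto (fun η : ℂ => v (ψ (exp (I * η)))) (𝓝[upH] (x : ℂ)) (𝓝 B) := by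
    rintro x ⟨q, hq, ht⟩
    exact ((hB.sol.atB q hq).comp (tendsto_nhdsWithin_iff.2
      ⟨ht, (hU.ev_main x).mono fun η hη => hη.2⟩)).congr' (hind x)
  refine ⟨s0, s1, φ, ψ, hP.lt, hP.touch.1 hin, hd, ⟨hlt, hi, him.ge⟩, hne, hψ,
    fun z hz => hi (hr _ (hlt z hz)).1 hz (hr _ (hlt z hz)).2, h0,
    fun t ht => transfer (f := fun w => v (ψ w)) (hz0 t (Ioo_sub_Zo ht)),
    fun t ht => transfer (f := fun w => v (ψ w)) (hzB t (hP.toEx t (Ioo_sub_Eo ht))),
    fun p hp hpK => ?_,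
    DiP.green hXo ((bdd_ann r).subset sdiff_subset) hx hd hi h0 (hne _ hx) hfr hZ.crit.g_harm
      hZ.crit.g_pole hZ.crit.g_bd⟩
  have hpE : p ∈ Ex r (KK κ) := by
    rw [hB.ex]
    exact ⟨mem_sphere_zero_iff_norm.2 hp, hpK⟩
  obtain ⟨x, h1, -, h2, -⟩ := all_PICa _ _ _ _ _ hU hin p hpE
  have hs : ∀ s : ℝ, s = s0 ∨ s = s1 → 0 < ‖exp (I * x) - exp (I * s)‖ := by
    intro s hs
    refine norm_pos_iff.2 (sub_ne_zero.2 fun e => ?_)
    obtain ⟨t, ht, ht'⟩ := ((freq_Zo hP.lt hs e).and_eventually h2).exists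
    exact hZ.ch.B0.ne (tendsto_nhds_unique (hz0 t ht) (hzB t ht'))
  rw [hB.main_eq] at h1
  have a0 := hs s0 (Or.inl rfl)
  have a1 := hs s1 (Or.inr rfl)
  refine ⟨min (‖exp (I * x) - exp (I * s0)‖ / 2) (‖exp (I * x) - exp (I * s1)‖ / 2),
    lt_min (half_pos a0) (half_pos a1), ?_⟩
  filter_upwards [(h1.sub_const (exp (I * s0))).norm.eventually (lt_mem_nhds (half_lt_self a0)),
    (h1.sub_const (exp (I * s1))).norm.eventually (lt_mem_nhds (half_lt_self a1))] with z b0 b1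
  exact ⟨(min_le_left _ _).trans b0.le, (min_le_right _ _).trans b1.le⟩

end Pool.Agent.P.MP_3bd355_an
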