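import Pool.Agent.P.MP_3bd355_an.Z.Stmts

/-! The case `A = 0`: package DINI. -/

open Set Filter Metric Complex InnerProductSpace MeasureTheory
open scoped Topology ComplexConjugate Real

namespace Pool.Agent.P.MP_3bd355_an

namespace DiniP

theorem one {f g : ℝ → ℝ} {a b c d : ℝ} (h1 : a < c) (h2 : c ≤ d) (h3 : d < b)
    (hf : ContinuousOn f (Icc a b)) (hg : ContinuousOn g (Ioo a b))
    (h : ∀ t ∈ Ioo a b, ∀ ε > 0, ∀ᶠ s in 𝓝 t, |f s - f t| ≤ (g t + ε) * |s - t|) :
    f d - f c ≤ ∫ t in c..d, g t := by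
  have sub : Icc c d ⊆ Ioo a b := Icc_subset_Ioo h1 h3
  have hB : ∀ t ∈ Icc c d, HasDerivAt (fun s => f c + ∫ t in c..s, g t) (g t) t := fun t ht =>
    (intervalIntegral.integral_hasDerivAt_right
      ((hg.mono ((Icc_subset_Icc_right ht.2).trans sub)).intervalIntegrable_of_Icc ht.1)
      (hg.stronglyMeasurableAtFilter isOpen_Ioo t (sub ht))
      (hg.continuousAt (isOpen_Ioo.mem_nhds (sub ht)))).const_add _
  have := image_le_of_liminf_slope_right_le_deriv_boundary (B' := g)
    (hf.mono (sub.trans Ioo_subset_Icc_self)) (by simp)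
    (fun t ht => (hB t ht).continuousAt.continuousWithinAt)
    (fun t ht => (hB t (Ico_subset_Icc_self ht)).hasDerivWithinAt) (fun t ht ρ hρ => by
      refine Eventually.frequently ?_
      filter_upwards [nhdsWithin_le_nhds (h t (sub (Ico_subset_Icc_self ht)) ((ρ - g t) / 2)
        (by linarith)), self_mem_nhdsWithin] with s k1 k2
      have k3 : 0 < s - t := sub_pos.2 k2
      rw [slope_def_field, div_lt_iff₀ k3]
      rw [abs_of_pos k3] at k1
      nlinarith [le_abs_self (f s - f t)]) (right_mem_Icc.2 h2)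
  linarith

end DiniP

theorem z_dini : Z_DINI := by
  intro f g a b hab hf hg h0 h
  rcases hab.eq_or_lt with rfl | hab
  · simp
  have key : ∀ η ∈ Ioo 0 ((b - a) / 2), ENNReal.ofReal |f (b - η) - f (a + η)| ≤
      ∫⁻ t in Ioo a b, ENNReal.ofReal (g t) := fun η hη => by
    have h1 : a < a + η := by linarith [hη.1]
    have h2 : a + η ≤ b - η := by linarith [hη.2]
    have h3 : b - η < b := by linarith [hη.1]
    have sub : Icc (a + η) (b - η) ⊆ Ioo a b := Icc_subset_Ioo h1 h3
    have k1 := DiniP.one h1 h2 h3 hf hg h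
    have k2 := DiniP.one h1 h2 h3 hf.neg hg fun t ht ε hε => (h t ht ε hε).mono fun s hs => by
      rwa [Pi.neg_apply, Pi.neg_apply, neg_sub_neg, abs_sub_comm]
    refine (ENNReal.ofReal_le_ofReal (abs_le.2 ⟨?_, k1⟩)).trans ?_
    · simp only [Pi.neg_apply] at k2; linarith
    rw [intervalIntegral.integral_of_le h2, ofReal_integral_eq_lintegral_ofReal
      ((hg.mono sub).integrableOn_Icc.mono_set Ioc_subset_Icc_self)
      (ae_restrict_of_forall_mem measurableSet_Ioc fun t ht =>
        h0 t (sub (Ioc_subset_Icc_self ht)))]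
    exact lintegral_mono_set (Ioc_subset_Icc_self.trans sub)
  have ev : ∀ᶠ η in 𝓝[>] (0 : ℝ), η ∈ Ioo 0 ((b - a) / 2) := Ioo_mem_nhdsGT (by linarith)
  have t1 : Tendsto (fun η : ℝ => b - η) (𝓝[>] 0) (𝓝[Icc a b] b) := by
    refine tendsto_nhdsWithin_iff.2 ⟨?_, ev.mono fun η hη =>
      ⟨by linarith [hη.2], by linarith [hη.1]⟩⟩
    have : Continuous fun η : ℝ => b - η := by fun_prop
    simpa using (this.tendsto 0).mono_left nhdsWithin_le_nhds
  have t2 : Tendsto (fun η : ℝ => a + η) (𝓝[>] 0) (𝓝[Icc a b] a) := by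
    refine tendsto_nhdsWithin_iff.2 ⟨?_, ev.mono fun η hη =>
      ⟨by linarith [hη.1], by linarith [hη.2]⟩⟩
    have : Continuous fun η : ℝ => a + η := by fun_prop
    simpa using (this.tendsto 0).mono_left nhdsWithin_le_nhds
  exact le_of_tendsto (ENNReal.tendsto_ofReal
    (((hf b (right_mem_Icc.2 hab.le)).tendsto.comp t1).sub
      ((hf a (left_mem_Icc.2 hab.le)).tendsto.comp t2)).abs) (ev.mono key)

end Pool.Agent.P.MP_3bd355_an
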