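import Pool.Agent.P.MP_3bd355_an.Z.Stmts

/-! The case `A = 0`: package DOM. -/

open Set Filter Metric Complex InnerProductSpace MeasureTheory
open scoped Topology ComplexConjugate Real

namespace Pool.Agent.P.MP_3bd355_an

/-- An unfolding is locally dominated by the folded function. -/
theorem rel_local {b s₀ x₀ : ℝ} (hb : 0 < b) (h₀ : Rel b s₀ x₀) (h0 : 0 ≤ x₀) (h1 : x₀ ≤ b) :
    ∃ η > 0, ∀ s x : ℝ, |s - s₀| < η → |x - x₀| < η → Rel b s x → |s - s₀| ≤ |x - x₀| := by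
  have key : ∀ (m : ℤ) (η : ℝ), η ≤ b / 2 → |2 * b * m| < 2 * η → m = 0 := by
    intro m η hη h
    by_contra hm
    have h2 : (1 : ℝ) ≤ |(m : ℝ)| := by exact_mod_cast Int.one_le_abs hm
    rw [abs_mul, abs_of_pos (by positivity : 0 < 2 * b)] at h
    nlinarith
  have key2 : ∀ (m : ℤ) (η : ℝ), η ≤ x₀ → η ≤ b - x₀ → ¬ |2 * b * m - 2 * x₀| < 2 * η := by
    intro m η hη hη' h
    rw [abs_lt] at h
    rcases le_or_gt m 0 with hm | hm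
    · have h2 : (m : ℝ) ≤ 0 := by exact_mod_cast hm
      nlinarith [h.1]
    · have h2 : (1 : ℝ) ≤ m := by exact_mod_cast hm
      nlinarith [h.2]
  -- the relation between the two pairs
  have red : ∀ s x : ℝ, Rel b s x → ∃ m : ℤ, s - s₀ = 2 * b * m + (x - x₀) ∨
      s - s₀ = 2 * b * m - (x - x₀) ∨ s - s₀ = -(2 * b * m - 2 * x₀) + (x - x₀) ∨
      s - s₀ = 2 * b * m - 2 * x₀ - (x - x₀) := by
    rintro s x ⟨k, hk | hk⟩ <;> obtain ⟨l, hl | hl⟩ := h₀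
    · exact ⟨k - l, Or.inl (by push_cast; linarith)⟩
    · exact ⟨l - k, Or.inr (Or.inr (Or.inl (by push_cast; linarith)))⟩
    · exact ⟨k - l, Or.inr (Or.inr (Or.inr (by push_cast; linarith)))⟩
    · exact ⟨k - l, Or.inr (Or.inl (by push_cast; linarith))⟩
  have fin : ∀ (m : ℤ) (η u v : ℝ), η ≤ b / 2 → |u| < η → |v| < η →
      (u = 2 * b * m + v ∨ u = 2 * b * m - v ∨ u = -(2 * b * m) + v) → |u| ≤ |v| := by
    intro m η u v hη hu hv h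
    have hm : m = 0 := by
      refine key m η hη ?_
      rw [abs_lt] at hu hv ⊢
      rcases h with h | h | h <;> constructor <;> linarith [hu.1, hu.2, hv.1, hv.2]
    subst hm
    rcases h with h | h | h <;> simp [h]
  rcases h0.eq_or_lt with e0 | p0
  · refine ⟨b / 2, by positivity, fun s x hs hx hr => ?_⟩
    obtain ⟨m, hm⟩ := red s x hr
    refine fin m _ _ _ le_rfl hs hx ?_
    rcases hm with h | h | h | h
    · exact Or.inl h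
    · exact Or.inr (Or.inl h)
    · exact Or.inr (Or.inr (by linarith))
    · exact Or.inr (Or.inl (by linarith))
  rcases h1.eq_or_lt with e1 | p1
  · refine ⟨b / 2, by positivity, fun s x hs hx hr => ?_⟩
    obtain ⟨m, hm⟩ := red s x hr
    rcases hm with h | h | h | h
    · exact fin m _ _ _ le_rfl hs hx (Or.inl h)
    · exact fin m _ _ _ le_rfl hs hx (Or.inr (Or.inl h))
    · exact fin (m - 1) _ _ _ le_rfl hs hx (Or.inr (Or.inr (by push_cast; linarith)))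
    · exact fin (m - 1) _ _ _ le_rfl hs hx (Or.inr (Or.inl (by push_cast; linarith)))
  refine ⟨min x₀ (b - x₀), lt_min p0 (by linarith), fun s x hs hx hr => ?_⟩
  have k1 := min_le_left x₀ (b - x₀)
  have k2 := min_le_right x₀ (b - x₀)
  obtain ⟨m, hm⟩ := red s x hr
  rcases hm with h | h | h | h
  · exact fin m _ _ _ (by linarith) hs hx (Or.inl h)
  · exact fin m _ _ _ (by linarith) hs hx (Or.inr (Or.inl h))
  · refine absurd ?_ (key2 m _ k1 k2)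
    rw [abs_lt] at hs hx ⊢
    constructor <;> linarith [hs.1, hs.2, hx.1, hx.2]
  · refine absurd ?_ (key2 m _ k1 k2)
    rw [abs_lt] at hs hx ⊢
    constructor <;> linarith [hs.1, hs.2, hx.1, hx.2]

theorem lipq_comp {x : ℂ → ℝ} {Q Z : ℂ → ℂ} {ζ₀ : ℂ} (hZ : DifferentiableAt ℂ Z ζ₀)
    (hl : LipQ x Q (Z ζ₀)) {ε : ℝ} (hε : 0 < ε) : ∀ᶠ ζ in 𝓝 ζ₀,
      |x (Z ζ) - x (Z ζ₀)| ≤ (√‖Q (Z ζ₀)‖ * ‖deriv Z ζ₀‖ + ε) * ‖ζ - ζ₀‖ := by
  set A := √‖Q (Z ζ₀)‖ with hA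
  set D := ‖deriv Z ζ₀‖ with hD
  have hA0 : 0 ≤ A := Real.sqrt_nonneg _
  have hD0 : 0 ≤ D := norm_nonneg _
  obtain ⟨η, hη, hη1, hη2⟩ : ∃ η > 0, η ≤ 1 ∧ η * (A + D + 1) ≤ ε := by
    refine ⟨min 1 (ε / (A + D + 1)), lt_min one_pos (by positivity), min_le_left _ _, ?_⟩
    exact (le_div_iff₀ (by positivity)).1 (min_le_right _ _)
  have h1 := hZ.continuousAt.tendsto.eventually (hl η hη)
  have h2 := (hasDerivAt_iff_isLittleO.1 hZ.hasDerivAt).def hη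
  filter_upwards [h1, h2] with ζ k1 k2
  have k3 : ‖Z ζ - Z ζ₀‖ ≤ (D + η) * ‖ζ - ζ₀‖ := by
    have := norm_add_le (Z ζ - Z ζ₀ - (ζ - ζ₀) • deriv Z ζ₀) ((ζ - ζ₀) • deriv Z ζ₀)
    rw [sub_add_cancel, norm_smul] at this
    nlinarith
  have k4 := norm_nonneg (ζ - ζ₀)
  refine k1.trans ((mul_le_mul_of_nonneg_left k3 (by positivity)).trans ?_)
  rw [← mul_assoc]
  refine mul_le_mul_of_nonneg_right ?_ k4
  nlinarith

theorem z_dom : Z_DOM := by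
  intro r x₀ z₁ f f' ξ G hf hf' hv
  have hO := isOpen_DD2 f'.a₁ f'.a₃ f'.b₃ f'.b₂
  have hz : ∀ ζ ∈ DD2 f'.a₁ f'.a₃ f'.b₃ f'.b₂,
      f'.Z ζ ∈ ann r ∧ f'.Z ζ ≠ x₀ ∧ f'.Z ζ ≠ z₁ := by
    intro ζ hζ
    obtain ⟨⟨h1, h2⟩, h3⟩ := hf'.fz.maps ζ hζ
    exact ⟨h1, h3, fun e => h2 ⟨0, left_mem_Icc.2 zero_le_one, hf'.ka.start.trans e.symm⟩⟩
  have hxc : ContinuousOn (fun ζ => f.x (f'.Z ζ)) (DD2 f'.a₁ f'.a₃ f'.b₃ f'.b₂) :=
    hf.fx.cont.comp hf'.fz.d.continuousOn fun ζ hζ => (hz ζ hζ).1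
  have hdx : ∀ ζ₀ ∈ DD2 f'.a₁ f'.a₃ f'.b₃ f'.b₂, ∀ ε > 0, ∀ᶠ ζ in 𝓝 ζ₀,
      |f.x (f'.Z ζ) - f.x (f'.Z ζ₀)| ≤ (den f f' ζ₀ + ε) * ‖ζ - ζ₀‖ := by
    intro ζ₀ h₀ ε hε
    obtain ⟨h1, h2, h3⟩ := hz ζ₀ h₀
    exact lipq_comp (hf'.fz.d.differentiableAt (hO.mem_nhds h₀)) (hf.lip _ h1 h2 h3) hε
  refine ⟨?_, hxc, hdx, ?_⟩
  · refine ContinuousOn.mul ?_ (hf'.fz.d.deriv hO).continuousOn.norm
    intro ζ hζ
    obtain ⟨h1, h2, h3⟩ := hz ζ hζ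
    exact ((hf.ka.qc _ ⟨h1.1.le, h1.2.le⟩ h2 h3).comp_continuousWithinAt
      (hf'.fz.d.continuousOn ζ hζ)).norm.sqrt
  · intro ζ₀ h₀ ε hε
    have hb : 0 < f.b₃ + f.b₂ := add_pos_of_nonneg_of_pos hf.sh.nonneg.2 hf.sh.2.1
    obtain ⟨η, hη, hl⟩ := rel_local hb (hv.rel ζ₀ h₀) (hf.fx.rng _).1 (hf.fx.rng _).2
    have h1 := Metric.tendsto_nhds.1 (hv.cont.continuousAt (hO.mem_nhds h₀)) η hη
    have h2 := Metric.tendsto_nhds.1 (hxc.continuousAt (hO.mem_nhds h₀)) η hη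
    filter_upwards [h1, h2, hdx ζ₀ h₀ ε hε, hO.mem_nhds h₀] with ζ k1 k2 k3 k4
    exact (hl _ _ k1 k2 (hv.rel ζ k4)).trans k3

end Pool.Agent.P.MP_3bd355_an
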