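import Pool.Agent.P.MP_3bd355_an.Z.Stmts

/-! The case `A = 0`: package EQ1. -/

open Set Filter Metric Complex InnerProductSpace MeasureTheory
open scoped Topology ComplexConjugate Real

namespace Pool.Agent.P.MP_3bd355_an

namespace Eq1P

theorem int_const {c : ℝ} (hc : 0 ≤ c) (s t : ℝ) :
    ∫⁻ _ in Ioo s t, ENNReal.ofReal c = ENNReal.ofReal (c * (t - s)) := by
  rw [setLIntegral_const, Real.volume_Ioo, ENNReal.ofReal_mul hc]

theorem mem1 {a₁ a₃ b₃ b₂ t y : ℝ} (hy : y ∈ Ioo 0 a₁) (ht : t ∈ Ioo 0 (2 * (b₃ + b₂))) :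
    (t + y * I : ℂ) ∈ DD2 a₁ a₃ b₃ b₂ := by
  refine ⟨?_, Or.inl ⟨?_, ?_, ?_⟩⟩ <;> simp [hy.1, hy.2, ht.1, ht.2]

theorem mem2 {a₁ a₃ b₃ b₂ t y : ℝ} (h1 : 0 < a₁) (hy : y ∈ Ioo a₁ (a₁ + a₃))
    (ht : t ∈ Ioo b₃ (b₃ + 2 * b₂)) : (t + y * I : ℂ) ∈ DD2 a₁ a₃ b₃ b₂ := by
  refine ⟨?_, Or.inr ⟨?_, ?_, ?_⟩⟩ <;> simp [h1.trans hy.1, hy.2, ht.1, ht.2]

/-- Equality in the Cauchy-Schwarz inequality. -/
theorem eq_of {D : Set ℂ} (hD : IsOpen D) {d : ℂ → ℝ} {m A : ℝ} (hm : 0 < m) (hA : 0 ≤ A)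
    (hc : ContinuousOn d D) (h0 : ∀ ζ, 0 ≤ d ζ)
    (h1 : ∫⁻ _ in D, ENNReal.ofReal (m ^ 2) = ENNReal.ofReal A)
    (h2 : ∫⁻ ζ in D, ENNReal.ofReal (d ζ ^ 2) = ENNReal.ofReal A)
    (h3 : ENNReal.ofReal (A / m) ≤ ∫⁻ ζ in D, ENNReal.ofReal (d ζ)) : ∀ ζ ∈ D, d ζ = m := by
  have hd : AEMeasurable d (volume.restrict D) := hc.aemeasurable hD.measurableSet
  have e1 : (∫⁻ ζ in D, ENNReal.ofReal ((d ζ - m) ^ 2)) +
      ENNReal.ofReal (2 * m) * ∫⁻ ζ in D, ENNReal.ofReal (d ζ) = ENNReal.ofReal (2 * A) := by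
    rw [← lintegral_const_mul' _ _ ENNReal.ofReal_ne_top,
      ← lintegral_add_left' ((hd.sub_const m).pow_const 2).ennreal_ofReal, two_mul A,
      ENNReal.ofReal_add hA hA]
    conv_rhs => rw [← h2]; rhs; rw [h2, ← h1]
    rw [← lintegral_add_left' (hd.pow_const 2).ennreal_ofReal]
    refine lintegral_congr fun ζ => ?_
    rw [← ENNReal.ofReal_mul (by positivity), ← ENNReal.ofReal_add (sq_nonneg _)
      (mul_nonneg (by positivity) (h0 ζ)), ← ENNReal.ofReal_add (sq_nonneg _) (sq_nonneg _)]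
    congr 1
    ring
  have e2 : ENNReal.ofReal (2 * A) ≤ ENNReal.ofReal (2 * m) * ∫⁻ ζ in D, ENNReal.ofReal (d ζ) := by
    refine le_trans (le_of_eq ?_) (mul_le_mul_right h3 _)
    rw [← ENNReal.ofReal_mul (by positivity)]
    congr 1
    field_simp
  have e3 : ∫⁻ ζ in D, ENNReal.ofReal ((d ζ - m) ^ 2) = 0 := by
    have h4 := (add_le_add_right e2 (∫⁻ ζ in D, ENNReal.ofReal ((d ζ - m) ^ 2))).trans e1.le
    have h5 : (∫⁻ ζ in D, ENNReal.ofReal ((d ζ - m) ^ 2)) + ENNReal.ofReal (2 * A) ≤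
        0 + ENNReal.ofReal (2 * A) := by rwa [zero_add]
    exact le_zero_iff.1 ((ENNReal.add_le_add_iff_right ENNReal.ofReal_ne_top).1 h5)
  rw [lintegral_eq_zero_iff' ((hd.sub_const m).pow_const 2).ennreal_ofReal] at e3
  refine Measure.eqOn_open_of_ae_eq (μ := volume) (g := fun _ => m) ?_ hD hc continuousOn_const
  filter_upwards [e3] with ζ hζ
  have := ENNReal.ofReal_eq_zero.1 hζ
  exact sub_eq_zero.1 (pow_eq_zero_iff two_ne_zero |>.1 (le_antisymm this (sq_nonneg _)))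

end Eq1P

open Eq1P in
theorem z_eq1 (hTON : Z_TON) (hAREA : Z_AREA) : Z_EQ1 := by
  intro r x₀ z₁ f f' ξ h h' hd hl he j1 j2
  have a1 := h.sh.1
  have a1' := h'.sh.1
  have b2 := h.sh.2.1
  have b2' := h'.sh.2.1
  obtain ⟨a3, b3⟩ := h.sh.nonneg
  obtain ⟨a3', b3'⟩ := h'.sh.nonneg
  set m := f.a₁ / f'.a₁ with hm
  have hm0 : 0 < m := div_pos a1 a1'
  have e1 : f.a₁ = m * f'.a₁ := by rw [hm]; field_simp
  have e3 : f.a₃ = m * f'.a₃ := by rw [hm]; field_simp; linarith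
  have k1 := j1 (fun _ => 1) continuous_const fun _ => zero_le_one
  have k2 := j2 (fun _ => 1) continuous_const fun _ => zero_le_one
  obtain ⟨l1, l2⟩ := hl (fun _ => 1) continuous_const fun _ => zero_le_one
  have ar := hAREA r x₀ z₁ f f' (fun _ => 1) h h' continuous_const
  simp only [one_pow, intervalIntegral.integral_const, smul_eq_mul, mul_one, one_mul, sub_zero,
    add_sub_cancel_left] at k1 k2 l1 l2 ar
  set P := f'.a₁ * (f.b₃ + f.b₂) + f'.a₃ * f.b₂ with hP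
  set A' := f'.a₁ * (f'.b₃ + f'.b₂) + f'.a₃ * f'.b₂ with hA'
  have hP0 : 0 < P := by positivity
  have hA0 : 0 < A' := by positivity
  have eA : f.a₁ * (f.b₃ + f.b₂) + f.a₃ * f.b₂ = m * P := by rw [e1, e3, hP]; ring
  have eB : f.a₁ * (f'.b₃ + f'.b₂) + f.a₃ * f'.b₂ = m * A' := by rw [e1, e3, hA']; ring
  rw [eA] at k1 k2 ar
  rw [eB] at k2
  have hPA : P = m * A' := by
    refine le_antisymm (le_of_mul_le_mul_left ?_ hP0) (le_of_mul_le_mul_left ?_ (mul_pos hm0 hA0))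
    · nlinarith
    · nlinarith
  have hden0 : ∀ ζ, 0 ≤ den f f' ζ := fun ζ => mul_nonneg (Real.sqrt_nonneg _) (norm_nonneg _)
  have hO := isOpen_DD2 f'.a₁ f'.a₃ f'.b₃ f'.b₂
  have hall : ∀ ζ ∈ DD2 f'.a₁ f'.a₃ f'.b₃ f'.b₂, den f f' ζ = m := by
    refine eq_of hO (A := 2 * (m * P)) hm0 (by positivity) hd.cont hden0 ?_ ar ?_
    · rw [hTON _ _ _ _ _ h'.sh aemeasurable_const, int_const (sq_nonneg _), int_const (sq_nonneg _),
        int_const (mul_nonneg (sq_nonneg _) (by linarith)),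
        int_const (mul_nonneg (sq_nonneg _) (by linarith)),
        ← ENNReal.ofReal_add (mul_nonneg (mul_nonneg (sq_nonneg _) (by linarith)) (by linarith))
          (mul_nonneg (mul_nonneg (sq_nonneg _) (by linarith)) (by linarith)), hPA, hA']
      congr 1
      ring
    · rw [hTON _ _ _ _ _ h'.sh (hd.cont.aemeasurable hO.measurableSet).ennreal_ofReal]
      refine le_trans (le_of_eq ?_) (add_le_add l1
        (setLIntegral_mono' measurableSet_Ioo l2))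
      rw [int_const (by positivity), ← ENNReal.ofReal_add (by positivity)
        (mul_nonneg (by positivity) (by linarith)), hP]
      congr 1
      field_simp
      ring
  refine ⟨m, hm0, hall, ?_⟩
  have c1 : f'.a₁ * (f.b₃ + f.b₂) ≤ f'.a₁ * (m * (f'.b₃ + f'.b₂)) := by
    rw [setLIntegral_congr_fun measurableSet_Ioo
      (g := fun _ => ENNReal.ofReal (m * (2 * (f'.b₃ + f'.b₂) - 0))) (fun y hy => by
        rw [← int_const hm0.le]
        exact setLIntegral_congr_fun measurableSet_Ioo fun t ht => by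
          rw [hall _ (mem1 hy ht)]), int_const (mul_nonneg hm0.le (by linarith)),
      ENNReal.ofReal_le_ofReal_iff
        (mul_nonneg (mul_nonneg hm0.le (by linarith)) (by linarith))] at l1
    linarith
  have c2 : f'.a₃ * f.b₂ ≤ f'.a₃ * (m * f'.b₂) := by
    rcases a3'.lt_or_eq with k | k
    · obtain ⟨y, hy⟩ : (Ioo f'.a₁ (f'.a₁ + f'.a₃)).Nonempty := nonempty_Ioo.2 (by linarith)
      have := l2 y hy
      rw [setLIntegral_congr_fun measurableSet_Ioo (g := fun _ => ENNReal.ofReal m)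
        (fun t ht => by rw [hall _ (mem2 a1' hy ht)]), int_const hm0.le,
        ENNReal.ofReal_le_ofReal_iff (mul_nonneg hm0.le (by linarith))] at this
      exact mul_le_mul_of_nonneg_left (by linarith) k.le
    · rw [← k, zero_mul, zero_mul]
  refine (mul_left_cancel₀ a1'.ne' ?_).symm
  rw [hP, hA'] at hPA
  linarith

end Pool.Agent.P.MP_3bd355_an
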