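import Pool.Agent.P.MP_3bd355_an.Z.Stmts

/-! The case `A = 0`: package EQ2. -/

open Set Filter Metric Complex InnerProductSpace MeasureTheory
open scoped Topology ComplexConjugate Real

namespace Pool.Agent.P.MP_3bd355_an

namespace Eq2P

/-- A subset of full measure of the annulus is dense. -/
theorem dense_of_full {r : ℝ} {S : Set ℂ} (h : volume (ann r \ S) = 0) {p : ℂ}
    (hp : p ∈ closure (ann r)) : p ∈ closure S := by
  rw [_root_.mem_closure_iff] at hp ⊢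
  intro O hO hpO
  by_contra hne
  have hsub : O ∩ ann r ⊆ ann r \ S := fun z hz => ⟨hz.2, fun hs => hne ⟨z, hz.1, hs⟩⟩
  exact ((hO.inter (isOpen_ann r)).measure_pos volume (hp O hO hpO)).ne'
    (measure_mono_null hsub h)

/-- Points where the distance function is small come from the long rectangle. -/
theorem small {a₁ a₃ b₃ b₂ : ℝ} (hs : Sh a₁ a₃ b₃ b₂) : ∃ δ > 0, ∀ ζ ∈ DD2 a₁ a₃ b₃ b₂,
    b₃ + b₂ - |b₃ + b₂ - ζ.re| < δ → ζ.re ∈ Ioo 0 (2 * (b₃ + b₂)) ∧ ζ.im ∈ Ioo 0 a₁ := by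
  rcases hs.2.2 with ⟨-, h3⟩ | ⟨rfl, rfl⟩
  · refine ⟨b₃, h3, fun ζ hζ hx => ?_⟩
    obtain ⟨h0, h2 | h2⟩ := hζ
    · exact ⟨⟨h2.1, h2.2.1⟩, h0, h2.2.2⟩
    · have : |b₃ + b₂ - ζ.re| < b₂ := abs_lt.2 ⟨by linarith [h2.2.1], by linarith [h2.1]⟩
      linarith
  · refine ⟨1, one_pos, fun ζ hζ _ => ?_⟩
    obtain ⟨h0, h2 | h2⟩ := hζ
    · exact ⟨⟨h2.1, h2.2.1⟩, h0, h2.2.2⟩
    · exact ⟨⟨h2.1, by linarith [h2.2.1]⟩, h0, by linarith [h2.2.2]⟩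

theorem key {r x₀ : ℝ} {z₁ : ℂ} {f f' : Fl} {ξ G : ℂ → ℝ} {m c : ℝ} (h : FL r x₀ z₁ f)
    (h' : FL r x₀ z₁ f') (hv : DV r f f' ξ G) (hm : m * (f'.b₃ + f'.b₂) = f.b₃ + f.b₂)
    (hc : ∀ s ∈ Ioo 0 (2 * (f'.b₃ + f'.b₂)), ∀ y ∈ Ioo 0 f'.a₁, ξ (s + y * I) = m * s + c)
    {p : ℂ} {L : ℝ} (hp : p ∈ closure (ann r)) (hx' : Tendsto f'.x (𝓝[ann r] p) (𝓝 0))
    (hx : Tendsto f.x (𝓝[ann r] p) (𝓝 L)) : L = tent (f.b₃ + f.b₂) c := by
  set b := f.b₃ + f.b₂ with hb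
  have hb0 : 0 < b := add_pos_of_nonneg_of_pos h.sh.nonneg.2 h.sh.2.1
  set S := f'.Z '' DD2 f'.a₁ f'.a₃ f'.b₃ f'.b₂ with hS
  have hSa : S ⊆ ann r := by
    rintro _ ⟨ζ, hζ, rfl⟩
    exact (h'.fz.maps ζ hζ).1.1
  have hne : (𝓝[S] p).NeBot := mem_closure_iff_nhdsWithin_neBot.1 (dense_of_full h'.fz.full hp)
  have hle : 𝓝[S] p ≤ 𝓝[ann r] p := nhdsWithin_mono p hSa
  have hx2 := hx'.mono_left hle
  obtain ⟨δ, hδ, hsm⟩ := small h'.sh
  have hor : ∀ᶠ z in 𝓝[S] p, f.x z = tent b (c + m * f'.x z) ∨ f.x z = tent b (c - m * f'.x z) := by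
    filter_upwards [self_mem_nhdsWithin, hx2.eventually (gt_mem_nhds hδ)]
    rintro _ ⟨ζ, hζ, rfl⟩ hlt
    rw [h'.fz.xZ ζ hζ] at hlt ⊢
    obtain ⟨k1, k2⟩ := hsm ζ hζ hlt
    have e := hc _ k1 _ k2
    rw [re_add_im] at e
    have e2 := (hv.rel ζ hζ).tent hb0 (h.fx.rng _).1 (h.fx.rng _).2
    rw [← e2, e]
    rcases le_total ζ.re (f'.b₃ + f'.b₂) with k | k
    · left
      rw [abs_of_nonneg (sub_nonneg.2 k)]
      congr 1
      ring
    · right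
      rw [abs_of_nonpos (sub_nonpos.2 k), ← tent_add hb0 1 (c - _)]
      congr 1
      rw [← hm]
      push_cast
      ring
  have t1 : Tendsto (fun z => tent b (c + m * f'.x z)) (𝓝[S] p) (𝓝 (tent b c)) := by
    have := ((continuous_tent b).tendsto _).comp ((hx2.const_mul m).const_add c)
    simpa [Function.comp_def] using this
  have t2 : Tendsto (fun z => tent b (c - m * f'.x z)) (𝓝[S] p) (𝓝 (tent b c)) := by
    have := ((continuous_tent b).tendsto _).comp ((hx2.const_mul m).const_sub c)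
    simpa [Function.comp_def] using this
  refine tendsto_nhds_unique (hx.mono_left hle) ?_
  rw [tendsto_iff_forall_eventually_mem]
  intro U hU
  filter_upwards [hor, t1.eventually_mem hU, t2.eventually_mem hU] with z k k1 k2
  rcases k with k | k
  · exact k ▸ k1
  · exact k ▸ k2

end Eq2P

theorem z_eq2 (hEQ3 : Z_EQ3) : Z_EQ2 := by
  intro r x₀ z₁ f f' ξ G m h h' hv hd he hm0 hden hm p hp
  obtain ⟨c, hc⟩ := hEQ3 f f' ξ m h'.sh hv.cont hd he hm0 hden hm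
  have h1 : (1 : ℂ) ∈ closure (ann r) := by
    rw [closure_ann h.ka.r0 h.ka.r1]
    exact ⟨by rw [norm_one]; exact h.ka.r1.le, norm_one.le⟩
  have e1 := Eq2P.key h h' hv hm hc h1 (h'.fx.out 1 norm_one) (h.fx.out 1 norm_one)
  have e2 := Eq2P.key h h' hv hm hc (subset_closure hp.2)
    (by rw [← h'.fx.zero p hp.1]; exact h'.fx.cont p hp.2) (h.fx.cont p hp.2)
  by_contra hn
  exact (h.fx.pos p ⟨hp.2, hn⟩).ne' (e2.trans e1.symm)

end Pool.Agent.P.MP_3bd355_an
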