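import Pool.Agent.P.MP_3bd355_an.Z.Stmts

/-! The case `A = 0`: package EQ3. -/

open Set Filter Metric Complex InnerProductSpace MeasureTheory
open scoped Topology ComplexConjugate Real

namespace Pool.Agent.P.MP_3bd355_an

namespace Eq3P

/-- A local Lipschitz bound on a convex set is a global one. -/
theorem lip (hDINI : Z_DINI) {R : Set ℂ} (hR : Convex ℝ R) {ξ : ℂ → ℝ} {m : ℝ} (hm : 0 ≤ m)
    (hc : ContinuousOn ξ R)
    (hd : ∀ ζ₀ ∈ R, ∀ ε > 0, ∀ᶠ ζ in 𝓝 ζ₀, |ξ ζ - ξ ζ₀| ≤ (m + ε) * ‖ζ - ζ₀‖)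
    {p q : ℂ} (hp : p ∈ R) (hq : q ∈ R) : |ξ q - ξ p| ≤ m * ‖q - p‖ := by
  have hmem : ∀ t ∈ Icc (0 : ℝ) 1, p + t * (q - p) ∈ R := fun t ht => by
    simpa [real_smul] using hR.add_smul_sub_mem hp hq ht
  have hγ : Continuous fun t : ℝ => p + t * (q - p) := by fun_prop
  have key := hDINI (fun t => ξ (p + t * (q - p))) (fun _ => m * ‖q - p‖) 0 1 zero_le_one
    (hc.comp hγ.continuousOn hmem) continuousOn_const (fun _ _ => by positivity)
    (fun t ht ε hε => by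
      have h1 : 0 < ‖q - p‖ + 1 := by positivity
      filter_upwards [hγ.continuousAt.eventually
        (hd _ (hmem t (Ioo_subset_Icc_self ht)) (ε / (‖q - p‖ + 1)) (div_pos hε h1))] with s hs
      have e : ‖p + s * (q - p) - (p + t * (q - p))‖ = |s - t| * ‖q - p‖ := by
        rw [show p + s * (q - p) - (p + t * (q - p)) = ((s - t : ℝ) : ℂ) * (q - p) by
          push_cast; ring, norm_mul, norm_real, Real.norm_eq_abs]
      rw [e] at hs
      refine hs.trans ?_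
      have h2 : ε / (‖q - p‖ + 1) * ‖q - p‖ ≤ ε := by
        rw [div_mul_eq_mul_div, div_le_iff₀ h1]
        nlinarith
      nlinarith [abs_nonneg (s - t)])
  rw [setLIntegral_const, Real.volume_Ioo, sub_zero, ENNReal.ofReal_one, mul_one,
    ENNReal.ofReal_le_ofReal_iff (by positivity)] at key
  simpa using key

/-- The long rectangle. -/
def Rc (b a : ℝ) : Set ℂ := {ζ | 0 < ζ.re ∧ ζ.re < b ∧ 0 < ζ.im ∧ ζ.im < a}

theorem convex_Rc (b a : ℝ) : Convex ℝ (Rc b a) :=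
  (convex_halfSpace_re_gt _).inter ((convex_halfSpace_re_lt _).inter
    ((convex_halfSpace_im_gt _).inter (convex_halfSpace_im_lt _)))

theorem mem_Rc {b a s y : ℝ} (hs : s ∈ Ioo 0 b) (hy : y ∈ Ioo 0 a) : (s + y * I : ℂ) ∈ Rc b a := by
  refine ⟨?_, ?_, ?_, ?_⟩ <;> simp [hs.1, hs.2, hy.1, hy.2]

section
variable {ξ : ℂ → ℝ} {m b a : ℝ} (hc : ContinuousOn ξ (Rc b a))
  (hl : ∀ p ∈ Rc b a, ∀ q ∈ Rc b a, |ξ q - ξ p| ≤ m * ‖q - p‖)

include hl in
theorem hor {s s' y : ℝ} (hs : s ∈ Ioo 0 b) (hs' : s' ∈ Ioo 0 b) (hy : y ∈ Ioo 0 a)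
    (h : s ≤ s') : ξ (s' + y * I) - ξ (s + y * I) ≤ m * (s' - s) := by
  have := hl _ (mem_Rc hs hy) _ (mem_Rc hs' hy)
  rw [show (s' + y * I : ℂ) - (s + y * I) = ((s' - s : ℝ) : ℂ) by push_cast; ring, norm_real,
    Real.norm_eq_abs, abs_of_nonneg (sub_nonneg.2 h)] at this
  exact (le_abs_self _).trans this

include hc in
theorem ver_cont {s : ℝ} (hs : s ∈ Ioo 0 b) :
    ContinuousOn (fun y : ℝ => ξ (s + y * I)) (Ioo 0 a) :=
  hc.comp (by fun_prop) fun _ hy => mem_Rc hs hy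

include hc hl in
theorem aff (hm : 0 < m) (he : ∀ η > 0, ∀ᶠ t : ℝ in 𝓝[>] 0, IntervalIntegrable (fun y : ℝ =>
      ξ ((b - t : ℝ) + y * I) - ξ (t + y * I)) volume 0 a ∧
      m * b * a - η ≤ ∫ y in (0 : ℝ)..a, (ξ ((b - t : ℝ) + y * I) - ξ (t + y * I)))
    {s s' y : ℝ} (hs : s ∈ Ioo 0 b) (hs' : s' ∈ Ioo 0 b) (hy : y ∈ Ioo 0 a) (h : s ≤ s') :
    ξ (s' + y * I) - ξ (s + y * I) = m * (s' - s) := by
  refine le_antisymm (hor hl hs hs' hy h) (not_lt.1 fun hlt => ?_)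
  obtain ⟨y₁, k1, k1'⟩ := exists_between hy.1
  obtain ⟨y₂, k2, k2'⟩ := exists_between hy.2
  have hsub : Icc y₁ y₂ ⊆ Ioo 0 a := Icc_subset_Ioo k1 k2'
  have h12 : y₁ < y₂ := k1'.trans k2
  set D : ℝ → ℝ := fun u => m * (s' - s) - (ξ (s' + u * I) - ξ (s + u * I)) with hD
  have hDc : ContinuousOn D (Icc y₁ y₂) :=
    (continuousOn_const.sub ((ver_cont hc hs').sub (ver_cont hc hs))).mono hsub
  have hpos : 0 < ∫ u in y₁..y₂, D u :=
    intervalIntegral.integral_pos h12 hDc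
      (fun u hu => sub_nonneg.2 (hor hl hs hs' (hsub (Ioc_subset_Icc_self hu)) h))
      ⟨y, ⟨k1'.le, k2.le⟩, sub_pos.2 hlt⟩
  have hmin : 0 < min s (b - s') := lt_min hs.1 (sub_pos.2 hs'.2)
  obtain ⟨t, ⟨hi, hle⟩, ht⟩ := ((he _ (half_pos hpos)).and (Ioo_mem_nhdsGT hmin)).exists
  have ht1 : t < s := ht.2.trans_le (min_le_left _ _)
  have ht2 : s' < b - t := by linarith [ht.2.trans_le (min_le_right _ _)]
  have m1 : t ∈ Ioo 0 b := ⟨ht.1, ht1.trans hs.2⟩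
  have m2 : b - t ∈ Ioo 0 b := ⟨hs'.1.trans ht2, by linarith [ht.1]⟩
  have ha : 0 < a := hy.1.trans hy.2
  set E : ℝ → ℝ := fun u => m * b - (ξ ((b - t : ℝ) + u * I) - ξ (t + u * I)) with hE
  have hEi : IntervalIntegrable E volume 0 a := intervalIntegrable_const.sub hi
  have hDE : ∀ u ∈ Ioo 0 a, D u ≤ E u := fun u hu => by
    have a1 := hor hl m1 hs hu ht1.le
    have a2 := hor hl hs' m2 hu ht2.le
    have a3 := mul_pos hm ht.1
    simp only [hD, hE]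
    nlinarith
  have hE0 : ∀ u ∈ Ioo 0 a, 0 ≤ E u := fun u hu =>
    (sub_nonneg.2 (hor hl hs hs' hu h)).trans (hDE u hu)
  have i1 : ∫ u in y₁..y₂, D u ≤ ∫ u in y₁..y₂, E u :=
    intervalIntegral.integral_mono_on h12.le (hDc.intervalIntegrable_of_Icc h12.le)
      (hEi.mono_set (by
        rw [uIcc_of_le h12.le, uIcc_of_le ha.le]
        exact hsub.trans Ioo_subset_Icc_self)) fun u hu => hDE u (hsub hu)
  have i2 : ∫ u in y₁..y₂, E u ≤ ∫ u in (0 : ℝ)..a, E u := by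
    refine intervalIntegral.integral_mono_interval k1.le h12.le k2'.le ?_ hEi
    rw [← Measure.restrict_congr_set Ioo_ae_eq_Ioc]
    exact ae_restrict_of_forall_mem measurableSet_Ioo hE0
  have i3 : ∫ u in (0 : ℝ)..a, E u = m * b * a -
      ∫ y in (0 : ℝ)..a, (ξ ((b - t : ℝ) + y * I) - ξ (t + y * I)) := by
    simp only [hE]
    rw [intervalIntegral.integral_sub intervalIntegrable_const hi, intervalIntegral.integral_const,
      smul_eq_mul]
    ring
  linarith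

end

end Eq3P

open Eq3P in
theorem z_eq3 (hDINI : Z_DINI) : Z_EQ3 := by
  intro f f' ξ m hs hc hd he hm hden hb
  set b := f'.b₃ + f'.b₂ with hb'
  have hb0 : 0 < b := add_pos_of_nonneg_of_pos hs.nonneg.2 hs.2.1
  have hsub : Rc (2 * b) f'.a₁ ⊆ DD2 f'.a₁ f'.a₃ f'.b₃ f'.b₂ := fun ζ hζ =>
    ⟨hζ.2.2.1, Or.inl ⟨hζ.1, hζ.2.1, hζ.2.2.2⟩⟩
  have hc' := hc.mono hsub
  have hl : ∀ p ∈ Rc (2 * b) f'.a₁, ∀ q ∈ Rc (2 * b) f'.a₁, |ξ q - ξ p| ≤ m * ‖q - p‖ :=
    fun p hp q hq => lip hDINI (convex_Rc _ _) hm.le hc' (fun ζ hζ ε hε => by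
      have := hd.dom ζ (hsub hζ) ε hε
      rwa [hden ζ (hsub hζ)] at this) hp hq
  have haf := fun s s' y => aff hc' hl hm (fun η hη => by
    filter_upwards [he η hη] with t ht
    refine ⟨ht.1, le_trans (le_of_eq ?_) ht.2⟩
    rw [id, ← hb]
    ring) (s := s) (s' := s') (y := y)
  have mb : b ∈ Ioo 0 (2 * b) := ⟨hb0, by linarith⟩
  set C : ℝ → ℝ := fun y => ξ (b + y * I) - m * b with hC
  have hform : ∀ s ∈ Ioo 0 (2 * b), ∀ y ∈ Ioo 0 f'.a₁, ξ (s + y * I) = m * s + C y :=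
    fun s hs y hy => by
      simp only [hC]
      rcases le_total s b with k | k
      · linarith [haf s b y hs mb hy k]
      · linarith [haf b s y mb hs hy k]
  have m1 : b / 2 ∈ Ioo 0 (2 * b) := ⟨by linarith, by linarith⟩
  have m2 : 3 * b / 2 ∈ Ioo 0 (2 * b) := ⟨by linarith, by linarith⟩
  have hq : ∀ y ∈ Ioo 0 f'.a₁, ∀ y' ∈ Ioo 0 f'.a₁, C y' - C y ≤ m / b * (y' - y) ^ 2 :=
    fun y hy y' hy' => by
      have h1 := hl _ (mem_Rc m1 hy) _ (mem_Rc m2 hy')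
      rw [hform _ m1 y hy, hform _ m2 y' hy'] at h1
      have h2 : ‖(((3 * b / 2 : ℝ) : ℂ) + y' * I) - ((b / 2 : ℝ) + y * I)‖ ≤
          b + (y' - y) ^ 2 / b := by
        rw [show (((3 * b / 2 : ℝ) : ℂ) + y' * I) - ((b / 2 : ℝ) + y * I) =
          b + ((y' - y : ℝ) : ℂ) * I by push_cast; ring, norm_add_mul_I]
        refine Real.sqrt_le_iff.2 ⟨by positivity, ?_⟩
        have e : b * ((y' - y) ^ 2 / b) = (y' - y) ^ 2 := by field_simp
        nlinarith [sq_nonneg ((y' - y) ^ 2 / b), sq_nonneg (y' - y)]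
      have h3 := (le_abs_self _).trans (h1.trans (mul_le_mul_of_nonneg_left h2 hm.le))
      have e : m * (b + (y' - y) ^ 2 / b) = m * b + m / b * (y' - y) ^ 2 := by ring
      linarith
  have hconst : ∀ y ∈ Ioo 0 f'.a₁, ∀ y' ∈ Ioo 0 f'.a₁, y ≤ y' → C y' = C y :=
    fun y hy y' hy' hle => by
      have hsub' : Icc y y' ⊆ Ioo 0 f'.a₁ := Icc_subset_Ioo hy.1 hy'.2
      have key := hDINI C (fun _ => 0) y y' hle
        (((ver_cont hc' mb).sub continuousOn_const).mono hsub') continuousOn_const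
        (fun _ _ => le_rfl) (fun t ht ε hε => by
          have htm := hsub' (Ioo_subset_Icc_self ht)
          have hmb : 0 < m / b := div_pos hm hb0
          filter_upwards [isOpen_Ioo.mem_nhds htm, ball_mem_nhds t (div_pos hε hmb)] with s h1 h2
          rw [mem_ball, Real.dist_eq, lt_div_iff₀ hmb] at h2
          have a1 := hq t htm s h1
          have a2 := hq s h1 t htm
          have e1 : (s - t) ^ 2 = |s - t| * |s - t| := by rw [abs_mul_abs_self, sq]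
          have e2 : (t - s) ^ 2 = |s - t| * |s - t| := by rw [← e1]; ring
          rw [e1] at a1
          rw [e2] at a2
          have a3 : m / b * (|s - t| * |s - t|) ≤ (0 + ε) * |s - t| := by
            nlinarith [abs_nonneg (s - t)]
          exact abs_le.2 ⟨by linarith, by linarith⟩)
      simpa [sub_eq_zero] using key
  have ha : f'.a₁ / 2 ∈ Ioo 0 f'.a₁ := ⟨by linarith [hs.1], by linarith [hs.1]⟩
  refine ⟨C (f'.a₁ / 2), fun s hs y hy => ?_⟩
  rw [hform s hs y hy]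
  rcases le_total y (f'.a₁ / 2) with k | k
  · rw [hconst y hy _ ha k]
  · rw [hconst _ ha y hy k]

end Pool.Agent.P.MP_3bd355_an
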