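import Pool.Agent.P.MP_3bd355_an.Z.Stmts

/-! The case `A = 0`: package FB. -/

open Set Filter Metric Complex InnerProductSpace MeasureTheory
open scoped Topology ComplexConjugate Real

namespace Pool.Agent.P.MP_3bd355_an

namespace FbP

theorem RR_eq (a δ : ℝ) : RR a δ = Ioo (-a) a ×ℂ Ioo 0 δ := by
  ext η
  simp [RR, mem_reProdIm, and_assoc]

theorem mem_cl {a δ y : ℝ} (ha : 0 < a) (hδ : 0 < δ) (hy : y ∈ Icc (-a) a) :
    (y : ℂ) ∈ closure (RR a δ) := by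
  rw [RR_eq, closure_reProdIm, closure_Ioo (by linarith), closure_Ioo hδ.ne]
  exact ⟨by simpa using hy, by simpa using hδ.le⟩

theorem nhd_eq {a δ y : ℝ} (hδ : 0 < δ) (hy : y ∈ Ioo (-a) a) :
    𝓝[RR a δ] (y : ℂ) = 𝓝[upH] (y : ℂ) := by
  have hO : IsOpen {η : ℂ | -a < η.re ∧ η.re < a ∧ η.im < δ} :=
    (isOpen_lt continuous_const continuous_re).inter
      ((isOpen_lt continuous_re continuous_const).inter (isOpen_lt continuous_im continuous_const))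
  have hm : (y : ℂ) ∈ {η : ℂ | -a < η.re ∧ η.re < a ∧ η.im < δ} :=
    ⟨by simpa using hy.1, by simpa using hy.2, by simpa using hδ⟩
  rw [nhdsWithin_restrict' upH (hO.mem_nhds hm)]
  congr 1
  ext η
  simp only [RR, upH, mem_inter_iff, mem_ofPred_eq]
  tauto

variable {r x₀ : ℝ} {z₁ : ℂ} {κ : ℝ → ℂ} {Q : ℂ → ℂ} {a b₁ δ : ℝ} {x : ℂ → ℝ} {Z F : ℂ → ℂ}

theorem ex_lim (hK : KA r x₀ z₁ κ Q) (hC : FC r κ Q a b₁ δ x Z F) (ha : 0 < a) {y : ℝ}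
    (hy : y ∈ Icc (-a) a) : ∃ p, Tendsto F (𝓝[RR a δ] (y : ℂ)) (𝓝 p) := by
  obtain ⟨S, hS, hQ⟩ := hK.fin0
  refine all_REG0 Q F (cann r) S (RR a δ) y 1 (isCompact_cann r) hS hQ (isOpen_RR a δ)
    (convex_RR a δ) (mem_cl ha hC.δ0 hy) hC.d (fun η hη => ann_sub_cann r (hC.maps η hη).1) ?_
  intro η hη
  rw [hC.ode η hη]
  simp

theorem lim_cann (hC : FC r κ Q a b₁ δ x Z F) (ha : 0 < a) {y : ℝ}
    (hy : y ∈ Icc (-a) a) {p : ℂ} (hp : Tendsto F (𝓝[RR a δ] (y : ℂ)) (𝓝 p)) : p ∈ cann r := by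
  have : (𝓝[RR a δ] (y : ℂ)).NeBot := mem_closure_iff_nhdsWithin_neBot.1 (mem_cl ha hC.δ0 hy)
  refine (isCompact_cann r).isClosed.mem_of_tendsto hp ?_
  filter_upwards [self_mem_nhdsWithin] with η hη
  exact ann_sub_cann r (hC.maps η hη).1

theorem lim_mem (hX : FX r x₀ z₁ κ Q b₁ x) (hC : FC r κ Q a b₁ δ x Z F) (ha : 0 < a) {y : ℝ}
    (hy : y ∈ Icc (-a) a) {p : ℂ} (hp : Tendsto F (𝓝[RR a δ] (y : ℂ)) (𝓝 p)) :
    p ∈ KK κ ∨ ‖p‖ = 1 := by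
  have : (𝓝[RR a δ] (y : ℂ)).NeBot := mem_closure_iff_nhdsWithin_neBot.1 (mem_cl ha hC.δ0 hy)
  have hc := lim_cann hC ha hy hp
  have hp' : Tendsto F (𝓝[RR a δ] (y : ℂ)) (𝓝[ann r] p) := by
    refine tendsto_nhdsWithin_iff.2 ⟨hp, ?_⟩
    filter_upwards [self_mem_nhdsWithin] with η hη
    exact (hC.maps η hη).1
  have h0 : Tendsto (fun η => x (F η)) (𝓝[RR a δ] (y : ℂ)) (𝓝 0) := by
    have h1 : Tendsto (fun η : ℂ => η.im) (𝓝[RR a δ] (y : ℂ)) (𝓝 0) := by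
      have := (continuous_im.tendsto (y : ℂ)).mono_left (nhdsWithin_le_nhds (s := RR a δ))
      simpa using this
    refine h1.congr' ?_
    filter_upwards [self_mem_nhdsWithin] with η hη
    exact (hC.xF η hη).symm
  by_contra hn
  push Not at hn
  rcases hc.1.eq_or_lt with h1 | h1
  · obtain ⟨e, he, hev⟩ := hX.expo p h1.symm hn.1
    have := ge_of_tendsto h0 (hp'.eventually hev)
    linarith
  · have hm : p ∈ ann r := ⟨h1, lt_of_le_of_ne hc.2 hn.2⟩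
    have h2 : Tendsto (fun η => x (F η)) (𝓝[RR a δ] (y : ℂ)) (𝓝 (x p)) :=
      (hX.cont p hm).tendsto.comp hp'
    have h3 := tendsto_nhds_unique h0 h2
    have h4 := hX.pos p ⟨hm, hn.1⟩
    linarith

theorem isolated (hK : KA r x₀ z₁ κ Q) (hX : FX r x₀ z₁ κ Q b₁ x) (hC : FC r κ Q a b₁ δ x Z F)
    (ha : 0 < a) {y : ℝ} (hy : y ∈ Ioo (-a) a) {p : ℂ}
    (hp : Tendsto F (𝓝[RR a δ] (y : ℂ)) (𝓝 p)) :
    ∀ᶠ s : ℝ in 𝓝[≠] y, ¬ Tendsto F (𝓝[upH] (s : ℂ)) (𝓝 p) := by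
  have hy' : y ∈ Icc (-a) a := Ioo_subset_Icc_self hy
  have hc := lim_cann hC ha hy' hp
  have hm := lim_mem hX hC ha hy' hp
  have hne : ∀ z ∈ XX r κ, z ≠ p := by
    intro z hz e
    rcases hm with h | h
    · exact hz.2 (e ▸ h)
    · have := hz.1.2
      rw [e, h] at this
      exact lt_irrefl _ this
  have hx0 : p ≠ x₀ := fun e => hne x₀ ⟨hK.m0, hK.avoid⟩ e.symm
  obtain ⟨n, ψ, hψ⟩ := hK.chart p hc hx0
  have hev : ∀ᶠ η : ℂ in 𝓝[upH] (y : ℂ), η ∈ RR a δ := by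
    rw [← nhd_eq hC.δ0 hy]
    exact self_mem_nhdsWithin
  have hEd : Ed Q F y 0 := by
    refine ⟨fun _ => -1, analyticAt_const, Eventually.of_forall fun _ => by simp, by simp, ?_⟩
    filter_upwards [hev] with η hη
    rw [hC.ode η hη]
    simp
  have han : ∀ᶠ η : ℂ in 𝓝[upH] (y : ℂ), AnalyticAt ℂ F η ∧ F η ≠ p := by
    filter_upwards [hev] with η hη
    exact ⟨hC.d.analyticAt ((isOpen_RR a δ).mem_nhds hη), hne _ (hC.maps η hη)⟩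
  rw [nhd_eq hC.δ0 hy] at hp
  obtain ⟨k, χ, hk, hχ, hF⟩ := all_LOC1 Q ψ F p y n 0 (by simp) hψ hEd han hp
  have hθ : 0 < th n 0 := Loc2P.th_pos hψ.pos
  have hk1 : ‖k‖ = 1 := Loc2P.norm_root hψ.pos hk
  obtain ⟨U, hU, hinj⟩ := (Loc2P.rchart hχ).inj
  have hU' : ∀ᶠ s : ℝ in 𝓝 y, (s : ℂ) ∈ U := continuous_ofReal.continuousAt.eventually hU
  filter_upwards [mem_nhdsWithin_of_mem_nhds (eventually_upH hF), mem_nhdsWithin_of_mem_nhds hU',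
    mem_nhdsWithin_of_mem_nhds
      (continuous_ofReal.continuousAt.eventually hχ.ana.eventually_analyticAt),
    self_mem_nhdsWithin] with s h1 h2 h3 h4 h5
  have : (𝓝[upH] (s : ℂ)).NeBot := (tendsto_vert s).neBot
  have hs0 : χ s ≠ 0 := by
    intro e
    have := hinj h2 (mem_of_mem_nhds hU) (e.trans hχ.zero.symm)
    exact h4 (ofReal_injective this)
  have t1 : Tendsto (fun η => ‖ψ (F η)‖) (𝓝[upH] (s : ℂ)) (𝓝 0) := by
    have := (hψ.ana.continuousAt.tendsto.comp h5).norm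
    rwa [hψ.zero, norm_zero] at this
  have t2 : Tendsto (fun η => ‖χ η‖ ^ th n 0) (𝓝[upH] (s : ℂ)) (𝓝 (‖χ s‖ ^ th n 0)) :=
    (h3.continuousAt.norm.rpow_const (Or.inr hθ.le)).tendsto.mono_left nhdsWithin_le_nhds
  have t3 : Tendsto (fun η => ‖ψ (F η)‖) (𝓝[upH] (s : ℂ)) (𝓝 (‖χ s‖ ^ th n 0)) := by
    refine t2.congr' ?_
    filter_upwards [h1] with η hη
    rw [hη, norm_mul, hk1, one_mul, norm_cpow_real]
  have t4 := tendsto_nhds_unique t1 t3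
  have t5 : 0 < ‖χ s‖ ^ th n 0 := Real.rpow_pos_of_pos (norm_pos_iff.2 hs0) _
  linarith

end FbP

theorem z_fb : Z_FB := by
  intro r x₀ z₁ κ Q a b₁ δ x Z F hK hX hC ha
  have h1 : ∀ y : ℝ, ∃ p : ℂ, y ∈ Icc (-a) a → Tendsto F (𝓝[RR a δ] (y : ℂ)) (𝓝 p) := by
    intro y
    by_cases hy : y ∈ Icc (-a) a
    · obtain ⟨p, hp⟩ := FbP.ex_lim hK hC ha hy
      exact ⟨p, fun _ => hp⟩
    · exact ⟨0, fun h => absurd h hy⟩
  choose Fb hFb using h1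
  refine ⟨Fb, hFb, fun y hy => FbP.lim_mem hX hC ha hy (hFb y hy), fun p => ?_⟩
  set T : Set ℝ := {y | y ∈ Ioo (-a) a ∧ Fb y = p} with hT
  refine Set.Countable.measure_zero ?_ _
  refine (countable_setOfPred_isolated_right_within (s := T)).mono fun y (hy : y ∈ T) => ?_
  refine ⟨hy, ?_⟩
  have h2 := FbP.isolated hK hX hC ha hy.1 (hFb y (Ioo_subset_Icc_self hy.1))
  rw [← empty_mem_iff_bot]
  have h3 : 𝓝[T ∩ Ioi y] y ≤ 𝓝[≠] y := nhdsWithin_mono _ fun s hs => ne_of_gt hs.2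
  filter_upwards [h3 h2, self_mem_nhdsWithin] with s h4 h5
  refine h4 ?_
  have h6 := hFb s (Ioo_subset_Icc_self h5.1.1)
  rw [FbP.nhd_eq hC.δ0 h5.1.1, h5.1.2] at h6
  rw [hy.2]
  exact h6

end Pool.Agent.P.MP_3bd355_an
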