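import Pool.Agent.P.MP_3bd355_an.Z.Stmts

/-! The case `A = 0`: package FC. -/

open Set Filter Metric Complex InnerProductSpace MeasureTheory
open scoped Topology ComplexConjugate Real

namespace Pool.Agent.P.MP_3bd355_an

namespace FcP

/-- The inverse of the primitive on the collar. -/
noncomputable def V (d : Dat) (η : ℂ) : ℂ :=
  if η.re ≤ 0 then d.U (-I * η) else conj (d.U (conj (-I * η)))

theorem F_eq (d : Dat) (η : ℂ) : d.F η = d.Ψ (V d η) := by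
  rw [Dat.F, V]; split_ifs <;> rfl

theorem rot_re (η : ℂ) : (-I * η).re = η.im := by simp

theorem rot_im (η : ℂ) : (-I * η).im = -η.re := by simp

variable {d : Dat} {δ : ℝ}

theorem half (h : GF d) {ζ : ℂ} (h1 : 0 < ζ.re) (h2 : ζ.re < d.b₃ + d.b₂) (h3 : 0 ≤ ζ.im)
    (h4 : ζ.im < d.a₁) :
    d.U ζ ∈ PC d.Λ d.fin ∧ d.U ζ ∈ Str d.Λ ∧ d.Φ (d.U ζ) = ζ ∧ (d.fin → (d.U ζ).im < π) ∧
      (0 < ζ.im → 0 < (d.U ζ).im) ∧ (ζ.im = 0 → (d.U ζ).im = 0 ∧ (d.U ζ).re < d.u₀) := by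
  rcases h3.lt_or_eq with h3 | h3
  · obtain ⟨k1, k2⟩ := h.Lo_U (ζ := ζ) ⟨h1, h2, h3, Or.inl h4⟩
    exact ⟨PP_sub_PC _ _ k1, PP_sub_Str _ _ k1, k2, k1.2.2.2, fun _ => k1.2.2.1,
      fun e => absurd e h3.ne'⟩
  · obtain ⟨k1, k2, k3⟩ := h.bl_U h3.symm h1 h2
    exact ⟨k2, ⟨k1.2.1, k1.2.2.trans h.md.u1⟩, k3, fun _ => k1.1.trans_lt Real.pi_pos,
      fun e => absurd h3 e.ne, fun _ => ⟨k1.1, k1.2.2⟩⟩

theorem left (h : GF d) (hδ : δ ≤ d.b₃ + d.b₂) {η : ℂ} (hη : η ∈ RR d.a₁ δ) (h0 : η.re ≤ 0) :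
    d.U (-I * η) ∈ PC d.Λ d.fin ∧ d.U (-I * η) ∈ Str d.Λ ∧ d.Φ (d.U (-I * η)) = -I * η ∧
      (d.fin → (d.U (-I * η)).im < π) ∧ (0 < (-I * η).im → 0 < (d.U (-I * η)).im) ∧
      ((-I * η).im = 0 → (d.U (-I * η)).im = 0 ∧ (d.U (-I * η)).re < d.u₀) :=
  half h (by rw [rot_re]; exact hη.2.2.1) (by rw [rot_re]; exact hη.2.2.2.trans_le hδ)
    (by rw [rot_im]; linarith) (by rw [rot_im]; linarith [hη.1])

theorem right (h : GF d) (hδ : δ ≤ d.b₃ + d.b₂) {η : ℂ} (hη : η ∈ RR d.a₁ δ) (h0 : 0 ≤ η.re) :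
    d.U (conj (-I * η)) ∈ PC d.Λ d.fin ∧ d.U (conj (-I * η)) ∈ Str d.Λ ∧
      d.Φ (d.U (conj (-I * η))) = conj (-I * η) ∧
      (d.fin → (d.U (conj (-I * η))).im < π) ∧
      (0 < (conj (-I * η)).im → 0 < (d.U (conj (-I * η))).im) ∧
      ((conj (-I * η)).im = 0 →
        (d.U (conj (-I * η))).im = 0 ∧ (d.U (conj (-I * η))).re < d.u₀) :=
  half h (by rw [conj_re, rot_re]; exact hη.2.2.1)
    (by rw [conj_re, rot_re]; exact hη.2.2.2.trans_le hδ)
    (by rw [conj_im, rot_im, neg_neg]; exact h0) (by rw [conj_im, rot_im, neg_neg]; exact hη.2.1)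

theorem V_le (d : Dat) {η : ℂ} (h0 : η.re ≤ 0) : V d η = d.U (-I * η) := if_pos h0

theorem V_ge (h : GF d) (hδ : δ ≤ d.b₃ + d.b₂) {η : ℂ} (hη : η ∈ RR d.a₁ δ) (h0 : 0 ≤ η.re) :
    V d η = conj (d.U (conj (-I * η))) := by
  rw [V]
  split_ifs with h1
  · have e : (-I * η).im = 0 := by rw [rot_im, le_antisymm h1 h0, neg_zero]
    rw [conj_eq_iff_im.2 e, conj_eq_iff_im.2 ((left h hδ hη h1).2.2.2.2.2 e).1]
  · rfl

theorem V_mem (h : GF d) (hδ : δ ≤ d.b₃ + d.b₂) {η : ℂ} (hη : η ∈ RR d.a₁ δ) :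
    V d η ∈ FS d.Λ d.fin ∧ V d η ≠ d.u₀ ∧ (η.re ≤ 0 → 0 ≤ (V d η).im) ∧
      (0 < η.re → (V d η).im < 0) := by
  rcases le_or_gt η.re 0 with h0 | h0
  · obtain ⟨k1, k2, -, k4, k5, k6⟩ := left h hδ hη h0
    rw [V_le d h0]
    refine ⟨⟨k2.1, k2.2, fun hf => ⟨by linarith [k1.2.2.1, Real.pi_pos], (k4 hf).le⟩⟩,
      fun e => ?_, fun _ => k1.2.2.1, fun e => absurd h0 (not_le.2 e)⟩
    rw [e, rot_im] at k5 k6
    rcases h0.lt_or_eq with h0 | h0
    · exact lt_irrefl _ (k5 (neg_pos.2 h0))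
    · exact lt_irrefl _ (k6 (neg_eq_zero.2 h0)).2
  · obtain ⟨k1, k2, -, k4, k5, -⟩ := right h hδ hη h0.le
    have k7 := k5 (by rw [conj_im, rot_im, neg_neg]; exact h0)
    have k8 : (V d η).im < 0 := by rw [V_ge h hδ hη h0.le, conj_im]; linarith
    refine ⟨?_, fun e => ?_, fun e => absurd h0 (not_lt.2 e), fun _ => k8⟩
    · rw [V_ge h hδ hη h0.le]
      refine ⟨k2.1, k2.2, fun hf => ?_⟩
      rw [conj_im]; constructor <;> linarith [k4 hf, Real.pi_pos]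
    · rw [e] at k8
      exact lt_irrefl _ k8

theorem V_cont (h : GF d) (hδ : δ ≤ d.b₃ + d.b₂) : ContinuousOn (V d) (RR d.a₁ δ) := by
  refine ContinuousOn.if (fun η hη => ?_) ?_ ?_
  · have e : η.re = 0 := frontier_le_subset_eq continuous_re continuous_const hη.2
    rw [← V_ge h hδ hη.1 e.ge]
    exact (V_le d e.le).symm
  · rw [closure_le_eq continuous_re continuous_const]
    refine h.li.cont.comp (by fun_prop) fun η hη => ?_
    have := left h hδ hη.1 hη.2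
    exact ⟨_, this.1, this.2.2.1⟩
  · refine continuous_conj.comp_continuousOn (h.li.cont.comp (by fun_prop) fun η hη => ?_)
    have h1 : 0 ≤ η.re := closure_lt_subset_le continuous_const continuous_re
      (by simpa only [not_le] using hη.2)
    have := right h hδ hη.1 h1
    exact ⟨_, this.1, this.2.2.1⟩

theorem inv_sq {w : ℂ} (hw : 0 < w.im) : w * (rt w)⁻¹ ^ 2 = 1 := by
  rw [inv_pow, rt_sq, mul_inv_cancel₀ (by rintro rfl; simp at hw)]

theorem V_der (h : GF d) (hδ : δ ≤ d.b₃ + d.b₂) {η : ℂ} (hη : η ∈ RR d.a₁ δ) (h0 : η.re ≠ 0) :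
    ∃ s, HasDerivAt (V d) s η ∧ d.T (V d η) * s ^ 2 = -1 := by
  have rot : HasDerivAt (fun y : ℂ => -I * y) (-I) η := by
    simpa using (hasDerivAt_id η).const_mul (-I)
  have sq : (-I) ^ 2 = -1 := by rw [neg_sq, I_sq]
  rcases h0.lt_or_gt with h0 | h0
  · have m : -I * η ∈ Lo d.a₁ d.a₃ d.b₃ d.b₂ := ⟨by rw [rot_re]; exact hη.2.2.1,
      by rw [rot_re]; exact hη.2.2.2.trans_le hδ, by rw [rot_im]; linarith,
      Or.inl (by rw [rot_im]; linarith [hη.1])⟩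
    refine ⟨_, ((h.li.der _ m).comp η rot).congr_of_eventuallyEq ?_, ?_⟩
    · filter_upwards [(isOpen_lt continuous_re continuous_const).mem_nhds h0] with y hy
      exact V_le d (le_of_lt hy)
    · rw [V_le d h0.le, mul_pow, ← mul_assoc, inv_sq (h.md.im _ (h.Lo_U m).1), sq, one_mul]
  · have m : conj (-I * η) ∈ Lo d.a₁ d.a₃ d.b₃ d.b₂ := ⟨by rw [conj_re, rot_re]; exact hη.2.2.1,
      by rw [conj_re, rot_re]; exact hη.2.2.2.trans_le hδ,
      by rw [conj_im, rot_im, neg_neg]; exact h0,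
      Or.inl (by rw [conj_im, rot_im, neg_neg]; exact hη.2.1)⟩
    have k := (h.li.der _ m).conj_conj
    rw [conj_conj] at k
    refine ⟨_, (k.comp η rot).congr_of_eventuallyEq ?_, ?_⟩
    · filter_upwards [(isOpen_lt continuous_const continuous_re).mem_nhds h0] with y hy
      exact if_neg (not_le.2 hy)
    · rw [V_ge h hδ hη h0.le, h.md.symm, mul_pow, ← mul_assoc, ← map_pow, ← map_mul,
        inv_sq (h.md.im _ (h.Lo_U m).1), sq, map_one, one_mul]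

theorem V_diff (hP : Z_PAIN) (h : GF d) (hδ : δ ≤ d.b₃ + d.b₂) :
    DifferentiableOn ℂ (V d) (RR d.a₁ δ) :=
  hP _ _ 0 (isOpen_RR _ _) (V_cont h hδ) fun _ hη h0 =>
    (V_der h hδ hη h0).choose_spec.1.differentiableAt

theorem V_ode (hP : Z_PAIN) (h : GF d) (hδ : δ ≤ d.b₃ + d.b₂) {η : ℂ} (hη : η ∈ RR d.a₁ δ) :
    d.T (V d η) * deriv (V d) η ^ 2 = -1 := by
  have off : ∀ y ∈ RR d.a₁ δ, y.re ≠ 0 → d.T (V d y) * deriv (V d) y ^ 2 = -1 := fun y hy h0 => by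
    obtain ⟨s, k1, k2⟩ := V_der h hδ hy h0
    rw [k1.deriv, k2]
  by_cases h0 : η.re = 0
  · have an : AnalyticAt ℂ (V d) η := (V_diff hP h hδ).analyticAt ((isOpen_RR _ _).mem_nhds hη)
    have aT : AnalyticAt ℂ d.T (V d η) := h.md.ana _
      (by rw [V_le d h0.le]; exact (left h hδ hη h0.le).1) (V_mem h hδ hη).2.1
    have c : ContinuousAt (fun y => d.T (V d y) * deriv (V d) y ^ 2) η :=
      (ContinuousAt.comp aT.continuousAt an.continuousAt).mul (an.deriv.continuousAt.pow 2)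
    have l : Tendsto (fun t : ℝ => η + t) (𝓝[>] 0) (𝓝 η) :=
      (Continuous.tendsto' (by fun_prop) 0 η (by simp)).mono_left nhdsWithin_le_nhds
    refine tendsto_nhds_unique (c.tendsto.comp l) (tendsto_const_nhds.congr' ?_)
    filter_upwards [l.eventually ((isOpen_RR _ _).mem_nhds hη), self_mem_nhdsWithin] with t k1 k2
    exact (off _ k1 (by simpa [h0] using (ne_of_gt k2))).symm
  · exact off η hη h0

theorem V_inj (h : GF d) (hδ : δ ≤ d.b₃ + d.b₂) : InjOn (V d) (RR d.a₁ δ) := by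
  intro η hη η' hη' e
  have hI : (-I : ℂ) ≠ 0 := neg_ne_zero.2 I_ne_zero
  rcases le_or_gt η.re 0 with h0 | h0 <;> rcases le_or_gt η'.re 0 with h1 | h1
  · rw [V_le d h0, V_le d h1] at e
    refine mul_left_cancel₀ hI ?_
    rw [← (left h hδ hη h0).2.2.1, e, (left h hδ hη' h1).2.2.1]
  · have := (V_mem h hδ hη).2.2.1 h0
    rw [e] at this
    exact absurd ((V_mem h hδ hη').2.2.2 h1) (not_lt.2 this)
  · have := (V_mem h hδ hη').2.2.1 h1
    rw [← e] at this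
    exact absurd ((V_mem h hδ hη).2.2.2 h0) (not_lt.2 this)
  · rw [V_ge h hδ hη h0.le, V_ge h hδ hη' h1.le] at e
    refine mul_left_cancel₀ hI ((starRingEnd ℂ).injective ?_)
    rw [← (right h hδ hη h0.le).2.2.1, (starRingEnd ℂ).injective e,
      (right h hδ hη' h1.le).2.2.1]

theorem seam (h : GF d) (hδ : δ ≤ d.b₃ + d.b₂) (hδ' : d.fin → δ ≤ d.b₃) {z : ℂ}
    (hz : z ∈ XX d.r d.κ) (hx : d.x z < δ) : z ∈ d.F '' RR d.a₁ δ ∨
      Tendsto (fun y : ℝ => d.F (y + d.x z * I)) (𝓝[<] d.a₁) (𝓝 z) := by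
  obtain ⟨wP, wS⟩ := h.uh.mem z hz
  have hU := h.li.linv _ wP
  have ex := h.x_eq hz
  set ζ := d.Φ (d.w z) with hζ
  have p0 : 0 < ζ.re := h.lb.pos _ wP wS.1
  obtain ⟨-, -, p1, p2, p3⟩ := h.lb.rng _ wP
  rw [← hζ] at p1 p2 p3
  have p4 : ζ.re < δ := ex ▸ hx
  have nf : ¬ d.fin → d.a₃ = 0 ∧ d.b₃ = 0 := fun hf =>
    h.lb.sh.2.2.resolve_left fun k => hf (h.lb.fin_iff.2 k.1)
  have p5 : ζ.im ≤ d.a₁ := by
    by_cases hf : d.fin
    · exact p3 (p4.trans_le (hδ' hf))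
    · rwa [(nf hf).1, add_zero] at p2
  have a0 : 0 < d.a₁ := h.lb.sh.1
  rcases p5.lt_or_eq with p5 | p5
  · left
    rcases h.uh.rep z hz with e | e
    · have m : I * ζ ∈ RR d.a₁ δ := ⟨by simpa using p5, by simp; linarith, by simpa using p0,
        by simpa using p4⟩
      refine ⟨I * ζ, m, ?_⟩
      rw [F_eq, V_le d (by simpa using p1), show -I * (I * ζ) = ζ by
        rw [← mul_assoc, neg_mul, I_mul_I, neg_neg, one_mul], hU, e]
    · have m : I * conj ζ ∈ RR d.a₁ δ := ⟨by simp; linarith, by simpa using p5, by simpa using p0,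
        by simpa using p4⟩
      refine ⟨I * conj ζ, m, ?_⟩
      rw [F_eq, V_ge h hδ m (by simpa using p1), show -I * (I * conj ζ) = conj ζ by
        rw [← mul_assoc, neg_mul, I_mul_I, neg_neg, one_mul], conj_conj, hU, e]
  · by_cases hf : d.fin
    · right
      have t1 := (h.tl_U hf p5 p0 (p4.trans_le (hδ' hf))).1.1
      rw [hU] at t1
      have e : d.Ψ (conj (d.w z)) = z :=
        (h.uh.rep z hz).elim (fun e => by rw [h.un.top hf wS t1, e]) id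
      have l : Tendsto (fun y : ℝ => (ζ.re : ℂ) + y * I) (𝓝[<] d.a₁) (𝓝[d.Φ '' PC d.Λ d.fin] ζ) := by
        refine tendsto_nhdsWithin_iff.2 ⟨(Continuous.tendsto' (by fun_prop) _ _ ?_).mono_left
          nhdsWithin_le_nhds, ?_⟩
        · rw [← p5, re_add_im]
        · filter_upwards [Ioo_mem_nhdsLT a0] with y hy
          have := half h (ζ := (ζ.re : ℂ) + y * I) (by simpa using p0)
            (by simpa using p4.trans_le hδ) (by simpa using hy.1.le) (by simpa using hy.2)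
          exact ⟨_, this.1, this.2.2.1⟩
      have l2 := (h.li.cont ζ ⟨_, wP, rfl⟩).tendsto.comp l
      rw [hU] at l2
      have l3 := (h.un.ana (conj_mem_Str.2 wS)).continuousAt.tendsto.comp
        ((continuous_conj.tendsto _).comp l2)
      rw [e] at l3
      refine l3.congr' ?_
      filter_upwards [Ioo_mem_nhdsLT a0] with y hy
      rw [F_eq, V, if_neg (by simpa using hy.1), ex]
      simp only [Function.comp]
      congr 3
      apply Complex.ext <;> simp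
    · exfalso
      have t1 := (h.rg_U (ζ := ζ) (by rw [p5, (nf hf).1, add_zero]) (by rw [(nf hf).2]; exact p0)
        (p4.trans_le hδ)).1.1
      rw [hU] at t1
      exact wS.2.ne t1

end FcP

open FcP in
theorem z_fc (hPAIN : Z_PAIN) : Z_FC := by
  intro d h
  obtain ⟨δ, h0, hδ, hδ'⟩ : ∃ δ, 0 < δ ∧ δ ≤ d.b₃ + d.b₂ ∧ (d.fin → δ ≤ d.b₃) := by
    by_cases hf : d.fin
    · refine ⟨d.b₃, ?_, by linarith [h.lb.sh.2.1], fun _ => le_rfl⟩
      have := h.lb.fin_iff.1 hf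
      exact h.lb.sh.2.2.elim (fun k => k.2) fun k => absurd k.1 this.ne'
    · exact ⟨_, h.b1, le_rfl, fun k => absurd k hf⟩
  have eF : d.F = d.Ψ ∘ V d := funext (F_eq d)
  have VS : ∀ η ∈ RR d.a₁ δ, V d η ∈ Str d.Λ := fun η hη => FS_sub_Str _ _ (V_mem h hδ hη).1
  refine ⟨δ, h0, ?_, ?_, fun η hη => ?_, fun η hη => ?_, fun η hη => ?_,
    fun t ht y hy => ⟨?_, ?_⟩, fun z hz hx => seam h hδ hδ' hz hx⟩
  · rw [eF]; exact h.un.d.comp (V_diff hPAIN h hδ) VS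
  · rw [eF]; exact h.un.inj.comp (V_inj h hδ) fun η hη => (V_mem h hδ hη).1
  · rw [F_eq]; exact h.un.maps _ (VS η hη)
  · have ne : d.Ψ (V d η) ≠ d.x₀ := fun e => (V_mem h hδ hη).2.1
      (h.un.inj (V_mem h hδ hη).1 ⟨h.md.u0, h.md.u1, fun _ =>
        ⟨by simpa using Real.pi_pos, by simpa using Real.pi_pos.le⟩⟩ (e.trans h.un.base.symm))
    rw [F_eq, eF, deriv_comp η (h.un.ana (VS η hη)).differentiableAt
      ((V_diff hPAIN h hδ).differentiableAt ((isOpen_RR _ _).mem_nhds hη)), mul_pow, ← mul_assoc,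
      h.un.pull _ (VS η hη) ne, V_ode hPAIN h hδ hη]
  · rw [F_eq]
    rcases le_total η.re 0 with k | k
    · obtain ⟨k1, k2, k3, -⟩ := left h hδ hη k
      rw [V_le d k, (h.x_Psi k1 k2).1, k3, rot_re]
    · obtain ⟨k1, k2, k3, -⟩ := right h hδ hη k
      rw [V_ge h hδ hη k, (h.x_Psi k1 k2).2, k3, conj_re, rot_re]
  · rw [Dat.F, Dat.Z, if_pos (by simpa using hy.1.le),
      if_pos (by simpa using (ht.2.trans_le hδ).le)]
    congr 2
    apply Complex.ext <;> simp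
  · rw [Dat.F, Dat.Z, if_neg (by simpa using hy.1), if_neg (by
      simp only [add_re, ofReal_re, mul_re, I_re, mul_zero, ofReal_im, I_im, mul_one, sub_self,
        add_zero, not_le]
      linarith [ht.2])]
    congr 3
    apply Complex.ext <;> simp

end Pool.Agent.P.MP_3bd355_an
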