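import Pool.Agent.P.MP_3bd355_an.Z.Stmts

/-! The case `A = 0`: package FN. -/

open Set Filter Metric Complex InnerProductSpace MeasureTheory
open scoped Topology ComplexConjugate Real

namespace Pool.Agent.P.MP_3bd355_an

namespace FnP

theorem half_sq (w : ℂ) : (w ^ (1 / 2 : ℂ)) ^ 2 = w := by
  simp

theorem half_up {w : ℂ} (h : 0 < w.im) : I * (-w) ^ (1 / 2 : ℂ) = w ^ (1 / 2 : ℂ) := by
  have h0 : w ≠ 0 := by rintro rfl; simp at h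
  have e : log (-w) = log w - π * I := by
    rw [log, log, norm_neg, arg_neg_eq_arg_sub_pi_of_im_pos h]; push_cast; ring
  rw [cpow_def_of_ne_zero h0, cpow_def_of_ne_zero (neg_ne_zero.2 h0), e, ← exp_pi_div_two_mul_I,
    ← exp_add, exp_pi_div_two_mul_I]
  congr 1; ring

theorem half_down {w : ℂ} (h : w.im < 0) : I * (-w) ^ (1 / 2 : ℂ) = -w ^ (1 / 2 : ℂ) := by
  have := half_up (w := -w) (by simpa using h)
  rw [neg_neg] at this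
  rw [← this, ← mul_assoc, I_mul_I, neg_one_mul]

theorem of_sq {f : ℂ → ℂ} {l : Filter ℂ} (h : Tendsto (fun u => f u ^ 2) l (𝓝 0)) :
    Tendsto f l (𝓝 0) := by
  rw [tendsto_zero_iff_norm_tendsto_zero] at h ⊢
  have := (Real.continuous_sqrt.tendsto' 0 0 Real.sqrt_zero).comp h
  refine this.congr fun u => ?_
  simp only [Function.comp, norm_pow, Real.sqrt_sq (norm_nonneg _)]

variable {d : Dat}

theorem x_fold (h : GF d) {u : ℂ} (hu : u ∈ Str d.Λ) (hi : d.fin → |u.im| ≤ π) :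
    ∃ u' ∈ PC d.Λ d.fin, u'.re = u.re ∧ d.x (d.Ψ u) = (d.Φ u').re := by
  rcases le_total 0 u.im with h0 | h0
  · have hp : u ∈ PC d.Λ d.fin := ⟨hu.1.le, hu.2.le, h0, fun hf => (abs_le.1 (hi hf)).2⟩
    exact ⟨u, hp, rfl, (h.x_Psi hp hu).1⟩
  · have hp : conj u ∈ PC d.Λ d.fin := ⟨hu.1.le, hu.2.le, by simpa using h0, fun hf => by
      rw [conj_im]; linarith [(abs_le.1 (hi hf)).1]⟩
    have := (h.x_Psi hp (conj_mem_Str.2 hu)).2
    rw [conj_conj] at this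
    exact ⟨conj u, hp, rfl, this⟩

theorem x_cut (h : GF d) {u : ℂ} (hu : u ∈ Str d.Λ) (hi : u.im = 0) (hr : d.u₀ ≤ u.re) :
    d.x (d.Ψ u) = d.b₃ + d.b₂ := by
  rw [(h.x_Psi ⟨hu.1.le, hu.2.le, hi.ge, fun _ => hi.trans_le Real.pi_pos.le⟩ hu).1]
  rcases hr.lt_or_eq with hr | hr
  · have : d.Φ u ∈ d.Φ '' {u | u.im = 0 ∧ d.u₀ < u.re ∧ u.re < d.Λ} := ⟨u, ⟨hi, hr, hu.2⟩, rfl⟩
    rw [h.lb.br] at this
    exact this.1
  · rw [show u = d.u₀ from Complex.ext hr.symm hi, h.lb.p0, ofReal_re]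

theorem x_Z (h : GF d) {ζ : ℂ} (hζ : ζ ∈ DD2 d.a₁ d.a₃ d.b₃ d.b₂) :
    (ζ.re ≤ d.b₃ + d.b₂ → d.x (d.Z ζ) = ζ.re) ∧
      (d.b₃ + d.b₂ ≤ ζ.re → d.x (d.Z ζ) = 2 * (d.b₃ + d.b₂) - ζ.re) := by
  refine ⟨fun h1 => ?_, fun h1 => ?_⟩
  · obtain ⟨k1, k2, k3, -⟩ := h.half_U hζ h1
    rw [show d.Z ζ = d.Ψ (d.U ζ) from if_pos h1, (h.x_Psi k1 k2).1, k3]
  · obtain ⟨k1, k2, k3, -⟩ := h.half_U (DD2_refl hζ) (GF.refl_le h1)
    rw [d.Z_eq, h.Ur_ge hζ h1, (h.x_Psi k1 k2).2, k3]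
    simp

theorem conn {r a b₁ δ δ' x₀ : ℝ} {z₁ : ℂ} {κ : ℝ → ℂ} {Q Z F : ℂ → ℂ} {x : ℂ → ℝ}
    (fx : FX r x₀ z₁ κ Q b₁ x) (fc : FC r κ Q a b₁ δ x Z F) (ha : 0 < a) (h : δ' ≤ δ) :
    IsPreconnected {z | z ∈ XX r κ ∧ x z < δ'} := by
  have hs : RR a δ' ⊆ RR a δ := fun η hη => ⟨hη.1, hη.2.1, hη.2.2.1, hη.2.2.2.trans_le h⟩
  refine ((convex_RR a δ').isPreconnected.image F (fc.d.continuousOn.mono hs)).subset_closure
    ?_ fun z hz => ?_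
  · rintro _ ⟨η, hη, rfl⟩
    exact ⟨fc.maps η (hs hη), by rw [fc.xF η (hs hη)]; exact hη.2.2.2⟩
  · rcases fc.seam z hz.1 (hz.2.trans_le h) with ⟨η, hη, rfl⟩ | hl
    · refine subset_closure ⟨η, ⟨hη.1, hη.2.1, hη.2.2.1, ?_⟩, rfl⟩
      rw [← fc.xF η hη]; exact hz.2
    · refine mem_closure_of_tendsto hl ?_
      filter_upwards [Ioo_mem_nhdsLT (show -a < a by linarith)] with y hy
      exact ⟨_, ⟨by simpa using hy.1, by simpa using hy.2, by simpa using fx.pos z hz.1,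
        by simpa using hz.2⟩, rfl⟩

end FnP

open FnP in
theorem z_fn (hFN1 : Z_FN1) (hFN2 : Z_FN2) : Z_FN := by
  intro d δ h fx fc
  obtain ⟨ρ, ρc, ρs⟩ := hFN1 _ _ _ _ _ _ _ _ _ _ _ h.ka.r0 h.md.u0 h.md.u1 h.un
  obtain ⟨δ₂, hδ₂, hS⟩ := hFN2 _ _ _ _ _ _ _ h.ka fx
  set V : Set ℂ := {u | u ∈ Str d.Λ ∧ (d.fin → |u.im| < 2 * π)} with hV
  have Vo : IsOpen V := (isOpen_Str _).inter
    (imp_set d.fin _ IsOpen (isOpen_lt continuous_im.abs continuous_const) isOpen_univ)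
  set E : ℂ → ℂ := fun u => ρ u * (I * (-(u - d.u₀)) ^ (1 / 2 : ℂ)) with hE
  have Esq : ∀ u ∈ V, E u ^ 2 = d.Ψ u * (d.Ψ u - d.x₀) := fun u hu => by
    rw [← (ρs u hu.1 hu.2).2, hE]
    simp only [mul_pow, half_sq, I_sq]
    ring
  have Ec : ∀ u ∈ V, u.re < d.u₀ ∨ u.im ≠ 0 → ContinuousAt E u ∧ E u ≠ 0 := fun u hu hs => by
    have h1 : -(u - d.u₀) ∈ slitPlane := by
      rw [mem_slitPlane_iff]; simpa using hs
    refine ⟨(ρc.continuousAt (Vo.mem_nhds hu)).mul (continuousAt_const.mul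
      (ContinuousAt.cpow (by fun_prop) continuousAt_const h1)),
      mul_ne_zero (ρs u hu.1 hu.2).1 (mul_ne_zero I_ne_zero fun e => ?_)⟩
    exact slitPlane_ne_zero h1 (by rw [← half_sq (-(u - d.u₀)), e]; simp)
  obtain ⟨δ₃, h3, h3a, h3b, h3c⟩ : ∃ δ₃ > 0, δ₃ ≤ δ ∧ δ₃ ≤ δ₂ ∧ δ₃ ≤ d.b₃ + d.b₂ :=
    ⟨min δ (min δ₂ (d.b₃ + d.b₂)), lt_min fc.δ0 (lt_min hδ₂ h.b1), min_le_left _ _,
      (min_le_right _ _).trans (min_le_left _ _), (min_le_right _ _).trans (min_le_right _ _)⟩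
  obtain ⟨δL, hL, hL'⟩ := h.lb.unL δ₃ h3
  obtain ⟨ε, e0, e1, e2⟩ : ∃ ε > 0, ε ≤ δL ∧ ε ≤ d.u₀ :=
    ⟨min δL d.u₀, lt_min hL h.md.u0, min_le_left _ _, min_le_right _ _⟩
  set W : Set ℂ := {u | 0 < u.re ∧ u.re < ε ∧ (d.fin → |u.im| ≤ π)} with hW
  have WS : ∀ u ∈ W, u ∈ Str d.Λ := fun u hu => ⟨hu.1, (hu.2.1.trans_le e2).trans h.md.u1⟩
  have WV : ∀ u ∈ W, u ∈ V := fun u hu =>
    ⟨WS u hu, fun hf => (hu.2.2 hf).trans_lt (by linarith [Real.pi_pos])⟩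
  have Wx : ∀ u ∈ W, d.x (d.Ψ u) < δ₃ := fun u hu => by
    obtain ⟨u', k1, k2, k3⟩ := x_fold h (WS u hu) hu.2.2
    rw [k3]
    exact hL' u' k1 (by rw [k2]; exact hu.2.1.trans_le e1)
  have Wsig : ∀ u ∈ W, d.Ψ u ∉ Sig d.x₀ := fun u hu =>
    hS _ (h.un.maps u (WS u hu)) ((Wx u hu).trans_le h3b)
  have Wc : Convex ℝ W := by
    refine (convex_halfSpace_re_gt 0).inter ((convex_halfSpace_re_lt ε).inter ?_)
    refine imp_set d.fin _ (Convex ℝ) ?_ convex_univ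
    simp only [abs_le]
    exact (convex_halfSpace_im_ge _).inter (convex_halfSpace_im_le _)
  obtain ⟨c, hc, hcE⟩ := sq_sign (f := E) (g := fun u => S0 d.x₀ (d.Ψ u)) Wc.isPreconnected
    (fun u hu => (Ec u (WV u hu) (Or.inl (hu.2.1.trans_le e2))).1.continuousWithinAt)
    (fun u hu => (ContinuousAt.comp (S0_cont (Wsig u hu))
      (h.un.ana (WS u hu)).continuousAt).continuousWithinAt)
    (fun u hu => by rw [Esq u (WV u hu), S0_sq (Sig_ne (Wsig u hu)).2])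
    fun u hu => S0_ne (Wsig u hu)
  have c2 : c ^ 2 = 1 := by rcases hc with rfl | rfl <;> simp
  have sh : ∀ u : ℂ, (u - 2 * π * I).re = u.re ∧ (u - 2 * π * I).im = u.im - 2 * π := fun u => by
    simp
  have per : d.fin → ∀ u ∈ Str d.Λ, d.Ψ (u - 2 * π * I) = d.Ψ u := fun hf u hu => by
    rw [← h.un.per hf _ (show u - 2 * π * I ∈ Str d.Λ from
      ⟨(sh u).1 ▸ hu.1, (sh u).1 ▸ hu.2⟩), sub_add_cancel]
  have Eper : d.fin → ∀ u ∈ Str d.Λ, 0 < u.im → u.im < 2 * π → E u = E (u - 2 * π * I) := by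
    intro hf
    set P : Set ℂ := Str d.Λ ∩ ({u | 0 < u.im} ∩ {u | u.im < 2 * π}) with hP
    have P1 : ∀ u ∈ P, u ∈ V := fun u hu =>
      ⟨hu.1, fun _ => by rw [abs_of_pos hu.2.1]; exact hu.2.2⟩
    have P2 : ∀ u ∈ P, u - 2 * π * I ∈ V ∧ (u - 2 * π * I).im ≠ 0 := fun u hu => by
      have k1 : 0 < u.im := hu.2.1
      have k2 : u.im < 2 * π := hu.2.2
      refine ⟨⟨⟨(sh u).1 ▸ hu.1.1, (sh u).1 ▸ hu.1.2⟩, fun _ => ?_⟩, ?_⟩
      · rw [(sh u).2, abs_lt]; constructor <;> linarith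
      · rw [(sh u).2]; linarith
    obtain ⟨σ, -, hσ⟩ := sq_sign (f := E) (g := fun u => E (u - 2 * π * I))
      ((convex_Str _).inter ((convex_halfSpace_im_gt 0).inter
        (convex_halfSpace_im_lt (2 * π)))).isPreconnected
      (fun u hu => (Ec u (P1 u hu) (Or.inr (ne_of_gt hu.2.1))).1.continuousWithinAt)
      (fun u hu => (ContinuousAt.comp (f := fun u : ℂ => u - 2 * π * I)
        (Ec _ (P2 u hu).1 (Or.inr (P2 u hu).2)).1 (by fun_prop)).continuousWithinAt)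
      (fun u hu => by rw [Esq u (P1 u hu), Esq _ (P2 u hu).1, per hf u hu.1])
      fun u hu => (Ec _ (P2 u hu).1 (Or.inr (P2 u hu).2)).2
    have q1 : (⟨ε / 2, π⟩ : ℂ) ∈ W := ⟨half_pos e0, half_lt_self e0, fun _ =>
      (abs_of_pos Real.pi_pos).le⟩
    have q2 : (⟨ε / 2, π⟩ : ℂ) - 2 * π * I ∈ W := ⟨by rw [(sh _).1]; exact q1.1,
      by rw [(sh _).1]; exact q1.2.1, fun _ => by
      rw [(sh _).2, abs_le]; constructor <;> (simp only; linarith [Real.pi_pos])⟩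
    have q3 : (⟨ε / 2, π⟩ : ℂ) ∈ P := ⟨WS _ q1, Real.pi_pos, by
      show π < 2 * π; linarith [Real.pi_pos]⟩
    have q4 := hσ _ q3
    have q5 : E (⟨ε / 2, π⟩ - 2 * π * I) = E ⟨ε / 2, π⟩ := by
      rw [hcE _ q1, hcE _ q2, per hf _ (WS _ q1)]
    rw [q5] at q4
    have q6 : σ = 1 := by
      have := (Ec _ (WV _ q1) (Or.inr Real.pi_pos.ne')).2
      exact mul_right_cancel₀ this (by rw [one_mul]; exact q4.symm)
    intro u hu k1 k2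
    rw [hσ u ⟨hu, k1, k2⟩, q6, one_mul]
  set N : ℂ → ℂ := fun z => c * (d.b₃ + d.b₂ - d.x z : ℝ) *
    E (Function.invFunOn d.Ψ (FS d.Λ d.fin) z) with hN
  have NF : ∀ u ∈ FS d.Λ d.fin, N (d.Ψ u) = c * (d.b₃ + d.b₂ - d.x (d.Ψ u) : ℝ) * E u :=
    fun u hu => by rw [hN]; simp only; rw [h.un.inj.leftInvOn_invFunOn hu]
  have NP : ∀ u ∈ Str d.Λ, (d.fin → -π < u.im ∧ u.im < 2 * π) →
      N (d.Ψ u) = c * (d.b₃ + d.b₂ - d.x (d.Ψ u) : ℝ) * E u := fun u hu hi => by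
    by_cases hF : u ∈ FS d.Λ d.fin
    · exact NF u hF
    · have hf : d.fin := by
        by_contra hf
        exact hF ⟨hu.1, hu.2, fun k => absurd k hf⟩
      have k1 : π < u.im := by
        by_contra k
        exact hF ⟨hu.1, hu.2, fun _ => ⟨(hi hf).1, not_lt.1 k⟩⟩
      rw [Eper hf u hu (Real.pi_pos.trans k1) (hi hf).2, ← per hf u hu]
      refine NF _ ⟨(sh u).1 ▸ hu.1, (sh u).1 ▸ hu.2, fun _ => ?_⟩
      rw [(sh u).2]; constructor <;> linarith [(hi hf).2, Real.pi_pos]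
  have FV : ∀ u ∈ FS d.Λ d.fin, u ∈ V := fun u hu => ⟨⟨hu.1, hu.2.1⟩, fun hf => by
    rw [abs_lt]; constructor <;> linarith [(hu.2.2 hf).1, (hu.2.2 hf).2, Real.pi_pos]⟩
  have xc : ∀ z ∈ XX d.r d.κ, ContinuousAt (fun z => ((d.b₃ + d.b₂ - d.x z : ℝ) : ℂ)) z :=
    fun z hz => continuous_ofReal.continuousAt.comp
      (continuousAt_const.sub (fx.cont.continuousAt ((isOpen_ann _).mem_nhds hz.1)))
  have Nsq : ∀ z ∈ XX d.r d.κ, N z ^ 2 = (d.b₃ + d.b₂ - d.x z : ℝ) ^ 2 * (z * (z - d.x₀)) := by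
    intro z hz
    obtain ⟨u, hu, rfl⟩ := h.un.surj z hz
    rw [NF u hu, mul_pow, mul_pow, c2, one_mul, Esq u (FV u hu)]
  have Nc : ContinuousOn N (XX d.r d.κ) := by
    intro z hz
    refine ContinuousAt.continuousWithinAt ?_
    obtain ⟨u, hu, rfl⟩ := h.un.surj z hz
    have hs : u ∈ Str d.Λ := ⟨hu.1, hu.2.1⟩
    by_cases hc' : u.re < d.u₀ ∨ u.im ≠ 0
    · rw [ContinuousAt, ← h.un.map_nhds hs, tendsto_map'_iff, NF u hu]
      have ho : IsOpen (Str d.Λ ∩ {u : ℂ | d.fin → -π < u.im ∧ u.im < 2 * π}) :=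
        (isOpen_Str _).inter (imp_set d.fin _ IsOpen ((isOpen_lt continuous_const
          continuous_im).inter (isOpen_lt continuous_im continuous_const)) isOpen_univ)
      refine ((continuousAt_const.mul (ContinuousAt.comp (xc _ hz)
        (h.un.ana hs).continuousAt)).mul (Ec u (FV u hu) hc').1).tendsto.congr' ?_
      filter_upwards [ho.mem_nhds ⟨hs, fun hf =>
        ⟨(hu.2.2 hf).1, (hu.2.2 hf).2.trans_lt (by linarith [Real.pi_pos])⟩⟩] with y hy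
      exact (NP y hy.1 hy.2).symm
    · push Not at hc'
      have k := x_cut h hs hc'.2 hc'.1
      have k0 : N (d.Ψ u) = 0 := by rw [NF u hu, k]; simp
      rw [ContinuousAt, k0]
      refine of_sq ?_
      have k1 : Tendsto (fun z => ((d.b₃ + d.b₂ - d.x z : ℝ) : ℂ) ^ 2 * (z * (z - d.x₀)))
          (𝓝 (d.Ψ u)) (𝓝 (((d.b₃ + d.b₂ - d.x (d.Ψ u) : ℝ) : ℂ) ^ 2 * (d.Ψ u * (d.Ψ u - d.x₀)))) :=
        ((xc _ hz).pow 2).mul (g := fun z : ℂ => z * (z - d.x₀)) (by fun_prop)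
      rw [k, sub_self, ofReal_zero, zero_pow two_ne_zero, zero_mul] at k1
      refine k1.congr' ?_
      filter_upwards [h.ka.isOpen.mem_nhds hz] with y hy
      exact (Nsq y hy).symm
  have UV : ∀ ζ ∈ DD2 d.a₁ d.a₃ d.b₃ d.b₂, d.Ur ζ ∈ V := fun ζ hζ => FV _ (h.Ur_mem hζ).1
  refine ⟨N, fun ζ => c * ρ (d.Ur ζ) * (d.Ur ζ - d.u₀) ^ (1 / 2 : ℂ), Nc, Nsq, ⟨δ₃, h3, ?_⟩, ?_,
    fun ζ hζ => ?_, fun ζ hζ => ?_⟩
  · have A1 : ∀ z ∈ {z | z ∈ XX d.r d.κ ∧ d.x z < δ₃}, z ∉ Sig d.x₀ := fun z hz =>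
      hS z hz.1 (hz.2.trans_le h3b)
    have A2 : ∀ z ∈ {z | z ∈ XX d.r d.κ ∧ d.x z < δ₃},
        ((d.b₃ + d.b₂ - d.x z : ℝ) : ℂ) * S0 d.x₀ z ≠ 0 := fun z hz =>
      mul_ne_zero (ofReal_ne_zero.2 (sub_pos.2 (hz.2.trans_le h3c)).ne') (S0_ne (A1 z hz))
    obtain ⟨c', -, hc'⟩ := sq_sign (f := N)
      (g := fun z => ((d.b₃ + d.b₂ - d.x z : ℝ) : ℂ) * S0 d.x₀ z) (conn fx fc h.lb.sh.1 h3a)
      (Nc.mono fun _ hz => hz.1)
      (fun z hz => ((xc z hz.1).mul (S0_cont (A1 z hz))).continuousWithinAt)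
      (fun z hz => by rw [Nsq z hz.1, mul_pow, S0_sq (Sig_ne (A1 z hz)).2]) A2
    have q1 : ((ε / 2 : ℝ) : ℂ) ∈ W := ⟨half_pos e0, half_lt_self e0, fun _ => by
      simpa using Real.pi_pos.le⟩
    have q2 : d.Ψ (ε / 2 : ℝ) ∈ {z | z ∈ XX d.r d.κ ∧ d.x z < δ₃} :=
      ⟨h.un.maps _ (WS _ q1), Wx _ q1⟩
    have q3 : c' = 1 := by
      refine mul_right_cancel₀ (A2 _ q2) ?_
      rw [← hc' _ q2, NP _ (WS _ q1) fun _ => by
        simpa using Real.pi_pos, hcE _ q1]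
      linear_combination ((d.b₃ + d.b₂ - d.x (d.Ψ (ε / 2 : ℝ)) : ℝ) : ℂ) *
        S0 d.x₀ (d.Ψ (ε / 2 : ℝ)) * c2
    intro z hz hx
    exact ⟨A1 z ⟨hz, hx⟩, by rw [hc' z ⟨hz, hx⟩, q3, one_mul]⟩
  · refine (continuousOn_const.mul (ρc.comp h.Ur_cont UV)).mul
      ((h.Ur_cont.sub continuousOn_const).cpow continuousOn_const fun ζ hζ => ?_)
    obtain ⟨-, -, k1, k2, k3⟩ := h.Ur_mem hζ
    rw [mem_slitPlane_iff]
    rcases lt_trichotomy ζ.re (d.b₃ + d.b₂) with k | k | k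
    · exact Or.inr (by simpa using (k1 k).ne')
    · exact Or.inl (by simpa using (k2 k).2)
    · exact Or.inr (by simpa using (k3 k).ne)
  · rw [mul_pow, mul_pow, c2, one_mul, half_sq, (ρs _ (UV ζ hζ).1 (UV ζ hζ).2).2, d.Z_eq]
  · obtain ⟨k0, -, k1, -, k3⟩ := h.Ur_mem hζ
    have e := NF _ k0
    rw [← d.Z_eq] at e
    rw [e]
    rcases lt_trichotomy ζ.re (d.b₃ + d.b₂) with k | k | k
    · rw [(x_Z h hζ).1 k.le, hE]
      simp only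
      rw [half_up (by simpa using k1 k)]
      ring
    · rw [(x_Z h hζ).1 k.le, k]; simp
    · rw [(x_Z h hζ).2 k.le, hE]
      simp only
      rw [half_down (by simpa using k3 k)]
      push_cast
      ring

end Pool.Agent.P.MP_3bd355_an
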