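import Pool.Agent.P.MP_3bd355_an.Z.Stmts

/-! The case `A = 0`: package FN1. -/

open Set Filter Metric Complex InnerProductSpace MeasureTheory
open scoped Topology ComplexConjugate Real

namespace Pool.Agent.P.MP_3bd355_an

namespace Fn1P

theorem only {r B x₀ : ℝ} {κ : ℝ → ℂ} {Q : ℂ → ℂ} {v : ℂ → ℝ} {fin : Prop} {Λ u₀ : ℝ}
    {Ψ T : ℂ → ℂ} (h0 : 0 < u₀) (h1 : u₀ < Λ) (h : UN r B x₀ κ Q v fin Λ u₀ Ψ T) {u : ℂ}
    (hu : u ∈ Str Λ) (hi : fin → |u.im| < 2 * π) (e : Ψ u = x₀) : u = u₀ := by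
  have b0 : (u₀ : ℂ) ∈ FS Λ fin := ⟨by simpa using h0, by simpa using h1, fun _ => by
    simpa using Real.pi_pos.le.lt_of_ne' Real.pi_pos.ne' |>.le |> fun k => ⟨Real.pi_pos, k⟩⟩
  have key : ∀ w ∈ FS Λ fin, Ψ w = x₀ → w = u₀ := fun w hw k =>
    h.inj hw b0 (k.trans h.base.symm)
  by_cases hF : u ∈ FS Λ fin
  · exact key u hF e
  have hf : fin := by
    by_contra hf
    exact hF ⟨hu.1, hu.2, fun k => absurd k hf⟩
  obtain ⟨k1, k2⟩ := abs_lt.1 (hi hf)
  exfalso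
  by_cases k3 : -π < u.im
  · have k4 : π < u.im := by
      by_contra k
      exact hF ⟨hu.1, hu.2, fun _ => ⟨k3, not_lt.1 k⟩⟩
    have s1 : (u - 2 * π * I).re = u.re := by simp
    have s2 : (u - 2 * π * I).im = u.im - 2 * π := by simp
    have m : u - 2 * π * I ∈ Str Λ := ⟨s1 ▸ hu.1, s1 ▸ hu.2⟩
    have := key (u - 2 * π * I) ⟨m.1, m.2, fun _ => by rw [s2]; constructor <;> linarith⟩
      (by rw [← h.per hf _ m, sub_add_cancel, e])
    have := congrArg Complex.im this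
    rw [s2, ofReal_im] at this
    linarith
  · have s1 : (u + 2 * π * I).re = u.re := by simp
    have s2 : (u + 2 * π * I).im = u.im + 2 * π := by simp
    have := key (u + 2 * π * I) ⟨s1 ▸ hu.1, s1 ▸ hu.2, fun _ => by
      rw [s2]; constructor <;> linarith [Real.pi_pos]⟩ (by rw [h.per hf _ hu, e])
    have := congrArg Complex.im this
    rw [s2, ofReal_im] at this
    linarith

end Fn1P

open Fn1P in
theorem z_fn1 : Z_FN1 := by
  intro r B x₀ κ Q v fin Λ u₀ Ψ T r0 h0 h1 h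
  set V : Set ℂ := {u | u ∈ Str Λ ∧ (fin → |u.im| < 2 * π)} with hV
  have Vo : IsOpen V := (isOpen_Str _).inter
    (imp_set fin _ IsOpen (isOpen_lt continuous_im.abs continuous_const) isOpen_univ)
  have Vc : Convex ℝ V := by
    refine (convex_Str _).inter (imp_set fin _ (Convex ℝ) ?_ convex_univ)
    simp only [abs_lt]
    exact (convex_halfSpace_im_gt _).inter (convex_halfSpace_im_lt _)
  have b0 : (u₀ : ℂ) ∈ V := ⟨⟨by simpa using h0, by simpa using h1⟩, fun _ => by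
    simpa using Real.pi_pos⟩
  have d1 : DifferentiableOn ℂ Ψ V := h.d.mono fun u hu => hu.1
  have d2 : DifferentiableOn ℂ (dslope Ψ u₀) V :=
    (Complex.differentiableOn_dslope (Vo.mem_nhds b0)).2 d1
  have sl : ∀ u : ℂ, dslope Ψ u₀ u * (u - u₀) = Ψ u - x₀ := fun u => by
    rw [← h.base, ← sub_smul_dslope Ψ u₀ u, smul_eq_mul, mul_comm]
  have ne : ∀ u ∈ V, Ψ u * dslope Ψ u₀ u ≠ 0 := fun u hu => by
    refine mul_ne_zero (fun e => ?_) fun e => ?_
    · have := (h.maps u hu.1).1.1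
      rw [e, norm_zero] at this
      linarith
    · have k := sl u
      rw [e, zero_mul] at k
      have := only h0 h1 h hu.1 hu.2 (sub_eq_zero.1 k.symm)
      rw [this, dslope_same] at e
      exact h.dne _ b0.1 e
  obtain ⟨g, gd, ge⟩ := all_LOG V _ Vo (NC_convex Vc) (d1.mul d2) ne
  refine ⟨fun u => exp (g u / 2), (gd.continuousOn.div_const 2).cexp, fun u hu hi =>
    ⟨exp_ne_zero _, ?_⟩⟩
  rw [← exp_nat_mul, show ((2 : ℕ) : ℂ) * (g u / 2) = g u by push_cast; ring, ge u ⟨hu, hi⟩,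
    Pi.mul_apply, mul_assoc, sl]

end Pool.Agent.P.MP_3bd355_an
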