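import Pool.Agent.P.MP_3bd355_an.Z.Stmts

/-! The case `A = 0`: package FN2. -/

open Set Filter Metric Complex InnerProductSpace MeasureTheory
open scoped Topology ComplexConjugate Real

namespace Pool.Agent.P.MP_3bd355_an

namespace Fn2P

theorem Sig_norm {x₀ : ℝ} (h0 : 0 < x₀) {z : ℂ} (h : z ∈ Sig x₀) : ‖z‖ ≤ x₀ := by
  by_cases e : z = x₀
  · rw [e, norm_real, Real.norm_eq_abs, abs_of_pos h0]
  have h1 : (-I * (z / (z - x₀))).im = 0 := by
    by_contra k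
    exact h (Or.inr k)
  have h2 : (z / (z - x₀)).re = 0 := by simpa using h1
  have h3 : normSq (z - x₀) ≠ 0 := fun k => e (sub_eq_zero.1 (normSq_eq_zero.1 k))
  rw [div_re, ← add_div, div_eq_zero_iff, or_iff_left h3] at h2
  simp only [sub_re, ofReal_re, sub_im, ofReal_im, sub_zero] at h2
  have h4 : ‖z‖ ^ 2 = x₀ * z.re := by
    rw [Complex.sq_norm, normSq_apply]; linarith
  have h5 : z.re ≤ ‖z‖ := re_le_norm z
  by_contra k
  push Not at k
  nlinarith

end Fn2P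

open Fn2P in
theorem z_fn2 : Z_FN2 := by
  intro r x₀ z₁ κ Q b₁ x ka fx
  have hc : IsCompact (cann r ∩ Sig x₀) := (isCompact_cann r).inter_right (isClosed_Sig x₀)
  have x1 : x₀ < 1 := by
    have := ka.m0.2
    rwa [norm_real, Real.norm_eq_abs, abs_of_pos ka.x0] at this
  have key : ∃ δ > 0, ∀ z ∈ cann r ∩ Sig x₀, z ∈ ann r → δ ≤ x z := by
    refine hc.induction_on (p := fun s => ∃ δ > 0, ∀ z ∈ s, z ∈ ann r → δ ≤ x z)
      ⟨1, one_pos, by simp⟩ (fun s t hst ⟨δ, h0, h⟩ => ⟨δ, h0, fun z hz => h z (hst hz)⟩)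
      (fun s t ⟨δ, h0, h⟩ ⟨δ', h0', h'⟩ => ⟨min δ δ', lt_min h0 h0', fun z hz ha => ?_⟩)
      fun p hp => ?_
    · rcases hz with hz | hz
      · exact (min_le_left _ _).trans (h z hz ha)
      · exact (min_le_right _ _).trans (h' z hz ha)
    · have hK : p ∉ KK κ := fun k => ka.notSig k hp.2
      obtain ⟨η, h0, hη⟩ : ∃ η > 0, ∀ᶠ z in 𝓝[ann r] p, η ≤ x z := by
        rcases hp.1.1.lt_or_eq with k | k
        · have m : p ∈ ann r := ⟨k, (Sig_norm ka.x0 hp.2).trans_lt x1⟩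
          have q := fx.pos p ⟨m, hK⟩
          exact ⟨x p / 2, half_pos q, (fx.cont p m).eventually
            (Ici_mem_nhds (half_lt_self q))⟩
        · exact fx.expo p k.symm hK
      rw [eventually_nhdsWithin_iff] at hη
      exact ⟨_, mem_nhdsWithin_of_mem_nhds hη, η, h0, fun z hz => hz⟩
  obtain ⟨δ, h0, h⟩ := key
  exact ⟨δ, h0, fun z hz hx hs =>
    absurd (h z ⟨⟨hz.1.1.le, hz.1.2.le⟩, hs⟩ hz.1) (not_le.2 hx)⟩

end Pool.Agent.P.MP_3bd355_an
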