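import Pool.Agent.P.MP_3bd355_an.Z.Stmts

/-! The case `A = 0`: package FX. -/

open Set Filter Metric Complex InnerProductSpace MeasureTheory
open scoped Topology ComplexConjugate Real

namespace Pool.Agent.P.MP_3bd355_an

theorem z_fx : Z_FX := by
  intro d h
  have hz : ∀ z ∈ KK d.κ, d.x z = 0 := fun z hz => if_neg fun k => k.2 hz
  refine ⟨fun z hz' => ?_, hz, fun z hX => ?_, fun z => ?_,
    fun p hp => h.x_zero (h.zc.crit.v_outer p hp),
    fun p hp hq => h.x_zero (h.zc.crit.v_hug p hp fun hc => ?_), fun p hp hK => ?_⟩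
  · by_cases hK : z ∈ KK d.κ
    · rw [ContinuousWithinAt, hz z hK]
      refine h.x_zero ?_
      have := h.zc.crit.v_cont z hz'
      rwa [ContinuousWithinAt, h.zc.crit.v_zero z hz' hK] at this
    · have hc : ContinuousOn d.x (XX d.r d.κ) :=
        (continuous_re.comp_continuousOn
          (h.ph.cont.comp h.uh.cont fun y hy => (h.uh.mem y hy).1)).congr fun y hy => h.x_eq hy
      exact (hc.continuousAt (h.ka.isOpen.mem_nhds ⟨hz', hK⟩)).continuousWithinAt
  · rw [h.x_eq hX]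
    exact h.lb.pos _ (h.uh.mem z hX).1 (h.uh.mem z hX).2.1
  · by_cases hX : z ∈ XX d.r d.κ
    · rw [h.x_eq hX]
      exact ⟨(h.lb.rng _ (h.uh.mem z hX).1).1, (h.lb.rng _ (h.uh.mem z hX).1).2.1⟩
    · rw [show d.x z = 0 from if_neg hX]
      exact ⟨le_rfl, h.b1.le⟩
  · obtain ⟨q, hq1, hq2⟩ := (mem_closure_iff_nhds.1 hc) _ hq
    exact hq2.2 (hq1 (mem_sphere_zero_iff_norm.1 hq2.1))
  · obtain ⟨C, hC⟩ := h.un.expo p hp hK
    have hS : IsCompact ((PC d.Λ d.fin ∩ {u | u.im ≤ C}) ∩ {u | d.Λ / 2 ≤ u.re}) :=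
      (isCompact_PC d.Λ d.fin C).inter_right (isClosed_le continuous_const continuous_re)
    obtain ⟨η, hη, hm⟩ := hS.exists_forall_le' (f := fun u => (d.Φ u).re) (a := 0)
      (continuous_re.comp_continuousOn (h.ph.cont.mono fun u hu => hu.1.1))
      fun u hu => h.lb.pos u hu.1.1 ((half_pos h.Λ0).trans_le hu.2)
    refine ⟨η, hη, ?_⟩
    have h1 : ∀ᶠ z in 𝓝[ann d.r] p, z ∉ KK d.κ :=
      nhdsWithin_le_nhds (h.ka.isClosed.isOpen_compl.mem_nhds hK)
    have h2 := (h.zc.crit.v_inner p hp hK).eventually (lt_mem_nhds (half_lt_self h.B0))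
    filter_upwards [h1, h2, self_mem_nhdsWithin,
      nhdsWithin_le_nhds (eventually_nhdsWithin_iff.1 hC)] with z k1 k2 k3 k4
    have hX : z ∈ XX d.r d.κ := ⟨k3, k1⟩
    rw [h.x_eq hX]
    refine hm _ ⟨⟨(h.uh.mem z hX).1, ?_⟩, ?_⟩
    · obtain ⟨u, hu, e, k⟩ := h.rep hX
      have k5 := abs_le.1 (k4 hX u hu e)
      show (d.w z).im ≤ C
      rcases k with k | k
      · rw [k]; exact k5.2
      · rw [k, conj_im]; linarith [k5.1]
    · show d.Λ / 2 ≤ (d.w z).re
      rw [h.v_w hX, lt_div_iff₀ h.Λ0] at k2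
      have := h.B0
      nlinarith

end Pool.Agent.P.MP_3bd355_an
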