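import Pool.Agent.P.MP_3bd355_an.Z.Stmts

/-! The case `A = 0`: package FY. -/

open Set Filter Metric Complex InnerProductSpace MeasureTheory
open scoped Topology ComplexConjugate Real

namespace Pool.Agent.P.MP_3bd355_an

namespace FyP

variable {d : Dat} (h : GF d)
include h

theorem Y_low {z : ℂ} (hz : d.a₃ = 0 ∨ d.x z < d.b₃) : d.Y z = d.a₁ := by
  by_cases hX : z ∈ XX d.r d.κ
  · rw [show d.Y z = max (d.Φ (d.w z)).im d.a₁ from if_pos hX]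
    have hr := h.lb.rng _ (h.uh.mem z hX).1
    refine max_eq_right ?_
    rcases hz with hz | hz
    · linarith [hr.2.2.2.1]
    · exact hr.2.2.2.2 (by rwa [h.x_eq hX] at hz)
  · exact if_neg hX

theorem Y_tend {l : Filter ℂ} (hx : Tendsto d.x l (𝓝 0)) : Tendsto d.Y l (𝓝 d.a₁) := by
  refine tendsto_const_nhds.congr' ?_
  rcases h.lb.sh.2.2 with h3 | h3
  · filter_upwards [hx.eventually (gt_mem_nhds h3.2)] with z hz
    exact (Y_low h (Or.inr hz)).symm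
  · exact Eventually.of_forall fun z => (Y_low h (Or.inl h3.1)).symm

theorem col_U {ζ : ℂ} (h1 : d.b₃ ≤ ζ.re) (h2 : ζ.re ≤ d.b₃ + d.b₂) (h3 : d.a₁ < ζ.im)
    (h4 : ζ.im < d.a₁ + d.a₃) : d.U ζ ∈ PC d.Λ d.fin ∧ d.U ζ ∈ Str d.Λ ∧ d.Φ (d.U ζ) = ζ ∧
      (ζ.re = d.b₃ + d.b₂ → (d.U ζ).im = 0) := by
  have hf : d.fin := h.lb.fin_iff.2 (by linarith)
  have hb := h.lb.sh.2.1
  rcases h1.eq_or_lt with e | e
  · have := h.tr_U hf e.symm h3 h4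
    exact ⟨this.2.1, ⟨(h.md.cm hf).1.trans this.1.2.1, this.1.2.2⟩, this.2.2,
      fun e' => by linarith⟩
  · have := h.half_U (ζ := ζ) ⟨h.lb.sh.1.trans h3, Or.inr ⟨e, by linarith, h4⟩⟩ h2
    exact ⟨this.1, this.2.1, this.2.2.1, fun e' => (this.2.2.2.2.2 e').1⟩

omit h in
theorem refl_re (b : ℝ) (ζ : ℂ) : (2 * (b : ℂ) - conj ζ).re = 2 * b - ζ.re := by simp

omit h in
theorem refl_im (b : ℝ) (ζ : ℂ) : (2 * (b : ℂ) - conj ζ).im = ζ.im := by simp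

theorem Ur_ge' {ζ : ℂ} (h1 : d.b₃ + d.b₂ ≤ ζ.re) (h3 : d.a₁ < ζ.im) (h4 : ζ.im < d.a₁ + d.a₃) :
    d.Ur ζ = conj (d.U (2 * (d.b₃ + d.b₂ : ℝ) - conj ζ)) := by
  rcases h1.eq_or_lt with e | e
  · rw [Dat.Ur, if_pos e.ge, refl_mid e.symm]
    exact (conj_eq_iff_im.2 ((col_U h (by linarith [h.lb.sh.2.1]) e.ge h3 h4).2.2.2 e.symm)).symm
  · exact if_neg (not_le.2 e)

/-- The closed column. -/
def Col (d : Dat) : Set ℂ :=
  {ζ | d.b₃ ≤ ζ.re ∧ ζ.re ≤ d.b₃ + 2 * d.b₂ ∧ d.a₁ < ζ.im ∧ ζ.im < d.a₁ + d.a₃}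

theorem col_refl {ζ : ℂ} (hζ : ζ ∈ Col d) (h1 : d.b₃ + d.b₂ ≤ ζ.re) :
    d.U (2 * (d.b₃ + d.b₂ : ℝ) - conj ζ) ∈ PC d.Λ d.fin ∧
      d.U (2 * (d.b₃ + d.b₂ : ℝ) - conj ζ) ∈ Str d.Λ ∧
      d.Φ (d.U (2 * (d.b₃ + d.b₂ : ℝ) - conj ζ)) = 2 * (d.b₃ + d.b₂ : ℝ) - conj ζ := by
  have := col_U h (ζ := 2 * (d.b₃ + d.b₂ : ℝ) - conj ζ) (by rw [refl_re]; linarith [hζ.2.1])
    (by rw [refl_re]; linarith) (by rw [refl_im]; exact hζ.2.2.1) (by rw [refl_im]; exact hζ.2.2.2)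
  exact ⟨this.1, this.2.1, this.2.2.1⟩

theorem Ur_Str {ζ : ℂ} (hζ : ζ ∈ Col d) : d.Ur ζ ∈ Str d.Λ := by
  rcases le_total ζ.re (d.b₃ + d.b₂) with e | e
  · rw [Dat.Ur, if_pos e]
    exact (col_U h hζ.1 e hζ.2.2.1 hζ.2.2.2).2.1
  · rw [Ur_ge' h e hζ.2.2.1 hζ.2.2.2, conj_mem_Str]
    exact (col_refl h hζ e).2.1

theorem Ur_cont' : ContinuousOn d.Ur (Col d) := by
  refine ContinuousOn.if (fun ζ hζ => ?_) ?_ ?_
  · have e : ζ.re = d.b₃ + d.b₂ := frontier_le_subset_eq continuous_re continuous_const hζ.2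
    rw [← Ur_ge' h e.ge hζ.1.2.2.1 hζ.1.2.2.2]
    exact (if_pos e.le).symm
  · rw [closure_le_eq continuous_re continuous_const]
    refine h.li.cont.mono fun ζ hζ => ?_
    have := col_U h hζ.1.1 hζ.2 hζ.1.2.2.1 hζ.1.2.2.2
    exact ⟨_, this.1, this.2.2.1⟩
  · refine continuous_conj.comp_continuousOn (h.li.cont.comp (by fun_prop) fun ζ hζ => ?_)
    have h1 : d.b₃ + d.b₂ ≤ ζ.re := closure_lt_subset_le continuous_const continuous_re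
      (by simpa only [not_le] using hζ.2)
    have := col_refl h hζ.1 h1
    exact ⟨_, this.1, this.2.2⟩

theorem Y_cont (hx : FX d.r d.x₀ d.z₁ d.κ d.Q (d.b₃ + d.b₂) d.x) : ContinuousOn d.Y (ann d.r) := by
  intro p hp
  by_cases hK : p ∈ KK d.κ
  · have e : d.Y p = d.a₁ := if_neg fun hX => hX.2 hK
    have := hx.cont p hp
    rw [ContinuousWithinAt, hx.zero p hK] at this
    rw [ContinuousWithinAt, e]
    exact Y_tend h this
  · have hX : p ∈ XX d.r d.κ := ⟨hp, hK⟩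
    have hc : ContinuousOn (fun z => max (d.Φ (d.w z)).im d.a₁) (XX d.r d.κ) :=
      (continuous_im.comp_continuousOn
        (h.ph.cont.comp h.uh.cont fun z hz => (h.uh.mem z hz).1)).sup continuousOn_const
    have hc' : ContinuousOn d.Y (XX d.r d.κ) := hc.congr fun z hz => if_pos hz
    exact (hc'.continuousAt (h.ka.isOpen.mem_nhds hX)).continuousWithinAt

theorem Y_inn (h3 : 0 < d.a₃) {p : ℂ} (hp : ‖p‖ = d.r) :
    Tendsto d.Y (𝓝[ann d.r] p) (𝓝 (d.a₁ + d.a₃)) := by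
  have hf : d.fin := h.lb.fin_iff.2 h3
  have hK : p ∉ KK d.κ := by
    rintro ⟨t, ht, rfl⟩
    exact (h.un.nh.1 hf t ht).ne' hp
  have hv := h.zc.crit.v_inner p hp hK
  rw [Metric.tendsto_nhds]
  intro ε hε
  obtain ⟨δ, hδ, hu⟩ := h.lb.unR hf ε hε
  have hlt : d.B * (d.Λ - δ) / d.Λ < d.B := by
    rw [div_lt_iff₀ h.Λ0]
    exact mul_lt_mul_of_pos_left (by linarith) h.B0
  filter_upwards [hv.eventually (lt_mem_nhds hlt), self_mem_nhdsWithin,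
    mem_nhdsWithin_of_mem_nhds (h.ka.isClosed.isOpen_compl.mem_nhds hK)] with z hz h1 h2
  have hX : z ∈ XX d.r d.κ := ⟨h1, h2⟩
  have hm := (h.uh.mem z hX).1
  rw [h.v_w hX, div_lt_div_iff_of_pos_right h.Λ0, mul_lt_mul_iff_right₀ h.B0] at hz
  have h4 := hu _ hm hz
  have h5 := (h.lb.rng _ hm).2.2.2.1
  rw [show d.Y z = max (d.Φ (d.w z)).im d.a₁ from if_pos hX, Real.dist_eq, abs_lt]
  have h6 := le_max_left (d.Φ (d.w z)).im d.a₁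
  have h7 : max (d.Φ (d.w z)).im d.a₁ ≤ d.a₁ + d.a₃ := max_le h5 (by linarith)
  constructor <;> linarith

theorem lev {y : ℝ} (hy : y ∈ Ioo d.a₁ (d.a₁ + d.a₃)) :
    ContinuousOn (fun t : ℝ => d.Z (t + y * I)) (Icc d.b₃ (d.b₃ + 2 * d.b₂)) ∧
    d.Z (d.b₃ + y * I) = d.Z ((d.b₃ + 2 * d.b₂ : ℝ) + y * I) ∧ d.Z (d.b₃ + y * I) ∈ ann d.r ∧
    ∀ z ∈ ann d.r, d.Y z = y → ∃ t ∈ Icc d.b₃ (d.b₃ + 2 * d.b₂), d.Z (t + y * I) = z := by
  have hf : d.fin := h.lb.fin_iff.2 (by linarith [hy.1, hy.2])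
  have hb := h.lb.sh.2.1
  have hre : ∀ t : ℝ, ((t : ℂ) + y * I).re = t := fun t => by simp
  have him : ∀ t : ℝ, ((t : ℂ) + y * I).im = y := fun t => by simp
  have hcol : ∀ t ∈ Icc d.b₃ (d.b₃ + 2 * d.b₂), (t : ℂ) + y * I ∈ Col d := fun t ht =>
    ⟨by rw [hre]; exact ht.1, by rw [hre]; exact ht.2, by rw [him]; exact hy.1,
      by rw [him]; exact hy.2⟩
  have hrf : ∀ t : ℝ, 2 * ((d.b₃ + d.b₂ : ℝ) : ℂ) - conj ((t : ℂ) + y * I) =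
      ((2 * (d.b₃ + d.b₂) - t : ℝ) : ℂ) + y * I := fun t =>
    Complex.ext (by rw [refl_re, hre, hre]) (by rw [refl_im, him, him])
  refine ⟨?_, ?_, ?_, fun z hz hY => ?_⟩
  · simp only [Dat.Z_eq]
    exact h.un.d.continuousOn.comp ((Ur_cont' h).comp (by fun_prop) hcol)
      fun t ht => Ur_Str h (hcol t ht)
  · have := h.tr_U hf (hre d.b₃) (by rw [him]; exact hy.1) (by rw [him]; exact hy.2)
    rw [Dat.Z_eq, Dat.Z_eq, Ur_ge' h (ζ := (d.b₃ + 2 * d.b₂ : ℝ) + y * I) (by rw [hre]; linarith)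
      (by rw [him]; exact hy.1) (by rw [him]; exact hy.2), hrf,
      show 2 * (d.b₃ + d.b₂) - (d.b₃ + 2 * d.b₂) = d.b₃ by ring, Dat.Ur,
      if_pos (by rw [hre]; linarith),
      h.un.top hf ⟨(h.md.cm hf).1.trans this.1.2.1, this.1.2.2⟩ this.1.1]
  · rw [Dat.Z_eq]
    exact (h.un.maps _ (Ur_Str h (hcol _ ⟨le_rfl, by linarith⟩))).1
  · have hX : z ∈ XX d.r d.κ := by
      by_contra hX
      rw [show d.Y z = d.a₁ from if_neg hX] at hY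
      exact hy.1.ne hY
    rw [show d.Y z = max (d.Φ (d.w z)).im d.a₁ from if_pos hX] at hY
    have hi : (d.Φ (d.w z)).im = y := by
      rcases max_choice (d.Φ (d.w z)).im d.a₁ with e | e
      · exact e.symm.trans hY
      · exact absurd (e.symm.trans hY) hy.1.ne
    have hm := (h.uh.mem z hX).1
    have hr := h.lb.rng _ hm
    have h1 : d.b₃ ≤ (d.Φ (d.w z)).re := not_lt.1 fun e => by linarith [hr.2.2.2.2 e, hy.1]
    have e : (((d.Φ (d.w z)).re : ℝ) : ℂ) + y * I = d.Φ (d.w z) := by rw [← hi, re_add_im]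
    rcases h.uh.rep z hX with e' | e'
    · refine ⟨(d.Φ (d.w z)).re, ⟨h1, by linarith [hr.2.1]⟩, ?_⟩
      rw [e, Dat.Z_eq, Dat.Ur, if_pos hr.2.1, h.li.linv _ hm, e']
    · refine ⟨2 * (d.b₃ + d.b₂) - (d.Φ (d.w z)).re, ⟨by linarith [hr.2.1], by linarith⟩, ?_⟩
      rw [Dat.Z_eq, Ur_ge' h (by rw [hre]; linarith [hr.2.1]) (by rw [him]; exact hy.1)
        (by rw [him]; exact hy.2), hrf, sub_sub_cancel, e, h.li.linv _ hm, e']

end FyP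

theorem z_fy (hFY2 : Z_FY2) : Z_FY := by
  intro d h hx
  refine ⟨FyP.Y_cont h hx, ?_, fun p hp => FyP.Y_tend h (hx.out p hp),
    fun h3 p hp => FyP.Y_inn h h3 hp, fun y hy => FyP.lev h hy, (hFY2 d h hx).1, (hFY2 d h hx).2⟩
  rw [show d.Y d.x₀ = max (d.Φ (d.w d.x₀)).im d.a₁ from if_pos ⟨h.ka.m0, h.ka.avoid⟩, h.w_x0,
    h.lb.p0, ofReal_im]
  exact max_eq_right h.lb.sh.1.le

end Pool.Agent.P.MP_3bd355_an
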