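import Pool.Agent.P.MP_3bd355_an.Z.Stmts

/-! The case `A = 0`: package FZ. -/

open Set Filter Metric Complex InnerProductSpace MeasureTheory
open scoped Topology ComplexConjugate Real

namespace Pool.Agent.P.MP_3bd355_an

namespace FzP

variable {d : Dat}

theorem inv_sq {w : ℂ} (hw : 0 < w.im) : w * (rt w)⁻¹ ^ 2 = 1 := by
  rw [inv_pow, rt_sq, mul_inv_cancel₀ (by rintro rfl; simp at hw)]

theorem line (a : ℝ) : volume {ζ : ℂ | ζ.im = a} = 0 := by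
  have e : {ζ : ℂ | ζ.im = a} = measurableEquivRealProd ⁻¹' (univ ×ˢ {a}) := by
    ext ζ; simp
  rw [e, volume_preserving_equiv_real_prod.measure_preimage_equiv, Measure.volume_eq_prod,
    Measure.prod_prod]
  simp

theorem Ur_le (d : Dat) {ζ : ℂ} (h1 : ζ.re ≤ d.b₃ + d.b₂) : d.Ur ζ = d.U ζ := if_pos h1

theorem refl_refl (b ζ : ℂ) (hb : conj b = b) : 2 * b - conj (2 * b - conj ζ) = ζ := by
  rw [map_sub, map_mul, hb, conj_conj, map_ofNat]; ring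

theorem U_der (h : GF d) {ζ : ℂ} (hζ : ζ ∈ DD2 d.a₁ d.a₃ d.b₃ d.b₂) (h0 : ζ.re ≠ d.b₃ + d.b₂) :
    ∃ s, HasDerivAt d.Ur s ζ ∧ d.T (d.Ur ζ) * s ^ 2 = 1 := by
  rcases h0.lt_or_gt with h0 | h0
  · have m := DD2_left h.lb.sh.nonneg.2 hζ h0
    refine ⟨_, (h.li.der _ m).congr_of_eventuallyEq ?_, ?_⟩
    · filter_upwards [(isOpen_lt continuous_re continuous_const).mem_nhds h0] with y hy
      exact Ur_le d (le_of_lt hy)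
    · rw [Ur_le d h0.le, inv_sq (h.md.im _ (h.Lo_U m).1)]
  · have m := DD2_right h.lb.sh.nonneg.2 hζ h0
    have rot : HasDerivAt (fun y : ℂ => 2 * ((d.b₃ + d.b₂ : ℝ) : ℂ) - y) (-1) (conj ζ) :=
      (hasDerivAt_id (conj ζ)).const_sub _
    have k := ((h.li.der _ m).comp (conj ζ) rot).conj_conj
    rw [conj_conj] at k
    refine ⟨_, k.congr_of_eventuallyEq ?_, ?_⟩
    · filter_upwards [(isOpen_lt continuous_const continuous_re).mem_nhds h0] with y hy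
      exact if_neg (not_le.2 hy)
    · rw [h.Ur_ge hζ h0.le, h.md.symm, ← map_pow, ← map_mul, mul_pow, ← mul_assoc,
        inv_sq (h.md.im _ (h.Lo_U m).1)]
      simp

theorem U_diff (hP : Z_PAIN) (h : GF d) : DifferentiableOn ℂ d.Ur (DD2 d.a₁ d.a₃ d.b₃ d.b₂) :=
  hP _ _ (d.b₃ + d.b₂) (isOpen_DD2 _ _ _ _) h.Ur_cont fun _ hζ h0 =>
    (U_der h hζ h0).choose_spec.1.differentiableAt

theorem U_ne (h : GF d) {ζ : ℂ} (hζ : ζ ∈ DD2 d.a₁ d.a₃ d.b₃ d.b₂) : d.Ur ζ ≠ d.u₀ := by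
  intro e
  obtain ⟨-, -, k1, k2, k3⟩ := h.Ur_mem hζ
  rw [e] at k1 k2 k3
  rcases lt_trichotomy ζ.re (d.b₃ + d.b₂) with k | k | k
  · simpa using k1 k
  · simpa using (k2 k).2
  · simpa using k3 k

theorem U_ode (hP : Z_PAIN) (h : GF d) {ζ : ℂ} (hζ : ζ ∈ DD2 d.a₁ d.a₃ d.b₃ d.b₂) :
    d.T (d.Ur ζ) * deriv d.Ur ζ ^ 2 = 1 := by
  have off : ∀ y ∈ DD2 d.a₁ d.a₃ d.b₃ d.b₂, y.re ≠ d.b₃ + d.b₂ →
      d.T (d.Ur y) * deriv d.Ur y ^ 2 = 1 := fun y hy h0 => by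
    obtain ⟨s, k1, k2⟩ := U_der h hy h0
    rw [k1.deriv, k2]
  by_cases h0 : ζ.re = d.b₃ + d.b₂
  · have an : AnalyticAt ℂ d.Ur ζ := (U_diff hP h).analyticAt ((isOpen_DD2 _ _ _ _).mem_nhds hζ)
    have aT : AnalyticAt ℂ d.T (d.Ur ζ) := h.md.ana _
      (by rw [Ur_le d h0.le]; exact (h.half_U hζ h0.le).1) (U_ne h hζ)
    have c : ContinuousAt (fun y => d.T (d.Ur y) * deriv d.Ur y ^ 2) ζ :=
      (ContinuousAt.comp aT.continuousAt an.continuousAt).mul (an.deriv.continuousAt.pow 2)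
    have l : Tendsto (fun t : ℝ => ζ + t) (𝓝[>] 0) (𝓝 ζ) :=
      (Continuous.tendsto' (by fun_prop) 0 ζ (by simp)).mono_left nhdsWithin_le_nhds
    refine tendsto_nhds_unique (c.tendsto.comp l) (tendsto_const_nhds.congr' ?_)
    filter_upwards [l.eventually ((isOpen_DD2 _ _ _ _).mem_nhds hζ), self_mem_nhdsWithin]
      with t k1 k2
    exact (off _ k1 (by simpa [h0] using (ne_of_gt k2))).symm
  · exact off ζ hζ h0

theorem U_sign (h : GF d) {ζ ζ' : ℂ} (hζ : ζ ∈ DD2 d.a₁ d.a₃ d.b₃ d.b₂)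
    (hζ' : ζ' ∈ DD2 d.a₁ d.a₃ d.b₃ d.b₂) (h0 : ζ.re ≤ d.b₃ + d.b₂) (h1 : d.b₃ + d.b₂ < ζ'.re) :
    d.Ur ζ ≠ d.Ur ζ' := fun e => by
  have k := (h.Ur_mem hζ').2.2.2.2 h1
  rw [← e, Ur_le d h0] at k
  exact absurd k (not_lt.2 (h.half_U hζ h0).1.2.2.1)

theorem U_inj (h : GF d) : InjOn d.Ur (DD2 d.a₁ d.a₃ d.b₃ d.b₂) := by
  intro ζ hζ ζ' hζ' e
  rcases le_or_gt ζ.re (d.b₃ + d.b₂) with h0 | h0 <;>
    rcases le_or_gt ζ'.re (d.b₃ + d.b₂) with h1 | h1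
  · rw [Ur_le d h0, Ur_le d h1] at e
    rw [← (h.half_U hζ h0).2.2.1, e, (h.half_U hζ' h1).2.2.1]
  · exact absurd e (U_sign h hζ hζ' h0 h1)
  · exact absurd e.symm (U_sign h hζ' hζ h1 h0)
  · rw [h.Ur_ge hζ h0.le, h.Ur_ge hζ' h1.le] at e
    refine (starRingEnd ℂ).injective (sub_right_injective (b := 2 * ((d.b₃ + d.b₂ : ℝ) : ℂ)) ?_)
    show 2 * ((d.b₃ + d.b₂ : ℝ) : ℂ) - conj ζ = 2 * ((d.b₃ + d.b₂ : ℝ) : ℂ) - conj ζ'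
    rw [← (h.half_U (DD2_refl hζ) (GF.refl_le h0.le)).2.2.1, (starRingEnd ℂ).injective e,
      (h.half_U (DD2_refl hζ') (GF.refl_le h1.le)).2.2.1]

theorem Lo_sub (h : GF d) : Lo d.a₁ d.a₃ d.b₃ d.b₂ ⊆ DD2 d.a₁ d.a₃ d.b₃ d.b₂ := fun ζ hζ =>
  ⟨hζ.2.2.1, hζ.2.2.2.imp (fun k => ⟨hζ.1, by linarith [hζ.2.1, h.b1], k⟩)
    fun k => ⟨k.1, by linarith [hζ.2.1, h.lb.sh.2.1], k.2⟩⟩

theorem U_onto (h : GF d) {u : ℂ} (hu : u ∈ FS d.Λ d.fin) (h0 : u.im ≠ 0) (h1 : u.im ≠ π) :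
    ∃ ζ ∈ DD2 d.a₁ d.a₃ d.b₃ d.b₂, d.Ur ζ = u := by
  rcases h0.lt_or_gt with h0 | h0
  · have m : conj u ∈ PP d.Λ d.fin := ⟨hu.1, hu.2.1, by rw [conj_im]; linarith, fun hf => by
      rw [conj_im]; linarith [(hu.2.2 hf).1]⟩
    have k := h.lb.maps m
    refine ⟨_, DD2_refl (Lo_sub h k), ?_⟩
    rw [h.Ur_ge (DD2_refl (Lo_sub h k)) (by
      rw [show (2 * (d.b₃ + d.b₂ : ℝ) - conj (d.Φ (conj u))).re
        = 2 * (d.b₃ + d.b₂) - (d.Φ (conj u)).re by simp]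
      linarith [k.2.1]), refl_refl _ _ (conj_ofReal _), h.li.linv _ (PP_sub_PC _ _ m), conj_conj]
  · have m : u ∈ PP d.Λ d.fin := ⟨hu.1, hu.2.1, h0, fun hf => lt_of_le_of_ne (hu.2.2 hf).2 h1⟩
    have k := h.lb.maps m
    exact ⟨_, Lo_sub h k, by rw [Ur_le d k.2.1.le, h.li.linv _ (PP_sub_PC _ _ m)]⟩

theorem null (h : GF d) (a : ℝ) : volume (d.Ψ '' (Str d.Λ ∩ {u | u.im = a})) = 0 :=
  addHaar_image_eq_zero_of_differentiableOn_of_addHaar_eq_zero volume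
    ((h.un.d.restrictScalars ℝ).mono inter_subset_left)
    (measure_mono_null inter_subset_right (line a))

end FzP

open FzP in
theorem z_fz (hPAIN : Z_PAIN) : Z_FZ := by
  intro d h
  have eZ : d.Z = d.Ψ ∘ d.Ur := funext d.Z_eq
  have US : ∀ ζ ∈ DD2 d.a₁ d.a₃ d.b₃ d.b₂, d.Ur ζ ∈ Str d.Λ := fun ζ hζ =>
    FS_sub_Str _ _ (h.Ur_mem hζ).1
  have ne : ∀ ζ ∈ DD2 d.a₁ d.a₃ d.b₃ d.b₂, d.Ψ (d.Ur ζ) ≠ d.x₀ := fun ζ hζ e => U_ne h hζ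
    (h.un.inj (h.Ur_mem hζ).1 ⟨h.md.u0, h.md.u1, fun _ =>
      ⟨by simpa using Real.pi_pos, by simpa using Real.pi_pos.le⟩⟩ (e.trans h.un.base.symm))
  refine ⟨?_, ?_, fun ζ hζ => ?_, fun ζ hζ => ?_, ?_, fun ζ hζ => ?_⟩
  · rw [eZ]; exact h.un.d.comp (U_diff hPAIN h) US
  · rw [eZ]; exact h.un.inj.comp (U_inj h) fun ζ hζ => (h.Ur_mem hζ).1
  · rw [d.Z_eq]; exact ⟨h.un.maps _ (US ζ hζ), ne ζ hζ⟩
  · rw [d.Z_eq, eZ, deriv_comp ζ (h.un.ana (US ζ hζ)).differentiableAt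
      ((U_diff hPAIN h).differentiableAt ((isOpen_DD2 _ _ _ _).mem_nhds hζ)), mul_pow,
      ← mul_assoc, h.un.pull _ (US ζ hζ) (ne ζ hζ), U_ode hPAIN h hζ]
  · refine measure_mono_null (fun z hz => ?_)
      (measure_union_null h.ka.null (measure_union_null (null h 0) (null h π)))
    by_cases hK : z ∈ KK d.κ
    · exact Or.inl ⟨hK, hz.1⟩
    obtain ⟨u, hu, rfl⟩ := h.un.surj z ⟨hz.1, hK⟩
    by_cases h0 : u.im = 0
    · exact Or.inr (Or.inl ⟨u, ⟨FS_sub_Str _ _ hu, h0⟩, rfl⟩)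
    by_cases h1 : u.im = π
    · exact Or.inr (Or.inr ⟨u, ⟨FS_sub_Str _ _ hu, h1⟩, rfl⟩)
    obtain ⟨ζ, hζ, rfl⟩ := U_onto h hu h0 h1
    exact absurd ⟨ζ, hζ, d.Z_eq ζ⟩ hz.2
  · rcases le_total ζ.re (d.b₃ + d.b₂) with h1 | h1
    · obtain ⟨k1, k2, k3, -⟩ := h.half_U hζ h1
      rw [d.Z_eq, Ur_le d h1, (h.x_Psi k1 k2).1, k3, abs_of_nonneg (sub_nonneg.2 h1)]
      ring
    · obtain ⟨k1, k2, k3, -⟩ := h.half_U (DD2_refl hζ) (GF.refl_le h1)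
      rw [d.Z_eq, h.Ur_ge hζ h1, (h.x_Psi k1 k2).2, k3, abs_of_nonpos (sub_nonpos.2 h1)]
      simp
      ring

end Pool.Agent.P.MP_3bd355_an
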