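import Pool.Agent.P.MP_3bd355_an.Z.Stmts

/-! The case `A = 0`: package GEXP. -/

open Set Filter Metric Complex InnerProductSpace MeasureTheory
open scoped Topology ComplexConjugate Real

namespace Pool.Agent.P.MP_3bd355_an

namespace GexpP

/-- At a circle where `g` vanishes, `w * grad g w` has a real limit. -/
theorem bd {σ : ℝ} (hσ : σ * σ = 1) {g : ℂ → ℝ} {p : ℂ} (hp : p ≠ 0) {U : Set ℂ}
    (hU : ∀ᶠ w in 𝓝 p, (w ∈ U ↔ σ * (Real.log ‖w‖ - Real.log ‖p‖) < 0))
    (hh : ∀ᶠ w in 𝓝[U] p, HarmonicAt g w)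
    (h0 : ∀ q : ℂ, ‖q‖ = ‖p‖ → Tendsto g (𝓝[U] q) (𝓝 0)) :
    Tendsto (fun w => (w * grad g w).im) (𝓝[U] p) (𝓝 0) := by
  set χ : ℂ → ℂ := fun η => p * exp (σ * I * η) with hχ
  have χa : ∀ η, AnalyticAt ℂ χ η := fun η => by rw [hχ]; fun_prop
  have χd : ∀ η, deriv χ η = σ * I * χ η := fun η => by
    have : HasDerivAt χ (p * (exp (σ * I * η) * (σ * I * 1))) η :=
      (((hasDerivAt_id η).const_mul _).cexp).const_mul p
    rw [this.deriv, hχ]; ring
  have χ0 : χ (0 : ℝ) = p := by simp [hχ]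
  have χn : ∀ η, ‖χ η‖ = ‖p‖ * Real.exp (-(σ * η.im)) := fun η => by
    rw [hχ]; simp only [norm_mul, norm_exp]; simp
  have χl : ∀ η, σ * (Real.log ‖χ η‖ - Real.log ‖p‖) = -η.im := fun η => by
    rw [χn, Real.log_mul (norm_ne_zero_iff.2 hp) (Real.exp_pos _).ne', Real.log_exp]
    linear_combination (-η.im) * hσ
  have χt : ∀ t : ℝ, (∀ᶠ w in 𝓝 (χ t), (w ∈ U ↔ σ * (Real.log ‖w‖ - Real.log ‖p‖) < 0)) →
      Tendsto χ (𝓝[upH] (t : ℂ)) (𝓝[U] (χ t)) := fun t ht => by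
    have h1 : Tendsto χ (𝓝[upH] (t : ℂ)) (𝓝 (χ t)) :=
      (χa t).continuousAt.tendsto.mono_left nhdsWithin_le_nhds
    refine tendsto_nhdsWithin_iff.2 ⟨h1, ?_⟩
    filter_upwards [h1.eventually ht, self_mem_nhdsWithin] with η h2 h3
    rw [h2, χl]
    exact neg_lt_zero.2 h3
  have t0 : Tendsto χ (𝓝[upH] ((0 : ℝ) : ℂ)) (𝓝[U] p) := by
    have := χt 0 (by rwa [χ0])
    rwa [χ0] at this
  have tr : Tendsto (fun t : ℝ => χ t) (𝓝 0) (𝓝 p) := by
    rw [← χ0]
    exact ContinuousAt.comp (f := fun t : ℝ => (t : ℂ)) (χa _).continuousAt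
      continuous_ofReal.continuousAt
  obtain ⟨Φ, hΦ⟩ := refAt_of_tendsto (u := fun η => g (χ η)) (x := 0)
    ((t0.eventually hh).mono fun η h => harm_comp h (χa η)) (by
      filter_upwards [tr.eventually hU.eventually_nhds] with t ht
      exact (h0 (χ t) (by rw [χn]; simp)).comp (χt t ht))
  have k1 : Tendsto (fun η => (χ η * grad g (χ η)).im) (𝓝[upH] ((0 : ℝ) : ℂ)) (𝓝 0) := by
    have c1 : Tendsto (fun η => -σ * (deriv Φ η).im) (𝓝[upH] ((0 : ℝ) : ℂ))
        (𝓝 (-σ * (deriv Φ (0 : ℝ)).im)) :=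
      ((continuous_im.tendsto _).comp
        (hΦ.1.deriv.continuousAt.tendsto.mono_left nhdsWithin_le_nhds)).const_mul _
    rw [hΦ.deriv_im.self_of_nhds, mul_zero] at c1
    refine c1.congr' ?_
    filter_upwards [hΦ.grad, t0.eventually hh] with η h1 h2
    rw [grad_comp (harm_diff h2) (χa η).differentiableAt, χd] at h1
    have h3 : χ η * grad g (χ η) = (-σ : ℝ) * deriv Φ η := by
      have e : (σ : ℂ) * σ = 1 := by exact_mod_cast hσ
      push_cast
      linear_combination (-(σ : ℂ) * I) * h1 + (grad g (χ η) * χ η * I ^ 2) * e +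
        (grad g (χ η) * χ η + σ * deriv Φ η) * I_sq
    rw [h3, im_ofReal_mul]
  set ν : ℂ → ℂ := fun w => -(σ * I) * log (w / p) with hν
  have νχ : ∀ w, w ≠ 0 → χ (ν w) = w := fun w hw => by
    have e : (σ : ℂ) * σ = 1 := by exact_mod_cast hσ
    have : σ * I * ν w = log (w / p) := by
      rw [hν]
      linear_combination (-log (w / p) * I ^ 2) * e - log (w / p) * I_sq
    rw [hχ]
    simp only
    rw [this, exp_log (div_ne_zero hw hp), mul_div_cancel₀ _ hp]
  have ne : ∀ᶠ w in 𝓝[U] p, w ≠ 0 := (eventually_ne_nhds hp).filter_mono nhdsWithin_le_nhds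
  have k2 : Tendsto ν (𝓝[U] p) (𝓝[upH] ((0 : ℝ) : ℂ)) := by
    refine tendsto_nhdsWithin_iff.2 ⟨?_, ?_⟩
    · have c : ContinuousAt ν p := continuousAt_const.mul
        (ContinuousAt.clog (by fun_prop) (by rw [div_self hp]; exact one_mem_slitPlane))
      have := c.tendsto.mono_left (nhdsWithin_le_nhds (s := U))
      rwa [show ν p = (0 : ℝ) by rw [hν]; simp [div_self hp]] at this
    · filter_upwards [ne, hU.filter_mono nhdsWithin_le_nhds, self_mem_nhdsWithin] with w h1 h2 h3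
      have := χl (ν w)
      rw [νχ w h1] at this
      have h4 := h2.1 h3
      rw [this] at h4
      exact neg_lt_zero.1 h4
  refine (k1.comp k2).congr' ?_
  filter_upwards [ne] with w hw
  simp only [Function.comp, νχ w hw]

/-- The explicit part of the gradient. -/
noncomputable def Kk (ρ : ℝ) (ζ w : ℂ) : ℂ := (vk ρ (w / ζ) - vk ρ (w * ζ)) / 2

/-- The gradient up to a real constant. -/
theorem const {ρ x : ℝ} {g : ℂ → ℝ} (h0 : 0 < ρ) (h1 : ρ < 1) (hx : (x : ℂ) ∈ ann ρ)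
    (hg : HarmonicOnNhd g (ann ρ \ {(x : ℂ)}))
    (hp : ∃ H : ℂ → ℝ, HarmonicAt H (x : ℂ) ∧
      ∀ᶠ w in 𝓝[≠] (x : ℂ), g w = H w - Real.log ‖w - x‖)
    (hb : ∀ p : ℂ, ‖p‖ = ρ ∨ ‖p‖ = 1 → Tendsto g (𝓝[ann ρ] p) (𝓝 0)) :
    ∃ e : ℝ, ∀ w ∈ ann ρ, w ≠ x → w * grad g w = e + Kk ρ x w := by
  obtain ⟨H, hH, hgH⟩ := hp
  obtain ⟨O, -, -, hO, -, hk⟩ := ker_dom h0 h1 hx
  simp only [conj_ofReal] at hk
  have x0 : (x : ℂ) ≠ 0 := norm_pos_iff.1 (h0.trans hx.1)
  have Ka : ∀ w ∈ cann ρ, w ≠ x → AnalyticAt ℂ (Kk ρ x) w := fun w hw hne =>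
    (((hk w (hO hw)).2.2 hne).sub (hk w (hO hw)).2.1).div analyticAt_const two_ne_zero
  set A : ℂ → ℂ := fun w => w * grad H w - 1 / 2 - (vk0 ρ (w / x) - vk ρ (w * x)) / 2 with hA
  have Aa : AnalyticAt ℂ A x :=
    ((analyticAt_id.mul (grad_analytic hH)).sub analyticAt_const).sub
      (((hk x (hO (ann_sub_cann _ hx))).1.sub (hk x (hO (ann_sub_cann _ hx))).2.1).div analyticAt_const
        two_ne_zero)
  set E : ℂ → ℂ := Function.update (fun w => w * grad g w - Kk ρ x w) x (A x) with hE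
  have E1 : ∀ w : ℂ, w ≠ x → E w = w * grad g w - Kk ρ x w := fun w hw =>
    Function.update_of_ne hw _ _
  have Ea : AnalyticOnNhd ℂ E (ann ρ) := fun w hw => by
    by_cases e : w = x
    · subst e
      refine Aa.congr ?_
      rw [Filter.EventuallyEq, ← nhdsNE_sup_pure, eventually_sup]
      refine ⟨?_, by simp [hE]⟩
      filter_upwards [self_mem_nhdsWithin, eventually_eventually_nhdsWithin.2 hgH,
        hH.eventually.filter_mono nhdsWithin_le_nhds] with y hy k1 k2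
      have hy' : y ≠ x := hy
      rw [nhdsWithin_eq_nhds.2 (isOpen_compl_singleton.mem_nhds hy)] at k1
      rw [E1 y hy', grad_congr k1, grad_sub (harm_diff k2) (harm_diff (harm_log hy')),
        grad_log hy', Kk, Ker1P.vk_eq ρ (y / x), Ker1P.pole x0 hy', hA]
      have := sub_ne_zero.2 hy'
      field_simp
      ring
    · refine ((analyticAt_id.mul (grad_analytic (hg w ⟨hw, e⟩))).sub
        (Ka w (ann_sub_cann _ hw) e)).congr ?_
      filter_upwards [eventually_ne_nhds e] with y hy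
      exact (E1 y hy).symm
  have Eb : ∀ p ∈ frontier (ann ρ), Tendsto (fun w => (E w).im) (𝓝[ann ρ] p) (𝓝 0) := by
    intro p hp
    rw [frontier_ann h0 h1] at hp
    have p0 : 0 < ‖p‖ := by rcases hp with h | h <;> rw [h] <;> positivity
    have px : p ≠ x := by
      rintro rfl
      rcases hp with h | h
      · exact hx.1.ne' h
      · exact hx.2.ne h
    have pc : p ∈ cann ρ := by
      rcases hp with h | h
      · exact ⟨h.ge, h.le.trans h1.le⟩
      · exact ⟨h1.le.trans h.ge, h.le⟩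
    have ne : ∀ᶠ w : ℂ in 𝓝[ann ρ] p, w ≠ x :=
      (eventually_ne_nhds px).filter_mono nhdsWithin_le_nhds
    have hh : ∀ᶠ w in 𝓝[ann ρ] p, HarmonicAt g w := by
      filter_upwards [ne, self_mem_nhdsWithin] with w k1 k2 using hg w ⟨k2, k1⟩
    have hq : ∀ q : ℂ, ‖q‖ = ‖p‖ → Tendsto g (𝓝[ann ρ] q) (𝓝 0) := fun q hq =>
      hb q (by rw [hq]; exact hp)
    have pos : ∀ᶠ w in 𝓝 p, 0 < ‖w‖ := continuous_norm.continuousAt.eventually (lt_mem_nhds p0)
    have k1 : Tendsto (fun w => (w * grad g w).im) (𝓝[ann ρ] p) (𝓝 0) := by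
      rcases hp with h | h
      · refine bd (σ := -1) (by norm_num) (norm_pos_iff.1 p0) ?_ hh hq
        filter_upwards [pos, continuous_norm.continuousAt.eventually
          (gt_mem_nhds (show ‖p‖ < 1 from h.trans_lt h1))] with w k k'
        rw [neg_one_mul, neg_lt_zero, sub_pos, Real.log_lt_log_iff p0 k, h]
        exact ⟨fun j => j.1, fun j => ⟨j, k'⟩⟩
      · refine bd (σ := 1) (by norm_num) (norm_pos_iff.1 p0) ?_ hh hq
        filter_upwards [pos, continuous_norm.continuousAt.eventually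
          (lt_mem_nhds (show ρ < ‖p‖ from h1.trans_eq h.symm))] with w k k'
        rw [one_mul, sub_neg, Real.log_lt_log_iff k p0, h]
        exact ⟨fun j => j.2, fun j => ⟨k', j⟩⟩
    have k2 : Tendsto (fun w => (Kk ρ x w).im) (𝓝[ann ρ] p) (𝓝 (Kk ρ x p).im) :=
      (continuous_im.tendsto _).comp
        ((Ka p pc px).continuousAt.tendsto.mono_left nhdsWithin_le_nhds)
    have k3 : (Kk ρ x p).im = 0 := by
      have : (vk ρ (p * x)).im = (vk ρ (p / x)).im := by
        rcases hp with h | h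
        · simpa using congrArg im (vk_inner h0 hx h)
        · simpa using congrArg im (vk_outer h0 hx h)
      simp [Kk, this]
    have := k1.sub k2
    rw [k3, sub_zero] at this
    refine this.congr' ?_
    filter_upwards [ne] with w hw
    rw [E1 w hw, sub_im]
  have Eh : HarmonicOnNhd (fun w => (E w).im) (ann ρ) := fun w hw => (Ea w hw).harmonicAt_im
  have le1 := (Sub.of_harm Eh).mp0 (isOpen_ann ρ) (bdd_ann ρ) (c := 0)
    fun p hp => LS.of_tendsto (Eb p hp) le_rfl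
  have le2 := (Sub.of_harm (u := fun w => -1 * (E w).im) fun w hw =>
    harm_const_mul (Eh w hw) (-1)).mp0 (isOpen_ann ρ) (bdd_ann ρ) (c := 0)
    fun p hp => LS.of_tendsto ((Eb p hp).const_mul (-1)) (by simp)
  have im0 : ∀ w ∈ ann ρ, (E w).im = 0 := fun w hw => by
    have := le1 w hw
    have := le2 w hw
    linarith
  obtain ⟨c, hc⟩ := Ea.eq_const_of_im_eq_const im0 (isOpen_ann ρ) ⟨⟨x, hx⟩, preconn_ann h0⟩
  have ci : c.im = 0 := by rw [← hc x hx]; exact im0 x hx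
  refine ⟨c.re, fun w hw hne => ?_⟩
  rw [show (c.re : ℂ) = c from Complex.ext (by simp) (by simp [ci]), ← hc w hw, E1 w hne]
  ring

end GexpP

open GexpP in
theorem z_gexp (hVKI : Z_VKI) : Z_GEXP := by
  intro Λ u₀ g u0 u1 hg hp hb
  have L0 : 0 < Λ := u0.trans u1
  have mem : ∀ {w : ℂ} {x : ℝ}, ‖w‖ = Real.exp (-x) → x ∈ Ioo 0 Λ → w ∈ ann (Real.exp (-Λ)) :=
    fun {w x} h hx => ⟨by rw [h]; exact Real.exp_lt_exp.2 (neg_lt_neg hx.2),
      by rw [h]; exact Real.exp_lt_one_iff.2 (neg_lt_zero.2 hx.1)⟩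
  obtain ⟨e, he⟩ := const (Real.exp_pos _) (Real.exp_lt_one_iff.2 (neg_lt_zero.2 L0))
    (mem (by rw [norm_real, Real.norm_of_nonneg (Real.exp_pos _).le]) ⟨u0, u1⟩) hg hp hb
  suffices h : e = u₀ / Λ by
    intro w hw hne
    rw [he w hw hne, h, Kk]
  obtain ⟨vc, vi⟩ := hVKI Λ Λ u₀ u0 u1
  set ω : ℝ → ℂ := fun x => exp (-(x + π * I)) with hω
  have ωn : ∀ x, ‖ω x‖ = Real.exp (-x) := fun x => by rw [hω]; simp only [norm_exp]; simp
  have ωc : Continuous ω := by rw [hω]; fun_prop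
  have ωe : ∀ x, ω x ≠ Real.exp (-u₀) := fun x h => by
    have k : ω x = ((-Real.exp (-x) : ℝ) : ℂ) := by
      rw [hω]
      simp only
      rw [neg_add, exp_add, exp_neg (π * I), exp_pi_mul_I]
      simp
    rw [k, ofReal_inj] at h
    linarith [Real.exp_pos (-x), Real.exp_pos (-u₀)]
  have ωT : ∀ x : ℝ, Tf Λ Λ u₀ (x + π * I) = -((u₀ / Λ : ℝ) + Kk (Real.exp (-Λ))
      (Real.exp (-u₀) : ℝ) (ω x)) := fun x => by
    have k1 : ω x / (Real.exp (-u₀) : ℝ) = exp (u₀ - (x + π * I)) := by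
      rw [hω, ofReal_exp, ← exp_sub]; congr 1; push_cast; ring
    have k2 : ω x * (Real.exp (-u₀) : ℝ) = exp (-u₀ - (x + π * I)) := by
      rw [hω, ofReal_exp, ← exp_add]; congr 1; push_cast; ring
    rw [Tf, Kk, k1, k2, div_self L0.ne']
    simp
  have der : ∀ x ∈ Ioo 0 Λ, HasDerivAt (fun x => g (ω x))
      ((Tf Λ Λ u₀ (x + π * I)).re + (u₀ / Λ - e)) x := fun x hx => by
    have m := mem (ωn x) hx
    have d1 : HasDerivAt ω (ω x * (-1)) x :=
      ((((hasDerivAt_id (x : ℂ)).add_const (π * I)).neg).cexp).comp_ofReal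
    have d2 := (harm_diff (hg _ ⟨m, ωe x⟩)).hasFDerivAt.comp_hasDerivAt x d1
    refine d2.congr_deriv (Eq.symm ?_)
    rw [fderiv_eq_grad, ωT, show grad g (ω x) * (ω x * -1) = -(ω x * grad g (ω x)) by ring,
      he _ m (ωe x)]
    simp only [neg_re, add_re, ofReal_re]
    ring
  have i1 : IntervalIntegrable (fun x : ℝ => (Tf Λ Λ u₀ (x + π * I)).re) volume 0 Λ :=
    (continuous_re.comp_continuousOn vc).intervalIntegrable_of_Icc L0.le
  have lim : ∀ {l : Filter ℝ} {a : ℝ}, l ≤ 𝓝 a → (∀ᶠ x in l, x ∈ Ioo 0 Λ) → a = Λ ∨ a = 0 →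
      Tendsto (fun x => g (ω x)) l (𝓝 0) := fun {l a} h1 h2 h3 => by
    refine (hb (ω a) ?_).comp (tendsto_nhdsWithin_iff.2 ⟨ωc.continuousAt.tendsto.mono_left h1,
      h2.mono fun x hx => mem (ωn x) hx⟩)
    rw [ωn]
    rcases h3 with rfl | rfl
    · exact Or.inl rfl
    · exact Or.inr (by simp)
  have key := intervalIntegral.integral_eq_sub_of_hasDerivAt_of_tendsto L0 der
    (i1.add intervalIntegrable_const)
    (lim nhdsWithin_le_nhds (Ioo_mem_nhdsGT L0) (Or.inr rfl))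
    (lim nhdsWithin_le_nhds (Ioo_mem_nhdsLT L0) (Or.inl rfl))
  rw [intervalIntegral.integral_add i1 intervalIntegrable_const, vi,
    intervalIntegral.integral_const] at key
  simp only [sub_zero, zero_add, smul_eq_mul, mul_eq_zero] at key
  rcases key with k | k
  · exact absurd k L0.ne'
  · linarith

end Pool.Agent.P.MP_3bd355_an
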