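import Pool.Agent.P.MP_3bd355_an.Z.Stmts

/-! The case `A = 0`: package INV. -/

open Set Filter Metric Complex InnerProductSpace MeasureTheory
open scoped Topology ComplexConjugate Real

namespace Pool.Agent.P.MP_3bd355_an

theorem z_inv : Z_INV := by
  intro U f hU hd hi hne
  have h1 : ∀ z ∈ U, HasStrictDerivAt f (deriv f z) z := fun z hz =>
    ((hd.analyticAt (hU.mem_nhds hz)).contDiffAt (n := 1)).hasStrictDerivAt one_ne_zero
  refine ⟨isOpen_iff_mem_nhds.2 ?_, Function.invFunOn f U, fun z hz => hi.leftInvOn_invFunOn hz,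
    fun z hz => ?_⟩
  · rintro _ ⟨z, hz, rfl⟩
    rw [← (h1 z hz).map_nhds_eq (hne z hz)]
    exact image_mem_map (hU.mem_nhds hz)
  · refine ((h1 z hz).to_local_left_inverse (hne z hz) ?_).hasDerivAt
    filter_upwards [hU.mem_nhds hz] with x hx using hi.leftInvOn_invFunOn hx

end Pool.Agent.P.MP_3bd355_an
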