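import Pool.Agent.P.MP_3bd355_an.Z.Stmts

/-! The case `A = 0`: package IOTA. -/

open Set Filter Metric Complex InnerProductSpace MeasureTheory
open scoped Topology ComplexConjugate Real

namespace Pool.Agent.P.MP_3bd355_an

namespace IotaP

variable {r x₀ a b₁ δ : ℝ} {z₁ : ℂ} {κ : ℝ → ℂ} {Q Z F : ℂ → ℂ} {x : ℂ → ℝ} {Fb : ℝ → ℂ}

theorem vert (hδ : 0 < δ) {y : ℝ} (hy : y ∈ Ioo (-a) a) :
    Tendsto (fun t : ℝ => (y : ℂ) + t * I) (𝓝[>] 0) (𝓝[RR a δ] (y : ℂ)) := by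
  refine tendsto_nhdsWithin_iff.2 ⟨?_, ?_⟩
  · have : Continuous fun t : ℝ => (y : ℂ) + t * I := by fun_prop
    simpa using (this.tendsto 0).mono_left nhdsWithin_le_nhds
  · filter_upwards [Ioo_mem_nhdsGT hδ] with t ht
    exact ⟨by simpa using hy.1, by simpa using hy.2, by simpa using ht.1, by simpa using ht.2⟩

theorem nb (hδ : 0 < δ) {y : ℝ} (hy : y ∈ Ioo (-a) a) : (𝓝[RR a δ] (y : ℂ)).NeBot :=
  (vert hδ hy).neBot

/-- Local form of the collar map. -/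
def LF (a δ : ℝ) (F g : ℂ → ℂ) (y : ℝ) (k : ℂ) : Prop :=
  ∀ᶠ η in 𝓝[RR a δ] (y : ℂ), F η = g (k * (η - y))

/-- Chart data at a point of the arc. -/
structure CD (r a δ : ℝ) (κ : ℝ → ℂ) (F : ℂ → ℂ) (Fb : ℝ → ℂ) (p : ℂ) (g : ℂ → ℂ) (ρ : ℝ) :
    Prop where
  pos : 0 < ρ
  gc : ContinuousOn g (ball 0 ρ)
  g0 : g 0 = p
  inj : InjOn g (ball 0 ρ)
  mem : ∀ w ∈ ball (0 : ℂ) ρ, g w ∈ ann r ∧ (g w ∈ KK κ ↔ w.re = 0)
  onto : ∀ ε > 0, g '' ball 0 ε ∈ 𝓝 p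
  loc : ∀ y ∈ Ioo (-a) a, Fb y = p → ∃ k : ℂ, (k = I ∨ k = -I) ∧ LF a δ F g y k

theorem exists_cd (ka : KA r x₀ z₁ κ Q) (fc : FC r κ Q a b₁ δ x Z F) (fb : FB r κ a δ F Fb)
    {t : ℝ} (ht : t ∈ Ioo (0 : ℝ) 1) (hr : r < ‖κ t‖) : ∃ g ρ, CD r a δ κ F Fb (κ t) g ρ := by
  obtain ⟨ψ, hψ, hK⟩ := ka.lock t ht hr
  obtain ⟨g, ga, g0, gl, gr⟩ := hψ.inv
  have pa : κ t ∈ ann r := ⟨hr, (ka.mem t ⟨ht.1.le, ht.2⟩).2⟩
  have gt : Tendsto g (𝓝 0) (𝓝 (κ t)) := g0 ▸ ga.continuousAt.tendsto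
  have pt : Tendsto ψ (𝓝 (κ t)) (𝓝 0) := hψ.zero ▸ hψ.ana.continuousAt.tendsto
  obtain ⟨ρ, hρ, hb⟩ := Metric.eventually_nhds_iff_ball.1 (ga.eventually_continuousAt.and
    (gr.and ((gt.eventually hK).and (gt.eventually ((isOpen_ann r).mem_nhds pa)))))
  refine ⟨g, ρ, hρ, fun w hw => (hb w hw).1.continuousWithinAt, g0, fun w hw w' hw' e => ?_,
    fun w hw => ⟨(hb w hw).2.2.2, by rw [(hb w hw).2.2.1, (hb w hw).2.1]⟩, fun ε hε => ?_,
    fun y hy e => ?_⟩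
  · rw [← (hb w hw).2.1, e, (hb w' hw').2.1]
  · filter_upwards [gl, pt.eventually (ball_mem_nhds 0 hε)] with z k1 k2
    exact ⟨_, k2, k1⟩
  have Ft : Tendsto F (𝓝[RR a δ] (y : ℂ)) (𝓝[≠] (κ t)) := by
    refine tendsto_nhdsWithin_iff.2 ⟨e ▸ fb.lim y (Ioo_subset_Icc_self hy), ?_⟩
    filter_upwards [self_mem_nhdsWithin] with η hη e'
    exact (fc.maps η hη).2 ⟨t, Ioo_subset_Icc_self ht, (mem_singleton_iff.1 e').symm⟩
  have Ft' := Ft.mono_right nhdsWithin_le_nhds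
  have ne0 : ∀ᶠ z in 𝓝[≠] (κ t), ψ z ≠ 0 := by
    filter_upwards [nhdsWithin_le_nhds gl, self_mem_nhdsWithin] with z k1 k2 k3
    rw [k3, g0] at k1
    exact k2 k1.symm
  obtain ⟨ε, hε, hD⟩ := Metric.mem_nhdsWithin_iff.1 ((Ft'.eventually
    (hψ.ana.eventually_analyticAt.and gl)).and (Ft.eventually (hψ.eq.and ne0)))
  have Do : IsOpen (ball (y : ℂ) ε ∩ RR a δ) := isOpen_ball.inter (isOpen_RR _ _)
  have Dc := ((convex_ball (y : ℂ) ε).inter (convex_RR a δ)).isPreconnected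
  have Fa : ∀ η ∈ ball (y : ℂ) ε ∩ RR a δ, AnalyticAt ℂ F η := fun η hη =>
    fc.d.analyticAt ((isOpen_RR _ _).mem_nhds hη.2)
  have Ca : ∀ η ∈ ball (y : ℂ) ε ∩ RR a δ, AnalyticAt ℂ (ψ ∘ F) η := fun η hη =>
    (hD hη).1.1.comp (Fa η hη)
  obtain ⟨c, hc, hcd⟩ := sq_sign (f := deriv (ψ ∘ F)) (g := fun _ => I) Dc
    (fun η hη => (Ca η hη).deriv.continuousAt.continuousWithinAt) continuousOn_const
    (fun η hη => by
      rw [deriv_comp _ (hD hη).1.1.differentiableAt (Fa η hη).differentiableAt, mul_pow, I_sq,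
        ← fc.ode η hη.2]
      congr 1
      exact mul_left_cancel₀ (pow_ne_zero 2 (hD hη).2.2) (by rw [← (hD hη).2.1, mul_comm]))
    fun _ _ => I_ne_zero
  have hd : ∀ η ∈ ball (y : ℂ) ε ∩ RR a δ,
      HasDerivAt (fun η => ψ (F η) - c * I * (η - y)) 0 η := fun η hη => by
    have := (Ca η hη).differentiableAt.hasDerivAt.sub
      (((hasDerivAt_id η).sub_const (y : ℂ)).const_mul (c * I))
    rw [hcd η hη, mul_one, sub_self] at this
    exact this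
  obtain ⟨C, hC⟩ := Do.exists_is_const_of_deriv_eq_zero Dc
    (fun η hη => (hd η hη).differentiableAt.differentiableWithinAt) fun η hη => (hd η hη).deriv
  have Dn : ball (y : ℂ) ε ∩ RR a δ ∈ 𝓝[RR a δ] (y : ℂ) :=
    inter_mem (mem_nhdsWithin_of_mem_nhds (ball_mem_nhds _ hε)) self_mem_nhdsWithin
  have C0 : C = 0 := by
    have := nb fc.δ0 hy
    have t1 : Tendsto (fun η : ℂ => c * I * (η - y)) (𝓝[RR a δ] (y : ℂ)) (𝓝 0) := by
      have : Continuous fun η : ℂ => c * I * (η - y) := by fun_prop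
      simpa using (this.tendsto y).mono_left nhdsWithin_le_nhds
    have t2 := (pt.comp Ft').sub t1
    rw [sub_zero] at t2
    exact tendsto_nhds_unique (tendsto_const_nhds.congr' (mem_of_superset Dn
      fun η hη => (hC η hη).symm)) t2
  refine ⟨c * I, by rcases hc with rfl | rfl <;> simp, ?_⟩
  filter_upwards [Dn] with η hη
  rw [← (hD hη).1.2, sub_eq_zero.1 ((hC η hη).trans C0)]

variable {p : ℂ} {g : ℂ → ℂ} {ρ : ℝ}

theorem lin_t (k : ℂ) : Tendsto (fun t : ℝ => k * (t * I)) (𝓝[>] 0) (𝓝 0) := by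
  have : Continuous fun t : ℝ => k * (t * I) := by fun_prop
  simpa using (this.tendsto 0).mono_left nhdsWithin_le_nhds

theorem LF.vert {y : ℝ} {k : ℂ} (h : LF a δ F g y k) (hδ : 0 < δ) (hy : y ∈ Ioo (-a) a) :
    ∀ᶠ t : ℝ in 𝓝[>] 0, F (y + t * I) = g (k * (t * I)) := by
  filter_upwards [(IotaP.vert hδ hy).eventually h] with t ht
  rwa [add_sub_cancel_left] at ht

theorem LF.same (fc : FC r κ Q a b₁ δ x Z F) {y y' : ℝ} {k : ℂ} (h : LF a δ F g y k)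
    (h' : LF a δ F g y' k) (hy : y ∈ Ioo (-a) a) (hy' : y' ∈ Ioo (-a) a) : y = y' := by
  obtain ⟨t, k1, k2, k3, k4⟩ := ((h.vert fc.δ0 hy).and ((h'.vert fc.δ0 hy').and
    (((IotaP.vert fc.δ0 hy).eventually self_mem_nhdsWithin).and
      ((IotaP.vert fc.δ0 hy').eventually self_mem_nhdsWithin)))).exists
  simpa using fc.inj k3 k4 (k1.trans k2.symm)

theorem LF.bd (fc : FC r κ Q a b₁ δ x Z F) (fb : FB r κ a δ F Fb) (cd : CD r a δ κ F Fb p g ρ)
    {y : ℝ} {k : ℂ} (h : LF a δ F g y k) (hy : y ∈ Ioo (-a) a) :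
    ∀ᶠ s : ℝ in 𝓝 y, Fb s = g (k * (s - y)) := by
  have c1 : Continuous fun η : ℂ => k * (η - y) := by fun_prop
  have t1 : Tendsto (fun s : ℝ => (s : ℂ)) (𝓝 y) (𝓝 (y : ℂ)) := continuous_ofReal.tendsto y
  filter_upwards [t1.eventually (eventually_nhds_nhdsWithin.2 h), isOpen_Ioo.mem_nhds hy,
    t1.eventually (c1.continuousAt.eventually (show ∀ᶠ w in 𝓝 (k * ((y : ℂ) - y)),
      w ∈ ball (0 : ℂ) ρ from by
        rw [sub_self, mul_zero]; exact ball_mem_nhds (0 : ℂ) cd.pos))] with s k1 k2 k3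
  have := nb fc.δ0 k2
  refine tendsto_nhds_unique (fb.lim s (Ioo_subset_Icc_self k2)) (Tendsto.congr'
    (k1.mono fun η e => e.symm) ?_)
  exact ((cd.gc.continuousAt (isOpen_ball.mem_nhds k3)).tendsto.comp (c1.tendsto _)).mono_left
    nhdsWithin_le_nhds

theorem other (fx : FX r x₀ z₁ κ Q b₁ x) (fc : FC r κ Q a b₁ δ x Z F) (fb : FB r κ a δ F Fb)
    (cd : CD r a δ κ F Fb p g ρ) (ha : 0 < a) (h1 : p ≠ Fb a) (h2 : p ≠ Fb (-a)) {k : ℂ}
    (hk : k = I ∨ k = -I) : ∃ y ∈ Ioo (-a) a, Fb y = p ∧ LF a δ F g y k := by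
  have b0 : (0 : ℂ) ∈ ball (0 : ℂ) ρ := mem_ball_self cd.pos
  set z : ℝ → ℂ := fun t => g (k * (t * I)) with hz
  have zb := (lin_t k).eventually (ball_mem_nhds (0 : ℂ) cd.pos)
  have zt : Tendsto z (𝓝[>] 0) (𝓝 p) :=
    cd.g0 ▸ (cd.gc.continuousAt (ball_mem_nhds _ cd.pos)).tendsto.comp (lin_t k)
  have pa : p ∈ ann r := cd.g0 ▸ (cd.mem 0 b0).1
  have xt : Tendsto (fun t => x (z t)) (𝓝[>] 0) (𝓝 0) := by
    have := (fx.cont.continuousAt ((isOpen_ann r).mem_nhds pa)).tendsto.comp zt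
    rwa [fx.zero p (cd.g0 ▸ (cd.mem 0 b0).2.2 rfl)] at this
  have ex : ∀ᶠ t : ℝ in 𝓝[>] 0, ∃ η ∈ RR a δ, η.im = x (z t) ∧
      (F η = z t ∨ (a - t < η.re ∧ dist (F η) (z t) < t)) := by
    filter_upwards [zb, xt.eventually (gt_mem_nhds fc.δ0), self_mem_nhdsWithin] with t k1 k2 k3
    have t0 : 0 < t := k3
    have zX : z t ∈ XX r κ := ⟨(cd.mem _ k1).1, fun e => by
      have := (cd.mem _ k1).2.1 e
      rcases hk with rfl | rfl <;> simp at this <;> exact t0.ne' this⟩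
    rcases fc.seam _ zX k2 with ⟨η, hη, e⟩ | hl
    · exact ⟨η, hη, by rw [← e, fc.xF η hη], Or.inl e⟩
    · obtain ⟨s, s1, s2, s3⟩ := ((hl.eventually (ball_mem_nhds _ t0)).and
        ((eventually_mem_set.2 (Ioo_mem_nhdsLT (show -a < a by linarith))).and
          (eventually_mem_set.2 (Ioo_mem_nhdsLT (show a - t < a by linarith))))).exists
      exact ⟨s + x (z t) * I, ⟨by simpa using s2.1, by simpa using s2.2,
        by simpa using fx.pos _ zX, by simpa using k2⟩, by simp, Or.inr ⟨by simpa using s3.1, s1⟩⟩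
  obtain ⟨η, hη⟩ := ex.choice
  obtain ⟨𝒰, hU⟩ := Ultrafilter.exists_le (𝓝[>] (0 : ℝ))
  obtain ⟨y, hy, yt⟩ := isCompact_Icc.ultrafilter_le_nhds (𝒰.map fun t => (η t).re)
    (show _ ≤ 𝓟 (Icc (-a) a) from le_principal_iff.2 (mem_map.2 (mem_of_superset (hU hη)
      fun t ht => ⟨ht.1.1.le, ht.1.2.1.le⟩)))
  have yt' : Tendsto (fun t => (η t).re) 𝒰 (𝓝 y) := yt
  have ηt : Tendsto η 𝒰 (𝓝[RR a δ] (y : ℂ)) := by
    refine tendsto_nhdsWithin_iff.2 ⟨?_, (hη.filter_mono hU).mono fun t ht => ht.1⟩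
    have i1 : Tendsto (fun t => (η t).im) 𝒰 (𝓝 0) :=
      (xt.mono_left hU).congr' ((hη.filter_mono hU).mono fun t ht => ht.2.1.symm)
    have := ((continuous_ofReal.tendsto _).comp yt').add
      (((continuous_ofReal.tendsto _).comp i1).mul_const I)
    simpa [Function.comp_def] using this
  have id0 : Tendsto (fun t : ℝ => t) 𝒰 (𝓝 0) := hU.trans nhdsWithin_le_nhds
  have e : Fb y = p := by
    refine tendsto_nhds_unique ((fb.lim y hy).comp ηt) ((zt.mono_left hU).congr_dist ?_)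
    refine squeeze_zero' (Eventually.of_forall fun _ => dist_nonneg) ?_ id0
    filter_upwards [hU hη, hU self_mem_nhdsWithin] with t k1 k2
    rw [dist_comm]
    rcases k1.2.2 with k3 | k3
    · rw [Function.comp, k3, dist_self]; exact le_of_lt k2
    · exact k3.2.le
  have hy' : y ∈ Ioo (-a) a := ⟨lt_of_le_of_ne hy.1 fun e' => h2 (by rw [e', e]),
    lt_of_le_of_ne hy.2 fun e' => h1 (by rw [← e', e])⟩
  obtain ⟨k', hk', lf⟩ := cd.loc y hy' e
  refine ⟨y, hy', e, ?_⟩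
  have c1 : Tendsto (fun η : ℂ => k' * (η - y)) (𝓝[RR a δ] (y : ℂ)) (𝓝 0) := by
    have : Continuous fun η : ℂ => k' * (η - y) := by fun_prop
    simpa using (this.tendsto y).mono_left nhdsWithin_le_nhds
  have lt : ∀ᶠ t : ℝ in (𝒰 : Filter ℝ), (η t).re + t < a :=
    (yt'.add id0).eventually (gt_mem_nhds (by simpa using hy'.2))
  obtain ⟨t, k1, k2, k3, k4, k5, k6⟩ := ((hη.filter_mono hU).and (lt.and
    ((ηt.eventually lf).and (((c1.comp ηt).eventually (ball_mem_nhds _ cd.pos)).and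
      ((zb.filter_mono hU).and (eventually_mem_nhdsWithin.filter_mono hU)))))).exists
  have t0 : 0 < t := k6
  have e2 := congrArg re (cd.inj k4 k5 (k3.symm.trans (k1.2.2.resolve_right fun k => by
    linarith [k.1])))
  have i0 := k1.1.2.2.1
  rcases hk with rfl | rfl <;> rcases hk' with rfl | rfl
  · exact lf
  · simp at e2; linarith
  · simp at e2; linarith
  · exact lf

theorem neg_sign {k k' : ℂ} (hk : k = I ∨ k = -I) (hk' : k' = I ∨ k' = -I) (h : k' ≠ k) :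
    k' = -k := by
  rcases hk with rfl | rfl <;> rcases hk' with rfl | rfl <;> simp_all

end IotaP

open IotaP in
theorem z_iota : Z_IOTA := by
  intro r x₀ z₁ κ Q a b₁ δ x Z F Fb ka fx fc ha fb
  have key : ∀ y ∈ YY r κ a Fb, ∃ (g : ℂ → ℂ) (ρ : ℝ) (k : ℂ) (y' : ℝ),
      CD r a δ κ F Fb (Fb y) g ρ ∧ (k = I ∨ k = -I) ∧ LF a δ F g y k ∧ LF a δ F g y' (-k) ∧
      (y' ∈ YY r κ a Fb ∧ y' ≠ y ∧ Fb y' = Fb y) ∧
      ∀ s ∈ YY r κ a Fb, s ≠ y → Fb s = Fb y → s = y' := by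
    rintro y ⟨hy, ⟨t, ht, hr, e⟩, n1, n2⟩
    obtain ⟨g, ρ, cd⟩ := exists_cd ka fc fb ht hr
    rw [e] at cd
    obtain ⟨k, hk, lf⟩ := cd.loc y hy rfl
    obtain ⟨y', hy', e', lf'⟩ := other fx fc fb cd ha n1 n2 (k := -k)
      (by rcases hk with rfl | rfl <;> simp)
    refine ⟨g, ρ, k, y', cd, hk, lf, lf', ⟨⟨hy', ⟨t, ht, hr, e'.symm ▸ e⟩, e'.symm ▸ n1,
      e'.symm ▸ n2⟩, ?_, e'⟩, fun s hs hne es => ?_⟩
    · rintro rfl
      obtain ⟨τ, k1, k2, k3, k4, k5⟩ := ((lf.vert fc.δ0 hy).and ((lf'.vert fc.δ0 hy).and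
        (((lin_t k).eventually (ball_mem_nhds _ cd.pos)).and
          (((lin_t (-k)).eventually (ball_mem_nhds _ cd.pos)).and
            eventually_mem_nhdsWithin)))).exists
      have t0 : 0 < τ := k5
      have e2 := congrArg re (cd.inj k3 k4 (k1.symm.trans k2))
      rcases hk with rfl | rfl <;> simp at e2 <;> linarith
    · obtain ⟨k', hk', l⟩ := cd.loc s hs.1 es
      have := neg_sign hk hk' fun e2 => hne ((e2 ▸ l).same fc lf hs.1 hy)
      exact (this ▸ l).same fc lf' hs.1 hy'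
  choose! g ρ k ι cd hk lf lf' sp un using key
  have opn : IsOpen (YY r κ a Fb) := by
    rw [isOpen_iff_mem_nhds]
    intro y hy
    obtain ⟨t, ht, -, e⟩ := hy.2.1
    have c1 : Tendsto (fun s : ℝ => k y * ((s : ℂ) - y)) (𝓝 y) (𝓝 0) := by
      have : Continuous fun s : ℝ => k y * ((s : ℂ) - y) := by fun_prop
      simpa using this.tendsto y
    have c2 := ((cd y hy).gc.continuousAt (ball_mem_nhds _ (cd y hy).pos)).tendsto.comp c1
    rw [(cd y hy).g0] at c2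
    have n0 : Fb y ≠ z₁ := fun e' => ht.1.ne' (ka.inj (Ioo_subset_Icc_self ht)
      ⟨le_rfl, zero_le_one⟩ (by rw [e, e', ka.start]))
    filter_upwards [(lf y hy).bd fc fb (cd y hy) hy.1, isOpen_Ioo.mem_nhds hy.1,
      c1.eventually (ball_mem_nhds _ (cd y hy).pos), c2.eventually_ne n0,
      c2.eventually_ne hy.2.2.1, c2.eventually_ne hy.2.2.2] with s k1 k2 k3 k4 k5 k6
    obtain ⟨m1, m2⟩ := (cd y hy).mem _ k3
    obtain ⟨t', ht', e'⟩ := m2.2 (by rcases hk y hy with e | e <;> simp [e])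
    refine ⟨k2, ⟨t', ⟨lt_of_le_of_ne ht'.1 ?_, lt_of_le_of_ne ht'.2 ?_⟩, e' ▸ m1.1,
      e'.trans k1.symm⟩, k1 ▸ k5, k1 ▸ k6⟩
    · rintro rfl
      exact k4 (e'.symm.trans ka.start)
    · rintro rfl
      exact m1.2.ne (e' ▸ ka.stop)
  refine ⟨ι, opn, fun y hy => (sp y hy).1, fun y hy =>
    (un _ (sp y hy).1 y hy (sp y hy).2.1.symm (sp y hy).2.2.symm).symm, fun y hy => ?_,
    fun y hy V hV => ?_⟩
  · have d1 : HasDerivAt (fun s : ℝ => ι y - (s - y)) (-1) y :=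
      ((hasDerivAt_id y).sub_const y).const_sub _
    have c1 : Tendsto (fun s : ℝ => ι y - (s - y)) (𝓝 y) (𝓝 (ι y)) := by
      simpa using d1.continuousAt.tendsto
    refine d1.congr_of_eventuallyEq ?_
    have c2 : Tendsto (fun s : ℝ => ι y - (s - y) - s) (𝓝 y) (𝓝 (ι y - y)) := c1.sub tendsto_id
    filter_upwards [(lf y hy).bd fc fb (cd y hy) hy.1, opn.mem_nhds hy,
      c1.eventually ((lf' y hy).bd fc fb (cd y hy) (sp y hy).1.1),
      c1.eventually (opn.mem_nhds (sp y hy).1),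
      c2.eventually_ne (sub_ne_zero.2 (sp y hy).2.1)] with s k1 k2 k3 k4 k5
    refine (un s k2 _ k4 (sub_ne_zero.1 k5) ?_).symm
    rw [k1, k3]
    congr 1
    push_cast
    ring
  · have c := cd y hy
    have k1 : ‖k y‖ = 1 := by rcases hk y hy with e | e <;> simp [e]
    have k0 : k y ≠ 0 := norm_pos_iff.1 (k1 ▸ one_pos)
    have gt := (c.gc.continuousAt (ball_mem_nhds _ c.pos)).tendsto
    rw [c.g0] at gt
    obtain ⟨ε, hε, hb⟩ := Metric.mem_nhds_iff.1 (inter_mem (gt hV) (ball_mem_nhds _ c.pos))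
    have mb : ∀ w, k y * w ∈ ball (0 : ℂ) ε ↔ w ∈ ball (0 : ℂ) ε := fun w => by
      rw [mem_ball_zero_iff, mem_ball_zero_iff, norm_mul, k1, one_mul]
    have hc : ContinuousOn (fun w => g y (k y * w)) (ball 0 ε) :=
      c.gc.comp (by fun_prop) fun w hw => (hb ((mb w).2 hw)).2
    have hK : ∀ w ∈ ball (0 : ℂ) ε, g y (k y * w) ∈ KK κ ↔ w.im = 0 := fun w hw => by
      rw [(c.mem _ (hb ((mb w).2 hw)).2).2]
      rcases hk y hy with e | e <;> simp [e]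
    have tv := (lin_t 1).eventually (ball_mem_nhds (0 : ℂ) hε)
    have tv' := (lin_t (-1)).eventually (ball_mem_nhds (0 : ℂ) hε)
    refine ⟨(fun w => g y (k y * w)) '' ball 0 ε, mem_of_superset (c.onto ε hε) ?_, ?_,
      (fun w => g y (k y * w)) '' (ball 0 ε ∩ {w | 0 < w.im}),
      (fun w => g y (k y * w)) '' (ball 0 ε ∩ {w | w.im < 0}),
      ((convex_ball _ _).inter (convex_halfSpace_im_gt 0)).isPreconnected.image _
        (hc.mono inter_subset_left),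
      ((convex_ball _ _).inter (convex_halfSpace_im_lt 0)).isPreconnected.image _
        (hc.mono inter_subset_left), ?_, ?_, ?_⟩
    · rintro _ ⟨w, hw, rfl⟩
      have e : k y * (w / k y) = w := mul_div_cancel₀ _ k0
      exact ⟨w / k y, (mb _).1 (e.symm ▸ hw), by simp only [e]⟩
    · rintro _ ⟨w, hw, rfl⟩
      exact (hb ((mb w).2 hw)).1
    · ext z
      constructor
      · rintro ⟨⟨w, hw, rfl⟩, hn⟩
        rcases lt_or_gt_of_ne (fun e => hn ((hK w hw).2 e)) with e | e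
        · exact Or.inr ⟨w, ⟨hw, e⟩, rfl⟩
        · exact Or.inl ⟨w, ⟨hw, e⟩, rfl⟩
      · rintro (⟨w, hw, rfl⟩ | ⟨w, hw, rfl⟩)
        · exact ⟨⟨w, hw.1, rfl⟩, fun e => hw.2.ne' ((hK w hw.1).1 e)⟩
        · exact ⟨⟨w, hw.1, rfl⟩, fun e => hw.2.ne ((hK w hw.1).1 e)⟩
    · refine tendsto_nhdsWithin_iff.2 ⟨(fb.lim y (Ioo_subset_Icc_self hy.1)).comp
        (vert fc.δ0 hy.1), ?_⟩
      filter_upwards [(lf y hy).vert fc.δ0 hy.1, tv, self_mem_nhdsWithin] with t e1 e2 e3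
      exact ⟨t * I, ⟨by simpa using e2, by simpa using e3⟩, e1.symm⟩
    · refine tendsto_nhdsWithin_iff.2 ⟨(sp y hy).2.2 ▸ (fb.lim _
        (Ioo_subset_Icc_self (sp y hy).1.1)).comp (vert fc.δ0 (sp y hy).1.1), ?_⟩
      filter_upwards [(lf' y hy).vert fc.δ0 (sp y hy).1.1, tv', self_mem_nhdsWithin]
        with t e1 e2 e3
      refine ⟨-1 * (t * I), ⟨e2, by simpa using e3⟩, ?_⟩
      rw [e1]
      simp only
      congr 1
      ring

end Pool.Agent.P.MP_3bd355_an
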