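import Pool.Agent.P.MP_3bd355_an.Z.Stmts

/-! The case `A = 0`: package JEN. -/

open Set Filter Metric Complex InnerProductSpace MeasureTheory
open scoped Topology ComplexConjugate Real

namespace Pool.Agent.P.MP_3bd355_an

namespace JenP

theorem int_const {c : ℝ} (hc : 0 ≤ c) (s t : ℝ) :
    ∫⁻ _ in Ioo s t, ENNReal.ofReal c = ENNReal.ofReal (c * (t - s)) := by
  rw [setLIntegral_const, Real.volume_Ioo, ENNReal.ofReal_mul hc]

theorem amgm {D : Set ℂ} {d : ℂ → ℝ} {m P A B : ℝ} (hm : 0 ≤ m) (hA : 0 ≤ A) (hB : 0 ≤ B)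
    (hd : AEMeasurable d (volume.restrict D))
    (h1 : ∫⁻ _ in D, ENNReal.ofReal (m ^ 2) = ENNReal.ofReal B)
    (h2 : ∫⁻ ζ in D, ENNReal.ofReal (d ζ ^ 2) = ENNReal.ofReal A)
    (h3 : ENNReal.ofReal P ≤ ∫⁻ ζ in D, ENNReal.ofReal (d ζ)) : 2 * m * P ≤ A + B := by
  rw [← ENNReal.ofReal_le_ofReal_iff (add_nonneg hA hB), ENNReal.ofReal_mul (by positivity),
    ENNReal.ofReal_add hA hB, ← h1, ← h2, ← lintegral_add_left' (hd.pow_const 2).ennreal_ofReal]
  refine (mul_le_mul_right h3 _).trans ?_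
  rw [← lintegral_const_mul' _ _ ENNReal.ofReal_ne_top]
  refine lintegral_mono fun ζ => ?_
  rw [← ENNReal.ofReal_mul (by positivity), ← ENNReal.ofReal_add (sq_nonneg _) (sq_nonneg _)]
  exact ENNReal.ofReal_le_ofReal (by nlinarith [sq_nonneg (d ζ - m)])

end JenP

open JenP in
theorem z_jen (hTON : Z_TON) (hAREA : Z_AREA) : Z_JEN := by
  intro r x₀ z₁ f f' ξ h h' hd hl ω hω hω0
  have a1 := h.sh.1
  have a1' := h'.sh.1
  have b2 := h.sh.2.1
  have b2' := h'.sh.2.1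
  obtain ⟨a3, b3⟩ := h.sh.nonneg
  obtain ⟨a3', b3'⟩ := h'.sh.nonneg
  obtain ⟨l1, l2⟩ := hl ω hω hω0
  have ar := hAREA r x₀ z₁ f f' ω h h' hω
  have i1 : 0 ≤ ∫ t in (0 : ℝ)..(f.b₃ + f.b₂), ω t :=
    intervalIntegral.integral_nonneg (by linarith) fun t _ => hω0 t
  have i2 : 0 ≤ ∫ t in f.b₃..(f.b₃ + f.b₂), ω t :=
    intervalIntegral.integral_nonneg (by linarith) fun t _ => hω0 t
  have i3 : 0 ≤ ∫ t in (0 : ℝ)..(f.b₃ + f.b₂), ω t ^ 2 :=
    intervalIntegral.integral_nonneg (by linarith) fun t _ => sq_nonneg _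
  have i4 : 0 ≤ ∫ t in f.b₃..(f.b₃ + f.b₂), ω t ^ 2 :=
    intervalIntegral.integral_nonneg (by linarith) fun t _ => sq_nonneg _
  set I1 := ∫ t in (0 : ℝ)..(f.b₃ + f.b₂), ω t
  set I2 := ∫ t in f.b₃..(f.b₃ + f.b₂), ω t
  set A := f.a₁ * (∫ t in (0 : ℝ)..(f.b₃ + f.b₂), ω t ^ 2) +
    f.a₃ * ∫ t in f.b₃..(f.b₃ + f.b₂), ω t ^ 2 with hA
  set P := f'.a₁ * I1 + f'.a₃ * I2 with hP
  set A' := f'.a₁ * (f'.b₃ + f'.b₂) + f'.a₃ * f'.b₂ with hA'
  have hP0 : 0 ≤ P := by positivity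
  have hA0 : 0 ≤ A := by positivity
  have hA0' : 0 < A' := by positivity
  have hO := isOpen_DD2 f'.a₁ f'.a₃ f'.b₃ f'.b₂
  have hm : AEMeasurable (fun ζ => ω (f.x (f'.Z ζ)) * den f f' ζ)
      (volume.restrict (DD2 f'.a₁ f'.a₃ f'.b₃ f'.b₂)) :=
    ((hω.comp_continuousOn hd.xc).mul hd.cont).aemeasurable hO.measurableSet
  have key := amgm (m := P / A') (P := 2 * P) (A := 2 * A) (B := (P / A') ^ 2 * (2 * A'))
    (by positivity) (by positivity) (by positivity) hm (by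
      rw [hTON _ _ _ _ _ h'.sh aemeasurable_const, int_const (sq_nonneg _), int_const (sq_nonneg _),
        int_const (mul_nonneg (sq_nonneg _) (by linarith)),
        int_const (mul_nonneg (sq_nonneg _) (by linarith)),
        ← ENNReal.ofReal_add (mul_nonneg (mul_nonneg (sq_nonneg _) (by linarith)) (by linarith))
          (mul_nonneg (mul_nonneg (sq_nonneg _) (by linarith)) (by linarith))]
      congr 1
      generalize P / A' = m
      rw [hA']
      ring) ar (by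
      rw [hTON _ _ _ _ _ h'.sh hm.ennreal_ofReal]
      refine le_trans (le_of_eq ?_) (add_le_add l1 (setLIntegral_mono' measurableSet_Ioo l2))
      rw [int_const (by positivity), ← ENNReal.ofReal_add (by positivity)
        (mul_nonneg (by positivity) (by linarith)), hP]
      congr 1
      ring)
  have e1 : 2 * (P / A') * (2 * P) = 4 * (P ^ 2 / A') := by ring
  have e2 : (P / A') ^ 2 * (2 * A') = 2 * (P ^ 2 / A') := by field_simp
  rw [e1, e2] at key
  rw [← div_le_iff₀ hA0']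
  linarith

end Pool.Agent.P.MP_3bd355_an
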