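import Pool.Agent.P.MP_3bd355_an.Z.Stmts

/-! The case `A = 0`: package KA. -/

open Set Filter Metric Complex InnerProductSpace MeasureTheory
open scoped Topology ComplexConjugate Real

namespace Pool.Agent.P.MP_3bd355_an

namespace KaP

theorem null_img {κ : ℝ → ℂ} {T : Set ℝ} (h : ∀ t ∈ T, DifferentiableAt ℝ κ t) :
    volume (κ '' T) = 0 := by
  have h0 : volume ((LinearMap.ker imLm : Submodule ℝ ℂ) : Set ℂ) = 0 := by
    refine Measure.addHaar_submodule volume _ fun e => ?_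
    have : I ∈ (LinearMap.ker imLm : Submodule ℝ ℂ) := e ▸ Submodule.mem_top
    simp at this
  have h1 : volume {z : ℂ | z.im = 0 ∧ z.re ∈ T} = 0 :=
    measure_mono_null (fun z hz => by simpa using hz.1) h0
  have h2 : DifferentiableOn ℝ (fun z : ℂ => κ z.re) {z : ℂ | z.im = 0 ∧ z.re ∈ T} :=
    fun z hz => ((h _ hz.2).comp z reCLM.differentiableAt).differentiableWithinAt
  refine measure_mono_null ?_
    (addHaar_image_eq_zero_of_differentiableOn_of_addHaar_eq_zero volume h2 h1)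
  rintro _ ⟨t, ht, rfl⟩
  exact ⟨t, ⟨by simp, by simpa using ht⟩, by simp⟩

theorem chart_sq {Q ψ : ℂ → ℂ} {p : ℂ} (h : Chart Q p 2 ψ) (hQ : ContinuousAt Q p) :
    ∀ᶠ z in 𝓝 p, Q z = deriv ψ z ^ 2 := by
  obtain ⟨U, hU, hinj⟩ := h.inj
  have hψd : AnalyticAt ℂ (deriv ψ) p := h.ana.deriv
  have hQ1 : ∀ᶠ z in 𝓝[≠] p, Q z = deriv ψ z ^ 2 := by
    filter_upwards [h.eq, nhdsWithin_le_nhds hU, self_mem_nhdsWithin] with z e1 e2 e3
    have : ψ z ≠ 0 := fun e => e3 (hinj e2 (mem_of_mem_nhds hU) (e.trans h.zero.symm))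
    apply mul_left_cancel₀ (pow_ne_zero 2 this)
    linear_combination e1
  rw [← nhdsNE_sup_pure, eventually_sup, eventually_pure]
  refine ⟨hQ1, tendsto_nhds_unique (l := 𝓝[≠] p)
    (hQ.tendsto.mono_left nhdsWithin_le_nhds) ?_⟩
  exact ((hψd.continuousAt.pow 2).tendsto.mono_left nhdsWithin_le_nhds).congr'
    (hQ1.mono fun z hz => hz.symm)

theorem re_of_sq {w : ℂ} {ρ : ℝ} (hρ : 0 < ρ) (h : w ^ 2 = -(ρ : ℂ)) : w.re = 0 ∧ w.im ≠ 0 := by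
  have h1 := congrArg re h
  have h2 := congrArg im h
  simp only [sq, mul_re, mul_im, neg_re, neg_im, ofReal_re, ofReal_im, neg_zero] at h1 h2
  have h3 : w.im ≠ 0 := fun e => by rw [e] at h1; nlinarith [mul_self_nonneg w.re]
  exact ⟨by
    have : w.re * w.im = 0 := by linarith
    exact (mul_eq_zero.1 this).resolve_right h3, h3⟩

theorem lock {Q ψ : ℂ → ℂ} {κ : ℝ → ℂ} {t : ℝ} (hc : ContinuousOn κ (Icc 0 1))
    (hi : InjOn κ (Icc 0 1)) (ht : t ∈ Ioo (0 : ℝ) 1) (h : Chart Q (κ t) 2 ψ)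
    (hQ : ContinuousAt Q (κ t))
    (htr : ∀ᶠ s in 𝓝 t, AnalyticAt ℝ κ s ∧ ∃ ρ : ℝ, 0 < ρ ∧ Q (κ s) * deriv κ s ^ 2 = -(ρ : ℂ)) :
    ∀ᶠ z in 𝓝 (κ t), (z ∈ KK κ ↔ (ψ z).re = 0) := by
  have hI : Icc (0 : ℝ) 1 ∈ 𝓝 t := Icc_mem_nhds ht.1 ht.2
  have hct : Tendsto κ (𝓝 t) (𝓝 (κ t)) := hc.continuousAt hI
  obtain ⟨V, hV, hinj⟩ := h.inj
  have hd : ∀ᶠ s in 𝓝 t, ∃ w : ℂ, HasDerivAt (fun s => ψ (κ s)) w s ∧ w.re = 0 ∧ w.im ≠ 0 := by
    filter_upwards [htr, hct.eventually (chart_sq h hQ), hct.eventually h.ana.eventually_analyticAt]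
      with s ⟨e1, ρ, hρ, e2⟩ e3 e4
    refine ⟨deriv ψ (κ s) * deriv κ s, ?_, re_of_sq hρ (by rw [mul_pow, ← e3, e2])⟩
    exact e4.differentiableAt.hasDerivAt.comp s e1.differentiableAt.hasDerivAt
  have hre : ∀ᶠ s in 𝓝 t, (ψ (κ s)).re = 0 := by
    obtain ⟨ε, hε, hb⟩ := Metric.eventually_nhds_iff_ball.1 hd
    filter_upwards [ball_mem_nhds t hε] with s hs
    have hz : ∀ s ∈ ball t ε, HasDerivAt (fun s => (ψ (κ s)).re) 0 s := fun s hs => by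
      obtain ⟨w, e1, e2, -⟩ := hb s hs
      have := reCLM.hasFDerivAt.comp_hasDerivAt s e1
      simpa [Function.comp_def, e2] using this
    have := isOpen_ball.is_const_of_deriv_eq_zero (convex_ball t ε).isPreconnected
      (fun s hs => (hz s hs).differentiableAt.differentiableWithinAt)
      (fun s hs => (hz s hs).deriv) hs (mem_ball_self hε)
    rw [this, h.zero, zero_re]
  have hmap : map (fun s => (ψ (κ s)).im) (𝓝 t) = 𝓝 0 := by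
    obtain ⟨w, e1, -, e3⟩ := hd.self_of_nhds
    have a1 : AnalyticAt ℝ (fun s => (ψ (κ s)).im) t :=
      (imCLM.analyticAt _).comp ((h.ana.restrictScalars (𝕜 := ℝ)).comp htr.self_of_nhds.1)
    have a2 : HasDerivAt (fun s => (ψ (κ s)).im) w.im t := by
      simpa [Function.comp_def] using imCLM.hasFDerivAt.comp_hasDerivAt t e1
    have := a1.hasStrictDerivAt.map_nhds_eq (by rw [a2.deriv]; exact e3)
    rwa [h.zero, zero_im] at this
  have him : Tendsto (fun z => (ψ z).im) (𝓝 (κ t)) (𝓝 0) := by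
    have := (continuous_im.tendsto _).comp h.ana.continuousAt.tendsto
    rwa [h.zero, zero_im] at this
  have hU : {s | (ψ (κ s)).re = 0 ∧ κ s ∈ V ∧ s ∈ Icc (0 : ℝ) 1} ∈ 𝓝 t :=
    hre.and ((hct.eventually hV).and hI)
  have hW := image_mem_map (m := fun s => (ψ (κ s)).im) hU
  rw [hmap] at hW
  filter_upwards [inj_local isCompact_Icc hc hi (Ioo_subset_Icc_self ht) hU, him.eventually hW, hV]
    with z e1 ⟨s, hs, e2⟩ e3
  refine ⟨fun hz => ?_, fun hz => ⟨s, hs.2.2, hinj hs.2.1 e3 (Complex.ext (hs.1.trans hz.symm) e2)⟩⟩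
  obtain ⟨s, hs, rfl⟩ := e1 hz
  exact hs.1.1

theorem cov {r A B c : ℝ} {z₀ z₁ a b : ℂ} {κ : ℝ → ℂ} {v g : ℂ → ℝ}
    (h : Crit r A B z₀ z₁ a b c κ v g) :
    ∃ S : Set ℂ, S.Finite ∧ ∀ p ∈ KK κ, ‖p‖ = r → p ∉ S →
      (∃ t ∈ Ioo (0 : ℝ) 1, κ t = p) ∧ ∀ᶠ q in 𝓝 p, (q ∈ KK κ ↔ ‖q‖ = r) := by
  rcases h.touch with hn | ⟨s₁, s₂, h0, -, h1, hi, -, -⟩
  · refine ⟨∅, finite_empty, ?_⟩
    rintro _ ⟨t, ht, rfl⟩ e
    exact absurd e (hn t ht).ne'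
  · have hsub : Icc s₁ s₂ ⊆ Icc (0 : ℝ) 1 := Icc_subset_Icc h0.le h1.le
    have hJ : IsPreconnected (κ '' Icc s₁ s₂) := isPreconnected_Icc.image _ (h.cont.mono hsub)
    have hs : κ '' Icc s₁ s₂ ⊆ sphere 0 r := by
      rintro _ ⟨t, ht, rfl⟩
      rw [mem_sphere_zero_iff_norm]
      exact (hi t (hsub ht)).2 ht
    refine ⟨_, ((circle_arc hJ hs).insert (κ s₁)).insert (κ s₂), ?_⟩
    rintro _ ⟨t, ht, rfl⟩ e hS
    simp only [mem_insert_iff, not_or] at hS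
    have ht' := (hi t ht).1 e
    have ht2 : t ∈ Ioo s₁ s₂ := ⟨lt_of_le_of_ne ht'.1 fun e => hS.2.1 (by rw [e]),
      lt_of_le_of_ne ht'.2 fun e => hS.1 (by rw [e])⟩
    refine ⟨⟨t, ⟨h0.trans ht2.1, ht2.2.trans h1⟩, rfl⟩, ?_⟩
    have hc : κ t ∉ closure (sphere 0 r \ κ '' Icc s₁ s₂) := fun hc => hS.2.2 ⟨⟨t, ht', rfl⟩, hc⟩
    filter_upwards [inj_local isCompact_Icc h.cont h.inj ht (Ioo_mem_nhds ht2.1 ht2.2),
      isClosed_closure.isOpen_compl.mem_nhds hc] with q e1 e2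
    refine ⟨fun hq => ?_, fun hq => ?_⟩
    · obtain ⟨s, hs', rfl⟩ := e1 hq
      exact (hi s hs'.2).2 (Ioo_subset_Icc_self hs'.1)
    · by_contra hK
      exact e2 (subset_closure ⟨mem_sphere_zero_iff_norm.2 hq, fun hJ => hK (image_mono hsub hJ)⟩)

end KaP

open KaP in
theorem z_ka : Z_KA := by
  intro r B x₀ z₁ a b c κ v g hz hb
  have hC := hz.crit
  have hH := hz.ch
  have hstop := (hC.end_zero rfl).1
  have hqc : ∀ p ∈ cann r, p ≠ x₀ → p ≠ z₁ → ContinuousAt (QD r x₀ z₁ a b c) p :=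
    fun p hp h0 h1 => (QD_analytic hH.r0 hH.r1 hH.m0 hH.m1 a b c hp h0 (Or.inl h1)).continuousAt
  refine ⟨hH.r0, hH.r1, hH.m0, hz.x0, hH.m1, hC.cont, hC.inj, hC.start, hC.mem, hstop, hz.low,
    hC.avoid, hb.main_eq ▸ preconn_main r _, ?_, cov hC, hqc, ?_, fun p hp h0 => ?_,
    fun t ht hr => ?_⟩
  · have h1 := null_img (κ := κ) (T := {t | t ∈ Ioo (0 : ℝ) 1 ∧ r < ‖κ t‖})
      fun t ht => (hC.traj t ht.1 ht.2).1.differentiableAt
    refine measure_mono_null ?_ (measure_union_null (measure_singleton z₁) h1)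
    rintro _ ⟨⟨t, ht, rfl⟩, hm⟩
    rcases ht.1.eq_or_lt with e | e
    · left; rw [← e, hC.start]; rfl
    · refine Or.inr ⟨t, ⟨⟨e, lt_of_le_of_ne ht.2 fun e1 => ?_⟩, hm.1⟩, rfl⟩
      have := hm.2
      rw [e1, hstop] at this
      exact lt_irrefl _ this
  · obtain ⟨S, hS, s0, s1, hne⟩ := hb.nz.finite hH.r0 hH.r1 hH.m0 hH.m1
    exact ⟨S, hS, fun p hp hpS => ⟨hqc p hp (fun e => hpS (e ▸ s0)) fun e => hpS (e ▸ s1),
      hne p hp hpS⟩⟩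
  · obtain ⟨n, ψ, h, -⟩ := hb.nz.chart hH.r0 hH.r1 hH.m0 hH.m1 hp h0
    exact ⟨n, ψ, h⟩
  · have ht' : t ∈ Icc (0 : ℝ) 1 := Ioo_subset_Icc_self ht
    have hp : κ t ∈ cann r := ⟨hr.le, (hC.mem t ⟨ht.1.le, ht.2⟩).2.le⟩
    have h0 : κ t ≠ x₀ := fun e => hC.avoid ⟨t, ht', e⟩
    have h1 : κ t ≠ z₁ := fun e =>
      ht.1.ne' (hC.inj ht' (left_mem_Icc.2 zero_le_one) (e.trans hC.start.symm))
    obtain ⟨n, ψ, h, -, hn⟩ := hb.nz.chart hH.r0 hH.r1 hH.m0 hH.m1 hp h0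
    obtain ⟨-, ρ, hρ, e⟩ := hC.traj t ht hr
    have hq : QD r x₀ z₁ a b c (κ t) ≠ 0 := fun e0 => by
      rw [e0, zero_mul, eq_comm, neg_eq_zero, ofReal_eq_zero] at e
      exact hρ.ne' e
    obtain rfl : n = 2 := (hn h1).2 hq
    refine ⟨ψ, h, lock hC.cont hC.inj ht h (hqc _ hp h0 h1) ?_⟩
    have hct : ContinuousAt κ t := hC.cont.continuousAt (Icc_mem_nhds ht.1 ht.2)
    filter_upwards [Ioo_mem_nhds ht.1 ht.2, hct.norm.eventually (lt_mem_nhds hr)] with s e1 e2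
    exact hC.traj s e1 e2

end Pool.Agent.P.MP_3bd355_an
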