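import Pool.Agent.P.MP_3bd355_an.Z.Stmts

/-! The case `A = 0`: package KEQ. -/

open Set Filter Metric Complex InnerProductSpace MeasureTheory
open scoped Topology ComplexConjugate Real

namespace Pool.Agent.P.MP_3bd355_an

namespace KeqP

theorem green_le {X : Set ℂ} (hX : IsOpen X) (hb : Bornology.IsBounded X) {x : ℂ} (hx : x ∈ X)
    {g g' : ℂ → ℝ} (h1 : HarmonicOnNhd g (X \ {x})) (h1' : HarmonicOnNhd g' (X \ {x}))
    (h2 : ∃ H : ℂ → ℝ, HarmonicAt H x ∧ ∀ᶠ z in 𝓝[≠] x, g z = H z - Real.log ‖z - x‖)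
    (h2' : ∃ H : ℂ → ℝ, HarmonicAt H x ∧ ∀ᶠ z in 𝓝[≠] x, g' z = H z - Real.log ‖z - x‖)
    (h3 : ∀ p ∈ frontier X, Tendsto g (𝓝[X] p) (𝓝 0))
    (h3' : ∀ p ∈ frontier X, Tendsto g' (𝓝[X] p) (𝓝 0)) :
    ∀ z ∈ X, z ≠ x → g z ≤ g' z := by
  classical
  obtain ⟨H, hH, e⟩ := h2
  obtain ⟨H', hH', e'⟩ := h2'
  set u : ℂ → ℝ := fun z => if z = x then H x - H' x else g z - g' z with hu
  have hne : ∀ p : ℂ, p ≠ x → u =ᶠ[𝓝 p] (g - g') := fun p hp => by
    filter_upwards [isOpen_ne.mem_nhds hp] with z hz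
    simp only [hu, if_neg hz, Pi.sub_apply]
  have hh : HarmonicOnNhd u X := by
    intro z hz
    by_cases hzx : z = x
    · subst hzx
      have : u =ᶠ[𝓝 z] (H - H') := by
        filter_upwards [eventually_nhdsWithin_iff.1 (e.and e')] with y hy
        by_cases hyz : y = z
        · simp only [hu, hyz, if_true, Pi.sub_apply]
        · obtain ⟨a1, a2⟩ := hy hyz
          simp only [hu, if_neg hyz, Pi.sub_apply, a1, a2]
          ring
      exact (harmonicAt_congr_nhds this).2 (hH.sub hH')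
    · exact (harmonicAt_congr_nhds (hne z hzx)).2 ((h1 z ⟨hz, hzx⟩).sub (h1' z ⟨hz, hzx⟩))
  intro z hz hzx
  have := (Sub.of_harm hh).mp0 hX hb (c := 0) (fun p hp => by
    have hp' : p ≠ x := fun h => by
      rw [hX.frontier_eq] at hp
      exact hp.2 (h ▸ hx)
    have h4 := (h3 p hp).sub (h3' p hp)
    rw [sub_zero] at h4
    exact LS.of_tendsto (h4.congr' ((hne p hp').symm.filter_mono nhdsWithin_le_nhds)) le_rfl) z hz
  simp only [hu, if_neg hzx] at this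
  linarith

theorem QD_swap (r : ℝ) (z₀ z₁ a b : ℂ) (c : ℝ) (z : ℂ) :
    QD r z₀ z₁ a b c z = QD r z₁ z₀ b a c z := by
  simp only [QD]; ring

end KeqP

open KeqP in
theorem z_keq (hKEQ1 : Z_KEQ1) : Z_KEQ := by
  intro r B x₀ z₁ a b a' b' c c' κ κ' v g v' g' h h' ba ba' hK0
  have hK : κ' '' Icc 0 1 = κ '' Icc 0 1 := hKEQ1 r B x₀ z₁ a b a' b' c c' κ κ' v g v' g' h h' hK0
  have cr := h.crit
  have cr' := h'.crit
  have hX : IsOpen (XX r κ) := (isOpen_ann r).sdiff ba.cont.cpt.isClosed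
  have hb : Bornology.IsBounded (XX r κ) :=
    (isBounded_ball (x := (0 : ℂ)) (r := 1)).subset fun z hz => mem_ball_zero_iff.2 hz.1.2
  have hx : (x₀ : ℂ) ∈ XX r κ := ⟨h.ch.m0, cr.avoid⟩
  have hv : EqOn v' v (ann r) := by
    intro z hz
    by_cases hzK : z ∈ κ '' Icc 0 1
    · rw [cr.v_zero z hz hzK, cr'.v_zero z hz (hK ▸ hzK)]
    · have s' := ba'.sol
      simp only [KK, XX, hK] at s'
      have e := congrFun (Sol.unique ba.cont ba.sol s') z
      have hz' : z ∈ ann r \ κ '' Icc 0 1 := ⟨hz, hzK⟩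
      rw [indicator_of_mem hz', indicator_of_mem hz'] at e
      exact e.symm
  have g1 := cr'.g_harm
  have g3 := cr'.g_bd
  have pr := cr'.prod
  rw [hK] at g1 g3 pr
  have hg : ∀ z ∈ XX r κ, z ≠ x₀ → g' z = g z := fun z hz hzx => le_antisymm
    (green_le hX hb hx g1 cr.g_harm cr'.g_pole cr.g_pole g3 cr.g_bd z hz hzx)
    (green_le hX hb hx cr.g_harm g1 cr.g_pole cr'.g_pole cr.g_bd g3 z hz hzx)
  have hgv : ∀ z ∈ ann r, grad v' z = grad v z := fun z hz =>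
    grad_congr (hv.eventuallyEq_of_mem ((isOpen_ann r).mem_nhds hz))
  have hQ : ∀ z ∈ XX r κ, z ≠ x₀ → QD r x₀ z₁ a' b' c' z = QD r x₀ z₁ a b c z := by
    intro z hz hzx
    rw [← pr z hz hzx, ← cr.prod z hz hzx, hgv z hz.1]
    congr 1
    refine grad_congr ?_
    filter_upwards [hX.mem_nhds hz, isOpen_ne.mem_nhds hzx] with y hy hyx
    exact hg y hy hyx
  have ha : a' = a := by
    rw [(all_CRIT2 _ _ _ _ _ _ _ _ _ _ _ h.ch cr).2.2.1,
      (all_CRIT2 _ _ _ _ _ _ _ _ _ _ _ h'.ch cr').2.2.1, hgv _ h.ch.m0]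
  have hz1 : z₁ ∈ κ '' Icc 0 1 := ⟨0, left_mem_Icc.2 zero_le_one, cr.start⟩
  have hne : z₁ ≠ x₀ := fun e => cr.avoid (e ▸ hz1)
  have hnb : (𝓝[XX r κ] z₁).NeBot :=
    mem_closure_iff_nhdsWithin_neBot.1 (ba.dense z₁ ⟨h.ch.m1.1.le, h.ch.m1.2.le⟩)
  have hle : 𝓝[XX r κ] z₁ ≤ 𝓝[≠] z₁ :=
    nhdsWithin_mono _ fun z hz e => hz.2 (by rw [mem_singleton_iff.1 e]; exact hz1)
  have hev : ∀ᶠ z in 𝓝[XX r κ] z₁, z ∈ XX r κ ∧ z ≠ x₀ :=
    (self_mem_nhdsWithin : XX r κ ∈ 𝓝[XX r κ] z₁) |> fun h1 => by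
      filter_upwards [h1, mem_nhdsWithin_of_mem_nhds (isOpen_ne.mem_nhds hne)] with z a1 a2
      exact ⟨a1, a2⟩
  have z0 : z₁ ≠ 0 := norm_pos_iff.1 (h.ch.r0.trans h.ch.m1.1)
  have hbb : b' = b := by
    have t1 := (QD_pole h.ch.r0 h.ch.r1 h.ch.m1 h.ch.m0 hne b a c).mono_left hle
    have t2 := (QD_pole h.ch.r0 h.ch.r1 h.ch.m1 h.ch.m0 hne b' a' c').mono_left hle
    have t3 := tendsto_nhds_unique_of_eventuallyEq t2 t1 (by
      filter_upwards [hev] with z hz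
      rw [← QD_swap, ← QD_swap r x₀, hQ z hz.1 hz.2])
    field_simp at t3
    linear_combination -t3
  have hc : c' = c := by
    obtain ⟨z, hz, hzx⟩ := hev.exists
    have e := hQ z hz hzx
    have zz : z ≠ 0 := norm_pos_iff.1 (h.ch.r0.trans hz.1.1)
    rw [ha, hbb] at e
    simp only [QD] at e
    rw [div_left_inj' (pow_ne_zero 2 zz)] at e
    have : (c' : ℂ) = c := by linear_combination e
    exact_mod_cast this
  exact ⟨ha, hbb, hc, hK, hv⟩

end Pool.Agent.P.MP_3bd355_an
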