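import Pool.Agent.P.MP_3bd355_an.Z.Stmts

/-! The case `A = 0`: package KEQ1. -/

open Set Filter Metric Complex InnerProductSpace MeasureTheory
open scoped Topology ComplexConjugate Real

namespace Pool.Agent.P.MP_3bd355_an

namespace Keq1P

/-- Points of a circle in the lower half plane are determined by their real part. -/
theorem eq_of_re {p q : ℂ} (hn : ‖p‖ = ‖q‖) (hp : p.im ≤ 0) (hq : q.im ≤ 0) (h : p.re = q.re) :
    p = q := by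
  have h2 : normSq p = normSq q := by rw [normSq_eq_norm_sq, normSq_eq_norm_sq, hn]
  rw [normSq_apply, normSq_apply, h] at h2
  have h3 : (-p.im) ^ 2 = (-q.im) ^ 2 := by nlinarith
  have h4 := (pow_left_inj₀ (neg_nonneg.2 hp) (neg_nonneg.2 hq) two_ne_zero).1 h3
  exact Complex.ext h (neg_injective h4)

/-- A limit of points of the arc inside the annulus. -/
theorem mem_closure_of {r : ℝ} {κ : ℝ → ℂ} (hc : ContinuousOn κ (Icc 0 1)) {a b t : ℝ}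
    (hab : a < b) (h0 : 0 ≤ a) (h1 : b ≤ 1) (ht : t ∈ Icc a b)
    (hin : ∀ s ∈ Ioo a b, κ s ∈ ann r) : κ t ∈ closure (KK κ ∩ ann r) := by
  have hsub : Icc a b ⊆ Icc (0 : ℝ) 1 := Icc_subset_Icc h0 h1
  have hcl : t ∈ closure (Ioo a b) := by rwa [closure_Ioo hab.ne]
  have hcw : ContinuousWithinAt κ (Ioo a b) t :=
    (hc t (hsub ht)).mono (Ioo_subset_Icc_self.trans hsub)
  refine closure_mono ?_ (hcw.mem_closure_image hcl)
  rintro _ ⟨s, hs, rfl⟩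
  exact ⟨⟨s, hsub (Ioo_subset_Icc_self hs), rfl⟩, hin s hs⟩

theorem sub {r B x₀ : ℝ} {z₁ a b a' b' : ℂ} {c c' : ℝ} {κ κ' : ℝ → ℂ} {v g v' g' : ℂ → ℝ}
    (h : ZC r B x₀ z₁ a b c κ v g) (h' : ZC r B x₀ z₁ a' b' c' κ' v' g')
    (e : KK κ' ∩ ann r = KK κ ∩ ann r) : KK κ ⊆ KK κ' := by
  have hcl : closure (KK κ ∩ ann r) ⊆ KK κ' := by
    rw [← e]
    exact closure_minimal inter_subset_left
      (isCompact_Icc.image_of_continuousOn h'.crit.cont).isClosed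
  have hc := h.crit.cont
  rintro _ ⟨t, ht, rfl⟩
  rcases h.crit.touch with hn | ⟨s₁, s₂, h0, h12, h1, hi, -, -⟩
  · exact hcl (mem_closure_of hc one_pos le_rfl le_rfl ht fun s hs =>
      ⟨hn s (Ioo_subset_Icc_self hs), (h.crit.mem s (Ioo_subset_Ico_self hs)).2⟩)
  have hout : ∀ s ∈ Ioo (0 : ℝ) 1, s ∉ Icc s₁ s₂ → κ s ∈ ann r := fun s hs hs' =>
    ⟨lt_of_le_of_ne (h.crit.mem s (Ioo_subset_Ico_self hs)).1
      fun e => hs' ((hi s (Ioo_subset_Icc_self hs)).1 e.symm),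
      (h.crit.mem s (Ioo_subset_Ico_self hs)).2⟩
  have hL : ∀ s ∈ Icc (0 : ℝ) s₁, κ s ∈ KK κ' := fun s hs =>
    hcl (mem_closure_of hc h0 le_rfl (h12.trans h1.le) hs fun u hu =>
      hout u ⟨hu.1, hu.2.trans (h12.trans_lt h1)⟩ fun k => absurd k.1 (not_le.2 hu.2))
  have hR : ∀ s ∈ Icc s₂ (1 : ℝ), κ s ∈ KK κ' := fun s hs =>
    hcl (mem_closure_of hc h1 (h0.le.trans h12) le_rfl hs fun u hu =>
      hout u ⟨(h0.trans_le h12).trans hu.1, hu.2⟩ fun k => absurd k.2 (not_le.2 hu.1))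
  rcases le_total t s₁ with k1 | k1
  · exact hL t ⟨ht.1, k1⟩
  rcases le_total s₂ t with k2 | k2
  · exact hR t ⟨k2, ht.2⟩
  have hsub : Icc s₁ s₂ ⊆ Icc (0 : ℝ) 1 := Icc_subset_Icc h0.le h1.le
  have hnorm : ∀ s ∈ Icc s₁ s₂, ‖κ s‖ = r := fun s hs => (hi s (hsub hs)).2 hs
  obtain ⟨u₁, hu₁, e₁⟩ := hL s₁ ⟨h0.le, le_rfl⟩
  obtain ⟨u₂, hu₂, e₂⟩ := hR s₂ ⟨le_rfl, h1.le⟩
  have n₁ : ‖κ' u₁‖ = r := by rw [e₁]; exact hnorm _ ⟨le_rfl, h12⟩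
  have n₂ : ‖κ' u₂‖ = r := by rw [e₂]; exact hnorm _ ⟨h12, le_rfl⟩
  rcases h'.crit.touch with hn | ⟨s₁', s₂', h0', h12', h1', hi', -, -⟩
  · exact absurd n₁ (hn u₁ hu₁).ne'
  have hsub' : uIcc u₁ u₂ ⊆ Icc s₁' s₂' :=
    uIcc_subset_Icc ((hi' u₁ hu₁).1 n₁) ((hi' u₂ hu₂).1 n₂)
  have hsub'' : uIcc u₁ u₂ ⊆ Icc (0 : ℝ) 1 := uIcc_subset_Icc hu₁ hu₂
  have hcr : ContinuousOn (fun s => (κ s).re) (Icc s₁ s₂) :=
    continuous_re.comp_continuousOn (hc.mono hsub)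
  have hir : InjOn (fun s => (κ s).re) (Icc s₁ s₂) := fun x hx y hy k =>
    h.crit.inj (hsub hx) (hsub hy) (eq_of_re ((hnorm x hx).trans (hnorm y hy).symm)
      (h.low x (hsub hx)) (h.low y (hsub hy)) k)
  have hbt : (κ t).re ∈ uIcc (κ' u₁).re (κ' u₂).re := by
    rw [e₁, e₂]
    rcases hcr.strictMonoOn_of_injOn_Icc' h12 hir with m | m
    · exact Icc_subset_uIcc ⟨m.monotoneOn ⟨le_rfl, h12⟩ ⟨k1, k2⟩ k1,
        m.monotoneOn ⟨k1, k2⟩ ⟨h12, le_rfl⟩ k2⟩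
    · exact Icc_subset_uIcc' ⟨m.antitoneOn ⟨k1, k2⟩ ⟨h12, le_rfl⟩ k2,
        m.antitoneOn ⟨le_rfl, h12⟩ ⟨k1, k2⟩ k1⟩
  obtain ⟨u, hu, eu⟩ := intermediate_value_uIcc (f := fun s => (κ' s).re)
    (continuous_re.comp_continuousOn (h'.crit.cont.mono hsub'')) hbt
  refine ⟨u, hsub'' hu, eq_of_re ?_ (h'.low u (hsub'' hu)) (h.low t ht) eu⟩
  rw [(hi' u (hsub'' hu)).2 (hsub' hu), hnorm t ⟨k1, k2⟩]

end Keq1P

theorem z_keq1 : Z_KEQ1 := by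
  intro r B x₀ z₁ a b a' b' c c' κ κ' v g v' g' h h' e
  exact Subset.antisymm (Keq1P.sub h' h e.symm) (Keq1P.sub h h' e)

end Pool.Agent.P.MP_3bd355_an
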