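import Pool.Agent.P.MP_3bd355_an.Z.Stmts

/-! The case `A = 0`: package LB. -/

open Set Filter Metric Complex InnerProductSpace MeasureTheory
open scoped Topology ComplexConjugate Real

namespace Pool.Agent.P.MP_3bd355_an

namespace LbP

theorem cH (y : ℝ) : Continuous fun x : ℝ => (⟨x, y⟩ : ℂ) := by
  simp only [Complex.mk_eq_add_mul_I]; fun_prop

theorem cV (x : ℝ) : Continuous fun y : ℝ => (⟨x, y⟩ : ℂ) := by
  simp only [Complex.mk_eq_add_mul_I]; fun_prop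

theorem ivt {Φ : ℂ → ℂ} {S : Set ℂ} (hc : ContinuousOn Φ S) {γ : ℝ → ℂ} (hγ : Continuous γ)
    {g : ℂ → ℝ} (hg : Continuous g) {s t v : ℝ} (hst : s ≤ t) (hm : ∀ x ∈ Icc s t, γ x ∈ S)
    (h1 : g (Φ (γ s)) < v) (h2 : v < g (Φ (γ t))) : ∃ x ∈ Ioo s t, g (Φ (γ x)) = v :=
  intermediate_value_Ioo (f := fun x => g (Φ (γ x))) hst
    (hg.comp_continuousOn (hc.comp hγ.continuousOn hm)) ⟨h1, h2⟩

theorem ivt' {Φ : ℂ → ℂ} {S : Set ℂ} (hc : ContinuousOn Φ S) {γ : ℝ → ℂ} (hγ : Continuous γ)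
    {g : ℂ → ℝ} (hg : Continuous g) {s t v : ℝ} (hst : s ≤ t) (hm : ∀ x ∈ Icc s t, γ x ∈ S)
    (h1 : g (Φ (γ t)) < v) (h2 : v < g (Φ (γ s))) : ∃ x ∈ Ioo s t, g (Φ (γ x)) = v :=
  intermediate_value_Ioo' (f := fun x => g (Φ (γ x))) hst
    (hg.comp_continuousOn (hc.comp hγ.continuousOn hm)) ⟨h1, h2⟩

theorem dH (x x' : ℝ) : dist (⟨x, 0⟩ : ℂ) ⟨x', 0⟩ = |x - x'| :=
  (dist_of_im_eq (z := ⟨x, 0⟩) (w := ⟨x', 0⟩) rfl).trans (Real.dist_eq _ _)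

theorem top_eq (x : ℝ) : (x + π * I : ℂ) = ⟨x, π⟩ := by apply Complex.ext <;> simp

theorem top0_eq : (π * I : ℂ) = ⟨0, π⟩ := by apply Complex.ext <;> simp

theorem tend {Λ x : ℝ} {fin : Prop} (hf : ¬ fin) (h0 : 0 ≤ x) (h1 : x ≤ Λ) :
    Tendsto (fun y : ℝ => (⟨x, y⟩ : ℂ)) atTop (comap Complex.im atTop ⊓ 𝓟 (PC Λ fin)) := by
  refine tendsto_inf.2 ⟨tendsto_comap_iff.2 tendsto_id, tendsto_principal.2 ?_⟩
  filter_upwards [eventually_ge_atTop (0 : ℝ)] with y hy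
  exact ⟨h0, h1, hy, fun h => absurd h hf⟩

section
variable {Λ u₀ c : ℝ} {fin : Prop} {T Φ : ℂ → ℂ} (h : MN Λ u₀ c fin Φ)
include h

theorem hs1 {u u' : ℂ} (hu : u ∈ PC Λ fin) (hu' : u' ∈ PC Λ fin) (e : u.im = u'.im)
    (l : u.re < u'.re) (k : (Φ u).im = (Φ u').im) : (Φ u).re < (Φ u').re :=
  lt_of_le_of_ne (h.hor u hu u' hu' e l.le).1 fun k' =>
    l.ne (congrArg Complex.re (h.inj hu hu' (Complex.ext k' k)))

theorem hs2 {u u' : ℂ} (hu : u ∈ PC Λ fin) (hu' : u' ∈ PC Λ fin) (e : u.im = u'.im)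
    (l : u.re < u'.re) (k : (Φ u).re = (Φ u').re) : (Φ u).im < (Φ u').im :=
  lt_of_le_of_ne (h.hor u hu u' hu' e l.le).2 fun k' =>
    l.ne (congrArg Complex.re (h.inj hu hu' (Complex.ext k k')))

theorem vs1 {u u' : ℂ} (hu : u ∈ PC Λ fin) (hu' : u' ∈ PC Λ fin) (e : u.re = u'.re)
    (l : u.im < u'.im) (k : (Φ u).re = (Φ u').re) : (Φ u).im < (Φ u').im :=
  lt_of_le_of_ne (h.ver u hu u' hu' e l.le).2 fun k' =>
    l.ne (congrArg Complex.im (h.inj hu hu' (Complex.ext k k')))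

theorem vs2 {u u' : ℂ} (hu : u ∈ PC Λ fin) (hu' : u' ∈ PC Λ fin) (e : u.re = u'.re)
    (l : u.im < u'.im) (k : (Φ u).im = (Φ u').im) : (Φ u').re < (Φ u).re :=
  lt_of_le_of_ne (h.ver u hu u' hu' e l.le).1 fun k' =>
    l.ne (congrArg Complex.im (h.inj hu hu' (Complex.ext k'.symm k)))

theorem core (md : MD Λ u₀ c fin T) (ph : PH Λ u₀ c fin T Φ) {a₁ a₃ b₃ b₂ : ℝ}
    (ha : a₁ + a₃ = (Φ ⟨Λ, 0⟩).im) (hb : b₃ + b₂ = (Φ ⟨u₀, 0⟩).re)
    (hf : fin → a₁ = (Φ ⟨0, π⟩).im ∧ b₃ = (Φ ⟨c, π⟩).re) (hn : ¬ fin → a₃ = 0 ∧ b₃ = 0) :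
    LB Λ u₀ c fin T Φ a₁ a₃ b₃ b₂ := by
  have hπ := Real.pi_pos
  have hu0 := md.u0
  have hu1 := md.u1
  have hΛ : 0 < Λ := hu0.trans hu1
  have z0 : Φ ⟨0, 0⟩ = 0 := ph.zero
  have mB : ∀ {x : ℝ}, 0 ≤ x → x ≤ Λ → (⟨x, 0⟩ : ℂ) ∈ PC Λ fin := fun h1 h2 =>
    ⟨h1, h2, le_rfl, fun _ => hπ.le⟩
  have mT : ∀ {x : ℝ}, 0 ≤ x → x ≤ Λ → (⟨x, π⟩ : ℂ) ∈ PC Λ fin := fun h1 h2 =>
    ⟨h1, h2, hπ.le, fun _ => le_rfl⟩
  have mL : ∀ {y : ℝ}, 0 ≤ y → (fin → y ≤ π) → (⟨0, y⟩ : ℂ) ∈ PC Λ fin := fun h1 h2 =>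
    ⟨le_rfl, hΛ.le, h1, h2⟩
  have mR : ∀ {y : ℝ}, 0 ≤ y → (fin → y ≤ π) → (⟨Λ, y⟩ : ℂ) ∈ PC Λ fin := fun h1 h2 =>
    ⟨hΛ.le, le_rfl, h1, h2⟩
  have m0 : (⟨0, 0⟩ : ℂ) ∈ PC Λ fin := mB le_rfl hΛ.le
  have mΛ : (⟨Λ, 0⟩ : ℂ) ∈ PC Λ fin := mB hΛ.le le_rfl
  have mu : (⟨u₀, 0⟩ : ℂ) ∈ PC Λ fin := mB hu0.le hu1.le
  have bl : ∀ {x : ℝ}, 0 ≤ x → x ≤ u₀ → (Φ ⟨x, 0⟩).im = 0 := fun h1 h2 => h.bl _ ⟨h1, h2⟩
  have br : ∀ {x : ℝ}, u₀ ≤ x → x ≤ Λ → (Φ ⟨x, 0⟩).re = b₃ + b₂ := fun h1 h2 =>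
    (h.br _ ⟨h1, h2⟩).trans hb.symm
  have rg : ∀ u ∈ PC Λ fin, u.re = Λ → (Φ u).im = a₁ + a₃ := fun u hu e =>
    (h.rg u hu e).trans ha.symm
  have tl : fin → ∀ {x : ℝ}, 0 ≤ x → x ≤ c → (Φ ⟨x, π⟩).im = a₁ := fun f x h1 h2 => by
    have := h.tl f x ⟨h1, h2⟩
    rw [top_eq, top0_eq] at this
    exact this.trans (hf f).1.symm
  have tr : fin → ∀ {x : ℝ}, c ≤ x → x ≤ Λ → (Φ ⟨x, π⟩).re = b₃ := fun f x h1 h2 => by
    have := h.tr f x ⟨h1, h2⟩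
    rw [top_eq, top_eq] at this
    exact this.trans (hf f).2.symm
  have c0 : fin → 0 < c := fun f => (md.cm f).1
  have c1 : fin → c < Λ := fun f => (md.cm f).2.1
  -- weak bounds
  have r1 : ∀ u ∈ PC Λ fin, 0 ≤ (Φ u).re := fun u hu => by
    have hm := mL hu.2.2.1 hu.2.2.2
    have := (h.hor _ hm u hu rfl hu.1).1
    rwa [h.lf _ hm rfl] at this
  have r2 : ∀ u ∈ PC Λ fin, (Φ u).re ≤ b₃ + b₂ := fun u hu => by
    have hm := mR hu.2.2.1 hu.2.2.2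
    have k1 := (h.hor u hu _ hm rfl hu.2.1).1
    have k2 := (h.ver _ mΛ _ hm rfl hu.2.2.1).1
    rw [br hu1.le le_rfl] at k2
    exact k1.trans k2
  have r3 : ∀ u ∈ PC Λ fin, 0 ≤ (Φ u).im := fun u hu => by
    have hm := mL hu.2.2.1 hu.2.2.2
    have k1 := (h.hor _ hm u hu rfl hu.1).2
    have k2 := (h.ver _ m0 _ hm rfl hu.2.2.1).2
    rw [z0] at k2
    exact le_trans k2 k1
  have r4 : ∀ u ∈ PC Λ fin, (Φ u).im ≤ a₁ + a₃ := fun u hu => by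
    have hm := mR hu.2.2.1 hu.2.2.2
    have := (h.hor u hu _ hm rfl hu.2.1).2
    rwa [rg _ hm rfl] at this
  have r5 : fin → ∀ u ∈ PC Λ fin, u.re ≤ c → (Φ u).im ≤ a₁ := fun f u hu k => by
    have := (h.ver u hu _ (mT hu.1 hu.2.1) rfl (hu.2.2.2 f)).2
    rwa [tl f hu.1 k] at this
  have r6 : fin → ∀ u ∈ PC Λ fin, c ≤ u.re → b₃ ≤ (Φ u).re := fun f u hu k => by
    have := (h.ver u hu _ (mT hu.1 hu.2.1) rfl (hu.2.2.2 f)).1
    rwa [tr f k hu.2.1] at this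
  have pos : ∀ u ∈ PC Λ fin, 0 < u.re → 0 < (Φ u).re := fun u hu k => by
    by_cases f : fin
    · have hx : 0 < min u.re c := lt_min k (c0 f)
      have hm := mT hx.le ((min_le_left _ _).trans hu.2.1)
      have hm0 : (⟨0, π⟩ : ℂ) ∈ PC Λ fin := mT le_rfl hΛ.le
      have k1 := hs1 h hm0 hm rfl hx
        ((tl f le_rfl (c0 f).le).trans (tl f hx.le (min_le_right _ _)).symm)
      rw [h.lf _ hm0 rfl] at k1
      have k2 := (h.hor _ hm _ (mT hu.1 hu.2.1) rfl (min_le_left _ _)).1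
      have k3 := (h.ver u hu _ (mT hu.1 hu.2.1) rfl (hu.2.2.2 f)).1
      exact k1.trans_le (k2.trans k3)
    · have hy : 0 < u.im + 1 := by linarith [hu.2.2.1]
      have hm0 : (⟨0, u.im + 1⟩ : ℂ) ∈ PC Λ fin := mL hy.le fun g => absurd g f
      have hm : (⟨u.re, u.im + 1⟩ : ℂ) ∈ PC Λ fin := ⟨hu.1, hu.2.1, hy.le, fun g => absurd g f⟩
      have k1 := (h.horS _ hm0 _ hm rfl k hy fun g => absurd g f).1
      rw [h.lf _ hm0 rfl] at k1
      exact k1.trans_le (h.ver u hu _ hm rfl (lt_add_one u.im).le).1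
  -- the vertical sides
  have lU : ∀ u ∈ PC Λ fin, u.re = 0 → (fin → u.im < π) → (Φ u).im < a₁ := fun u hu e k => by
    by_cases f : fin
    · have hm0 : (⟨0, π⟩ : ℂ) ∈ PC Λ fin := mT le_rfl hΛ.le
      have := vs1 h hu hm0 e (k f) ((h.lf u hu e).trans (h.lf _ hm0 rfl).symm)
      rwa [tl f le_rfl (c0 f).le] at this
    · have hm0 : (⟨0, u.im + 1⟩ : ℂ) ∈ PC Λ fin :=
        mL (by linarith [hu.2.2.1]) fun g => absurd g f
      have k1 := vs1 h hu hm0 e (lt_add_one u.im) ((h.lf u hu e).trans (h.lf _ hm0 rfl).symm)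
      have k2 := r4 _ hm0
      rw [(hn f).1, add_zero] at k2
      exact k1.trans_le k2
  have rL : ∀ u ∈ PC Λ fin, u.re = Λ → (fin → u.im < π) → b₃ < (Φ u).re := fun u hu e k => by
    by_cases f : fin
    · have hm0 : (⟨Λ, π⟩ : ℂ) ∈ PC Λ fin := mT hΛ.le le_rfl
      have := vs2 h hu hm0 e (k f) ((rg u hu e).trans (rg _ hm0 rfl).symm)
      rwa [tr f (c1 f).le le_rfl] at this
    · rw [(hn f).2]
      exact pos u hu (e ▸ hΛ)
  have lim : ¬ fin → Tendsto Φ (comap Complex.im atTop ⊓ 𝓟 (PC Λ fin)) (𝓝 (a₁ * I)) := fun f => by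
    obtain ⟨l, hl⟩ := ph.inf f
    have k1 : l.re = 0 := by
      refine tendsto_nhds_unique ((continuous_re.tendsto l).comp (hl.comp (tend f le_rfl hΛ.le)))
        (tendsto_const_nhds.congr' ?_)
      filter_upwards [eventually_ge_atTop (0 : ℝ)] with y hy
      exact (h.lf _ (mL hy fun g => absurd g f) rfl).symm
    have k2 : l.im = a₁ + a₃ := by
      refine tendsto_nhds_unique ((continuous_im.tendsto l).comp (hl.comp (tend f hΛ.le le_rfl)))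
        (tendsto_const_nhds.congr' ?_)
      filter_upwards [eventually_ge_atTop (0 : ℝ)] with y hy
      exact (rg _ (mR hy fun g => absurd g f) rfl).symm
    rw [(hn f).1, add_zero] at k2
    rwa [show (a₁ * I : ℂ) = l from Complex.ext (by simp [k1]) (by simp [k2])]
  have lE : ∀ v < a₁, ∃ Y, 0 ≤ Y ∧ (fin → Y ≤ π) ∧ v < (Φ ⟨0, Y⟩).im := fun v hv => by
    by_cases f : fin
    · exact ⟨π, hπ.le, fun _ => le_rfl, by rwa [tl f le_rfl (c0 f).le]⟩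
    · have k := (continuous_im.tendsto _).comp ((lim f).comp (tend f le_rfl hΛ.le))
      obtain ⟨Y, k1, k2⟩ := ((k.eventually (lt_mem_nhds (show v < (a₁ * I : ℂ).im by
        simpa using hv))).and (eventually_ge_atTop (0 : ℝ))).exists
      exact ⟨Y, k2, fun g => absurd g f, k1⟩
  have rE : ∀ v, b₃ < v → ∃ Y, 0 ≤ Y ∧ (fin → Y ≤ π) ∧ (Φ ⟨Λ, Y⟩).re < v := fun v hv => by
    by_cases f : fin
    · exact ⟨π, hπ.le, fun _ => le_rfl, by rwa [tr f (c1 f).le le_rfl]⟩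
    · have k := (continuous_re.tendsto _).comp ((lim f).comp (tend f hΛ.le le_rfl))
      obtain ⟨Y, k1, k2⟩ := ((k.eventually (gt_mem_nhds (show (a₁ * I : ℂ).re < v by
        simpa [(hn f).2] using hv))).and (eventually_ge_atTop (0 : ℝ))).exists
      exact ⟨Y, k2, fun g => absurd g f, k1⟩
  -- the shape
  have a1 : 0 < a₁ := by
    have := lU _ m0 rfl fun _ => hπ
    rwa [z0] at this
  have b2 : 0 < b₂ := by
    have := rL _ mΛ rfl fun _ => hπ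
    rw [br hu1.le le_rfl] at this
    linarith
  have a3 : fin → 0 < a₃ := fun f => by
    have hm := mT hΛ.le le_rfl
    have := hs2 h (mT (c0 f).le (c1 f).le) hm rfl (c1 f)
      ((tr f le_rfl (c1 f).le).trans (tr f (c1 f).le le_rfl).symm)
    rw [tl f (c0 f).le le_rfl, rg _ hm rfl] at this
    linarith
  have b3 : fin → 0 < b₃ := fun f => by
    have := pos _ (mT (c0 f).le (c1 f).le) (c0 f)
    rwa [tr f le_rfl (c1 f).le] at this
  have a3' : 0 ≤ a₃ := by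
    by_cases f : fin
    · exact (a3 f).le
    · exact (hn f).1.ge
  refine
    { sh := ⟨a1, b2, ?_⟩
      fin_iff := ⟨a3, fun k => by_contra fun f => k.ne' (hn f).1⟩
      inj := h.inj
      maps := fun u hu => ?_
      bdy := fun u hu hu' k => ?_
      p0 := Complex.ext hb.symm (bl hu0.le le_rfl)
      pc := fun f => ?_
      lim := fun f => ⟨lim f, fun u hu e => ?_⟩
      bl := ?_
      br := ?_
      lf := ?_
      rg := ?_
      tl := fun f => ?_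
      tr := fun f => ?_
      rng := fun u hu => ⟨r1 u hu, r2 u hu, r3 u hu, r4 u hu, fun k => ?_⟩
      pos := pos
      unL := fun ε hε => ?_
      unR := fun _ ε hε => ?_ }
  · by_cases f : fin
    · exact Or.inl ⟨a3 f, b3 f⟩
    · exact Or.inr (hn f)
  · have hc := PP_sub_PC _ _ hu
    have hL := mL hc.2.2.1 hc.2.2.2
    have hR := mR hc.2.2.1 hc.2.2.2
    have k1 := h.horS _ hL u hc rfl hu.1 hu.2.2.1 hu.2.2.2
    have k2 := h.horS u hc _ hR rfl hu.2.1 hu.2.2.1 hu.2.2.2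
    have k3 : (Φ u).im < a₁ + a₃ := k2.2.trans_le (r4 _ hR)
    refine ⟨pos u hc hu.1, k2.1.trans_le (r2 _ hR), (r3 _ hL).trans_lt k1.2, ?_⟩
    by_cases f : fin
    · have k4 := h.verS u hc _ (mT hc.1 hc.2.1) rfl (hu.2.2.2 f) hu.1 hu.2.1
      rcases le_total u.re c with k | k
      · rw [tl f hc.1 k] at k4
        exact Or.inl k4.2
      · rw [tr f k hc.2.1] at k4
        exact Or.inr ⟨k4.1, k3⟩
    · rw [(hn f).1, add_zero] at k3
      exact Or.inl k3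
  · obtain ⟨x, y⟩ := u
    obtain ⟨k1, k2, k3, k4⟩ := k
    apply hu'
    refine ⟨lt_of_le_of_ne hu.1 fun e => k1.ne' (h.lf _ hu e.symm),
      lt_of_le_of_ne hu.2.1 fun e => ?_, lt_of_le_of_ne hu.2.2.1 fun e => ?_,
      fun f => lt_of_le_of_ne (hu.2.2.2 f) fun e => ?_⟩
    · rw [rg _ hu e] at k4
      rcases k4 with k | k
      · linarith
      · exact k.2.ne rfl
    · obtain rfl : (0 : ℝ) = y := e
      rcases le_total x u₀ with k | k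
      · exact k3.ne' (bl hu.1 k)
      · exact k2.ne (br k hu.2.1)
    · obtain rfl : π = y := Eq.symm e
      rcases le_total x c with k | k
      · have k5 := (h.hor _ hu _ (mT (c0 f).le (c1 f).le) rfl k).1
        rw [tr f le_rfl (c1 f).le] at k5
        rcases k4 with k6 | k6
        · exact k6.ne (tl f hu.1 k)
        · exact absurd k6.1 (not_lt.2 k5)
      · have k5 := (h.hor _ (mT (c0 f).le (c1 f).le) _ hu rfl k).2
        rw [tl f (c0 f).le le_rfl] at k5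
        rcases k4 with k6 | k6
        · exact absurd k6 (not_lt.2 k5)
        · exact k6.1.ne' (tr f k hu.2.1)
  · rw [top_eq]
    exact Complex.ext (by simp [tr f le_rfl (c1 f).le]) (by simp [tl f (c0 f).le le_rfl])
  · have k1 : (Φ u).re = 0 := by simp [e]
    have k2 : u.re = 0 := (le_antisymm hu.1 (not_lt.1 fun k => (pos u hu k).ne' k1)).symm
    have := lU u hu k2 fun g => absurd g f
    rw [e] at this
    simp at this
  · ext ζ
    constructor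
    · rintro ⟨⟨x, y⟩, ⟨rfl, k1, k2⟩, rfl⟩
      have hm : (⟨x, 0⟩ : ℂ) ∈ PC Λ fin := mB k1.le (k2.trans hu1).le
      refine ⟨bl k1.le k2.le, pos _ hm k1, ?_⟩
      rw [hb]
      exact hs1 h hm mu rfl k2 ((bl k1.le k2.le).trans (bl hu0.le le_rfl).symm)
    · rintro ⟨k1, k2, k3⟩
      obtain ⟨x, hx, e⟩ := ivt ph.cont (cH 0) continuous_re hu0.le
        (fun x hx => mB hx.1 (hx.2.trans hu1.le)) (v := ζ.re) (by rwa [z0]) (by rwa [← hb])
      exact ⟨⟨x, 0⟩, ⟨rfl, hx.1, hx.2⟩, Complex.ext e ((bl hx.1.le hx.2.le).trans k1.symm)⟩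
  · ext ζ
    constructor
    · rintro ⟨⟨x, y⟩, ⟨rfl, k1, k2⟩, rfl⟩
      have hm : (⟨x, 0⟩ : ℂ) ∈ PC Λ fin := mB (hu0.trans k1).le k2.le
      refine ⟨br k1.le k2.le, ?_, ?_⟩
      · have := hs2 h mu hm rfl k1 ((br le_rfl hu1.le).trans (br k1.le k2.le).symm)
        rwa [bl hu0.le le_rfl] at this
      · rw [ha]
        exact hs2 h hm mΛ rfl k2 ((br k1.le k2.le).trans (br hu1.le le_rfl).symm)
    · rintro ⟨k1, k2, k3⟩
      obtain ⟨x, hx, e⟩ := ivt ph.cont (cH 0) continuous_im hu1.le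
        (fun x hx => mB (hu0.le.trans hx.1) hx.2) (v := ζ.im) (by rwa [bl hu0.le le_rfl])
        (by rwa [← ha])
      exact ⟨⟨x, 0⟩, ⟨rfl, hx.1, hx.2⟩, Complex.ext ((br hx.1.le hx.2.le).trans k1.symm) e⟩
  · ext ζ
    constructor
    · rintro ⟨⟨x, y⟩, ⟨rfl, k1, k2⟩, rfl⟩
      have hm : (⟨0, y⟩ : ℂ) ∈ PC Λ fin := mL k1.le fun f => (k2 f).le
      refine ⟨h.lf _ hm rfl, ?_, lU _ hm rfl k2⟩
      have := vs1 h m0 hm rfl k1 ((h.lf _ m0 rfl).trans (h.lf _ hm rfl).symm)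
      rwa [z0] at this
    · rintro ⟨k1, k2, k3⟩
      obtain ⟨Y, y0, y1, y2⟩ := lE _ k3
      have hm : ∀ y ∈ Icc 0 Y, (⟨0, y⟩ : ℂ) ∈ PC Λ fin := fun y hy =>
        mL hy.1 fun f => hy.2.trans (y1 f)
      obtain ⟨y, hy, e⟩ := ivt ph.cont (cV 0) continuous_im y0 hm (v := ζ.im) (by rwa [z0]) y2
      exact ⟨⟨0, y⟩, ⟨rfl, hy.1, fun f => hy.2.trans_le (y1 f)⟩,
        Complex.ext ((h.lf _ (hm y (Ioo_subset_Icc_self hy)) rfl).trans k1.symm) e⟩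
  · ext ζ
    constructor
    · rintro ⟨⟨x, y⟩, ⟨k0, k1, k2⟩, rfl⟩
      obtain rfl : Λ = x := Eq.symm k0
      have hm : (⟨Λ, y⟩ : ℂ) ∈ PC Λ fin := mR k1.le fun f => (k2 f).le
      refine ⟨rg _ hm rfl, rL _ hm rfl k2, ?_⟩
      have := vs2 h mΛ hm rfl k1 ((rg _ mΛ rfl).trans (rg _ hm rfl).symm)
      rwa [br hu1.le le_rfl] at this
    · rintro ⟨k1, k2, k3⟩
      obtain ⟨Y, y0, y1, y2⟩ := rE _ k2
      have hm : ∀ y ∈ Icc 0 Y, (⟨Λ, y⟩ : ℂ) ∈ PC Λ fin := fun y hy =>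
        mR hy.1 fun f => hy.2.trans (y1 f)
      obtain ⟨y, hy, e⟩ := ivt' ph.cont (cV Λ) continuous_re y0 hm (v := ζ.re) y2
        (by rwa [br hu1.le le_rfl])
      exact ⟨⟨Λ, y⟩, ⟨rfl, hy.1, fun f => hy.2.trans_le (y1 f)⟩,
        Complex.ext e ((rg _ (hm y (Ioo_subset_Icc_self hy)) rfl).trans k1.symm)⟩
  · ext ζ
    constructor
    · rintro ⟨⟨x, y⟩, ⟨k0, k1, k2⟩, rfl⟩
      obtain rfl : π = y := Eq.symm k0
      have hm : (⟨x, π⟩ : ℂ) ∈ PC Λ fin := mT k1.le (k2.trans (c1 f)).le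
      refine ⟨tl f k1.le k2.le, pos _ hm k1, ?_⟩
      have := hs1 h hm (mT (c0 f).le (c1 f).le) rfl k2
        ((tl f k1.le k2.le).trans (tl f (c0 f).le le_rfl).symm)
      rwa [tr f le_rfl (c1 f).le] at this
    · rintro ⟨k1, k2, k3⟩
      obtain ⟨x, hx, e⟩ := ivt ph.cont (cH π) continuous_re (c0 f).le
        (fun x hx => mT hx.1 (hx.2.trans (c1 f).le)) (v := ζ.re)
        (by rwa [h.lf _ (mT le_rfl hΛ.le) rfl]) (by rwa [tr f le_rfl (c1 f).le])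
      exact ⟨⟨x, π⟩, ⟨rfl, hx.1, hx.2⟩, Complex.ext e ((tl f hx.1.le hx.2.le).trans k1.symm)⟩
  · ext ζ
    constructor
    · rintro ⟨⟨x, y⟩, ⟨k0, k1, k2⟩, rfl⟩
      obtain rfl : π = y := Eq.symm k0
      have hm : (⟨x, π⟩ : ℂ) ∈ PC Λ fin := mT ((c0 f).trans k1).le k2.le
      refine ⟨tr f k1.le k2.le, ?_, ?_⟩
      · have := hs2 h (mT (c0 f).le (c1 f).le) hm rfl k1
          ((tr f le_rfl (c1 f).le).trans (tr f k1.le k2.le).symm)
        rwa [tl f (c0 f).le le_rfl] at this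
      · have := hs2 h hm (mT hΛ.le le_rfl) rfl k2
          ((tr f k1.le k2.le).trans (tr f (c1 f).le le_rfl).symm)
        rwa [rg _ (mT hΛ.le le_rfl) rfl] at this
    · rintro ⟨k1, k2, k3⟩
      obtain ⟨x, hx, e⟩ := ivt ph.cont (cH π) continuous_im (c1 f).le
        (fun x hx => mT ((c0 f).le.trans hx.1) hx.2) (v := ζ.im)
        (by rwa [tl f (c0 f).le le_rfl]) (by rwa [rg _ (mT hΛ.le le_rfl) rfl])
      exact ⟨⟨x, π⟩, ⟨rfl, hx.1, hx.2⟩, Complex.ext ((tr f hx.1.le hx.2.le).trans k1.symm) e⟩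
  · by_cases f : fin
    · rcases le_total u.re c with k' | k'
      · exact r5 f u hu k'
      · exact absurd k (not_lt.2 (r6 f u hu k'))
    · have := r4 u hu
      rwa [(hn f).1, add_zero] at this
  · obtain ⟨δ, hδ, hd⟩ := Metric.continuousWithinAt_iff.1
      (continuous_re.continuousAt.comp_continuousWithinAt (ph.cont _ m0)) ε hε
    refine ⟨δ, hδ, fun u hu k => ?_⟩
    have hm := mB hu.1 hu.2.1
    have k1 := hd hm (by
      rw [dH, sub_zero, abs_of_nonneg hu.1]; exact k)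
    rw [Function.comp_apply, Function.comp_apply, z0, Real.dist_eq, zero_re, sub_zero] at k1
    exact (h.ver _ hm u hu rfl hu.2.2.1).1.trans_lt ((le_abs_self _).trans_lt k1)
  · obtain ⟨δ, hδ, hd⟩ := Metric.continuousWithinAt_iff.1
      (continuous_im.continuousAt.comp_continuousWithinAt (ph.cont _ mΛ)) ε hε
    refine ⟨δ, hδ, fun u hu k => ?_⟩
    have hm := mB hu.1 hu.2.1
    have k1 := hd hm (by
      rw [dH, abs_sub_comm, abs_of_nonneg (sub_nonneg.2 hu.2.1)]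
      linarith)
    rw [Function.comp_apply, Function.comp_apply, ← ha, Real.dist_eq] at k1
    have k2 := (h.ver _ hm u hu rfl hu.2.2.1).2
    linarith [(abs_lt.1 k1).1]

end

end LbP

theorem z_lb (hMN : Z_MN) : Z_LB := by
  intro Λ u₀ c fin T Φ md ph
  have h := hMN Λ u₀ c fin T Φ md ph
  by_cases f : fin
  · exact ⟨(Φ ⟨0, π⟩).im, (Φ ⟨Λ, 0⟩).im - (Φ ⟨0, π⟩).im, (Φ ⟨c, π⟩).re,
      (Φ ⟨u₀, 0⟩).re - (Φ ⟨c, π⟩).re, LbP.core h md ph (add_sub_cancel _ _) (add_sub_cancel _ _)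
        (fun _ => ⟨rfl, rfl⟩) fun g => absurd f g⟩
  · exact ⟨(Φ ⟨Λ, 0⟩).im, 0, 0, (Φ ⟨u₀, 0⟩).re, LbP.core h md ph (add_zero _) (zero_add _)
      (fun g => absurd g f) fun _ => ⟨rfl, rfl⟩⟩

end Pool.Agent.P.MP_3bd355_an
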