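import Pool.Agent.P.MP_3bd355_an.Z.Pk.Leaf2

/-! The case `A = 0`: package LEAF1. -/

open Set Filter Metric Complex InnerProductSpace MeasureTheory
open scoped Topology ComplexConjugate Real

namespace Pool.Agent.P.MP_3bd355_an

namespace Leaf1P

theorem prim_odd {g : ℝ → ℝ} (h : ∀ u, g (-u) = g u) (t : ℝ) :
    ∫ u in (0 : ℝ)..(-t), g u = -∫ u in (0 : ℝ)..t, g u := by
  have h1 := intervalIntegral.integral_comp_neg (a := 0) (b := t) g
  simp only [h, neg_zero] at h1
  rw [h1, intervalIntegral.integral_symm]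

theorem prim_refl {g : ℝ → ℝ} (hg : Continuous g) {b : ℝ} (h : ∀ u, g (2 * b - u) = g u) (t : ℝ) :
    ∫ u in (0 : ℝ)..(2 * b - t), g u = 2 * (∫ u in (0 : ℝ)..b, g u) - ∫ u in (0 : ℝ)..t, g u := by
  have h1 := intervalIntegral.integral_comp_sub_left (a := t) (b := b) g (2 * b)
  simp only [h] at h1
  rw [show 2 * b - b = b by ring] at h1
  have h2 := intervalIntegral.integral_add_adjacent_intervals
    (hg.intervalIntegrable (μ := volume) 0 t) (hg.intervalIntegrable t b)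
  have h3 := intervalIntegral.integral_add_adjacent_intervals
    (hg.intervalIntegrable (μ := volume) 0 b) (hg.intervalIntegrable b (2 * b - t))
  linarith

theorem int_le {h : ℝ → ℝ} {a : ℝ} (ha : 0 ≤ a) (hi : IntervalIntegrable h volume 0 a) :
    ENNReal.ofReal (∫ y in (0 : ℝ)..a, h y) ≤ ∫⁻ y in Ioo 0 a, ENNReal.ofReal |h y| := by
  have h1 : IntegrableOn h (Ioo 0 a) := (intervalIntegrable_iff_integrableOn_Ioo_of_le ha).1 hi
  rw [intervalIntegral.integral_of_le ha, integral_Ioc_eq_integral_Ioo,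
    ← ofReal_integral_eq_lintegral_ofReal h1.abs (Eventually.of_forall fun y => abs_nonneg _)]
  exact ENNReal.ofReal_le_ofReal (integral_mono h1 h1.abs fun y => le_abs_self _)

theorem le_lim {A : ℝ} {L : ENNReal} (h : ∀ η > 0, ENNReal.ofReal (A - η) ≤ L) :
    ENNReal.ofReal A ≤ L := by
  have h1 : Tendsto (fun η : ℝ => ENNReal.ofReal (A - η)) (𝓝[>] 0) (𝓝 (ENNReal.ofReal (A - 0))) :=
    ((ENNReal.continuous_ofReal.comp (continuous_const.sub continuous_id)).tendsto 0).mono_left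
      nhdsWithin_le_nhds
  rw [sub_zero] at h1
  exact le_of_tendsto h1 (eventually_nhdsWithin_of_forall h)

end Leaf1P

open Leaf1P in
theorem z_leaf1 (hDINI : Z_DINI) : Z_LEAF1 := by
  intro r x₀ z₁ f f' ξ G ω hf hf' hv hm hE hω h0
  have hb : 0 < f.b₃ + f.b₂ := add_pos_of_nonneg_of_pos hf.sh.nonneg.2 hf.sh.2.1
  have hb' : 0 < f'.b₃ + f'.b₂ := add_pos_of_nonneg_of_pos hf'.sh.nonneg.2 hf'.sh.2.1
  have hg : Continuous fun u => ω (tent (f.b₃ + f.b₂) u) := hω.comp (continuous_tent _)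
  let W : ℝ → ℝ := fun s => ∫ u in (0 : ℝ)..s, ω (tent (f.b₃ + f.b₂) u)
  have hW : ∀ s, HasDerivAt W (ω (tent (f.b₃ + f.b₂) s)) s := fun s =>
    (hg.integral_hasStrictDerivAt _ s).hasDerivAt
  have hWc : Continuous W := continuous_iff_continuousAt.2 fun s => (hW s).continuousAt
  have hWb : W (f.b₃ + f.b₂) = ∫ t in (0 : ℝ)..(f.b₃ + f.b₂), ω t :=
    intervalIntegral.integral_congr fun u hu => by
      rw [uIcc_of_le hb.le] at hu
      simp only [tent_self hb hu.1 hu.2]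
  have hEN := hE W hWc (monotone_of_hasDerivAt_nonneg hW fun s => h0 _)
    (prim_odd fun u => by rw [tent_neg]) (prim_refl hg fun u => by rw [tent_refl hb])
  have hd0 : ∀ ζ, 0 ≤ den f f' ζ := fun ζ => by unfold den; positivity
  refine le_lim fun η hη => ?_
  obtain ⟨t, ⟨hi, hle⟩, ht⟩ := ((hEN η hη).and (Ioo_mem_nhdsGT hb')).exists
  rw [hWb] at hle
  refine (ENNReal.ofReal_le_ofReal (le_trans (le_of_eq (by ring)) hle)).trans
    ((int_le hf'.sh.1.le hi).trans (setLIntegral_mono' measurableSet_Ioo fun y hy => ?_))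
  have hl : Continuous fun s : ℝ => (s + y * I : ℂ) := by fun_prop
  have hdd : ∀ s ∈ Icc t (2 * (f'.b₃ + f'.b₂) - t),
      (s + y * I : ℂ) ∈ DD2 f'.a₁ f'.a₃ f'.b₃ f'.b₂ := fun s hs =>
    ⟨by simpa using hy.1, Or.inl ⟨by simpa using ht.1.trans_le hs.1,
      by simpa using hs.2.trans_lt (sub_lt_self _ ht.1), by simpa using hy.2⟩⟩
  have hγ : ContinuousOn (fun s : ℝ => ξ (s + y * I)) (Icc t (2 * (f'.b₃ + f'.b₂) - t)) :=
    hv.cont.comp hl.continuousOn hdd
  refine le_trans ?_ (lintegral_mono_set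
    (Ioo_subset_Ioo ht.1.le (sub_le_self (2 * (f'.b₃ + f'.b₂)) ht.1.le)))
  refine hDINI (fun s => W (ξ (s + y * I))) _ t _ (by linarith [ht.2]) (hWc.comp_continuousOn hγ)
    ((hω.comp_continuousOn (hm.xc.comp hl.continuousOn fun s hs =>
      hdd s (Ioo_subset_Icc_self hs))).mul
      (hm.cont.comp hl.continuousOn fun s hs => hdd s (Ioo_subset_Icc_self hs)))
    (fun s _ => mul_nonneg (h0 _) (hd0 _)) fun s hs => ?_
  have hs' := hdd s (Ioo_subset_Icc_self hs)
  have h1 := hW (ξ (s + y * I))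
  rw [(hv.rel _ hs').tent hb (hf.fx.rng _).1 (hf.fx.rng _).2] at h1
  refine Leaf2P.chain (γ := fun s : ℝ => ξ (s + y * I)) (h0 _) (hd0 _) h1
    (hγ.continuousAt (Icc_mem_nhds hs.1 hs.2)) fun ε hε => ?_
  filter_upwards [(hl.tendsto s).eventually (hm.dom _ hs' ε hε)] with u hu
  rwa [add_sub_add_right_eq_sub, ← ofReal_sub, norm_real, Real.norm_eq_abs] at hu

end Pool.Agent.P.MP_3bd355_an
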