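import Pool.Agent.P.MP_3bd355_an.Z.Stmts

/-! The case `A = 0`: package LI. -/

open Set Filter Metric Complex InnerProductSpace MeasureTheory
open scoped Topology ComplexConjugate Real

namespace Pool.Agent.P.MP_3bd355_an

namespace LiP

variable {Λ u₀ c : ℝ} {fin : Prop} {T Φ : ℂ → ℂ} {a₁ a₃ b₃ b₂ : ℝ}

theorem clo (hP : PH Λ u₀ c fin T Φ) (hL : LB Λ u₀ c fin T Φ a₁ a₃ b₃ b₂) {F : Set ℂ}
    (hF : IsClosed F) {ζ : ℂ} (hζ : ζ ∈ closure (Φ '' (F ∩ PC Λ fin)))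
    (hne : ¬ fin → ζ ≠ a₁ * I) : ζ ∈ Φ '' (F ∩ PC Λ fin) := by
  obtain ⟨C, G, hG, hζG, hC⟩ : ∃ (C : ℝ) (G : Set ℂ), IsClosed G ∧ ζ ∉ G ∧
      ∀ u ∈ PC Λ fin, C < u.im → Φ u ∈ G := by
    by_cases hf : fin
    · exact ⟨π, ∅, isClosed_empty, notMem_empty _,
        fun u hu h => absurd (hu.2.2.2 hf) (not_le.2 h)⟩
    · have hd : 0 < dist ζ (a₁ * I) := dist_pos.2 (hne hf)
      have h1 := (hL.lim hf).1.eventually (closedBall_mem_nhds (a₁ * I) (half_pos hd))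
      rw [eventually_inf_principal, eventually_comap, eventually_atTop] at h1
      obtain ⟨C, hC⟩ := h1
      refine ⟨C, closedBall (a₁ * I) (dist ζ (a₁ * I) / 2), isClosed_closedBall, ?_,
        fun u hu h => hC u.im h.le u rfl hu⟩
      rw [mem_closedBall, not_le]
      exact half_lt_self hd
  have hK : IsCompact (F ∩ (PC Λ fin ∩ {u | u.im ≤ C})) := (isCompact_PC Λ fin C).inter_left hF
  have hK' : IsClosed (Φ '' (F ∩ (PC Λ fin ∩ {u | u.im ≤ C}))) :=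
    (hK.image_of_continuousOn (hP.cont.mono fun u hu => hu.2.1)).isClosed
  have hs : Φ '' (F ∩ PC Λ fin) ⊆ Φ '' (F ∩ (PC Λ fin ∩ {u | u.im ≤ C})) ∪ G := by
    rintro _ ⟨u, hu, rfl⟩
    rcases le_or_gt u.im C with h | h
    · exact Or.inl ⟨u, ⟨hu.1, hu.2, h⟩, rfl⟩
    · exact Or.inr (hC u hu.2 h)
  rcases closure_minimal hs (hK'.union hG) hζ with ⟨u, hu, e⟩ | h
  · exact ⟨u, ⟨hu.1, hu.2.1⟩, e⟩
  · exact absurd h hζG

theorem der (hP : PH Λ u₀ c fin T Φ) {z : ℂ} (hz : z ∈ PP Λ fin) :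
    HasDerivAt Φ (rt (T z)) z := by
  have h1 : z ≠ u₀ := fun e => by
    have := hz.2.2.1
    rw [e, ofReal_im] at this
    exact lt_irrefl _ this
  have h2 : fin → z ≠ c + π * I := fun hf e => by
    have := hz.2.2.2 hf
    rw [e] at this
    simp at this
  obtain ⟨Φ', h3, h4⟩ := hP.ext z (PP_sub_PC Λ fin hz) h1 h2
  rw [nhdsWithin_eq_nhds.2
    (mem_of_superset ((isOpen_PP Λ fin).mem_nhds hz) (PP_sub_PC Λ fin))] at h4
  exact h3.self_of_nhds.congr_of_eventuallyEq h4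

theorem pre (h : Sh a₁ a₃ b₃ b₂) : IsPreconnected (Lo a₁ a₃ b₃ b₂) := by
  obtain ⟨h3, h4⟩ := h.nonneg
  have h1 := h.1
  have h2 := h.2.1
  have hA : Convex ℝ {ζ : ℂ | 0 < ζ.re ∧ ζ.re < b₃ + b₂ ∧ 0 < ζ.im ∧ ζ.im < a₁} :=
    (convex_halfSpace_re_gt _).inter ((convex_halfSpace_re_lt _).inter
      ((convex_halfSpace_im_gt _).inter (convex_halfSpace_im_lt _)))
  have hB : Convex ℝ {ζ : ℂ | b₃ < ζ.re ∧ ζ.re < b₃ + b₂ ∧ 0 < ζ.im ∧ ζ.im < a₁ + a₃} :=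
    (convex_halfSpace_re_gt _).inter ((convex_halfSpace_re_lt _).inter
      ((convex_halfSpace_im_gt _).inter (convex_halfSpace_im_lt _)))
  have := hA.isPreconnected.union (⟨b₃ + b₂ / 2, a₁ / 2⟩ : ℂ)
    (by refine ⟨?_, ?_, ?_, ?_⟩ <;> dsimp only <;> linarith)
    (by refine ⟨?_, ?_, ?_, ?_⟩ <;> dsimp only <;> linarith) hB.isPreconnected
  convert this using 1
  ext ζ
  constructor
  · rintro ⟨a, b, c, d | d⟩
    · exact Or.inl ⟨a, b, c, d⟩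
    · exact Or.inr ⟨d.1, b, c, d.2⟩
  · rintro (⟨a, b, c, d⟩ | ⟨a, b, c, d⟩)
    · exact ⟨a, b, c, Or.inl d⟩
    · exact ⟨h4.trans_lt a, b, c, Or.inr ⟨a, d⟩⟩

end LiP

theorem z_li (hINV : Z_INV) : Z_LI := by
  intro Λ u₀ c fin T Φ a₁ a₃ b₃ b₂ hM hP hL
  have linv : ∀ u ∈ PC Λ fin, Function.invFunOn Φ (PC Λ fin) (Φ u) = u := fun u hu =>
    hL.inj.leftInvOn_invFunOn hu
  obtain ⟨ho, h, hh, hd⟩ := hINV (PP Λ fin) Φ (isOpen_PP Λ fin)
    (fun z hz => (LiP.der hP hz).differentiableAt.differentiableWithinAt)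
    (hL.inj.mono (PP_sub_PC Λ fin)) fun z hz => by
      rw [(LiP.der hP hz).deriv]
      refine rt_ne fun e => ?_
      have := hM.im z hz
      rw [e, zero_im] at this
      exact lt_irrefl _ this
  have img : Φ '' PP Λ fin = Lo a₁ a₃ b₃ b₂ := by
    refine Subset.antisymm hL.maps.image_subset ?_
    have h0 : (⟨u₀, 1⟩ : ℂ) ∈ PP Λ fin :=
      ⟨hM.u0, hM.u1, one_pos, fun _ => by dsimp only; linarith [Real.pi_gt_three]⟩
    refine (LiP.pre hL.sh).subset_of_closure_inter_subset ho ⟨_, hL.maps h0, _, h0, rfl⟩ ?_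
    rintro ζ ⟨h1, h2⟩
    have h3 : ζ ∈ closure (Φ '' (univ ∩ PC Λ fin)) :=
      closure_mono (image_mono (subset_inter (subset_univ _) (PP_sub_PC Λ fin))) h1
    obtain ⟨u, hu, rfl⟩ := LiP.clo hP hL isClosed_univ h3 fun _ e => by
      have := h2.1
      rw [e] at this
      simp at this
    exact ⟨u, by_contra fun hn => hL.bdy u hu.2 hn h2, rfl⟩
  refine ⟨Function.invFunOn Φ (PC Λ fin), linv, ?_, img, ?_⟩
  · rw [continuousOn_iff_isClosed]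
    intro t ht
    refine ⟨closure (Φ '' (t ∩ PC Λ fin)), isClosed_closure, ?_⟩
    ext ζ
    constructor
    · rintro ⟨h1, v, hv, rfl⟩
      rw [mem_preimage, linv v hv] at h1
      exact ⟨subset_closure ⟨v, ⟨h1, hv⟩, rfl⟩, v, hv, rfl⟩
    · rintro ⟨h1, v, hv, rfl⟩
      obtain ⟨w, hw, e⟩ := LiP.clo hP hL ht h1 fun hf => (hL.lim hf).2 v hv
      refine ⟨?_, v, hv, rfl⟩
      rw [mem_preimage, ← e, linv w hw.2]
      exact hw.1
  · rw [← img]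
    rintro _ ⟨z, hz, rfl⟩
    rw [linv z (PP_sub_PC Λ fin hz), ← (LiP.der hP hz).deriv]
    refine (hd z hz).congr_of_eventuallyEq ?_
    filter_upwards [ho.mem_nhds ⟨z, hz, rfl⟩]
    rintro _ ⟨w, hw, rfl⟩
    rw [linv w (PP_sub_PC Λ fin hw), hh w hw]

end Pool.Agent.P.MP_3bd355_an
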