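import Pool.Agent.P.MP_3bd355_an.Z.Stmts

/-! The case `A = 0`: package LIP1. -/

open Set Filter Metric Complex InnerProductSpace MeasureTheory
open scoped Topology ComplexConjugate Real

namespace Pool.Agent.P.MP_3bd355_an

namespace Lip1P

variable {d : Dat}

/-- The primitive is Lipschitz at a point of the closed set. -/
theorem phi_lip (h : GF d) {q : ℂ} (hq : q ∈ PC d.Λ d.fin) (hq0 : q ≠ d.u₀) {ε : ℝ} (hε : 0 < ε) :
    ∀ᶠ a in 𝓝 q, a ∈ PC d.Λ d.fin → ‖d.Φ a - d.Φ q‖ ≤ (√‖d.T q‖ + ε) * ‖a - q‖ := by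
  have hc : ContinuousAt (fun u => √‖d.T u‖) q :=
    Real.continuous_sqrt.continuousAt.comp (h.md.ana q hq hq0).continuousAt.norm
  have h2 : ∀ᶠ u in 𝓝 q, u ≠ q → u ≠ d.cc + π * I := by
    by_cases e : q = d.cc + π * I
    · exact Eventually.of_forall fun u hu => e ▸ hu
    · exact (eventually_ne_nhds e).mono fun u hu _ => hu
  have h1 := (eventually_ne_nhds hq0).and
    (h2.and (hc.eventually (gt_mem_nhds (lt_add_of_pos_right _ hε))))
  obtain ⟨δ, hδ, hB⟩ := Metric.eventually_nhds_iff_ball.1 h1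
  filter_upwards [ball_mem_nhds q hδ] with a ha haP
  rcases eq_or_ne a q with rfl | hne
  · simp
  set γ : ℝ → ℂ := fun t => a + t * (q - a) with hγ
  have hγc : Continuous γ := by fun_prop
  have hγB : ∀ t ∈ Icc (0 : ℝ) 1, γ t ∈ ball q δ := fun t ht => by
    simpa [hγ, real_smul] using (convex_ball q δ).add_smul_sub_mem ha (mem_ball_self hδ) ht
  have hγP : ∀ t ∈ Icc (0 : ℝ) 1, γ t ∈ PC d.Λ d.fin := fun t ht => by
    simpa [hγ, real_smul] using (convex_PC d.Λ d.fin).add_smul_sub_mem haP hq ht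
  have hγn : ∀ t ∈ Ico (0 : ℝ) 1, γ t ≠ q := fun t ht e => by
    have e2 : ((1 - t : ℝ) : ℂ) * (a - q) = 0 := by
      rw [← sub_eq_zero.2 e]; simp only [hγ]; push_cast; ring
    rcases mul_eq_zero.1 e2 with e3 | e3
    · exact absurd (ofReal_eq_zero.1 e3) (by linarith [ht.2])
    · exact hne (sub_eq_zero.1 e3)
  have key := norm_image_sub_le_of_norm_deriv_right_le_segment
    (f := fun t => d.Φ (γ t)) (f' := fun t => rt (d.T (γ t)) * (q - a))
    (C := (√‖d.T q‖ + ε) * ‖a - q‖) (a := 0) (b := 1)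
    (h.ph.cont.comp hγc.continuousOn hγP) (fun t ht => by
      have htI := Ico_subset_Icc_self ht
      obtain ⟨a1, a2, -⟩ := hB _ (hγB t htI)
      obtain ⟨Φ', b1, b2⟩ := h.ph.ext _ (hγP t htI) a1 fun _ => a2 (hγn t ht)
      have b3 : HasDerivAt (fun s : ℝ => Φ' (γ s)) (rt (d.T (γ t)) * (q - a)) t := by
        have := (b1.self_of_nhds.comp (t : ℂ)
          (((hasDerivAt_id (t : ℂ)).mul_const (q - a)).const_add a)).comp_ofReal
        simpa [hγ] using this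
      have b4 : Tendsto γ (𝓝[Ici t] t) (𝓝[PC d.Λ d.fin] (γ t)) := by
        refine tendsto_nhdsWithin_iff.2 ⟨hγc.continuousAt.tendsto.mono_left nhdsWithin_le_nhds, ?_⟩
        filter_upwards [Icc_mem_nhdsGE ht.2] with s hs
        exact hγP s ⟨ht.1.trans hs.1, hs.2⟩
      exact b3.hasDerivWithinAt.congr_of_eventuallyEq (b4.eventually b2)
        (b2.self_of_nhdsWithin (hγP t htI)))
    (fun t ht => by
      rw [norm_mul, norm_rt, norm_sub_rev]
      exact mul_le_mul_of_nonneg_right (hB _ (hγB t (Ico_subset_Icc_self ht))).2.2.le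
        (norm_nonneg _)) 1 ⟨zero_le_one, le_rfl⟩
  rw [norm_sub_rev]
  simpa [hγ] using key

/-- The fold on the fundamental set. -/
theorem w_abs (h : GF d) {u : ℂ} (hu : u ∈ Str d.Λ) (hi : d.fin → |u.im| ≤ π) :
    (d.w (d.Ψ u)).re = u.re ∧ (d.w (d.Ψ u)).im = |u.im| := by
  rcases le_total 0 u.im with h0 | h0
  · rw [(h.uh.inv u ⟨hu.1.le, hu.2.le, h0, fun hf => (le_abs_self _).trans (hi hf)⟩ hu).1,
      abs_of_nonneg h0]
    exact ⟨rfl, rfl⟩
  · have := (h.uh.inv (conj u) ⟨hu.1.le, hu.2.le, by simpa using h0, fun hf => by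
      rw [conj_im]; exact (neg_le_abs _).trans (hi hf)⟩ hu).2
    rw [conj_conj] at this
    rw [this, abs_of_nonpos h0]
    exact ⟨rfl, rfl⟩

/-- The fold does not increase distances. -/
theorem w_lip (h : GF d) {u' : ℂ} (hu' : u' ∈ FS d.Λ d.fin) :
    ∀ᶠ u in 𝓝 u', ‖d.w (d.Ψ u) - d.w (d.Ψ u')‖ ≤ ‖u - u'‖ := by
  have hs := FS_sub_Str _ _ hu'
  obtain ⟨r1, r2⟩ := w_abs h hs fun hf => abs_le.2 ⟨(hu'.2.2 hf).1.le, (hu'.2.2 hf).2⟩
  have h1 : ∀ᶠ u in 𝓝 u', d.fin → -π < u.im ∧ u.im < 2 * π := by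
    by_cases hf : d.fin
    · have := hu'.2.2 hf
      filter_upwards [continuous_im.continuousAt.eventually
        (Ioo_mem_nhds this.1 (by linarith [this.2, Real.pi_pos] : u'.im < 2 * π))] with u hu _
      exact hu
    · exact Eventually.of_forall fun _ h => absurd h hf
  filter_upwards [(isOpen_Str d.Λ).mem_nhds hs, h1] with u hu hi
  suffices hh : (d.w (d.Ψ u)).re = u.re ∧ |(d.w (d.Ψ u)).im - (|u'.im|)| ≤ |u.im - u'.im| by
    rw [← sq_le_sq₀ (norm_nonneg _) (norm_nonneg _), Complex.sq_norm, Complex.sq_norm, normSq_apply,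
      normSq_apply, sub_re, sub_re, hh.1, r1, sub_im, sub_im, r2]
    exact add_le_add le_rfl (abs_le_iff_mul_self_le.1 hh.2)
  by_cases hc : d.fin ∧ π < u.im
  · have hv : u - 2 * π * I ∈ Str d.Λ := by simpa [Str] using hu
    have e := h.un.per hc.1 _ hv
    rw [sub_add_cancel] at e
    have e1 : (u - 2 * π * I).im = u.im - 2 * π := by simp
    have e2 : (u - 2 * π * I).re = u.re := by simp
    obtain ⟨k1, k2⟩ := hi hc.1
    obtain ⟨k3, k4⟩ := hu'.2.2 hc.1
    obtain ⟨s1, s2⟩ := w_abs h hv fun _ => by rw [e1, abs_le]; constructor <;> linarith [hc.2]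
    rw [e, s1, s2, e1, e2, abs_of_nonpos (by linarith : u.im - 2 * π ≤ 0),
      abs_of_nonneg (by linarith [hc.2] : 0 ≤ u.im - u'.im), abs_le]
    refine ⟨rfl, ?_, ?_⟩ <;> rcases abs_cases u'.im with k | k <;>
      linarith [k.1, k.2, hc.2, Real.pi_pos]
  · obtain ⟨s1, s2⟩ := w_abs h hu fun hf =>
      abs_le.2 ⟨(hi hf).1.le, not_lt.1 fun k => hc ⟨hf, k⟩⟩
    rw [s1, s2]
    exact ⟨rfl, abs_abs_sub_abs_le_abs_sub _ _⟩

end Lip1P

open Lip1P in
theorem z_lip1 : Z_LIP1 := by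
  intro d h p hp hp0 ε hε
  obtain ⟨u', hu', rfl, hw⟩ := h.rep hp
  have hs := FS_sub_Str _ _ hu'
  have hq := (h.uh.mem _ hp).1
  have hq0 : d.w (d.Ψ u') ≠ d.u₀ := fun e => by
    rcases h.uh.rep _ hp with k | k
    · rw [e, h.un.base] at k; exact hp0 k.symm
    · rw [e, conj_ofReal, h.un.base] at k; exact hp0 k.symm
  set D := ‖deriv d.Ψ u'‖ with hD
  set S := √‖d.Q (d.Ψ u')‖ with hS
  have hD0 : 0 < D := norm_pos_iff.2 (h.un.dne _ hs)
  have hS0 : 0 ≤ S := Real.sqrt_nonneg _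
  have hT : √‖d.T (d.w (d.Ψ u'))‖ = S * D := by
    have : ‖d.T (d.w (d.Ψ u'))‖ = ‖d.T u'‖ := by
      rcases hw with k | k
      · rw [k]
      · rw [k, h.md.symm, norm_conj]
    rw [this, ← h.un.pull _ hs hp0, norm_mul, norm_pow, Real.sqrt_mul (norm_nonneg _),
      Real.sqrt_sq (norm_nonneg _)]
  have hΨ := h.un.ana hs
  have hc : ContinuousAt (fun u => d.w (d.Ψ u)) u' :=
    (h.uh.cont.continuousAt (h.ka.isOpen.mem_nhds hp)).comp hΨ.continuousAt
  have h1 := hc.eventually (phi_lip h hq hq0 (ε := ε * D / 2) (by positivity))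
  have h2 := hΨ.differentiableAt.hasDerivAt.isLittleO.def
    (c := ε * D / (2 * (S + ε))) (by positivity)
  rw [← h.un.map_nhds hs, eventually_map]
  filter_upwards [(isOpen_Str d.Λ).mem_nhds hs, h1, h2, w_lip h hu'] with u hu k1 k2 k3
  have hX := h.un.maps u hu
  have k4 := k1 (h.uh.mem _ hX).1
  rw [h.x_eq hX, h.x_eq hp, ← sub_re]
  refine (abs_re_le_norm _).trans (k4.trans ?_)
  rw [hT]
  have k5 : D * ‖u - u'‖ ≤ ‖d.Ψ u - d.Ψ u'‖ + ε * D / (2 * (S + ε)) * ‖u - u'‖ := by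
    have e : (u - u') • deriv d.Ψ u' =
        (d.Ψ u - d.Ψ u') - (d.Ψ u - d.Ψ u' - (u - u') • deriv d.Ψ u') := by ring
    have := norm_sub_le (d.Ψ u - d.Ψ u') (d.Ψ u - d.Ψ u' - (u - u') • deriv d.Ψ u')
    rw [← e, norm_smul, mul_comm] at this
    linarith
  have k6 : (S + ε) * (ε * D / (2 * (S + ε))) = ε * D / 2 := by field_simp
  have k7 := mul_le_mul_of_nonneg_left k5 (by positivity : 0 ≤ S + ε)
  rw [mul_add, ← mul_assoc (S + ε) (_ / _), k6] at k7
  have k8 := mul_le_mul_of_nonneg_left k3 (by positivity : 0 ≤ S * D + ε * D / 2)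
  nlinarith

end Pool.Agent.P.MP_3bd355_an
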