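import Pool.Agent.P.MP_3bd355_an.Z.Stmts

/-! The case `A = 0`: package LIP2. -/

open Set Filter Metric Complex InnerProductSpace MeasureTheory
open scoped Topology ComplexConjugate Real

namespace Pool.Agent.P.MP_3bd355_an

theorem z_lip2 (hDINI : Z_DINI) : Z_LIP2 := by
  intro r x₀ z₁ κ Q b₁ x hK hF hL p hp hp0 hp1
  by_cases hpK : p ∈ KK κ
  swap
  · exact hL p ⟨hp, hpK⟩ hp0
  intro ε hε
  have hc : ContinuousAt (fun q => √‖Q q‖) p :=
    Real.continuous_sqrt.continuousAt.comp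
      (hK.qc p ⟨hp.1.le, hp.2.le⟩ hp0 hp1).norm
  have h1 : ∀ᶠ q in 𝓝 p, q ∈ ann r ∧ q ≠ x₀ ∧ √‖Q q‖ < √‖Q p‖ + ε :=
    ((isOpen_ann r).eventually_mem hp).and ((eventually_ne_nhds hp0).and
      (hc.eventually (gt_mem_nhds (lt_add_of_pos_right _ hε))))
  obtain ⟨δ, hδ, hB⟩ := Metric.eventually_nhds_iff_ball.1 h1
  filter_upwards [ball_mem_nhds p hδ] with z hz
  set γ : ℝ → ℂ := fun t => z + t * (p - z) with hγ
  have hγc : Continuous γ := by fun_prop
  have hγB : ∀ t ∈ Icc (0 : ℝ) 1, γ t ∈ ball p δ := fun t ht => by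
    have e : γ t - p = ((1 - t : ℝ) : ℂ) * (z - p) := by simp only [hγ]; push_cast; ring
    rw [mem_ball_iff_norm] at hz ⊢
    rw [e, norm_mul, Complex.norm_real, Real.norm_eq_abs, abs_of_nonneg (by linarith [ht.2])]
    nlinarith [norm_nonneg (z - p), ht.1]
  set S : Set ℝ := Icc 0 1 ∩ γ ⁻¹' KK κ with hS
  have hSc : IsClosed S := isClosed_Icc.inter (hK.isClosed.preimage hγc)
  have hS1 : (1 : ℝ) ∈ S := ⟨⟨zero_le_one, le_rfl⟩, by simpa [hγ] using hpK⟩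
  have hSb : BddBelow S := ⟨0, fun t ht => ht.1.1⟩
  have hb : sInf S ∈ S := hSc.csInf_mem ⟨1, hS1⟩ hSb
  have hc0 : 0 ≤ (√‖Q p‖ + ε) * ‖z - p‖ := by positivity
  have key := hDINI (fun t => x (γ t)) (fun _ => (√‖Q p‖ + ε) * ‖z - p‖) 0 (sInf S) hb.1.1
    (hF.cont.comp hγc.continuousOn fun t ht => (hB _ (hγB t ⟨ht.1, ht.2.trans hb.1.2⟩)).1)
    continuousOn_const (fun _ _ => hc0) (fun t ht η hη => by
      have htI : t ∈ Icc (0 : ℝ) 1 := ⟨ht.1.le, ht.2.le.trans hb.1.2⟩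
      obtain ⟨a1, a2, a3⟩ := hB _ (hγB t htI)
      have a4 : γ t ∉ KK κ := fun h => absurd (csInf_le hSb ⟨htI, h⟩) (not_le.2 ht.2)
      have a5 : 0 < ‖z - p‖ + 1 := by positivity
      have a6 := hγc.continuousAt.eventually (hL _ ⟨a1, a4⟩ a2 (η / (‖z - p‖ + 1)) (by positivity))
      filter_upwards [a6] with s hs
      have e : ‖γ s - γ t‖ = ‖z - p‖ * |s - t| := by
        have : γ s - γ t = (p - z) * ((s - t : ℝ) : ℂ) := by simp only [hγ]; push_cast; ring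
        rw [this, norm_mul, Complex.norm_real, Real.norm_eq_abs, norm_sub_rev]
      rw [e, ← mul_assoc] at hs
      refine hs.trans (mul_le_mul_of_nonneg_right ?_ (abs_nonneg _))
      have a7 : η / (‖z - p‖ + 1) * ‖z - p‖ ≤ η := by
        rw [div_mul_eq_mul_div, div_le_iff₀ a5]; nlinarith
      nlinarith [norm_nonneg (z - p)])
  have h0 : x (γ (sInf S)) = 0 := hF.zero _ hb.2
  have h2 : γ 0 = z := by simp [hγ]
  rw [h0, h2, setLIntegral_const, Real.volume_Ioo, ← ENNReal.ofReal_mul hc0,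
    ENNReal.ofReal_le_ofReal_iff (mul_nonneg hc0 (by linarith [hb.1.1])), zero_sub, abs_neg] at key
  rw [hF.zero p hpK, sub_zero]
  nlinarith [hb.1.2]

end Pool.Agent.P.MP_3bd355_an
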