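import Pool.Agent.P.MP_3bd355_an.Z.Stmts
import Pool.Agent.P.MP_3bd355_an.Fin

/-! The solution of the extremal problem for `A = 0` from the uniqueness theorem. -/

open Set Filter Metric Complex InnerProductSpace MeasureTheory
open scoped Topology ComplexConjugate Real

namespace Pool.Agent.P.MP_3bd355_an

namespace ZMain

theorem low {r B : ℝ} {z₀ z₁ a b : ℂ} {c : ℝ} {κ : ℝ → ℂ} {v g : ℂ → ℝ} {L : Set ℂ}
    (hch : CH r 0 B z₀ z₁) (hc : Cfg r 0 B z₁ L v) (hC : Crit r 0 B z₀ z₁ a b c κ v g) :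
    ∀ t ∈ Icc (0 : ℝ) 1, (κ t).im ≤ 0 := by
  obtain ⟨-, -, -, ⟨S, hSf, hS0⟩, -⟩ := all_CRIT1 r 0 B z₀ z₁ a b c κ v g hch hC
  refine ConfP.im_le hC.cont hC.inj hSf fun t ht htS => ?_
  by_contra hpos
  rw [not_le] at hpos
  have hm' := hC.mem t ⟨ht.1.le, ht.2⟩
  rcases hm'.1.eq_or_lt with hr | hr
  · have e1 := hS0 t (Ioo_subset_Icc_self ht) hr.symm htS
    have e2 := Sol.inner hc.cont hc.sol (hc.cont.upper_Ex hr.symm hpos)
    have hne : (𝓝[ann r] (κ t)).NeBot := mem_closure_iff_nhdsWithin_neBot.1 (by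
      rw [closure_ann hch.r0 hch.r1]
      exact ⟨hm'.1, hm'.2.le⟩)
    exact hch.B0.ne' (tendsto_nhds_unique e2 e1)
  · exact (Sol.pos_of_zero hc.cont hc.sol hch.B0 _ (hc.cont.upper_sub ⟨⟨hr, hm'.2⟩, hpos⟩)).ne'
      (hC.v_zero _ ⟨hr, hm'.2⟩ ⟨t, Ioo_subset_Icc_self ht, rfl⟩)

theorem hf_pos {r B : ℝ} {z : ℂ} (h0 : 0 < r) (hz : z ∈ ann r) (hB : 0 < B) : 0 < hf r 0 B z := by
  have h2 : Real.log ‖z‖ < 0 := Real.log_neg (h0.trans hz.1) hz.2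
  have h3 : Real.log r < 0 := Real.log_neg h0 (hz.1.trans hz.2)
  rw [hf, zero_add, sub_zero]
  exact div_pos_of_neg_of_neg (mul_neg_of_pos_of_neg hB h2) h3

end ZMain

open MainP ZMain in
theorem z_main (hU : Z_UNIQ) : Z_MAIN := by
  intro r B x₀ z₁ h0 hx0 hx1 m1 hB0 i1 hne
  have hr1 : r < 1 := hx0.trans hx1
  have x0 : 0 < x₀ := h0.trans hx0
  have m0 : (x₀ : ℂ) ∈ ann r := by
    constructor <;> rwa [norm_real, Real.norm_of_nonneg x0.le]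
  have hy : Hyp r 0 B x₀ z₁ := ⟨h0, hr1, m0, m1, le_rfl, hf_pos h0 m1 hB0, by simp, i1⟩
  have hch := hy.ch
  obtain ⟨m, hm, hAm, hb, happ⟩ := all_MREAL r 0 B _ _ hch
  have up : ∀ L v, Cfg r 0 B z₁ L v → v x₀ ≤ m := fun L v hc =>
    hb L v (SC.gc hc (hc.sc_zero rfl))
  have mem : ∀ L v, Cfg r 0 B z₁ L v → m ≤ v x₀ → (x₀ : ℂ) ∈ main r L := by
    intro L v hc hv
    refine hc.sol.mem_main ?_
    rw [le_antisymm (up L v hc) hv]
    obtain ⟨L', v', hc', hv'⟩ := all_MPOS r B _ _ h0 m0 m1 hB0 hy.im0 i1 hne.symm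
    exact (hv'.trans_le (up L' v' hc')).ne'
  obtain ⟨L, v, hc, hv⟩ := all_E2 r 0 B _ _ m hy happ
  obtain ⟨a, b, c, κ, g, hcr, -⟩ := all_CORE r 0 B _ _ m L v ⟨hy, hc, hb, hv, mem L v hc hv⟩
  have zc : ZC r B x₀ z₁ a b c κ v g := ⟨hch, x0, hcr, low hch hc hcr⟩
  have hM : Msup r 0 B x₀ z₁ = v x₀ := by rw [hm, le_antisymm (up L v hc) hv]
  refine ⟨a, b, c, κ, v, g, zc, hM, fun u => ⟨fun ⟨hu, hum⟩ => ?_, ?_⟩⟩
  · obtain ⟨w, γ, hg, hγ, hw⟩ := all_BR r 0 B _ _ h0 hr1 le_rfl hB0.le hu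
    have hw0 : w x₀ = m := by
      have := hw _ m0
      rw [hum, hm, max_eq_left (EReal.coe_le_coe_iff.2 (by linarith))] at this
      exact_mod_cast this
    obtain ⟨L', v', hc', hfh, hn⟩ := all_E1 r 0 B _ _ w γ hy hg
    have hle := (all_FOLD1 r 0 B L' w v' hc'.cont hc'.ok hB0.le hc'.sol hg.sh hg.outer hg.inner hfh
      _ m0 hy.im0).1
    have hmm := mem L' v' hc' (hw0 ▸ hle)
    obtain ⟨a', b', c', κ', g', hcr', hcl, hph⟩ :=
      all_CORE r 0 B _ _ m L' v' ⟨hy, hc', hb, hw0 ▸ hle, hmm⟩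
    obtain ⟨-, -, -, eK, ev⟩ := hU _ _ _ _ _ _ _ _ _ _ _ _ _ _ _ _ zc
      ⟨hch, x0, hcr', low hch hc' hcr'⟩
    have hq := base_mem h0 hr1
    have uw : ∀ z ∈ ann r, ∀ y ∈ ann r, w z = v' y → u z = v y := fun z hz y hy' e => by
      have e1 := hw _ hz
      rw [e, ev hy'] at e1
      have e2 : 0 ≤ v y := ((all_CRIT1 r 0 B _ _ a b c κ v g hch hcr).2.1 _ hy').1
      rcases max_choice (u z) ((0 - 1 : ℝ) : EReal) with e3 | e3
      · rw [← e3, ← e1]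
      · rw [e3] at e1
        have : v y = 0 - 1 := by exact_mod_cast e1
        linarith
    refine ⟨fun t ht => ?_, ?_⟩
    · obtain ⟨s, hs, e⟩ : κ t ∈ KK κ' := eK ▸ ⟨t, ht, rfl⟩
      exact e ▸ hph (hn hγ) s hs
    · rcases all_FOLD3 r 0 B L' w v' _ hc'.cont hc'.ok hB0.le hc'.sol hg.sh hg.outer hg.inner hfh
        (hn hγ) m0 (by simp) (main_sub r L' hmm).2 (hw0 ▸ up L' v' hc') with e | e
      · exact Or.inl fun z hz => uw z hz z hz ((all_FOLD2 r 0 B L' w v' _ hc'.cont hc'.ok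
          hB0.le hc'.sol hg.sh hg.outer hg.inner hfh hq.1 hq.2 (e _ hq.1 hq.2).ge).2 (hn hγ) z hz
          (hcl hz))
      · have k := (all_FOLD2 r 0 B L' (fun z => w (conj z)) v' _ hc'.cont hc'.ok hB0.le hc'.sol
          (hg.sh.comp_conj fun _ hz => conj_mem_ann.2 hz)
          (fun p hp => ls_conj (hg.outer _ (by rw [norm_conj, hp])))
          (fun p hp => ls_conj (hg.inner _ (by rw [norm_conj, hp]))) (fh_conj hfh) hq.1 hq.2
          (e _ hq.1 hq.2).ge).2 (hn hγ)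
        have k' : ∀ z ∈ ann r, w z = v' (conj z) := fun z hz => by
          have := k _ (conj_mem_ann.2 hz) (hcl (conj_mem_ann.2 hz))
          rwa [conj_conj] at this
        refine Or.inr ⟨?_, fun z hz => uw z hz _ (conj_mem_ann.2 hz) (k' z hz)⟩
        by_contra hi
        have h1 := hg.le 0 ⟨le_rfl, one_pos⟩ (hγ 0 ⟨le_rfl, one_pos⟩)
        rw [hg.start, k' _ m1] at h1
        refine absurd (Sol.pos_of_zero hc'.cont hc'.sol hB0 _ (hc'.cont.upper_sub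
          ⟨conj_mem_ann.2 m1, ?_⟩)) (not_lt.2 h1)
        show 0 < (conj z₁).im
        rw [conj_im]
        exact neg_pos.2 (lt_of_le_of_ne i1 hi)
  · rintro ⟨hn, e | ⟨i2, e⟩⟩
    · exact ⟨((all_CRIT1 r 0 B _ _ a b c κ v g hch hcr).2.2.2.2.2 hn).congr e,
        (e _ m0).trans hM.symm⟩
    · have k2 := all_ROTc r 0 B _ _ a b c κ v g hcr
      rw [conj_ofReal, conj_eq_iff_im.2 i2] at k2
      refine ⟨((all_CRIT1 r 0 B _ _ _ _ c _ _ _ hch k2).2.2.2.2.2 fun t ht => ?_).congr e, ?_⟩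
      · rw [norm_conj]; exact hn t ht
      · rw [e _ m0, conj_ofReal, hM]

end Pool.Agent.P.MP_3bd355_an
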