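import Pool.Agent.P.MP_3bd355_an.Z.Stmts

/-! The case `A = 0`: package MN. -/

open Set Filter Metric Complex InnerProductSpace MeasureTheory
open scoped Topology ComplexConjugate Real

namespace Pool.Agent.P.MP_3bd355_an

namespace MnP

theorem lt_of {S : Set ℝ} (hS : S.Finite) (f : ℝ → ℝ) : ∀ a b : ℝ, a < b →
    ContinuousOn f (Icc a b) → (∀ t ∈ Ioo a b, t ∉ S → ∃ d, 0 < d ∧ HasDerivAt f d t) →
    f a < f b := by
  induction S, hS using Set.Finite.induction_on with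
  | empty =>
    intro a b hab hc hd
    obtain ⟨t, ht, e⟩ := exists_deriv_eq_slope f hab hc fun t ht => by
      obtain ⟨d, -, h⟩ := hd t ht (notMem_empty t)
      exact h.differentiableAt.differentiableWithinAt
    obtain ⟨d, h0, h⟩ := hd t ht (notMem_empty t)
    rw [h.deriv] at e
    rw [e, div_pos_iff_of_pos_right (sub_pos.2 hab)] at h0
    exact sub_pos.1 h0
  | @insert s S _ _ ih =>
    intro a b hab hc hd
    by_cases hs : s ∈ Ioo a b
    · refine (ih a s hs.1 (hc.mono (Icc_subset_Icc_right hs.2.le)) fun t ht h => ?_).trans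
        (ih s b hs.2 (hc.mono (Icc_subset_Icc_left hs.1.le)) fun t ht h => ?_)
      · exact hd t ⟨ht.1, ht.2.trans hs.2⟩ fun e => e.elim ht.2.ne h
      · exact hd t ⟨hs.1.trans ht.1, ht.2⟩ fun e => e.elim ht.1.ne' h
    · exact ih a b hab hc fun t ht h => hd t ht fun e => e.elim (fun e => hs (e ▸ ht)) h

theorem le_of {S : Set ℝ} (hS : S.Finite) (f : ℝ → ℝ) (hc : ContinuousOn f (Icc 0 1))
    (hd : ∀ t ∈ Ioo (0 : ℝ) 1, t ∉ S → ∃ d, 0 ≤ d ∧ HasDerivAt f d t) : f 0 ≤ f 1 := by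
  refine le_of_forall_pos_le_add fun ε hε => ?_
  have := lt_of hS (fun t => f t + ε * t) 0 1 one_pos (hc.add (by fun_prop)) fun t ht h => by
    obtain ⟨d, h0, h⟩ := hd t ht h
    exact ⟨d + ε * 1, by linarith, h.add ((hasDerivAt_id t).const_mul ε)⟩
  simp only [mul_zero, add_zero, mul_one] at this
  exact this.le

variable {Λ u₀ c : ℝ} {fin : Prop} {T Φ : ℂ → ℂ}

/-- Interior points of a segment off the two exceptional points. -/
def Sg (Λ u₀ c : ℝ) (fin : Prop) (u u' p : ℂ) : Prop :=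
  p ∈ PC Λ fin ∧ p ≠ u₀ ∧ p ≠ c + π * I ∧ ∃ t : ℝ, 0 < t ∧ t < 1 ∧
    p.re = u.re + t * (u'.re - u.re) ∧ p.im = u.im + t * (u'.im - u.im)

theorem seg (h : PH Λ u₀ c fin T Φ) {u u' : ℂ} (hu : u ∈ PC Λ fin) (hu' : u' ∈ PC Λ fin)
    (hne : u ≠ u') (ω : ℂ) : ∃ (S : Set ℝ) (f : ℝ → ℝ), S.Finite ∧ f 0 = (ω * Φ u).re ∧
      f 1 = (ω * Φ u').re ∧ ContinuousOn f (Icc 0 1) ∧ ∀ t ∈ Ioo (0 : ℝ) 1, t ∉ S →
        ∃ p, Sg Λ u₀ c fin u u' p ∧ HasDerivAt f (ω * (rt (T p) * (u' - u))).re t := by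
  have hd : u' - u ≠ 0 := sub_ne_zero.2 hne.symm
  have hm : ∀ t ∈ Icc (0 : ℝ) 1, u + t * (u' - u) ∈ PC Λ fin := fun t ht => by
    simpa [real_smul] using (convex_PC Λ fin).add_smul_sub_mem hu hu' ht
  have hi : Function.Injective fun t : ℝ => u + t * (u' - u) := fun s t e => by
    simpa [hd] using e
  have hg : Continuous fun t : ℝ => u + t * (u' - u) := by fun_prop
  refine ⟨(fun t : ℝ => u + t * (u' - u)) ⁻¹' {(u₀ : ℂ), c + π * I},
    fun t => (ω * Φ (u + t * (u' - u))).re, (toFinite _).preimage hi.injOn, by simp, by simp,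
    continuous_re.comp_continuousOn (continuousOn_const.mul (h.cont.comp hg.continuousOn hm)),
    fun t ht hS => ?_⟩
  simp only [mem_preimage, mem_insert_iff, mem_singleton_iff, not_or] at hS
  have hp := hm t (Ioo_subset_Icc_self ht)
  refine ⟨_, ⟨hp, hS.1, hS.2, t, ht.1, ht.2, by simp, by simp⟩, ?_⟩
  obtain ⟨Φ', h1, h2⟩ := h.ext _ hp hS.1 fun _ => hS.2
  have h3 : HasDerivAt (fun s : ℂ => ω * Φ' (u + s * (u' - u)))
      (ω * (rt (T (u + t * (u' - u))) * (u' - u))) t := by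
    have := (h1.self_of_nhds.comp (t : ℂ)
      (((hasDerivAt_id (t : ℂ)).mul_const (u' - u)).const_add u)).const_mul ω
    refine this.congr_deriv ?_
    rw [one_mul]
  refine h3.real_of_complex.congr_of_eventuallyEq ?_
  have h4 : Tendsto (fun s : ℝ => u + s * (u' - u)) (𝓝 t) (𝓝[PC Λ fin] (u + t * (u' - u))) :=
    tendsto_nhdsWithin_iff.2 ⟨hg.continuousAt,
      mem_of_superset (Icc_mem_nhds ht.1 ht.2) fun s hs => hm s hs⟩
  filter_upwards [h4.eventually h2] with s hs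
  rw [hs]

theorem seg_le (h : PH Λ u₀ c fin T Φ) {u u' : ℂ} (hu : u ∈ PC Λ fin) (hu' : u' ∈ PC Λ fin)
    (ω : ℂ) (hp : ∀ p, Sg Λ u₀ c fin u u' p → 0 ≤ (ω * (rt (T p) * (u' - u))).re) :
    (ω * Φ u).re ≤ (ω * Φ u').re := by
  rcases eq_or_ne u u' with rfl | hne
  · exact le_rfl
  obtain ⟨S, f, hS, h0, h1, hc, hd⟩ := seg h hu hu' hne ω
  rw [← h0, ← h1]
  exact le_of hS f hc fun t ht hs => by
    obtain ⟨p, k1, k2⟩ := hd t ht hs
    exact ⟨_, hp p k1, k2⟩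

theorem seg_lt (h : PH Λ u₀ c fin T Φ) {u u' : ℂ} (hu : u ∈ PC Λ fin) (hu' : u' ∈ PC Λ fin)
    (hne : u ≠ u') (ω : ℂ) (hp : ∀ p, Sg Λ u₀ c fin u u' p → 0 < (ω * (rt (T p) * (u' - u))).re) :
    (ω * Φ u).re < (ω * Φ u').re := by
  obtain ⟨S, f, hS, h0, h1, hc, hd⟩ := seg h hu hu' hne ω
  rw [← h0, ← h1]
  exact lt_of hS f 0 1 one_pos hc fun t ht hs => by
    obtain ⟨p, k1, k2⟩ := hd t ht hs
    exact ⟨_, hp p k1, k2⟩

theorem seg_eq (h : PH Λ u₀ c fin T Φ) {u u' : ℂ} (hu : u ∈ PC Λ fin) (hu' : u' ∈ PC Λ fin)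
    (ω : ℂ) (hp : ∀ p, Sg Λ u₀ c fin u u' p → (ω * (rt (T p) * (u' - u))).re = 0) :
    (ω * Φ u').re = (ω * Φ u).re := by
  refine le_antisymm ?_ (seg_le h hu hu' ω fun p k => (hp p k).ge)
  have := seg_le h hu hu' (-ω) fun p k => by rw [neg_mul, neg_re, hp p k, neg_zero]
  rw [neg_mul, neg_mul, neg_re, neg_re] at this
  exact neg_le_neg_iff.1 this

theorem re_eq {p : ℂ} (h : p.im = 0) : p = p.re := by apply Complex.ext <;> simp [h]

theorem top_eq {p : ℂ} (h : p.im = π) : p = p.re + π * I := by apply Complex.ext <;> simp [h]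

theorem q_bl (m : MD Λ u₀ c fin T) {p : ℂ} (h : p.im = 0) (h0 : 0 ≤ p.re) (h1 : p.re < u₀) :
    (rt (T p)).im = 0 ∧ 0 < (rt (T p)).re := by
  have := m.bl p.re ⟨h0, h1⟩
  rw [← re_eq h] at this
  exact rt_pos this.1 this.2

theorem q_br (m : MD Λ u₀ c fin T) {p : ℂ} (h : p.im = 0) (h0 : u₀ < p.re) (h1 : p.re ≤ Λ) :
    (rt (T p)).re = 0 ∧ 0 < (rt (T p)).im := by
  have := m.br p.re ⟨h0, h1⟩
  rw [← re_eq h] at this
  exact rt_neg this.1 this.2

theorem q_tl (m : MD Λ u₀ c fin T) (hf : fin) {p : ℂ} (h : p.im = π) (h0 : 0 ≤ p.re)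
    (h1 : p.re < c) : (rt (T p)).im = 0 ∧ 0 < (rt (T p)).re := by
  have := m.tl hf p.re ⟨h0, h1⟩
  rw [← top_eq h] at this
  exact rt_pos this.1 this.2

theorem q_tr (m : MD Λ u₀ c fin T) (hf : fin) {p : ℂ} (h : p.im = π) (h0 : c < p.re)
    (h1 : p.re ≤ Λ) : (rt (T p)).re = 0 ∧ 0 < (rt (T p)).im := by
  have := m.tr hf p.re ⟨h0, h1⟩
  rw [← top_eq h] at this
  exact rt_neg this.1 this.2

theorem ne_re {p : ℂ} (h : p.im = 0) (h1 : p ≠ u₀) : p.re ≠ u₀ := fun e =>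
  h1 (by rw [re_eq h, e])

theorem ne_top {p : ℂ} (h : p.im = π) (h1 : p ≠ c + π * I) : p.re ≠ c := fun e =>
  h1 (by rw [top_eq h, e])

theorem quad (m : MD Λ u₀ c fin T) {p : ℂ} (hp : p ∈ PC Λ fin) (h1 : p ≠ u₀)
    (h2 : p ≠ c + π * I) : 0 ≤ (rt (T p)).re ∧ 0 ≤ (rt (T p)).im ∧
      0 < (rt (T p)).re + (rt (T p)).im := by
  have A : ∀ {w : ℂ}, w.im = 0 ∧ 0 < w.re → 0 ≤ w.re ∧ 0 ≤ w.im ∧ 0 < w.re + w.im :=
    fun h => ⟨h.2.le, h.1.ge, by linarith [h.1, h.2]⟩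
  have B : ∀ {w : ℂ}, w.re = 0 ∧ 0 < w.im → 0 ≤ w.re ∧ 0 ≤ w.im ∧ 0 < w.re + w.im :=
    fun h => ⟨h.1.ge, h.2.le, by linarith [h.1, h.2]⟩
  obtain ⟨k1, k2, k3, k4⟩ := id hp
  rcases k1.eq_or_lt with e | k1'
  · exact A (rt_pos (m.lf p hp e.symm).1 (m.lf p hp e.symm).2)
  rcases k2.eq_or_lt with e | k2'
  · exact B (rt_neg (m.rg p hp e).1 (m.rg p hp e).2)
  rcases k3.eq_or_lt with e | k3'
  · rcases (ne_re e.symm h1).lt_or_gt with h | h
    · exact A (q_bl m e.symm k1 h)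
    · exact B (q_br m e.symm h k2)
  by_cases hf : fin ∧ p.im = π
  · rcases (ne_top hf.2 h2).lt_or_gt with h | h
    · exact A (q_tl m hf.1 hf.2 k1 h)
    · exact B (q_tr m hf.1 hf.2 h k2)
  · have := rt_quad (m.im p ⟨k1', k2', k3', fun f => (k4 f).lt_of_ne fun e => hf ⟨f, e⟩⟩)
    exact ⟨this.1.le, this.2.le, add_pos this.1 this.2⟩

theorem rr1 (z : ℂ) : (1 * z).re = z.re := by rw [one_mul]

theorem rr2 (z : ℂ) : (-I * z).re = z.im := by simp

theorem rr3 (z : ℂ) : (-1 * z).re = -z.re := by simp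

theorem h_re (r : ℂ) {u u' : ℂ} (h : u.im = u'.im) : (r * (u' - u)).re = r.re * (u'.re - u.re) := by
  simp [h]

theorem h_im (r : ℂ) {u u' : ℂ} (h : u.im = u'.im) : (r * (u' - u)).im = r.im * (u'.re - u.re) := by
  simp [h]

theorem v_re (r : ℂ) {u u' : ℂ} (h : u.re = u'.re) :
    -(r * (u' - u)).re = r.im * (u'.im - u.im) := by
  simp [h]

theorem v_im (r : ℂ) {u u' : ℂ} (h : u.re = u'.re) : (r * (u' - u)).im = r.re * (u'.im - u.im) := by
  simp [h]

end MnP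

open MnP in
theorem z_mn : Z_MN := by
  intro Λ u₀ c fin T Φ m h
  have Λ0 : 0 < Λ := m.u0.trans m.u1
  have pc : ∀ x : ℝ, 0 ≤ x → x ≤ Λ → (x : ℂ) ∈ PC Λ fin := fun x h0 h1 =>
    ⟨h0, h1, le_rfl, fun _ => Real.pi_pos.le⟩
  have pt : ∀ x : ℝ, 0 ≤ x → x ≤ Λ → (x + π * I : ℂ) ∈ PC Λ fin := fun x h0 h1 =>
    ⟨by simpa using h0, by simpa using h1, by simpa using Real.pi_pos.le, fun _ => by simp⟩
  have p0 : (0 : ℂ) ∈ PC Λ fin := by simpa using pc 0 le_rfl Λ0.le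
  refine ⟨fun u hu u' hu' e => ?_, fun u hu u' hu' e hle => ?_, fun u hu u' hu' e hlt h0 h1 => ?_,
    fun u hu u' hu' e hle => ?_, fun u hu u' hu' e hlt h0 h1 => ?_, fun x hx => ?_, fun x hx => ?_,
    fun u hu e => ?_, fun u hu e => ?_, fun hf x hx => ?_, fun hf x hx => ?_⟩
  · by_contra hne
    have hd : u' - u ≠ 0 := sub_ne_zero.2 (Ne.symm hne)
    have := seg_lt h hu hu' hne ((1 - I) / (u' - u)) fun p k => by
      rw [show (1 - I) / (u' - u) * (rt (T p) * (u' - u)) = (1 - I) * rt (T p) by field_simp]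
      simpa using (quad m k.1 k.2.1 k.2.2.1).2.2
    rw [e] at this
    exact lt_irrefl _ this
  · constructor
    · simpa only [rr1] using seg_le h hu hu' 1 fun p k => by
        rw [rr1, h_re _ e]
        exact mul_nonneg (quad m k.1 k.2.1 k.2.2.1).1 (sub_nonneg.2 hle)
    · simpa only [rr2] using seg_le h hu hu' (-I) fun p k => by
        rw [rr2, h_im _ e]
        exact mul_nonneg (quad m k.1 k.2.1 k.2.2.1).2.1 (sub_nonneg.2 hle)
  · have hne : u ≠ u' := fun k => hlt.ne (congrArg re k)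
    have hq : ∀ p, Sg Λ u₀ c fin u u' p → 0 < (rt (T p)).re ∧ 0 < (rt (T p)).im := by
      rintro p ⟨-, -, -, t, t0, t1, k1, k2⟩
      rw [← e, sub_self, mul_zero, add_zero] at k2
      refine rt_quad (m.im p ⟨?_, ?_, k2 ▸ h0, fun f => k2 ▸ h1 f⟩)
      · nlinarith [hu.1]
      · nlinarith [hu'.2.1]
    constructor
    · simpa only [rr1] using seg_lt h hu hu' hne 1 fun p k => by
        rw [rr1, h_re _ e]
        exact mul_pos (hq p k).1 (sub_pos.2 hlt)
    · simpa only [rr2] using seg_lt h hu hu' hne (-I) fun p k => by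
        rw [rr2, h_im _ e]
        exact mul_pos (hq p k).2 (sub_pos.2 hlt)
  · constructor
    · simpa only [rr3, neg_le_neg_iff] using seg_le h hu hu' (-1) fun p k => by
        rw [rr3, v_re _ e]
        exact mul_nonneg (quad m k.1 k.2.1 k.2.2.1).2.1 (sub_nonneg.2 hle)
    · simpa only [rr2] using seg_le h hu hu' (-I) fun p k => by
        rw [rr2, v_im _ e]
        exact mul_nonneg (quad m k.1 k.2.1 k.2.2.1).1 (sub_nonneg.2 hle)
  · have hne : u ≠ u' := fun k => hlt.ne (congrArg im k)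
    have hq : ∀ p, Sg Λ u₀ c fin u u' p → 0 < (rt (T p)).re ∧ 0 < (rt (T p)).im := by
      rintro p ⟨-, -, -, t, t0, t1, k1, k2⟩
      rw [← e, sub_self, mul_zero, add_zero] at k1
      refine rt_quad (m.im p ⟨k1 ▸ h0, k1 ▸ h1, ?_, fun f => ?_⟩)
      · nlinarith [hu.2.2.1]
      · nlinarith [hu'.2.2.2 f]
    constructor
    · simpa only [rr3, neg_lt_neg_iff] using seg_lt h hu hu' hne (-1) fun p k => by
        rw [rr3, v_re _ e]
        exact mul_pos (hq p k).2 (sub_pos.2 hlt)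
    · simpa only [rr2] using seg_lt h hu hu' hne (-I) fun p k => by
        rw [rr2, v_im _ e]
        exact mul_pos (hq p k).1 (sub_pos.2 hlt)
  · have := seg_eq h p0 (pc x hx.1 (hx.2.trans m.u1.le)) (-I) fun p k => by
      obtain ⟨k0, k1, -, t, t0, t1, k2, k3⟩ := k
      have k4 : p.im = 0 := by simpa using k3
      have k5 : p.re = t * x := by simpa using k2
      rw [rr2, h_im _ (by simp), (q_bl m k4 k0.1 (lt_of_le_of_ne ?_ (ne_re k4 k1))).1, zero_mul]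
      nlinarith [hx.1, hx.2]
    simpa only [rr2, h.zero, zero_im] using this
  · have := seg_eq h (pc u₀ m.u0.le m.u1.le) (pc x (m.u0.le.trans hx.1) hx.2) 1 fun p k => by
      obtain ⟨k0, k1, -, t, t0, t1, k2, k3⟩ := k
      have k4 : p.im = 0 := by simpa using k3
      have k5 : p.re = u₀ + t * (x - u₀) := by simpa using k2
      rw [rr1, h_re _ (by simp),
        (q_br m k4 (lt_of_le_of_ne ?_ (ne_re k4 k1).symm) k0.2.1).1, zero_mul]
      nlinarith [hx.1, hx.2]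
    simpa only [rr1] using this
  · have := seg_eq h p0 hu (-1) fun p k => by
      obtain ⟨k0, -, -, t, t0, t1, k2, -⟩ := k
      have k4 : p.re = 0 := by simpa [e] using k2
      rw [rr3, v_re _ (by simp [e]), (rt_pos (m.lf p k0 k4).1 (m.lf p k0 k4).2).1, zero_mul]
    simpa only [rr3, h.zero, zero_re, neg_zero, neg_eq_zero] using this
  · have := seg_eq h (pc Λ Λ0.le le_rfl) hu (-I) fun p k => by
      obtain ⟨k0, -, -, t, t0, t1, k2, -⟩ := k
      have k4 : p.re = Λ := by simpa [e] using k2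
      rw [rr2, v_im _ (by simp [e]), (rt_neg (m.rg p k0 k4).1 (m.rg p k0 k4).2).1, zero_mul]
    simpa only [rr2] using this
  · have := seg_eq h (pt 0 le_rfl Λ0.le) (pt x hx.1 (hx.2.trans (m.cm hf).2.1.le)) (-I)
      fun p k => by
        obtain ⟨k0, -, k1, t, t0, t1, k2, k3⟩ := k
        have k4 : p.im = π := by simpa using k3
        have k5 : p.re = t * x := by simpa using k2
        rw [rr2, h_im _ (by simp), (q_tl m hf k4 k0.1 (lt_of_le_of_ne ?_ (ne_top k4 k1))).1,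
          zero_mul]
        nlinarith [hx.1, hx.2]
    simpa only [rr2, ofReal_zero, zero_add] using this
  · have := seg_eq h (pt c (m.cm hf).1.le (m.cm hf).2.1.le) (pt x ((m.cm hf).1.le.trans hx.1) hx.2)
      1 fun p k => by
        obtain ⟨k0, -, k1, t, t0, t1, k2, k3⟩ := k
        have k4 : p.im = π := by simpa using k3
        have k5 : p.re = c + t * (x - c) := by simpa using k2
        rw [rr1, h_re _ (by simp),
          (q_tr m hf k4 (lt_of_le_of_ne ?_ (ne_top k4 k1).symm) k0.2.1).1, zero_mul]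
        nlinarith [hx.1, hx.2]
    simpa only [rr1] using this

end Pool.Agent.P.MP_3bd355_an
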