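import Pool.Agent.P.MP_3bd355_an.Z.Stmts

/-! The case `A = 0`: package MOB. -/

open Set Filter Metric Complex InnerProductSpace MeasureTheory
open scoped Topology ComplexConjugate Real

namespace Pool.Agent.P.MP_3bd355_an

namespace MobP

theorem im_E (u : ℂ) : (exp (I * u)).im = Real.exp (-u.im) * Real.sin u.re := by
  rw [exp_im]; simp

theorem norm_E (u : ℂ) : ‖exp (I * u)‖ = Real.exp (-u.im) := by
  rw [norm_exp]; simp

theorem E_nonneg {u : ℂ} (h0 : 0 ≤ u.re) (h1 : u.re ≤ π) : 0 ≤ (exp (I * u)).im := by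
  rw [im_E]
  exact mul_nonneg (Real.exp_pos _).le (Real.sin_nonneg_of_nonneg_of_le_pi h0 h1)

theorem E_pos {u : ℂ} (h : u ∈ Str π) : 0 < (exp (I * u)).im := by
  rw [im_E]
  exact mul_pos (Real.exp_pos _) (Real.sin_pos_of_pos_of_lt_pi h.1 h.2)

theorem E_inj {u u' : ℂ} (h : u ∈ Str π) (h' : u' ∈ Str π) (e : exp (I * u) = exp (I * u')) :
    u = u' := by
  obtain ⟨n, hn⟩ := exp_eq_exp_iff_exists_int.1 e
  have e1 : u = u' + n * (2 * π) := mul_left_cancel₀ I_ne_zero (by rw [hn]; ring)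
  have e2 := congrArg re e1
  simp at e2
  have hp := Real.pi_pos
  have a1 : (-1 : ℝ) < n := by nlinarith [h.1, h'.2]
  have a2 : (n : ℝ) < 1 := by nlinarith [h.2, h'.1]
  have a3 : -1 < n := by exact_mod_cast a1
  have a4 : n < 1 := by exact_mod_cast a2
  obtain rfl : n = 0 := by omega
  simpa using e1

theorem E_surj {w : ℂ} (h : 0 < w.im) : ∃ u ∈ Str π, exp (I * u) = w := by
  have h0 : w ≠ 0 := fun e => by simp [e] at h
  refine ⟨-I * log w, ⟨?_, ?_⟩, ?_⟩
  · simp only [neg_mul, neg_re, mul_re, I_re, zero_mul, I_im, one_mul, zero_sub, neg_neg, log_im]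
    exact (arg_nonneg_iff.2 h.le).lt_of_ne fun e => h.ne' (arg_eq_zero_iff.1 e.symm).2
  · simp only [neg_mul, neg_re, mul_re, I_re, zero_mul, I_im, one_mul, zero_sub, neg_neg, log_im]
    exact arg_lt_pi_iff.2 (Or.inr h.ne')
  · rw [← mul_assoc, mul_neg, I_mul_I, neg_neg, one_mul, exp_log h0]

theorem bdry {u₀ : ℝ} (h0 : 0 < u₀) (h1 : u₀ < π) (τ : ℝ) : ∃ θ ρ : ℝ, -π < θ ∧ θ < 0 ∧ 0 < ρ ∧
    (τ - exp (I * u₀)) / (τ - conj (exp (I * u₀))) = exp (I * (2 * θ : ℝ)) ∧
    ρ * Real.sin (θ - u₀) = -τ * Real.sin u₀ := by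
  have hs := Real.sin_pos_of_pos_of_lt_pi h0 h1
  set z : ℂ := τ - exp (I * u₀) with hz
  have hi : z.im = -Real.sin u₀ := by simp [hz, im_E]
  have hr : z.re = τ - Real.cos u₀ := by simp [hz, exp_re]
  have z0 : z ≠ 0 := fun e => by rw [e, zero_im] at hi; linarith
  have hn : 0 < ‖z‖ := norm_pos_iff.2 z0
  refine ⟨arg z, ‖z‖, neg_pi_lt_arg z, arg_neg_iff.2 (by linarith), hn, ?_, ?_⟩
  · have e1 : (τ : ℂ) - conj (exp (I * u₀)) = conj z := by simp [hz]
    have e2 := norm_mul_exp_arg_mul_I z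
    have e3 : conj z = ‖z‖ * exp (-(arg z * I)) := by
      conv_lhs => rw [← e2]
      rw [map_mul, ← exp_conj]
      simp
    rw [e1, e3]
    conv_lhs => arg 1; rw [← e2]
    rw [mul_div_mul_left _ _ (by exact_mod_cast hn.ne'), ← exp_sub]
    congr 1
    push_cast
    ring
  · rw [Real.sin_sub, sin_arg, cos_arg z0, hi, hr]
    field_simp
    ring

end MobP

open MobP in
theorem z_mob : Z_MOB := by
  intro s₀ s₁ h1 h2
  obtain ⟨u₀, hu0⟩ : ∃ u₀ : ℝ, u₀ = (s₀ + 2 * π - s₁) / 2 := ⟨_, rfl⟩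
  have u0 : 0 < u₀ := by linarith
  have u1 : u₀ < π := by linarith
  have hs := Real.sin_pos_of_pos_of_lt_pi u0 u1
  obtain ⟨a, ha⟩ : ∃ a : ℂ, a = exp (I * u₀) := ⟨_, rfl⟩
  obtain ⟨e, he⟩ : ∃ e : ℂ, e = exp (I * s₁) := ⟨_, rfl⟩
  have ai : a.im = Real.sin u₀ := by simp [ha, im_E]
  have an : ‖a‖ = 1 := by simp [ha, norm_E]
  have en : ‖e‖ = 1 := by simp [he, norm_E]
  have e0 : e ≠ 0 := he ▸ exp_ne_zero _
  have ab : a * conj a = 1 := by rw [mul_conj, normSq_eq_norm_sq, an]; simp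
  have hab : a - conj a = 2 * Real.sin u₀ * I := by rw [sub_conj, ai]; push_cast; ring
  have hab0 : a - conj a ≠ 0 := fun h => by
    have := congrArg im h
    simp at this
    linarith
  have nab : ‖a - conj a‖ ≤ 2 := (norm_sub_le _ _).trans (by rw [norm_conj, an]; norm_num)
  have den : ∀ w : ℂ, 0 ≤ w.im → Real.sin u₀ ≤ ‖w - conj a‖ := fun w hw =>
    le_trans (by simp; linarith) (im_le_norm (w - conj a))
  have den0 : ∀ w : ℂ, 0 ≤ w.im → w - conj a ≠ 0 := fun w hw =>
    norm_pos_iff.1 (hs.trans_le (den w hw))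
  have hd : ∀ u : ℂ, 0 ≤ u.re → u.re ≤ π →
      HasDerivAt (fun u => e * ((exp (I * u) - a) / (exp (I * u) - conj a)))
        (e * (I * exp (I * u) * (a - conj a) / (exp (I * u) - conj a) ^ 2)) u := fun u a1 a2 => by
    have hE : HasDerivAt (fun u => exp (I * u)) (exp (I * u) * I) u := by
      simpa using ((hasDerivAt_id u).const_mul I).cexp
    exact (((hE.sub_const a).div (hE.sub_const (conj a))
      (den0 _ (E_nonneg a1 a2))).const_mul e).congr_deriv (by ring)
  refine ⟨u₀, fun u => e * ((exp (I * u) - a) / (exp (I * u) - conj a)), u0, u1,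
    fun u hu => (hd u hu.1.le hu.2.le).differentiableAt.differentiableWithinAt, fun u hu => ?_,
    ⟨fun u hu => ?_, fun u hu u' hu' h => E_inj hu hu' ?_, fun w hw => ?_⟩, by simp [ha],
    fun u hu _ => ?_, fun p hp => ?_, fun p hp => ?_, fun η hη => ?_⟩
  · rw [(hd u hu.1.le hu.2.le).deriv]
    exact mul_ne_zero e0 (div_ne_zero (mul_ne_zero (mul_ne_zero I_ne_zero (exp_ne_zero _)) hab0)
      (pow_ne_zero _ (den0 _ (E_pos hu).le)))
  · have := E_pos hu
    rw [mem_ball_zero_iff, norm_mul, en, one_mul, norm_div,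
      div_lt_one (hs.trans_le (den _ this.le)), ← sq_lt_sq₀ (norm_nonneg _) (norm_nonneg _),
      ← normSq_eq_norm_sq, ← normSq_eq_norm_sq, normSq_apply, normSq_apply]
    simp only [sub_re, sub_im, conj_re, conj_im, ai]
    nlinarith [mul_pos this hs]
  · have h' := mul_left_cancel₀ e0 h
    rw [div_eq_div_iff (den0 _ (E_pos hu).le) (den0 _ (E_pos hu').le)] at h'
    exact mul_left_cancel₀ hab0 (by linear_combination h')
  · rw [mem_ball_zero_iff] at hw
    obtain ⟨v, rfl⟩ : ∃ v, w = e * v := ⟨w / e, by field_simp⟩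
    rw [norm_mul, en, one_mul] at hw
    have v1 : 1 - v ≠ 0 := fun h => by rw [← sub_eq_zero.1 h] at hw; simp at hw
    have v2 : v.re * v.re + v.im * v.im < 1 := by
      rw [← normSq_apply, normSq_eq_norm_sq]
      nlinarith [norm_nonneg v]
    obtain ⟨u, hu, hE⟩ := E_surj (w := (a - conj a * v) / (1 - v)) (by
      rw [div_im, ← sub_div]
      refine div_pos ?_ (normSq_pos.2 v1)
      simp only [sub_re, sub_im, mul_re, mul_im, conj_re, conj_im, ai, one_re, one_im]
      nlinarith [mul_pos hs (sub_pos.2 v2)])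
    refine ⟨u, hu, ?_⟩
    have := den0 _ (E_pos hu).le
    beta_reduce
    rw [hE] at this ⊢
    congr 1
    rw [div_eq_iff this]
    field_simp
    ring
  · have d0 := den0 _ (E_pos hu).le
    have c1 : cos u = (exp (I * u) + (exp (I * u))⁻¹) / 2 := by
      rw [← exp_neg, Complex.cos, mul_comm u, neg_mul, mul_comm u]
    have c2 : cos (u₀ : ℂ) = (a + conj a) / 2 := by
      rw [add_conj, ha, ← ofReal_cos]
      simp [exp_re]
    have E0 := exp_ne_zero (I * u)
    have c3 : cos u - cos u₀ =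
        (exp (I * u) - a) * (exp (I * u) - conj a) / (2 * exp (I * u)) := by
      rw [c1, c2]
      field_simp
      linear_combination (-1 : ℂ) * ab
    rw [(hd u hu.1.le hu.2.le).deriv, c3, hab]
    by_cases h : exp (I * u) - a = 0
    · simp [h]
    · field_simp
      rw [I_sq]
      ring
  · obtain ⟨θ, ρ, b1, b2, b3, b4, b5⟩ := MobP.bdry u0 u1 (Real.exp (-p.im))
    have hE : exp (I * p) = Real.exp (-p.im) := by
      rw [ofReal_exp]
      congr 1
      apply Complex.ext <;> simp [hp]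
    refine ⟨s₁ + 2 * θ, ⟨?_, by linarith⟩, ?_⟩
    · by_contra hc
      have := Real.sin_nonneg_of_nonneg_of_le_pi (x := θ - u₀ + 2 * π) (by linarith) (by linarith)
      rw [Real.sin_add_two_pi] at this
      nlinarith [mul_pos (Real.exp_pos (-p.im)) hs, mul_nonneg b3.le this]
    · have := (hd p hp.ge (by rw [hp]; exact Real.pi_pos.le)).continuousAt.tendsto
      rw [hE, ha, b4, he, ← exp_add, ← mul_add, ← ofReal_add, ← he, ← ha] at this
      exact this.mono_left nhdsWithin_le_nhds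
  · obtain ⟨θ, ρ, b1, b2, b3, b4, b5⟩ := MobP.bdry u0 u1 (-Real.exp (-p.im))
    have hE : exp (I * p) = (-Real.exp (-p.im) : ℝ) := by
      rw [show I * p = (-p.im : ℝ) + π * I by apply Complex.ext <;> simp [hp], exp_add,
        exp_pi_mul_I]
      simp
    refine ⟨s₁ + 2 * θ + 2 * π, ⟨by linarith, ?_⟩, ?_⟩
    · by_contra hc
      have := Real.sin_nonpos_of_nonpos_of_neg_pi_le (x := θ - u₀) (by linarith) (by linarith)
      nlinarith [mul_pos (Real.exp_pos (-p.im)) hs, mul_nonneg b3.le (neg_nonneg.2 this)]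
    · have := (hd p (by rw [hp]; exact Real.pi_pos.le) hp.le).continuousAt.tendsto
      rw [hE, ha, b4, he, ← exp_add, ← mul_add, ← ofReal_add, ← he, ← ha] at this
      rw [show I * ((s₁ + 2 * θ + 2 * π : ℝ) : ℂ) = I * (s₁ + 2 * θ : ℝ) + 2 * π * I by
        push_cast; ring, exp_periodic]
      exact this.mono_left nhdsWithin_le_nhds
  · refine ⟨2 / η + 1 + 2 / (η * Real.sin u₀), fun u hu a1 a2 => ?_⟩
    have d0 := den0 _ (E_pos hu).le
    have d1 := den _ (E_pos hu).le
    have d2 := norm_pos_iff.2 d0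
    have b0 : exp (I * s₀) = e * (a * a) := by
      rw [he, ha, ← exp_add, ← exp_add, ← exp_periodic]
      congr 1
      rw [hu0]
      push_cast
      ring
    have b1 : e * ((exp (I * u) - a) / (exp (I * u) - conj a)) - exp (I * s₁) =
        -e * (a - conj a) / (exp (I * u) - conj a) := by
      rw [← he]
      field_simp
      ring
    have b2 : e * ((exp (I * u) - a) / (exp (I * u) - conj a)) - exp (I * s₀) =
        -e * a * exp (I * u) * (a - conj a) / (exp (I * u) - conj a) := by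
      rw [b0]
      field_simp
      linear_combination (a - exp (I * u)) * ab
    rw [b1, norm_div, norm_mul, norm_neg, en, one_mul, le_div_iff₀ d2] at a2
    rw [b2, norm_div, norm_mul, norm_mul, norm_mul, norm_neg, en, an, one_mul, one_mul,
      le_div_iff₀ d2, norm_E] at a1
    have c1 : Real.exp (-u.im) ≤ 2 / η + 1 := by
      have := norm_sub_norm_le (exp (I * u)) (conj a)
      rw [norm_E, norm_conj, an] at this
      have : ‖exp (I * u) - conj a‖ ≤ 2 / η := by rw [le_div_iff₀ hη]; linarith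
      linarith
    have c2 : Real.exp u.im ≤ 2 / (η * Real.sin u₀) := by
      rw [le_div_iff₀ (mul_pos hη hs)]
      have f1 : η * Real.sin u₀ ≤ Real.exp (-u.im) * 2 :=
        ((mul_le_mul_of_nonneg_left d1 hη.le).trans a1).trans
          (mul_le_mul_of_nonneg_left nab (Real.exp_pos _).le)
      refine (mul_le_mul_of_nonneg_left f1 (Real.exp_pos _).le).trans (le_of_eq ?_)
      rw [← mul_assoc, ← Real.exp_add]
      simp
    have c3 := Real.add_one_le_exp (-u.im)
    have c4 := Real.add_one_le_exp u.im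
    have c5 : 0 < 2 / η := by positivity
    have c6 : 0 < 2 / (η * Real.sin u₀) := by positivity
    exact abs_le.2 ⟨by linarith, by linarith⟩

end Pool.Agent.P.MP_3bd355_an
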