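import Pool.Agent.P.MP_3bd355_an.Z.Stmts

/-! The case `A = 0`: package PAIN. -/

open Set Filter Metric Complex InnerProductSpace MeasureTheory
open scoped Topology ComplexConjugate Real Interval

namespace Pool.Agent.P.MP_3bd355_an

theorem z_pain : Z_PAIN := by
  intro U f s hU hc hd
  refine (isConservativeOn_and_continuousOn_iff_isDifferentiableOn hU).1 ⟨fun z w hzw => ?_, hc⟩
  rw [← add_eq_zero_iff_eq_neg, wedgeIntegral_add_wedgeIntegral_eq]
  have key : ∀ a b : ℝ, a ∈ [[z.re, w.re]] → b ∈ [[z.re, w.re]] → s ∉ Ioo (min a b) (max a b) →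
      (∫ x : ℝ in a..b, f (x + z.im * I)) - (∫ x : ℝ in a..b, f (x + w.im * I)) +
        I • (∫ y : ℝ in z.im..w.im, f (b + y * I)) -
        I • (∫ y : ℝ in z.im..w.im, f (a + y * I)) = 0 := fun a b ha hb hs => by
    have sub : [[a, b]] ×ℂ [[z.im, w.im]] ⊆ U := fun p hp =>
      hzw ⟨uIcc_subset_uIcc ha hb hp.1, hp.2⟩
    exact integral_boundary_rect_eq_zero_of_continuousOn_of_differentiableOn f ⟨a, z.im⟩ ⟨b, w.im⟩
      (hc.mono sub) fun p hp => (hd p (sub ⟨Ioo_subset_Icc_self hp.1, Ioo_subset_Icc_self hp.2⟩)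
        fun e => hs (e ▸ hp.1)).differentiableWithinAt
  by_cases hs : s ∈ Ioo (min z.re w.re) (max z.re w.re)
  · have hs' : s ∈ [[z.re, w.re]] := Ioo_subset_Icc_self hs
    have k1 := key z.re s left_mem_uIcc hs' fun h => by
      rcases le_total z.re s with e | e
      · exact h.2.ne (max_eq_right e).symm
      · exact h.1.ne (min_eq_right e)
    have k2 := key s w.re hs' right_mem_uIcc fun h => by
      rcases le_total s w.re with e | e
      · exact h.1.ne (min_eq_left e)
      · exact h.2.ne (max_eq_left e).symm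
    have int : ∀ c ∈ [[z.im, w.im]], ∀ a ∈ [[z.re, w.re]], ∀ b ∈ [[z.re, w.re]],
        IntervalIntegrable (fun x : ℝ => f (x + c * I)) volume a b := fun c hc' a ha b hb =>
      (hc.comp (by fun_prop) fun x hx => hzw ⟨by simpa using uIcc_subset_uIcc ha hb hx,
        by simpa using hc'⟩).intervalIntegrable
    rw [← intervalIntegral.integral_add_adjacent_intervals
        (int _ left_mem_uIcc _ left_mem_uIcc s hs') (int _ left_mem_uIcc s hs' _ right_mem_uIcc),
      ← intervalIntegral.integral_add_adjacent_intervals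
        (int _ right_mem_uIcc _ left_mem_uIcc s hs') (int _ right_mem_uIcc s hs' _ right_mem_uIcc)]
    linear_combination k1 + k2
  · exact key _ _ left_mem_uIcc right_mem_uIcc hs

end Pool.Agent.P.MP_3bd355_an
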