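import Pool.Agent.P.MP_3bd355_an.Z.Stmts

/-! The case `A = 0`: package PH. -/

open Set Filter Metric Complex InnerProductSpace MeasureTheory
open scoped Topology ComplexConjugate Real

namespace Pool.Agent.P.MP_3bd355_an

namespace PhP

/-- the increment along a segment -/
theorem seg {S : Set ℂ} (hS : Convex ℝ S) {F f : ℂ → ℂ}
    (hF : ∀ z ∈ S, HasDerivWithinAt F (f z) S z) {u w : ℂ} (hu : u ∈ S) (hw : w ∈ S)
    {B B' : ℝ → ℝ} (hB : ∀ t ∈ Icc (0 : ℝ) 1, HasDerivAt B (B' t) t)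
    (hb : ∀ t ∈ Icc (0 : ℝ) 1, ‖f (u + t * (w - u))‖ * ‖w - u‖ ≤ B' t) :
    ‖F w - F u‖ ≤ B 1 - B 0 := by
  have hm : MapsTo (fun t : ℝ => u + t * (w - u)) (Icc 0 1) S := fun t ht => by
    simpa [real_smul] using hS.add_smul_sub_mem hu hw ht
  have hd : ∀ t ∈ Icc (0 : ℝ) 1, HasDerivWithinAt (fun s : ℝ => F (u + s * (w - u)) - F u)
      ((w - u) • f (u + t * (w - u))) (Icc 0 1) t := fun t ht => by
    have h1 : HasDerivAt (fun s : ℝ => u + s * (w - u)) (w - u) t := by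
      simpa using ((hasDerivAt_id t).ofReal_comp.mul_const (w - u)).const_add u
    exact ((hF _ (hm ht)).scomp t h1.hasDerivWithinAt hm).sub_const _
  have := image_norm_le_of_norm_deriv_right_le_deriv_boundary' (a := 0) (b := 1)
    (B := fun t => B t - B 0) (B' := B') (fun t ht => (hd t ht).continuousWithinAt)
    (fun t ht => (hd t (Ico_subset_Icc_self ht)).mono_of_mem_nhdsWithin (Icc_mem_nhdsGE_of_mem ht))
    (by simp) (fun t ht => ((hB t ht).sub_const _).continuousAt.continuousWithinAt)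
    (fun t ht => ((hB t (Ico_subset_Icc_self ht)).sub_const _).hasDerivWithinAt)
    (fun t ht => by rw [norm_smul, mul_comm]; exact hb t (Ico_subset_Icc_self ht))
    (right_mem_Icc.2 zero_le_one)
  simpa using this

theorem lim {l : Filter ℂ} [l.NeBot] {F : ℂ → ℂ}
    (h : ∀ ε > 0, ∃ w : ℂ, ∀ᶠ u in l, ‖w - F u‖ ≤ ε) : ∃ y, Tendsto F l (𝓝 y) := by
  refine cauchy_map_iff_exists_tendsto.1 (Metric.cauchy_iff.2 ⟨inferInstance, fun ε hε => ?_⟩)
  obtain ⟨w, hw⟩ := h (ε / 3) (by positivity)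
  refine ⟨{z | ‖w - z‖ ≤ ε / 3}, hw, fun x hx y hy => ?_⟩
  have := dist_triangle_left x y w
  rw [dist_eq_norm w, dist_eq_norm w] at this
  rw [mem_ofPred_eq] at hx hy
  linarith

variable {Λ u₀ c : ℝ} {fin : Prop} {T : ℂ → ℂ}

theorem clo (h0 : 0 < Λ) : PC Λ fin ⊆ closure (PP Λ fin) := by
  intro p hp
  obtain ⟨h1, h2, h3, h4⟩ := hp
  have ht : Tendsto (fun t : ℝ => p + t * ((Λ / 2 : ℝ) + I - p)) (𝓝[>] 0) (𝓝 p) :=
    ((by fun_prop : Continuous fun t : ℝ => p + t * ((Λ / 2 : ℝ) + I - p)).tendsto' 0 p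
      (by simp)).mono_left nhdsWithin_le_nhds
  refine mem_closure_of_tendsto ht ?_
  filter_upwards [Ioo_mem_nhdsGT zero_lt_one] with t ⟨t0, t1⟩
  have e1 : (p + t * ((Λ / 2 : ℝ) + I - p)).re = (1 - t) * p.re + t * (Λ / 2) := by
    simp only [add_re, re_ofReal_mul, sub_re, ofReal_re, I_re]; ring
  have e2 : (p + t * ((Λ / 2 : ℝ) + I - p)).im = (1 - t) * p.im + t := by
    simp only [add_im, im_ofReal_mul, sub_im, ofReal_im, I_im]; ring
  refine ⟨?_, ?_, ?_, fun hf => ?_⟩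
  · rw [e1]; nlinarith
  · rw [e1]; nlinarith
  · rw [e2]; nlinarith
  · have := h4 hf
    have := Real.pi_gt_three
    rw [e2]; nlinarith

theorem val (h : MD Λ u₀ c fin T) {p : ℂ} (hp : p ∈ PC Λ fin) (h0 : p ≠ u₀)
    (hc : fin → p ≠ c + π * I) : 0 ≤ (T p).im ∧ T p ≠ 0 := by
  have A : ∀ {w : ℂ}, w.im = 0 ∧ 0 < w.re → 0 ≤ w.im ∧ w ≠ 0 := fun hw =>
    ⟨hw.1.ge, fun e => by simp [e] at hw⟩
  have B : ∀ {w : ℂ}, w.im = 0 ∧ w.re < 0 → 0 ≤ w.im ∧ w ≠ 0 := fun hw =>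
    ⟨hw.1.ge, fun e => by simp [e] at hw⟩
  obtain ⟨h1, h2, h3, h4⟩ := id hp
  rcases h1.eq_or_lt with e | h1
  · exact A (h.lf p hp e.symm)
  rcases h2.eq_or_lt with e | h2
  · exact B (h.rg p hp e)
  rcases h3.eq_or_lt with e | h3
  · have e' : p = (p.re : ℂ) := Complex.ext (by simp) (by simp [← e])
    rcases lt_trichotomy p.re u₀ with h5 | h5 | h5
    · rw [e']; exact A (h.bl _ ⟨h1.le, h5⟩)
    · exact absurd (by rw [e', h5]) h0
    · rw [e']; exact B (h.br _ ⟨h5, h2.le⟩)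
  by_cases e : fin ∧ p.im = π
  · have e' : p = (p.re : ℂ) + π * I := Complex.ext (by simp) (by simp [e.2])
    rcases lt_trichotomy p.re c with h5 | h5 | h5
    · rw [e']; exact A (h.tl e.1 _ ⟨h1.le, h5⟩)
    · exact absurd (by rw [e', h5]) (hc e.1)
    · rw [e']; exact B (h.tr e.1 _ ⟨h5, h2.le⟩)
  · have := h.im p ⟨h1, h2, h3, fun hf => lt_of_le_of_ne (h4 hf) fun e' => e ⟨hf, e'⟩⟩
    exact ⟨this.le, fun e' => by simp [e'] at this⟩

theorem ana (h : MD Λ u₀ c fin T) {p : ℂ} (hp : p ∈ PC Λ fin) (h0 : p ≠ u₀)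
    (hc : fin → p ≠ c + π * I) : AnalyticAt ℂ (fun u => rt (T u)) p :=
  (rt_analytic' (val h hp h0 hc).1 (val h hp h0 hc).2).comp (h.ana p hp h0)

variable {F : ℂ → ℂ}

/-- the limit at a point where `T` is bounded -/
theorem lim_reg (h : MD Λ u₀ c fin T) (hF : ∀ z ∈ PP Λ fin, HasDerivAt F (rt (T z)) z) {p : ℂ}
    (hp : p ∈ PC Λ fin) (h0 : p ≠ u₀) : ∃ y, Tendsto F (𝓝[PP Λ fin] p) (𝓝 y) := by
  have hcl := clo (h.u0.trans h.u1) hp
  have := mem_closure_iff_nhdsWithin_neBot.1 hcl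
  obtain ⟨δ, hδ, hb⟩ := Metric.eventually_nhds_iff_ball.1
    ((h.ana p hp h0).continuousAt.norm.eventually (gt_mem_nhds (lt_add_one ‖T p‖)))
  refine lim fun ε hε => ?_
  set K := √(‖T p‖ + 1) with hK
  have hK0 : 0 < K := by positivity
  have hd : 0 < min δ (ε / (2 * K)) := by positivity
  obtain ⟨w, hw⟩ := mem_closure_iff_nhds.1 hcl _ (ball_mem_nhds p hd)
  refine ⟨F w, ?_⟩
  filter_upwards [inter_mem_nhdsWithin _ (ball_mem_nhds p hd)] with u hu
  refine (Convex.norm_image_sub_le_of_norm_hasDerivWithin_le (C := K)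
    (fun z hz => (hF z hz.1).hasDerivWithinAt) (fun z hz => ?_)
    ((convex_PP Λ fin).inter (convex_ball p _)) hu ⟨hw.2, hw.1⟩).trans ?_
  · rw [norm_rt]
    exact Real.sqrt_le_sqrt (hb z (ball_subset_ball (min_le_left _ _) hz.2)).le
  · have h1 := (mem_ball.1 hu.2).trans_le (min_le_right _ _)
    have h2 := (mem_ball.1 hw.1).trans_le (min_le_right _ _)
    have h3 := dist_triangle_right w u p
    rw [dist_eq_norm] at h3
    calc K * ‖w - u‖ ≤ K * (2 * (ε / (2 * K))) := by gcongr; linarith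
      _ = ε := by field_simp

/-- the limit at the pole -/
theorem lim_pole (h : MD Λ u₀ c fin T) (hF : ∀ z ∈ PP Λ fin, HasDerivAt F (rt (T z)) z) :
    ∃ y, Tendsto F (𝓝[PP Λ fin] (u₀ : ℂ)) (𝓝 y) := by
  have hp : (u₀ : ℂ) ∈ PC Λ fin := ⟨h.u0.le, h.u1.le, le_rfl, fun _ => Real.pi_pos.le⟩
  have := mem_closure_iff_nhdsWithin_neBot.1 (clo (h.u0.trans h.u1) hp)
  obtain ⟨C, hC⟩ := h.pole
  obtain ⟨δ, hδ, hb⟩ := Metric.eventually_nhds_iff_ball.1 (eventually_nhdsWithin_iff.1 hC)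
  refine lim fun ε hε => ?_
  set K := √(|C| + 1) with hK
  have hK0 : 0 < K := by positivity
  obtain ⟨η, η0, η1, η2, η3⟩ : ∃ η : ℝ, 0 < η ∧ η < δ ∧ η < π ∧ η ≤ (ε / (6 * K)) ^ 2 :=
    ⟨min (δ / 2) (min 1 ((ε / (6 * K)) ^ 2)), by positivity,
      (min_le_left _ _).trans_lt (by linarith),
      ((min_le_right _ _).trans (min_le_left _ _)).trans_lt (by linarith [Real.pi_gt_three]),
      (min_le_right _ _).trans (min_le_right _ _)⟩
  have hw : (u₀ : ℂ) + η * I ∈ PP Λ fin ∩ ball (u₀ : ℂ) δ :=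
    ⟨⟨by simpa using h.u0, by simpa using h.u1, by simpa using η0, fun _ => by simpa using η2⟩,
      by simpa [abs_of_pos η0] using η1⟩
  refine ⟨F (u₀ + η * I), ?_⟩
  filter_upwards [inter_mem_nhdsWithin _ (ball_mem_nhds (u₀ : ℂ) (half_pos η0))] with u hu
  have hS := (convex_PP Λ fin).inter (convex_ball (u₀ : ℂ) δ)
  have hu' : u ∈ PP Λ fin ∩ ball (u₀ : ℂ) δ := ⟨hu.1, ball_subset_ball (by linarith) hu.2⟩
  have hn : ‖u - u₀‖ < η / 2 := mem_ball_iff_norm.1 hu.2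
  have y0 : 0 < u.im := hu.1.2.2.1
  have y1 : u.im < η / 2 := by
    have := im_le_norm (u - u₀)
    simp only [sub_im, ofReal_im, sub_zero] at this
    linarith
  have hpos : ∀ t ∈ Icc (0 : ℝ) 1, 0 < u.im + t * (η - u.im) := fun t ht => by nlinarith [ht.1]
  refine (seg hS (fun z hz => (hF z hz.1).hasDerivWithinAt) hu' hw
    (B := fun t => 6 * K * √(u.im + t * (η - u.im)))
    (B' := fun t => 6 * K * ((η - u.im) / (2 * √(u.im + t * (η - u.im))))) (fun t ht => ?_)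
    fun t ht => ?_).trans ?_
  · have h1 : HasDerivAt (fun t : ℝ => u.im + t * (η - u.im)) (η - u.im) t := by
      simpa using ((hasDerivAt_id t).mul_const (η - u.im)).const_add u.im
    exact (h1.sqrt (hpos t ht).ne').const_mul _
  · have hz : u + t * (u₀ + η * I - u) ∈ PP Λ fin ∩ ball (u₀ : ℂ) δ := by
      simpa [real_smul] using hS.add_smul_sub_mem hu' hw ht
    have e : (u + t * (u₀ + η * I - u)).im = u.im + t * (η - u.im) := by simp
    set z := u + t * (u₀ + η * I - u)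
    rw [← e]
    have z0 : 0 < z.im := hz.1.2.2.1
    have h1 := hb z hz.2 fun e' => by
      rw [mem_singleton_iff.1 e'] at z0
      simp at z0
    have h2 : z.im ≤ ‖z - u₀‖ := by simpa using im_le_norm (z - u₀)
    have h3 : ‖rt (T z)‖ ≤ K / √z.im := by
      rw [norm_rt, hK, ← Real.sqrt_div' _ z0.le]
      refine Real.sqrt_le_sqrt ?_
      rw [le_div_iff₀ z0]
      nlinarith [norm_nonneg (T z), le_abs_self C]
    have h4 : ‖u₀ + η * I - u‖ ≤ 3 * (η - u.im) := by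
      have := norm_sub_le (η * I : ℂ) (u - u₀)
      rw [show (η * I : ℂ) - (u - u₀) = u₀ + η * I - u by ring, norm_mul, norm_I, norm_real,
        Real.norm_of_nonneg η0.le] at this
      linarith
    refine (mul_le_mul h3 h4 (norm_nonneg _) (by positivity)).trans_eq ?_
    field_simp
    ring
  · have h1 : √η ≤ ε / (6 * K) := Real.sqrt_le_iff.2 ⟨by positivity, η3⟩
    have h2 : 0 ≤ 6 * K * √(u.im + 0 * (η - u.im)) := by positivity
    rw [le_div_iff₀ (by positivity)] at h1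
    simp only [one_mul, add_sub_cancel]
    linarith

theorem ext (h : MD Λ u₀ c fin T) (hF : ∀ z ∈ PP Λ fin, HasDerivAt F (rt (T z)) z) (k : ℂ)
    {p : ℂ} (hp : p ∈ PC Λ fin) (h0 : p ≠ u₀) (hc : fin → p ≠ c + π * I) : ∃ Φ' : ℂ → ℂ,
    (∀ᶠ u in 𝓝 p, HasDerivAt Φ' (rt (T u)) u) ∧
      ∀ᶠ u in 𝓝[PC Λ fin] p, extendFrom (PP Λ fin) F u - k = Φ' u := by
  obtain ⟨δ, hδ, hb⟩ := Metric.eventually_nhds_iff_ball.1 (ana h hp h0 hc).eventually_analyticAt
  obtain ⟨G, hG⟩ := DifferentiableOn.isExactOn_ball (f := fun u => rt (T u)) (c := p) (r := δ)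
    fun z hz => (hb z hz).differentiableAt.differentiableWithinAt
  obtain ⟨a, ha⟩ := ((isOpen_PP Λ fin).inter isOpen_ball).exists_eq_add_of_deriv_eq
    ((convex_PP Λ fin).inter (convex_ball p δ)).isPreconnected (f := F) (g := G)
    (fun z hz => (hF z hz.1).differentiableAt.differentiableWithinAt)
    (fun z hz => (hG z hz.2).differentiableAt.differentiableWithinAt)
    fun z hz => (hF z hz.1).deriv.trans (hG z hz.2).deriv.symm
  refine ⟨fun u => G u + a - k, ?_, ?_⟩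
  · filter_upwards [ball_mem_nhds p hδ] with u hu
    exact ((hG u hu).add_const a).sub_const k
  · filter_upwards [inter_mem_nhdsWithin _ (ball_mem_nhds p hδ)] with u hu
    congr 1
    refine extendFrom_eq (clo (h.u0.trans h.u1) hu.1) ?_
    refine (((hG u hu.2).add_const a).continuousAt.tendsto.mono_left nhdsWithin_le_nhds).congr' ?_
    filter_upwards [inter_mem_nhdsWithin _ (isOpen_ball.mem_nhds hu.2)] with z hz
    exact (ha hz).symm

theorem inf (h : MD Λ u₀ c fin T) (hf : ¬ fin) {Φ : ℂ → ℂ}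
    (hΦ : ∀ p ∈ PC Λ fin, p ≠ u₀ → HasDerivWithinAt Φ (rt (T p)) (PC Λ fin) p) :
    ∃ ℓ : ℂ, Tendsto Φ (comap Complex.im atTop ⊓ 𝓟 (PC Λ fin)) (𝓝 ℓ) := by
  have Λ0 := h.u0.trans h.u1
  have hI : ∀ x y : ℝ, 0 ≤ x → x ≤ Λ → 0 ≤ y → (x + y * I : ℂ) ∈ PC Λ fin := fun x y h1 h2 h3 =>
    ⟨by simpa using h1, by simpa using h2, by simpa using h3, fun e => absurd e hf⟩
  have : (comap Complex.im atTop ⊓ 𝓟 (PC Λ fin)).NeBot := by
    refine inf_principal_neBot_iff.2 fun U hU => ?_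
    obtain ⟨V, hV, hVU⟩ := mem_comap.1 hU
    obtain ⟨y, hy⟩ := (eventually_ge_atTop (0 : ℝ)).and hV |>.exists
    exact ⟨_, hVU (show ((0 : ℝ) + y * I : ℂ).im ∈ V by
      simp only [add_im, ofReal_im, mul_im, ofReal_re, I_im, I_re, mul_one, mul_zero, add_zero,
        zero_add]
      exact hy.2), hI 0 y le_rfl Λ0.le hy.1⟩
  obtain ⟨C, hC⟩ := h.dec hf
  refine lim fun ε hε => ?_
  set K := √|C| with hK
  have hK0 : 0 ≤ K := by positivity
  have ht : Tendsto (fun y : ℝ => K * (Λ + 2) * Real.exp (-(y / 2))) atTop (𝓝 0) := by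
    simpa using (Real.tendsto_exp_neg_atTop_nhds_zero.comp
      (tendsto_id.atTop_div_const two_pos)).const_mul (K * (Λ + 2))
  obtain ⟨y, y1, hy⟩ := ((eventually_ge_atTop 1).and (ht.eventually (gt_mem_nhds hε))).exists
  have hS : Convex ℝ (PC Λ fin ∩ {u | y ≤ u.im}) :=
    (convex_PC Λ fin).inter (convex_halfSpace_im_ge y)
  have hd : ∀ z ∈ PC Λ fin ∩ {u | y ≤ u.im},
      HasDerivWithinAt Φ (rt (T z)) (PC Λ fin ∩ {u | y ≤ u.im}) z := fun z hz =>
    (hΦ z hz.1 fun e => by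
      have := hz.2
      rw [e, mem_ofPred_eq, ofReal_im] at this
      linarith).mono inter_subset_left
  have hb : ∀ z ∈ PC Λ fin ∩ {u | y ≤ u.im}, ‖rt (T z)‖ ≤ K * Real.exp (-(z.im / 2)) := by
    intro z hz
    rw [norm_rt, Real.sqrt_le_iff]
    refine ⟨by positivity, (hC z hz.1 (y1.trans hz.2)).trans ?_⟩
    rw [mul_pow, hK, Real.sq_sqrt (abs_nonneg C), ← Real.exp_nat_mul,
      show ((2 : ℕ) : ℝ) * -(z.im / 2) = -z.im by push_cast; ring]
    exact mul_le_mul_of_nonneg_right (le_abs_self C) (Real.exp_pos _).le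
  refine ⟨Φ ((0 : ℝ) + y * I), eventually_inf_principal.2 ?_⟩
  filter_upwards [preimage_mem_comap (Ici_mem_atTop y)] with u (hu : y ≤ u.im) hu'
  have m1 : ((0 : ℝ) + y * I : ℂ) ∈ PC Λ fin ∩ {u | y ≤ u.im} :=
    ⟨hI 0 y le_rfl Λ0.le (by linarith), by simp⟩
  have m2 : (u.re + y * I : ℂ) ∈ PC Λ fin ∩ {u | y ≤ u.im} :=
    ⟨hI _ y hu'.1 hu'.2.1 (by linarith), by simp⟩
  have a1 := Convex.norm_image_sub_le_of_norm_hasDerivWithin_le (C := K * Real.exp (-(y / 2))) hd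
    (fun z hz => (hb z hz).trans (by have : y ≤ z.im := hz.2; gcongr)) hS m2 m1
  have e1 : ‖((0 : ℝ) + y * I : ℂ) - (u.re + y * I)‖ ≤ Λ := by
    simpa [abs_of_nonneg hu'.1] using hu'.2.1
  have e2 : u - (u.re + y * I) = ((u.im - y : ℝ) : ℂ) * I := Complex.ext (by simp) (by simp)
  have a2 := seg hS hd m2 ⟨hu', hu⟩
    (B := fun t => -(2 * K) * Real.exp (-((y + t * (u.im - y)) / 2)))
    (B' := fun t => -(2 * K) * (Real.exp (-((y + t * (u.im - y)) / 2)) * -((u.im - y) / 2)))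
    (fun t _ => by
      have h1 : HasDerivAt (fun t : ℝ => y + t * (u.im - y)) (u.im - y) t := by
        simpa using ((hasDerivAt_id t).mul_const (u.im - y)).const_add y
      exact (h1.div_const 2).neg.exp.const_mul _)
    fun t ht => by
      have hz : (u.re + y * I : ℂ) + t * (u - (u.re + y * I)) ∈ PC Λ fin ∩ {u | y ≤ u.im} := by
        simpa [real_smul] using hS.add_smul_sub_mem m2 ⟨hu', hu⟩ ht
      have h1 := hb _ hz
      rw [show ((u.re + y * I : ℂ) + t * (u - (u.re + y * I))).im = y + t * (u.im - y) by simp]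
        at h1
      refine (mul_le_mul_of_nonneg_right h1 (norm_nonneg _)).trans_eq ?_
      rw [e2, norm_mul, norm_I, norm_real, Real.norm_of_nonneg (sub_nonneg.2 hu)]
      ring
  have a3 := norm_sub_le_norm_sub_add_norm_sub (Φ ((0 : ℝ) + y * I)) (Φ (u.re + y * I)) (Φ u)
  rw [norm_sub_rev (Φ (u.re + y * I))] at a3
  have a4 : 0 ≤ K * Real.exp (-((y + 1 * (u.im - y)) / 2)) := by positivity
  have a5 := mul_le_mul_of_nonneg_left e1 (show 0 ≤ K * Real.exp (-(y / 2)) by positivity)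
  simp only [zero_mul, add_zero] at a2
  linarith

end PhP

theorem z_ph (hPRIM : Z_PRIM) : Z_PH := by
  intro Λ u₀ c fin T h
  obtain ⟨F, hF⟩ := hPRIM (PP Λ fin) (fun u => rt (T u)) (isOpen_PP Λ fin)
    (convex_PP Λ fin).isPreconnected (NC_convex (convex_PP Λ fin))
    (fun e => lt_irrefl (0 : ℝ) (e.ge (mem_univ (0 : ℂ))).1) fun z hz =>
      (PhP.ana h (PP_sub_PC Λ fin hz) (fun e => by simpa [e] using hz.2.2.1) fun hf e => by
        simpa [e] using hz.2.2.2 hf).differentiableAt.differentiableWithinAt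
  refine ⟨fun u => extendFrom (PP Λ fin) F u - extendFrom (PP Λ fin) F 0, ?_, sub_self _,
    fun p hp h0 hc => PhP.ext h hF _ hp h0 hc, fun hf => PhP.inf h hf fun p hp h0 => ?_⟩
  · refine (continuousOn_extendFrom (PhP.clo (h.u0.trans h.u1)) fun p hp => ?_).sub
      continuousOn_const
    rcases eq_or_ne p u₀ with rfl | h0
    exacts [PhP.lim_pole h hF, PhP.lim_reg h hF hp h0]
  · obtain ⟨Φ', h1, h2⟩ := PhP.ext h hF (extendFrom (PP Λ fin) F 0) hp h0 fun e => absurd e hf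
    exact h1.self_of_nhds.hasDerivWithinAt.congr_of_eventuallyEq h2 (h2.self_of_nhdsWithin hp)

end Pool.Agent.P.MP_3bd355_an
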