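import Pool.Agent.P.MP_3bd355_an.Z.Stmts

/-! The case `A = 0`: package PRIM. -/

open Set Filter Metric Complex InnerProductSpace MeasureTheory
open scoped Topology ComplexConjugate Real

namespace Pool.Agent.P.MP_3bd355_an

theorem z_prim : Z_PRIM := by
  intro U f hU hc hn hne hd
  rcases U.eq_empty_or_nonempty with rfl | ⟨q, hq⟩
  · exact ⟨f, fun z hz => absurd hz (notMem_empty z)⟩
  obtain ⟨φ, dφ, iφ, him, -, nφ⟩ := all_RM U q hU hc hn hne hq
  obtain ⟨ψ, dψ, hψ, -⟩ := RMOP.inverse hU dφ iφ him nφ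
  have mem : ∀ z ∈ U, φ z ∈ ball (0 : ℂ) 1 := fun z hz => him ▸ mem_image_of_mem φ hz
  have linv : ∀ z ∈ U, ψ (φ z) = z := fun z hz =>
    iφ (hψ _ (mem z hz)).1 hz (hψ _ (mem z hz)).2
  have d1 : DifferentiableOn ℂ (fun w => f (ψ w) / deriv φ (ψ w)) (ball 0 1) :=
    (hd.comp dψ fun w hw => (hψ w hw).1).div
      ((dφ.deriv hU).comp dψ fun w hw => (hψ w hw).1) fun w hw => nφ _ (hψ w hw).1
  obtain ⟨G, hG⟩ := d1.isExactOn_ball
  refine ⟨fun z => G (φ z), fun z hz => ?_⟩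
  have k := (hG _ (mem z hz)).comp z (dφ.differentiableAt (hU.mem_nhds hz)).hasDerivAt
  beta_reduce at k
  rwa [linv z hz, div_mul_cancel₀ _ (nφ z hz)] at k

end Pool.Agent.P.MP_3bd355_an
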