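import Pool.Agent.P.MP_3bd355_an.Z.Stmts

/-! The case `A = 0`: package SQR. -/

open Set Filter Metric Complex InnerProductSpace MeasureTheory
open scoped Topology ComplexConjugate Real

namespace Pool.Agent.P.MP_3bd355_an

namespace SqrP

theorem NC_comp {U : Set ℂ} (hU : IsOpen U) (h : NC U) (x : ℂ) :
    NC (connectedComponentIn U x) := by
  intro C O hC hO e
  have h1 : C \ U = ∅ := h (C \ U) O (hC.diff hU) hO (by
    ext z
    constructor
    · rintro ⟨a, b⟩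
      exact ⟨(e ▸ a).1, b⟩
    · rintro ⟨a, b⟩
      exact ⟨e ▸ ⟨a, fun c => b (connectedComponentIn_subset _ _ c)⟩, b⟩)
  have h2 : IsOpen C := by
    rw [isOpen_iff_mem_nhds]
    intro z hz
    have hzU : z ∈ U := by
      by_contra c
      exact (h1 ▸ (⟨hz, c⟩ : z ∈ C \ U) : z ∈ (∅ : Set ℂ))
    have hz' := e ▸ hz
    filter_upwards [hO.mem_nhds hz'.1,
      hU.connectedComponentIn.mem_nhds (mem_connectedComponentIn hzU)] with y a b
    rw [e]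
    refine ⟨a, fun c => hz'.2 ?_⟩
    rw [connectedComponentIn_eq c, ← connectedComponentIn_eq b]
    exact mem_connectedComponentIn hzU
  rcases isClopen_iff.1 ⟨hC.isClosed, h2⟩ with c | c
  · exact c
  · exact absurd (c ▸ hC) (noncompact_univ ℂ)

theorem ray {q : ℂ} (hq : 1 ≤ ‖q‖) : ∃ R : Set ℂ, IsPreconnected R ∧ q ∈ R ∧
    Disjoint R (ball 0 1) ∧ ¬ Bornology.IsBounded R := by
  have hn : ∀ s : ℝ, 1 ≤ s → s ≤ ‖(s : ℂ) * q‖ := fun s hs => by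
    rw [norm_mul, norm_real, Real.norm_of_nonneg (by linarith)]
    nlinarith
  refine ⟨(fun s : ℝ => (s : ℂ) * q) '' Ici 1, isPreconnected_Ici.image _ (by fun_prop),
    ⟨1, self_mem_Ici, by simp⟩, disjoint_left.2 ?_, fun hb => ?_⟩
  · rintro _ ⟨s, hs, rfl⟩ h
    have := hn s hs
    rw [mem_ball_zero_iff] at h
    linarith [mem_Ici.1 hs]
  · obtain ⟨C, hC⟩ := hb.exists_norm_le
    have h1 := hC _ ⟨max 1 (C + 1), mem_Ici.2 (le_max_left _ _), rfl⟩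
    have h2 := hn (max 1 (C + 1)) (le_max_left _ _)
    linarith [le_max_right 1 (C + 1)]

theorem NC_slit {κ : ℝ → ℂ} {b : ℝ} (hb : b ≤ 1) (hc : ContinuousOn κ (Icc b 1))
    (h1 : ‖κ 1‖ = 1) : NC (ball 0 1 \ κ '' Icc b 1) := by
  refine NC_of_unb fun p hp => ?_
  by_cases hK : p ∈ κ '' Icc b 1
  · obtain ⟨R, a1, a2, a3, a4⟩ := ray h1.ge
    refine ⟨κ '' Icc b 1 ∪ R, (isPreconnected_Icc.image _ hc).union (κ 1)
      ⟨1, ⟨hb, le_rfl⟩, rfl⟩ a2 a1, Or.inl hK, disjoint_left.2 ?_,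
      fun h => a4 (h.subset subset_union_right)⟩
    rintro z (hz | hz) hz'
    · exact hz'.2 hz
    · exact disjoint_left.1 a3 hz hz'.1
  · have : 1 ≤ ‖p‖ := by
      by_contra c
      exact hp ⟨mem_ball_zero_iff.2 (not_le.1 c), hK⟩
    obtain ⟨R, a1, a2, a3, a4⟩ := ray this
    exact ⟨R, a1, a2, a3.mono_right sdiff_subset, a4⟩

theorem root {U : Set ℂ} {f : ℂ → ℂ} (hU : IsOpen U) (h : NC U) (hf : DifferentiableOn ℂ f U)
    (h0 : ∀ z ∈ U, f z ≠ 0) : ∃ l : ℂ → ℂ, ContinuousOn l U ∧ ∀ z ∈ U, l z ^ 2 = f z := by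
  obtain ⟨g, hg, e⟩ := all_LOG U f hU h hf h0
  refine ⟨fun z => exp (g z / 2), (hg.continuousOn.div_const 2).cexp, fun z hz => ?_⟩
  rw [← e z hz, sq, ← exp_add, add_halves]

theorem no_circle {ρ : ℝ} (hρ : 0 < ρ) {h : ℂ → ℂ} (hc : ContinuousOn h (sphere 0 ρ))
    (hs : ∀ w ∈ sphere (0 : ℂ) ρ, h w ^ 2 = w) : False := by
  have hm : ∀ t : ℝ, (ρ : ℂ) * exp (t * I) ∈ sphere (0 : ℂ) ρ := fun t => by
    rw [mem_sphere_zero_iff_norm, norm_mul, norm_exp_ofReal_mul_I, mul_one, norm_real,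
      Real.norm_of_nonneg hρ.le]
  have hr : ((√ρ : ℝ) : ℂ) ≠ 0 := ofReal_ne_zero.2 (Real.sqrt_pos.2 hρ).ne'
  have key := (isPreconnected_univ (α := ℝ)).eq_or_eq_neg_of_sq_eq
    (f := fun t : ℝ => h (ρ * exp (t * I))) (g := fun t : ℝ => (√ρ : ℝ) * exp (t / 2 * I))
    (hc.comp (by fun_prop) fun t _ => hm t) (by fun_prop)
    (fun t _ => by
      show h (ρ * exp (t * I)) ^ 2 = ((√ρ : ℝ) * exp (t / 2 * I)) ^ 2
      rw [hs _ (hm t), mul_pow, ← ofReal_pow, Real.sq_sqrt hρ.le, sq, ← exp_add]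
      congr 2
      ring)
    (fun _ => mul_ne_zero hr (exp_ne_zero _))
  have e1 : exp (((2 * π : ℝ) : ℂ) * I) = 1 := by
    rw [ofReal_mul, ofReal_ofNat]; exact exp_two_pi_mul_I
  have e2 : exp (((2 * π : ℝ) : ℂ) / 2 * I) = -1 := by
    rw [show ((2 * π : ℝ) : ℂ) / 2 * I = π * I by push_cast; ring]; exact exp_pi_mul_I
  rcases key with k | k
  · have a := k (mem_univ 0)
    have b := k (mem_univ (2 * π))
    simp only [e1, e2, ofReal_zero, zero_mul, zero_div, exp_zero] at a b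
    apply hr
    linear_combination (b - a) / 2
  · have a := k (mem_univ 0)
    have b := k (mem_univ (2 * π))
    simp only [Pi.neg_apply, e1, e2, ofReal_zero, zero_mul, zero_div, exp_zero] at a b
    apply hr
    linear_combination (a - b) / 2

/-- No root of `z - z₁` around a continuum through `z₁`. -/
theorem no_root {U K : Set ℂ} {z₁ : ℂ} {l : ℂ → ℂ} (hU : IsOpen U) (hN : NC U) (hb : U ≠ univ)
    (hK : IsCompact K) (hK' : IsPreconnected K) (hKU : K ⊆ U) (hz : z₁ ∈ K)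
    (hc : ContinuousOn l (U \ K)) (hs : ∀ z ∈ U \ K, l z ^ 2 = z - z₁) : False := by
  set V := connectedComponentIn U z₁ with hV
  have hVU : V ⊆ U := connectedComponentIn_subset _ _
  have hVo : IsOpen V := hU.connectedComponentIn
  have hVN : NC V := NC_comp hU hN z₁
  have hKV : K ⊆ V := hK'.subset_connectedComponentIn hz hKU
  obtain ⟨φ, hd, hi, him, h0, hne⟩ := all_RM V z₁ hVo isPreconnected_connectedComponentIn hVN
    (fun e => hb (univ_subset_iff.1 (e ▸ hVU))) (hKV hz)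
  obtain ⟨ψ, hψ, hψ', -⟩ := RMOP.inverse hVo hd hi him hne
  obtain ⟨m, hm, hm'⟩ := root (f := dslope φ z₁) hVo hVN
    ((differentiableOn_dslope (hVo.mem_nhds (hKV hz))).2 hd) fun z hzV => by
      by_cases e : z = z₁
      · rw [e, dslope_same]; exact hne z₁ (hKV hz)
      · intro c
        have := sub_smul_dslope φ z₁ z
        rw [c, smul_zero, eq_comm, sub_eq_zero] at this
        exact e (hi hzV (hKV hz) this)
  obtain ⟨p, hp, hmax⟩ := hK.exists_isMaxOn ⟨z₁, hz⟩ (hd.continuousOn.mono hKV).norm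
  have hp1 : ‖φ p‖ < 1 := mem_ball_zero_iff.1 (him ▸ mem_image_of_mem φ (hKV hp))
  obtain ⟨ρ, h1, h2⟩ := exists_between hp1
  have hsb : sphere (0 : ℂ) ρ ⊆ ball 0 1 := fun w hw =>
    mem_ball_zero_iff.2 ((mem_sphere_zero_iff_norm.1 hw).trans_lt h2)
  have hmem : ∀ w ∈ sphere (0 : ℂ) ρ, ψ w ∈ U \ K := fun w hw =>
    ⟨hVU (hψ' w (hsb hw)).1, fun c => by
      have a : ‖φ (ψ w)‖ ≤ ‖φ p‖ := hmax c
      rw [(hψ' w (hsb hw)).2, mem_sphere_zero_iff_norm.1 hw] at a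
      linarith⟩
  have hψc : ContinuousOn ψ (sphere 0 ρ) := hψ.continuousOn.mono hsb
  refine no_circle ((norm_nonneg _).trans_lt h1) (h := fun w => l (ψ w) * m (ψ w))
    ((hc.comp hψc hmem).mul (hm.comp hψc fun w hw => (hψ' w (hsb hw)).1)) fun w hw => ?_
  have := sub_smul_dslope φ z₁ (ψ w)
  rw [h0, sub_zero, (hψ' w (hsb hw)).2, smul_eq_mul] at this
  rw [mul_pow, hs _ (hmem w hw), hm' _ (hψ' w (hsb hw)).1, this]

end SqrP

open SqrP in
theorem z_sqr : Z_SQR := by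
  classical
  intro r x₀ z₁ κ Q h
  have hz : z₁ ∈ KK κ := ⟨0, ⟨le_rfl, zero_le_one⟩, h.start⟩
  have hW : IsOpen (ball (0 : ℂ) 1 \ KK κ) := isOpen_ball.sdiff h.isClosed
  obtain ⟨l, hl, hs⟩ := root (f := fun z => z - z₁) hW (NC_slit zero_le_one h.cont h.stop)
    (by fun_prop) fun z hz' c => hz'.2 (sub_eq_zero.1 c ▸ hz)
  refine ⟨l, hl, hs, fun t ht => ?_⟩
  have hp : κ t ∈ ball (0 : ℂ) 1 \ {z₁} := ⟨mem_ball_zero_iff.2 (h.mem t ⟨ht.1.le, ht.2⟩).2,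
    fun c => ht.1.ne' (h.inj (Ioo_subset_Icc_self ht) ⟨le_rfl, zero_le_one⟩
      (c.trans h.start.symm))⟩
  obtain ⟨ε, hε, hV⟩ := Metric.isOpen_iff.1 (isOpen_ball.sdiff isClosed_singleton) _ hp
  have hne : ∀ z ∈ ball (κ t) ε, z - z₁ ≠ 0 := fun z hz' c => (hV hz').2 (sub_eq_zero.1 c)
  obtain ⟨l₀, hl₀, hs₀⟩ := root (f := fun z => z - z₁) isOpen_ball
    (NC_convex (convex_ball (κ t) ε)) (by fun_prop) hne
  have hl0 : ∀ z ∈ ball (κ t) ε, l₀ z ≠ 0 := fun z hz' c => hne z hz' (by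
    rw [← hs₀ z hz', c]; ring)
  refine ⟨ball (κ t) ε, ball_mem_nhds _ hε, fun O hO hOV A₁ A₂ h1 h2 e => ?_⟩
  have sgn : ∀ A : Set ℂ, IsPreconnected A → A ⊆ O \ KK κ → ∃ c : ℂ, (c = 1 ∨ c = -1) ∧
      (∀ z ∈ A, l z = c * l₀ z) ∧ Tendsto l (𝓝[A] (κ t)) (𝓝 (c * l₀ (κ t))) := by
    intro A hA hAO
    have a1 : A ⊆ ball (κ t) ε := fun z hz' => hOV (hAO hz').1
    have a2 : A ⊆ ball (0 : ℂ) 1 \ KK κ := fun z hz' => ⟨(hV (a1 hz')).1, (hAO hz').2⟩
    obtain ⟨c, hc, hc'⟩ := sq_sign hA (hl.mono a2) (hl₀.mono a1)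
      (fun z hz' => (hs z (a2 hz')).trans (hs₀ z (a1 hz')).symm) fun z hz' => hl0 z (a1 hz')
    refine ⟨c, hc, hc', ?_⟩
    have : Tendsto (fun z => c * l₀ z) (𝓝[A] (κ t)) (𝓝 (c * l₀ (κ t))) :=
      ((hl₀.continuousAt (ball_mem_nhds _ hε)).tendsto.const_mul c).mono_left nhdsWithin_le_nhds
    exact this.congr' (by filter_upwards [self_mem_nhdsWithin] with z hz' using (hc' z hz').symm)
  obtain ⟨c₁, k1, k2, k3⟩ := sgn A₁ h1 (e ▸ subset_union_left)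
  obtain ⟨c₂, j1, j2, j3⟩ := sgn A₂ h2 (e ▸ subset_union_right)
  have hc1 : c₁ ^ 2 = 1 := by rcases k1 with k | k <;> rw [k] <;> ring
  by_cases hc : c₂ = -c₁
  · refine ⟨c₁ * l₀ (κ t), mul_ne_zero (fun c => by simp [c] at hc1)
      (hl0 _ (mem_ball_self hε)), k3, ?_⟩
    rwa [hc, neg_mul] at j3
  exfalso
  have hcc : c₂ = c₁ := by
    rcases k1 with k | k <;> rcases j1 with j | j <;> simp_all
  have hO' : ∀ z ∈ O \ KK κ, l z = c₁ * l₀ z := fun z hz' => by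
    rw [e] at hz'
    exact hz'.elim (k2 z) fun a => hcc ▸ j2 z a
  have hκ : ContinuousAt κ t := h.cont.continuousAt (Icc_mem_nhds ht.1 ht.2)
  obtain ⟨a, b, hab, hsub⟩ := mem_nhds_iff_exists_Ioo_subset.1
    (inter_mem (Ioo_mem_nhds ht.1 ht.2) (hκ.preimage_mem_nhds (interior_mem_nhds.2 hO)))
  have hlt : a < b := hab.1.trans hab.2
  obtain ⟨ha, hb⟩ := (Ioo_subset_Ioo_iff hlt).1 (hsub.trans inter_subset_left)
  have s1 : Icc 0 a ⊆ Icc (0 : ℝ) 1 := Icc_subset_Icc_right (hlt.le.trans hb)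
  have s2 : Icc b 1 ⊆ Icc (0 : ℝ) 1 := Icc_subset_Icc_left (ha.trans hlt.le)
  have hin : ∀ z ∈ (ball (0 : ℂ) 1 \ κ '' Icc b 1) \ κ '' Icc 0 a, z ∈ KK κ → z ∈ interior O := by
    rintro _ hz' ⟨s, hs', rfl⟩
    refine (hsub ⟨?_, ?_⟩).2
    · by_contra c
      exact hz'.2 ⟨s, ⟨hs'.1, not_lt.1 c⟩, rfl⟩
    · by_contra c
      exact hz'.1.2 ⟨s, ⟨not_lt.1 c, hs'.2⟩, rfl⟩
  refine no_root (U := ball 0 1 \ κ '' Icc b 1) (K := κ '' Icc 0 a) (z₁ := z₁)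
    (l := fun z => if z ∈ KK κ then c₁ * l₀ z else l z)
    (isOpen_ball.sdiff (isCompact_Icc.image_of_continuousOn (h.cont.mono s2)).isClosed)
    (NC_slit hb (h.cont.mono s2) h.stop) (fun c => ?_)
    (isCompact_Icc.image_of_continuousOn (h.cont.mono s1))
    (isPreconnected_Icc.image _ (h.cont.mono s1)) ?_ ⟨0, ⟨le_rfl, ha⟩, h.start⟩
    (fun z hz' => ContinuousAt.continuousWithinAt ?_) fun z hz' => ?_
  · have : (1 : ℂ) ∈ ball (0 : ℂ) 1 \ κ '' Icc b 1 := c ▸ mem_univ _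
    simpa using this.1
  · rintro _ ⟨s, hs', rfl⟩
    refine ⟨mem_ball_zero_iff.2 (h.mem s ⟨hs'.1, hs'.2.trans_lt (hlt.trans_le hb)⟩).2, ?_⟩
    rintro ⟨s', hs'', e'⟩
    have := h.inj (s2 hs'') (s1 hs') e'
    linarith [hs'.2, hs''.1]
  · by_cases hK : z ∈ KK κ
    · have hzO := hin z hz' hK
      have hn : O ∈ 𝓝 z := mem_interior_iff_mem_nhds.1 hzO
      refine ((hl₀.continuousAt (mem_of_superset hn hOV)).const_mul c₁).congr ?_
      filter_upwards [hn] with y hy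
      split_ifs with c
      · rfl
      · exact (hO' y ⟨hy, c⟩).symm
    · have hn := hW.mem_nhds ⟨hz'.1.1, hK⟩
      refine (hl.continuousAt hn).congr ?_
      filter_upwards [hn] with y hy
      rw [if_neg hy.2]
  · split_ifs with hK
    · rw [mul_pow, hc1, one_mul, hs₀ z (hOV (interior_subset (hin z hz' hK)))]
    · exact hs z ⟨hz'.1.1, hK⟩

end Pool.Agent.P.MP_3bd355_an
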