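import Pool.Agent.P.MP_3bd355_an.Z.Stmts

/-! The case `A = 0`: package TF1. -/

open Set Filter Metric Complex InnerProductSpace MeasureTheory
open scoped Topology ComplexConjugate Real

namespace Pool.Agent.P.MP_3bd355_an

namespace Tf1P

theorem win {Λ : ℝ} {w : ℂ} (h1 : -(2 * Λ) < w.re) (h2 : w.re < 2 * Λ) :
    Real.exp (-Λ) ^ 2 < ‖exp w‖ ∧ Real.exp (-Λ) ^ 2 * ‖exp w‖ < 1 := by
  rw [norm_exp, ← Real.exp_nat_mul, ← Real.exp_add, Real.exp_lt_exp, Real.exp_lt_one_iff]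
  constructor <;> push_cast <;> linarith

theorem ana0 {Λ : ℝ} (hΛ : 0 < Λ) {a u : ℂ} (h1 : -(2 * Λ) < (a - u).re) (h2 : (a - u).re < 2 * Λ) :
    AnalyticAt ℂ (fun u => vk0 (Real.exp (-Λ)) (exp (a - u))) u :=
  AnalyticAt.comp (f := fun u => exp (a - u))
    (vk0_analytic (Real.exp_pos _) (Real.exp_lt_one_iff.2 (by linarith)) (win h1 h2).1 (win h1 h2).2)
    (by fun_prop)

theorem ana1 {Λ : ℝ} (hΛ : 0 < Λ) {a u : ℂ} (h1 : -(2 * Λ) < (a - u).re) (h2 : (a - u).re < 2 * Λ)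
    (h3 : exp (a - u) ≠ 1) : AnalyticAt ℂ (fun u => vk (Real.exp (-Λ)) (exp (a - u))) u :=
  AnalyticAt.comp (f := fun u => exp (a - u))
    (vk_analytic (Real.exp_pos _) (Real.exp_lt_one_iff.2 (by linarith)) (win h1 h2).1 (win h1 h2).2
      h3) (by fun_prop)

theorem ne_one_re {w : ℂ} (h : w.re < 0) : exp w ≠ 1 := fun e => by
  have := norm_exp w
  rw [e, norm_one, eq_comm, Real.exp_eq_one_iff] at this
  exact h.ne this

theorem ne_one_im {w : ℂ} (h0 : w ≠ 0) (h1 : -π ≤ w.im) (h2 : w.im ≤ 0) : exp w ≠ 1 := fun e => by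
  obtain ⟨n, hn⟩ := exp_eq_one_iff.1 e
  have h3 : w.im = n * (2 * π) := by simp [hn]
  have hp := Real.pi_pos
  have h4 : (-1 : ℝ) < n := by
    by_contra h
    nlinarith [not_lt.1 h]
  have h5 : (n : ℝ) < 1 := by
    by_contra h
    nlinarith [not_lt.1 h]
  have h6 : n = 0 := by
    have h7 : (-1 : ℤ) < n := by exact_mod_cast h4
    have h8 : n < 1 := by exact_mod_cast h5
    omega
  exact h0 (by simp [hn, h6])

theorem ana_dslope {f : ℂ → ℂ} {a : ℂ} (h : AnalyticAt ℂ f a) : AnalyticAt ℂ (dslope f a) a := by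
  obtain ⟨p, hp⟩ := h
  exact ⟨_, hp.has_fpower_series_dslope_fslope⟩

theorem pole (a : ℂ) : ∃ R : ℂ → ℂ, AnalyticAt ℂ R a ∧ ∀ᶠ u in 𝓝[≠] a,
    (1 + exp (a - u)) / (1 - exp (a - u)) = 2 / (u - a) + R u := by
  have h1 : AnalyticAt ℂ (fun u => 1 - exp (a - u)) a := by fun_prop
  have h2 := ana_dslope h1
  have h3 : dslope (fun u => 1 - exp (a - u)) a a = 1 := by
    rw [dslope_same]
    have : HasDerivAt (fun u => 1 - exp (a - u)) (-(exp (a - a) * (-1))) a :=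
      (((hasDerivAt_id a).const_sub a).cexp).const_sub 1
    simpa using this.deriv
  have h4 := ana_dslope (h2.inv (by rw [h3]; exact one_ne_zero))
  refine ⟨fun u => 2 * dslope (dslope (fun u => 1 - exp (a - u)) a)⁻¹ a u - 1, by fun_prop, ?_⟩
  filter_upwards [self_mem_nhdsWithin, nhdsWithin_le_nhds
    (h2.continuousAt.eventually_ne (by rw [h3]; exact one_ne_zero : _ ≠ (0 : ℂ)))] with u hu h5
  have h6 : u - a ≠ 0 := sub_ne_zero.2 hu
  rw [dslope_of_ne _ hu, slope_def_field, Pi.inv_apply, Pi.inv_apply, h3]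
  rw [dslope_of_ne _ hu, slope_def_field, sub_self, exp_zero, sub_self, sub_zero] at h5 ⊢
  have h7 : 1 - exp (a - u) ≠ 0 := fun e => h5 (by rw [e, zero_div])
  field_simp
  ring

theorem im_Tf (B Λ u₀ : ℝ) (u : ℂ) (h : (vk (Real.exp (-Λ)) (exp (u₀ - u))).im =
    (vk (Real.exp (-Λ)) (exp (-u₀ - u))).im) : (Tf B Λ u₀ u).im = 0 := by
  rw [Tf, ← ofReal_neg, im_ofReal_mul, add_im, ofReal_im, div_ofNat_im, sub_im, h]
  simp

theorem real_vk (r : ℝ) {w : ℂ} (h : w.im = -π) : (vk r (exp w)).im = 0 := by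
  rw [← conj_eq_iff_im, ← vk_conj]
  congr 1
  rw [conj_eq_iff_im, exp_im, h]
  simp

end Tf1P

open Tf1P in
theorem z_tf1 (hVKI : Z_VKI) : Z_TF1 := by
  intro B Λ u₀ hB h0 h1
  have hΛ := h0.trans h1
  have hζ : ((Real.exp (-u₀) : ℝ) : ℂ) ∈ ann (Real.exp (-Λ)) := by
    constructor <;> rw [norm_real, Real.norm_of_nonneg (Real.exp_pos _).le]
    · exact Real.exp_lt_exp.2 (by linarith)
    · exact Real.exp_lt_one_iff.2 (by linarith)
  have e1 : ∀ u : ℂ, exp (-u) / (Real.exp (-u₀) : ℝ) = exp (u₀ - u) := fun u => by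
    rw [ofReal_exp, ← exp_sub]
    congr 1
    push_cast
    ring
  have e2 : ∀ u : ℂ, exp (-u) * conj ((Real.exp (-u₀) : ℝ) : ℂ) = exp (-u₀ - u) := fun u => by
    rw [conj_ofReal, ofReal_exp, ← exp_add]
    congr 1
    push_cast
    ring
  have a2 : ∀ u ∈ PC Λ True,
      AnalyticAt ℂ (fun u => vk (Real.exp (-Λ)) (exp (-u₀ - u))) u := fun u hu => by
    have k1 := hu.1
    have k2 := hu.2.1
    refine ana1 hΛ ?_ ?_ (ne_one_re ?_) <;> simp <;> linarith
  refine ⟨h0, h1, fun u => ?_, fun u hu hne => ?_, ?_, fun u hu h => ?_, (hVKI B Λ u₀ h0 h1).2⟩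
  · have k1 : exp (u₀ - conj u) = conj (exp (u₀ - u)) := by rw [← exp_conj]; simp
    have k2 : exp (-u₀ - conj u) = conj (exp (-u₀ - u)) := by rw [← exp_conj]; simp
    rw [Tf, Tf, k1, k2, vk_conj, vk_conj]
    simp only [map_mul, map_neg, map_add, map_div₀, map_sub, conj_ofReal, conj_ofNat]
  · have k1 := hu.1
    have k2 := hu.2.1
    have a1 : AnalyticAt ℂ (fun u => vk (Real.exp (-Λ)) (exp (u₀ - u))) u := by
      refine ana1 hΛ ?_ ?_ (ne_one_im (sub_ne_zero.2 hne.symm) ?_ ?_)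
      · simp; linarith
      · simp; linarith
      · simpa using hu.2.2.2 trivial
      · simpa using hu.2.2.1
    exact analyticAt_const.mul (analyticAt_const.add ((a1.sub (a2 u hu)).div_const))
  · obtain ⟨R, hR, e⟩ := pole (u₀ : ℂ)
    have a1 : AnalyticAt ℂ (fun u => vk0 (Real.exp (-Λ)) (exp (u₀ - u))) u₀ := by
      refine ana0 hΛ ?_ ?_ <;> simp <;> linarith
    have a3 := a2 u₀ ⟨h0.le, h1.le, le_rfl, fun _ => Real.pi_pos.le⟩
    refine ⟨B / Λ, fun u => -(B / Λ : ℝ) * ((u₀ / Λ : ℝ) + (vk0 (Real.exp (-Λ)) (exp (u₀ - u)) +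
      R u - vk (Real.exp (-Λ)) (exp (-u₀ - u))) / 2), div_pos hB hΛ,
      analyticAt_const.mul (analyticAt_const.add (((a1.add hR).sub a3).div_const)), ?_⟩
    filter_upwards [e] with u hu
    rw [Tf, show ∀ t, vk (Real.exp (-Λ)) t = vk0 (Real.exp (-Λ)) t + (1 + t) / (1 - t) from
      fun t => by simp [vk0], hu]
    ring
  · apply im_Tf
    rcases h with h | h | h
    · have := congrArg im (vk_outer (Real.exp_pos _) hζ (z := exp (-u)) (by simp [norm_exp, h]))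
      rw [e1, e2] at this
      simpa using this.symm
    · have := congrArg im (vk_inner (Real.exp_pos _) hζ (z := exp (-u)) (by simp [norm_exp, h]))
      rw [e1, e2] at this
      simpa using this.symm
    · rw [real_vk, real_vk] <;> simp [h]

end Pool.Agent.P.MP_3bd355_an
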