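import Pool.Agent.P.MP_3bd355_an.Z.Stmts

/-! The case `A = 0`: package TF2. -/

open Set Filter Metric Complex InnerProductSpace MeasureTheory
open scoped Topology ComplexConjugate Real

namespace Pool.Agent.P.MP_3bd355_an

namespace Tf2P

variable {Λ u₀ : ℝ} {T : ℂ → ℂ}

theorem bot (h : TA Λ u₀ T) (x : ℝ) : (T x).im = 0 := by
  have h1 := h.symm x
  rw [conj_ofReal] at h1
  exact conj_eq_iff_im.1 h1.symm

theorem ne0 {u : ℂ} (hu : u ∈ PP Λ True) : u ≠ u₀ := fun e => by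
  have := hu.2.2.1
  simp [e] at this

theorem harm (h : TA Λ u₀ T) : HarmonicOnNhd (fun u => (T u).im) (PP Λ True) := fun _ hu =>
  (h.ana _ (PP_sub_PC _ _ hu) (ne0 hu)).harmonicAt_im

theorem im_pole {k : ℝ} (w : ℂ) : (-(k : ℂ) / w).im = k * w.im / normSq w := by
  simp [div_im]
  ring

theorem res_im (h : TA Λ u₀ T) {k : ℝ} {R : ℂ → ℂ} (hR : AnalyticAt ℂ R u₀)
    (e : ∀ᶠ u : ℂ in 𝓝[≠] (u₀ : ℂ), T u = -k / (u - u₀) + R u) : (R u₀).im = 0 := by
  have h1 : Tendsto (fun t : ℝ => (t : ℂ)) (𝓝[≠] u₀) (𝓝[≠] (u₀ : ℂ)) :=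
    tendsto_nhdsWithin_iff.2 ⟨(continuous_ofReal.tendsto u₀).mono_left nhdsWithin_le_nhds,
      eventually_mem_nhdsWithin.mono fun t ht e => ht (ofReal_injective e)⟩
  have h2 : Tendsto (fun t : ℝ => (R t).im) (𝓝[≠] u₀) (𝓝 (R u₀).im) :=
    ((continuous_im.tendsto _).comp hR.continuousAt.tendsto).comp
      (h1.mono_right nhdsWithin_le_nhds)
  refine tendsto_nhds_unique h2 (tendsto_const_nhds.congr' ?_)
  filter_upwards [h1.eventually e] with t ht
  have h3 := bot h t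
  rw [ht, add_im, im_pole] at h3
  simpa using h3.symm

theorem nonneg (h : TA Λ u₀ T) : ∀ u ∈ PP Λ True, 0 ≤ (T u).im := by
  obtain ⟨k, R, hk, hR, e⟩ := h.pole
  have hb : Bornology.IsBounded (PP Λ True) := (isCompact_PC Λ True π).isBounded.subset
    fun u hu => ⟨PP_sub_PC _ _ hu, (hu.2.2.2 trivial).le⟩
  have hs : Sub (fun u => -(T u).im) (PP Λ True) := Sub.of_harm (Sub2P.neg_harm (harm h))
  intro u hu
  refine neg_nonpos.1 (hs.mp0 (isOpen_PP _ _) hb (c := 0) (fun p hp ε hε => ?_) u hu)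
  rw [(isOpen_PP _ _).frontier_eq] at hp
  have h1 : p ∈ PC Λ True := closure_minimal (PP_sub_PC _ _) (isClosed_PC _ _) hp.1
  by_cases h0 : p = u₀
  · subst h0
    have h2 : ContinuousAt (fun z => -(R z).im) (u₀ : ℂ) :=
      (continuous_im.continuousAt.comp hR.continuousAt).neg
    have h3 : -(R u₀).im < 0 + ε := by
      rw [res_im h hR e]
      simpa using hε
    filter_upwards [nhdsWithin_le_nhds (h2.eventually (gt_mem_nhds h3)), self_mem_nhdsWithin,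
      nhdsWithin_mono _ (fun z hz => ne0 hz : PP Λ True ⊆ {(u₀ : ℂ)}ᶜ) e] with z h4 h5 h6
    have h7 : 0 ≤ k * (z - u₀).im / normSq (z - u₀) :=
      div_nonneg (mul_nonneg hk.le (by simpa using h5.2.2.1.le)) (normSq_nonneg _)
    rw [h6, add_im, im_pole]
    linarith
  · have h2 : ContinuousAt (fun z => -(T z).im) p :=
      (continuous_im.continuousAt.comp (h.ana p h1 h0).continuousAt).neg
    have h3 : (T p).im = 0 := by
      by_cases h4 : p.im = 0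
      · rw [← bot h p.re]
        congr 2
        exact Complex.ext rfl h4
      · refine h.real p h1 ?_
        by_contra h5
        simp only [not_or] at h5
        exact hp.2 ⟨lt_of_le_of_ne h1.1 (Ne.symm h5.1), lt_of_le_of_ne h1.2.1 h5.2.1,
          lt_of_le_of_ne h1.2.2.1 (Ne.symm h4), fun _ => lt_of_le_of_ne (h1.2.2.2 trivial) h5.2.2⟩
    exact nhdsWithin_le_nhds (h2.eventually (gt_mem_nhds (by simpa [h3] using hε)))

theorem pos (h : TA Λ u₀ T) : ∀ u ∈ PP Λ True, 0 < (T u).im := by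
  intro u hu
  refine lt_of_le_of_ne (nonneg h u hu) fun h0 => ?_
  have hz := harm_zero_of_min (isOpen_PP _ _) (convex_PP _ _).isPreconnected (harm h)
    (nonneg h) hu h0.symm
  obtain ⟨k, R, hk, hR, e⟩ := h.pole
  have h1 : Tendsto (fun t : ℝ => (u₀ : ℂ) + t * I) (𝓝[>] 0) (𝓝[≠] (u₀ : ℂ)) := by
    refine tendsto_nhdsWithin_iff.2 ⟨?_, eventually_mem_nhdsWithin.mono fun t ht e => ?_⟩
    · have hc : Continuous fun t : ℝ => (u₀ : ℂ) + t * I := by fun_prop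
      simpa using (hc.tendsto 0).mono_left nhdsWithin_le_nhds
    · have h2 := congrArg im (mem_singleton_iff.1 e)
      have h3 : 0 < t := ht
      simp at h2
      exact h3.ne' h2
  have h2 : Tendsto (fun t : ℝ => -t * (R (u₀ + t * I)).im) (𝓝[>] 0) (𝓝 (-0 * (R u₀).im)) :=
    (tendsto_id.mono_left nhdsWithin_le_nhds).neg.mul
      (((continuous_im.tendsto _).comp hR.continuousAt.tendsto).comp
        (h1.mono_right nhdsWithin_le_nhds))
  rw [neg_zero, zero_mul] at h2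
  refine hk.ne' (tendsto_nhds_unique (tendsto_const_nhds.congr' ?_) h2)
  filter_upwards [h1.eventually e, Ioo_mem_nhdsGT Real.pi_pos] with t h3 h4
  have h5 := hz (u₀ + t * I) (by simp [PP, h.u0, h.u1, h4.1, h4.2])
  have h6 := h4.1.ne'
  beta_reduce at h5
  rw [h3, add_im, im_pole, add_sub_cancel_left] at h5
  have h7 : k * ((t : ℂ) * I).im / normSq ((t : ℂ) * I) = k / t := by
    simp
    field_simp
  rw [h7] at h5
  rw [eq_neg_of_add_eq_zero_right h5]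
  field_simp

theorem side (h : TA Λ u₀ T) (p e : ℂ) {a b m : ℝ} (hm : 0 < m)
    (h1 : ∀ t ∈ Icc a b, p + e * t ∈ PC Λ True ∧ p + e * t ≠ u₀ ∧ (T (p + e * t)).im = 0)
    (h2 : ∀ η : ℂ, a < η.re → η.re < b → 0 < η.im → η.im < m → p + e * η ∈ PP Λ True) :
    (∀ t ∈ Ioo a b, 0 < (deriv T (p + e * t) * e).re) ∧
      StrictMonoOn (fun t : ℝ => (T (p + e * t)).re) (Icc a b) := by
  have hd : ∀ t ∈ Icc a b, HasDerivAt (fun η : ℂ => T (p + e * η)) (deriv T (p + e * t) * e)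
      (t : ℂ) := fun t ht => by
    have h3 : HasDerivAt (fun η : ℂ => p + e * η) e (t : ℂ) := by
      simpa using ((hasDerivAt_id (t : ℂ)).const_mul e).const_add p
    exact HasDerivAt.comp (h := fun η : ℂ => p + e * η) (t : ℂ)
      (h.ana _ (h1 t ht).1 (h1 t ht).2.1).differentiableAt.hasDerivAt h3
  have hp : ∀ t ∈ Ioo a b, 0 < (deriv T (p + e * t) * e).re := fun t ht => by
    have ht' := Ioo_subset_Icc_self ht
    have h3 : RefAt (fun η => (T (p + e * η)).im) t fun η => T (p + e * η) :=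
      ⟨AnalyticAt.comp (f := fun η : ℂ => p + e * η) (h.ana _ (h1 t ht').1 (h1 t ht').2.1)
          (by fun_prop),
        mem_of_superset (Icc_mem_nhds ht.1 ht.2) fun s hs => (h1 s hs).2.2,
        Eventually.of_forall fun _ => rfl⟩
    rw [← (hd t ht').deriv]
    refine h3.hopf ?_
    have h4 : ∀ᶠ η : ℂ in 𝓝 (t : ℂ), η.re ∈ Ioo a b :=
      continuous_re.continuousAt.eventually (isOpen_Ioo.mem_nhds (by simpa using ht))
    have h5 : ∀ᶠ η : ℂ in 𝓝 (t : ℂ), η.im < m :=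
      continuous_im.continuousAt.eventually (gt_mem_nhds (by simpa using hm))
    filter_upwards [nhdsWithin_le_nhds h4, nhdsWithin_le_nhds h5, self_mem_nhdsWithin]
      with η h6 h7 h8
    exact pos h _ (h2 η h6.1 h6.2 h8 h7)
  refine ⟨hp, strictMonoOn_of_deriv_pos (convex_Icc a b)
    (fun t ht => (hd t ht).real_of_complex.continuousAt.continuousWithinAt) fun t ht => ?_⟩
  rw [interior_Icc] at ht
  rw [(hd t (Ioo_subset_Icc_self ht)).real_of_complex.deriv]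
  exact hp t ht

theorem bottom (h : TA Λ u₀ T) {a b : ℝ} (ha : 0 ≤ a) (hab : a ≤ b) (hb : b ≤ Λ)
    (h0 : u₀ < a ∨ b < u₀) : (T a).re ≤ (T b).re := by
  have h1 := (side h 0 1 (a := a) (b := b) Real.pi_pos (fun t ht => ?_) fun η h1 h2 h3 h4 => ?_).2
  · simpa using h1.monotoneOn ⟨le_rfl, hab⟩ ⟨hab, le_rfl⟩ hab
  · simp only [zero_add, one_mul]
    refine ⟨⟨ha.trans ht.1, ht.2.trans hb, le_rfl, fun _ => Real.pi_pos.le⟩, fun e => ?_, bot h t⟩
    have h2 := ofReal_injective e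
    rcases h0 with h0 | h0 <;> linarith [ht.1, ht.2]
  · simp only [zero_add, one_mul]
    exact ⟨ha.trans_lt h1, h2.trans_le hb, h3, fun _ => h4⟩

theorem right (h : TA Λ u₀ T) {u : ℂ} (hu : u ∈ PC Λ True) (e : u.re = Λ) :
    (T u).re ≤ (T (Λ + π * I)).re := by
  have hΛ := h.u0.trans h.u1
  have h1 := (side h Λ I (a := 0) (b := π) hΛ (fun t ht => ?_) fun η h1 h2 h3 h4 => ?_).2
  · have h2 := h1.monotoneOn ⟨hu.2.2.1, hu.2.2.2 trivial⟩ ⟨Real.pi_pos.le, le_rfl⟩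
      (hu.2.2.2 trivial)
    beta_reduce at h2
    rwa [mul_comm, mul_comm I, ← e, re_add_im, e] at h2
  · have h2 : (Λ : ℂ) + I * t ∈ PC Λ True := by simp [PC, hΛ.le, ht.1, ht.2]
    refine ⟨h2, fun e => h.u1.ne' ?_, h.real _ h2 (by simp)⟩
    simpa using congrArg re e
  · simp [PP, h1, h2, h3, h4]

theorem left (h : TA Λ u₀ T) {u : ℂ} (hu : u ∈ PC Λ True) (e : u.re = 0) :
    (T (π * I)).re ≤ (T u).re := by
  have hΛ := h.u0.trans h.u1
  have h1 := (side h 0 (-I) (a := -π) (b := 0) hΛ (fun t ht => ?_) fun η h1 h2 h3 h4 => ?_).2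
  · have h2 := h1.monotoneOn (a := -π) (b := -u.im) ⟨le_rfl, neg_nonpos.2 Real.pi_pos.le⟩
      ⟨neg_le_neg (hu.2.2.2 trivial), neg_nonpos.2 hu.2.2.1⟩ (neg_le_neg (hu.2.2.2 trivial))
    have h3 : (0 : ℂ) + -I * (-u.im : ℝ) = u := Complex.ext (by simp [e]) (by simp)
    have h4 : (0 : ℂ) + -I * (-π : ℝ) = π * I := Complex.ext (by simp) (by simp)
    beta_reduce at h2
    rwa [h3, h4] at h2
  · have h2 : (0 : ℂ) + -I * t ∈ PC Λ True := by
      simp [PC, hΛ.le, ht.2, neg_le.1 ht.1]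
    refine ⟨h2, fun e => h.u0.ne ?_, h.real _ h2 (by simp)⟩
    simpa using congrArg re e
  · simp [PP, h2, h3, h4, neg_lt.1 h1]

theorem top_mem (x : ℝ) (hx : x ∈ Icc 0 Λ) : (x : ℂ) + π * I ∈ PC Λ True := by
  simp [PC, hx.1, hx.2, Real.pi_pos.le]

theorem top_ne (x : ℝ) : (x : ℂ) + π * I ≠ u₀ := fun e =>
  Real.pi_pos.ne' (by simpa using congrArg im e)

theorem top (h : TA Λ u₀ T) : (∀ x ∈ Ioo 0 Λ, deriv T (x + π * I) ≠ 0) ∧
    StrictAntiOn (fun x : ℝ => (T (x + π * I)).re) (Icc 0 Λ) := by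
  have e1 : ∀ x : ℝ, π * I + -1 * (x : ℂ) = (-x : ℝ) + π * I := fun x => by
    push_cast
    ring
  obtain ⟨h1, h2⟩ := side h (π * I) (-1) (a := -Λ) (b := 0) Real.pi_pos (fun t ht => by
    have h3 := top_mem (-t) ⟨neg_nonneg.2 ht.2, neg_le.1 ht.1⟩
    rw [e1]
    exact ⟨h3, top_ne _, h.real _ h3 (by simp)⟩) fun η h1 h2 h3 h4 => by
      simp [PP, h2, h3, h4, neg_lt.1 h1]
  refine ⟨fun x hx h0 => ?_, fun x hx y hy hxy => ?_⟩
  · have h3 := h1 (-x) ⟨neg_lt_neg hx.2, neg_lt_zero.2 hx.1⟩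
    rw [e1, neg_neg, h0] at h3
    simp at h3
  · have h3 := h2 (a := -y) (b := -x) ⟨neg_le_neg hy.2, neg_nonpos.2 hy.1⟩
      ⟨neg_le_neg hx.2, neg_nonpos.2 hx.1⟩ (neg_lt_neg hxy)
    beta_reduce at h3
    rwa [e1, e1, neg_neg, neg_neg] at h3

end Tf2P

open Tf2P in
theorem z_tf2 : Z_TF2 := by
  intro Λ u₀ T h
  have hΛ := h.u0.trans h.u1
  obtain ⟨hd, ha⟩ := top h
  have hc : ContinuousOn (fun x : ℝ => (T (x + π * I)).re) (Icc 0 Λ) := fun x hx =>
    (continuous_re.continuousAt.comp (ContinuousAt.comp (f := fun x : ℝ => (x : ℂ) + π * I)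
      (h.ana _ (top_mem x hx) (top_ne x)).continuousAt (by fun_prop))).continuousWithinAt
  have hi := hc.intervalIntegrable_of_Icc (μ := volume) hΛ.le
  have h0 : (0 : ℝ) ∈ Icc 0 Λ := ⟨le_rfl, hΛ.le⟩
  have h1 : Λ ∈ Icc 0 Λ := ⟨hΛ.le, le_rfl⟩
  have hL : 0 < (T ((0 : ℝ) + π * I)).re := by
    by_contra c
    have h2 := intervalIntegral.intervalIntegral_pos_of_pos_on hi.neg (fun x hx =>
      neg_pos.2 ((ha h0 (Ioo_subset_Icc_self hx) hx.1).trans_le (not_lt.1 c))) hΛ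
    simp only [Pi.neg_apply, intervalIntegral.integral_neg, h.sp, neg_zero, lt_irrefl] at h2
  have hR : (T (Λ + π * I)).re < 0 := by
    by_contra c
    have h2 := intervalIntegral.intervalIntegral_pos_of_pos_on hi (fun x hx =>
      (not_lt.1 c).trans_lt (ha (Ioo_subset_Icc_self hx) h1 hx.2)) hΛ
    exact h2.ne' h.sp
  obtain ⟨c, hc0, hcz⟩ := intermediate_value_Ioo' hΛ.le hc ⟨hR, hL⟩
  beta_reduce at hcz
  have hcI := Ioo_subset_Icc_self hc0
  have him : ∀ x ∈ Icc 0 Λ, (T ((x : ℝ) + π * I)).im = 0 := fun x hx =>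
    h.real _ (top_mem x hx) (by simp)
  have hlf : ∀ u ∈ PC Λ True, u.re = 0 → (T u).im = 0 ∧ 0 < (T u).re := fun u hu e =>
    ⟨h.real u hu (Or.inl e), lt_of_lt_of_le (by simpa using hL) (left h hu e)⟩
  have hrg : ∀ u ∈ PC Λ True, u.re = Λ → (T u).im = 0 ∧ (T u).re < 0 := fun u hu e =>
    ⟨h.real u hu (Or.inr (Or.inl e)), (right h hu e).trans_lt hR⟩
  refine ⟨c, h.u0, h.u1, h.symm, h.ana, ?_, pos h, fun x hx => ⟨bot h x, ?_⟩,
    fun x hx => ⟨bot h x, ?_⟩, hlf, hrg,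
    fun _ => ⟨hc0.1, hc0.2, Complex.ext hcz (him c hcI), hd c hc0⟩, fun _ x hx => ?_,
    fun _ x hx => ?_, fun _ => h.sp, fun c => absurd trivial c⟩
  · obtain ⟨k, R, hk, hR, e⟩ := h.pole
    have h2 : ContinuousAt (fun u : ℂ => ‖u - u₀‖ * ‖R u‖) (u₀ : ℂ) :=
      (continuousAt_id.sub continuousAt_const).norm.mul hR.continuousAt.norm
    refine ⟨k + 1, ?_⟩
    filter_upwards [e, self_mem_nhdsWithin,
      nhdsWithin_le_nhds (h2.eventually (gt_mem_nhds (a := 1) (by simp)))] with u h3 h4 h5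
    have h6 : ‖u - u₀‖ ≠ 0 := norm_ne_zero_iff.2 (sub_ne_zero.2 h4)
    have h7 : ‖u - u₀‖ * ‖-(k : ℂ) / (u - u₀)‖ = k := by
      rw [norm_div, norm_neg, norm_real, Real.norm_of_nonneg hk.le]
      field_simp
    rw [h3]
    nlinarith [mul_le_mul_of_nonneg_left (norm_add_le (-(k : ℂ) / (u - u₀)) (R u))
      (norm_nonneg (u - u₀))]
  · exact (hlf (0 : ℝ) ⟨le_rfl, hΛ.le, le_rfl, fun _ => Real.pi_pos.le⟩ rfl).2.trans_le
      (bottom h le_rfl hx.1 (hx.2.le.trans h.u1.le) (Or.inr hx.2))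
  · exact (bottom h (h.u0.le.trans hx.1.le) hx.2 le_rfl (Or.inl hx.1)).trans_lt
      (hrg (Λ : ℝ) ⟨hΛ.le, le_rfl, le_rfl, fun _ => Real.pi_pos.le⟩ rfl).2
  · have h2 : x ∈ Icc 0 Λ := ⟨hx.1, hx.2.le.trans hc0.2.le⟩
    exact ⟨him x h2, hcz.symm.trans_lt (ha h2 hcI hx.2)⟩
  · have h2 : x ∈ Icc 0 Λ := ⟨hc0.1.le.trans hx.1.le, hx.2⟩
    exact ⟨him x h2, (ha hcI h2 hx.1).trans_eq hcz⟩

end Pool.Agent.P.MP_3bd355_an
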