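import Pool.Agent.P.MP_3bd355_an.Z.Stmts

/-! The case `A = 0`: package TH. -/

open Set Filter Metric Complex InnerProductSpace MeasureTheory
open scoped Topology ComplexConjugate Real

namespace Pool.Agent.P.MP_3bd355_an

theorem th_re (u : ℂ) (a : ℝ) :
    (cos u - cos a).re = Real.cos u.re * Real.cosh u.im - Real.cos a := by
  rw [sub_re, cos_eq, ← ofReal_cos, ← ofReal_cos, ← ofReal_sin, ← ofReal_cosh, ← ofReal_sinh]
  simp only [sub_re, mul_re, ofReal_re, ofReal_im, I_re, I_im, mul_im]
  ring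

theorem th_im (u : ℂ) (a : ℝ) :
    (cos u - cos a).im = -(Real.sin u.re * Real.sinh u.im) := by
  rw [sub_im, cos_eq, ← ofReal_cos, ← ofReal_cos, ← ofReal_sin, ← ofReal_cosh, ← ofReal_sinh]
  simp only [sub_im, mul_re, ofReal_re, ofReal_im, I_re, I_im, mul_im]
  ring

theorem th_div_pos {k : ℝ} (hk : 0 < k) {w : ℂ} (h1 : w.im = 0) (h2 : 0 < w.re) :
    ((k : ℂ) / w).im = 0 ∧ 0 < ((k : ℂ) / w).re := by
  have : w = (w.re : ℂ) := by apply Complex.ext <;> simp [h1]
  rw [this, ← ofReal_div]
  exact ⟨ofReal_im _, by rw [ofReal_re]; exact div_pos hk h2⟩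

theorem th_div_neg {k : ℝ} (hk : 0 < k) {w : ℂ} (h1 : w.im = 0) (h2 : w.re < 0) :
    ((k : ℂ) / w).im = 0 ∧ ((k : ℂ) / w).re < 0 := by
  have : w = (w.re : ℂ) := by apply Complex.ext <;> simp [h1]
  rw [this, ← ofReal_div]
  exact ⟨ofReal_im _, by rw [ofReal_re]; exact div_neg_of_pos_of_neg hk h2⟩

theorem z_th : Z_TH := by
  intro B a hB h0 h1
  have hs : 0 < Real.sin a := Real.sin_pos_of_pos_of_lt_pi h0 h1
  have hk : 0 < B / π * Real.sin a := mul_pos (div_pos hB Real.pi_pos) hs
  have hc1 : Real.cos a < 1 := by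
    have := Real.cos_lt_cos_of_nonneg_of_le_pi le_rfl h1.le h0
    rwa [Real.cos_zero] at this
  have hc2 : -1 < Real.cos a := by
    have := Real.cos_lt_cos_of_nonneg_of_le_pi h0.le le_rfl h1
    rwa [Real.cos_pi] at this
  have hne : ∀ u ∈ PC π False, u ≠ (a : ℂ) → cos u - cos a ≠ 0 := by
    rintro u ⟨p1, p2, p3, -⟩ hu h
    have e1 := th_re u a
    have e2 := th_im u a
    rw [h, zero_re] at e1
    rw [h, zero_im] at e2
    have hch := Real.one_le_cosh u.im
    rcases p3.eq_or_lt with q | q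
    · rw [← q, Real.cosh_zero, mul_one] at e1
      apply hu
      have : u.re = a := Real.injOn_cos ⟨p1, p2⟩ ⟨h0.le, h1.le⟩ (by linarith)
      apply Complex.ext <;> simp [this, ← q]
    · have hsh : 0 < Real.sinh u.im := Real.sinh_pos_iff.2 q
      have hz : Real.sin u.re = 0 := by
        have : Real.sin u.re * Real.sinh u.im = 0 := by linarith
        exact (mul_eq_zero.1 this).resolve_right hsh.ne'
      rcases p1.eq_or_lt with r | r
      · rw [← r, Real.cos_zero] at e1
        linarith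
      · rcases p2.eq_or_lt with t | t
        · rw [t, Real.cos_pi] at e1
          linarith
        · exact (Real.sin_pos_of_pos_of_lt_pi r t).ne' hz
  refine ⟨h0, h1, fun u => ?_, fun u hu hua => ?_, ?_, ?_, ?_, ?_, ?_, ?_, False.elim, False.elim,
    False.elim, False.elim, fun _ => ?_⟩
  · unfold Th
    rw [map_div₀, map_sub, conj_ofReal, ← cos_conj, ← cos_conj, conj_ofReal]
  · unfold Th
    exact analyticAt_const.div (by fun_prop) (hne u hu hua)
  · have hd : ContinuousAt (dslope cos (a : ℂ)) a :=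
      continuousAt_dslope_same.2 (differentiable_cos _)
    have hv : dslope cos (a : ℂ) a = -(Real.sin a : ℂ) := by
      rw [dslope_same, Complex.deriv_cos, ofReal_sin]
    have hn : Real.sin a / 2 < ‖dslope cos (a : ℂ) a‖ := by
      rw [hv, norm_neg, norm_real, Real.norm_eq_abs, abs_of_pos hs]
      linarith
    have ev : ∀ᶠ u : ℂ in 𝓝 (a : ℂ), Real.sin a / 2 < ‖dslope cos (a : ℂ) u‖ :=
      hd.norm.eventually (lt_mem_nhds hn)
    refine ⟨B / π * Real.sin a / (Real.sin a / 2), ?_⟩
    filter_upwards [nhdsWithin_le_nhds ev, self_mem_nhdsWithin] with u hu hua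
    have hua' : u - a ≠ 0 := sub_ne_zero.2 hua
    have e : cos u - cos a = (u - a) * dslope cos (a : ℂ) u := by
      rw [← smul_eq_mul, sub_smul_dslope]
    unfold Th
    have hp : 0 < ‖u - (a : ℂ)‖ := norm_pos_iff.2 hua'
    rw [e, norm_div, norm_mul, norm_real, Real.norm_eq_abs, abs_of_pos hk, ← mul_div_assoc,
      mul_div_mul_left _ _ hp.ne']
    exact div_le_div_of_nonneg_left hk.le (by linarith) hu.le
  · rintro u ⟨p1, p2, p3, -⟩
    have hu : u ≠ (a : ℂ) := by
      rintro rfl
      simp at p3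
    have hw := hne u ⟨p1.le, p2.le, p3.le, False.elim⟩ hu
    unfold Th
    rw [div_im, ofReal_im, ofReal_re, th_im, zero_mul, zero_div, zero_sub, ← neg_div]
    refine div_pos ?_ (normSq_pos.2 hw)
    have := mul_pos (Real.sin_pos_of_pos_of_lt_pi p1 p2) (Real.sinh_pos_iff.2 p3)
    nlinarith
  · rintro x ⟨p1, p2⟩
    refine th_div_pos hk (by rw [th_im]; simp) ?_
    rw [th_re, ofReal_re, ofReal_im, Real.cosh_zero, mul_one, sub_pos]
    exact Real.cos_lt_cos_of_nonneg_of_le_pi p1 h1.le p2
  · rintro x ⟨p1, p2⟩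
    refine th_div_neg hk (by rw [th_im]; simp) ?_
    rw [th_re, ofReal_re, ofReal_im, Real.cosh_zero, mul_one, sub_neg]
    exact Real.cos_lt_cos_of_nonneg_of_le_pi h0.le p2 p1
  · intro u _ hu
    refine th_div_pos hk (by rw [th_im, hu]; simp) ?_
    rw [th_re, hu, Real.cos_zero]
    have := Real.one_le_cosh u.im
    linarith
  · intro u _ hu
    refine th_div_neg hk (by rw [th_im, hu]; simp) ?_
    rw [th_re, hu, Real.cos_pi]
    have := Real.one_le_cosh u.im
    linarith
  · refine ⟨B / π * Real.sin a * 20, fun u _ hu => ?_⟩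
    have hE : (2.7 : ℝ) ≤ Real.exp u.im :=
      le_trans (by have := Real.exp_one_gt_d9; linarith) (Real.exp_le_exp.2 hu)
    have hEE : Real.exp u.im * Real.exp (-u.im) = 1 := by rw [← Real.exp_add]; simp
    have hp := Real.exp_pos (-u.im)
    have hsh : Real.sinh u.im ≤ ‖cos u‖ := by
      have e1 := th_re u 0
      have e2 := th_im u 0
      simp only [ofReal_zero, Complex.cos_zero, Real.cos_zero, sub_re, sub_im, one_re, one_im,
        sub_zero, sub_left_inj] at e1 e2
      refine abs_le_of_sq_le_sq' ?_ (norm_nonneg _) |>.2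
      rw [← normSq_eq_norm_sq, normSq_apply, e1, e2]
      have a1 := Real.sin_sq_add_cos_sq u.re
      have a2 := Real.cosh_sq u.im
      nlinarith [sq_nonneg (Real.cos u.re)]
    have hca : ‖cos (a : ℂ)‖ ≤ 1 := by
      rw [← ofReal_cos, norm_real, Real.norm_eq_abs]
      exact Real.abs_cos_le_one a
    have hlow : Real.exp u.im / 20 ≤ ‖cos u - cos a‖ := by
      have b1 := norm_sub_norm_le (cos u) (cos (a : ℂ))
      rw [Real.sinh_eq] at hsh
      have b2 : Real.exp (-u.im) ≤ 0.371 := by nlinarith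
      linarith
    unfold Th
    rw [norm_div, norm_real, Real.norm_eq_abs, abs_of_pos hk]
    calc _ ≤ B / π * Real.sin a / (Real.exp u.im / 20) :=
          div_le_div_of_nonneg_left hk.le (by linarith) hlow
      _ = _ := by rw [Real.exp_neg]; field_simp

end Pool.Agent.P.MP_3bd355_an
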