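import Pool.Agent.P.MP_3bd355_an.Z.Stmts

/-! The case `A = 0`: package TON. -/

open Set Filter Metric Complex InnerProductSpace MeasureTheory
open scoped Topology ComplexConjugate Real

namespace Pool.Agent.P.MP_3bd355_an

namespace TonP

/-- An open rectangle. -/
def Rc (a b c d : ℝ) : Set ℂ := measurableEquivRealProd ⁻¹' (Ioo a b ×ˢ Ioo c d)

theorem mem_Rc {a b c d : ℝ} {ζ : ℂ} :
    ζ ∈ Rc a b c d ↔ (a < ζ.re ∧ ζ.re < b) ∧ c < ζ.im ∧ ζ.im < d := by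
  simp [Rc]

theorem meas_Rc (a b c d : ℝ) : MeasurableSet (Rc a b c d) :=
  measurableEquivRealProd.measurable (measurableSet_Ioo.prod measurableSet_Ioo)

theorem rect (a b c d : ℝ) (h : ℂ → ENNReal) (hm : AEMeasurable h (volume.restrict (Rc a b c d))) :
    ∫⁻ ζ in Rc a b c d, h ζ = ∫⁻ y in Ioo c d, ∫⁻ t in Ioo a b, h (t + y * I) := by
  have mp : MeasurePreserving measurableEquivRealProd (volume.restrict (Rc a b c d))
      ((volume.restrict (Ioo a b)).prod (volume.restrict (Ioo c d))) := by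
    rw [Measure.prod_restrict]
    exact volume_preserving_equiv_real_prod.restrict_preimage_emb
      measurableEquivRealProd.measurableEmbedding _
  have ms := mp.symm measurableEquivRealProd
  have e : ∀ p : ℝ × ℝ, measurableEquivRealProd.symm p = p.1 + p.2 * I := fun p => by
    apply Complex.ext <;> simp
  rw [← ms.lintegral_comp_emb measurableEquivRealProd.symm.measurableEmbedding h,
    lintegral_prod_symm (fun p => h (measurableEquivRealProd.symm p))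
      (hm.comp_quasiMeasurePreserving ms.quasiMeasurePreserving)]
  simp only [e]

theorem line (a : ℝ) : volume {ζ : ℂ | ζ.im = a} = 0 := by
  have e : {ζ : ℂ | ζ.im = a} = measurableEquivRealProd ⁻¹' (univ ×ˢ {a}) := by
    ext ζ; simp
  rw [e, volume_preserving_equiv_real_prod.measure_preimage_equiv, Measure.volume_eq_prod,
    Measure.prod_prod]
  simp

end TonP

open TonP in
theorem z_ton : Z_TON := by
  intro a₁ a₃ b₃ b₂ h hs hm
  obtain ⟨h3, h4⟩ := hs.nonneg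
  have h1 := hs.1
  have s1 : Rc 0 (2 * (b₃ + b₂)) 0 a₁ ⊆ DD2 a₁ a₃ b₃ b₂ := fun ζ hζ => by
    rw [mem_Rc] at hζ
    exact ⟨hζ.2.1, Or.inl ⟨hζ.1.1, hζ.1.2, hζ.2.2⟩⟩
  have s2 : Rc b₃ (b₃ + 2 * b₂) a₁ (a₁ + a₃) ⊆ DD2 a₁ a₃ b₃ b₂ := fun ζ hζ => by
    rw [mem_Rc] at hζ
    exact ⟨h1.trans hζ.2.1, Or.inr ⟨hζ.1.1, hζ.1.2, hζ.2.2⟩⟩
  have ae : DD2 a₁ a₃ b₃ b₂ =ᵐ[volume]
      (Rc 0 (2 * (b₃ + b₂)) 0 a₁ ∪ Rc b₃ (b₃ + 2 * b₂) a₁ (a₁ + a₃) : Set ℂ) := by
    refine ae_eq_set.2 ⟨measure_mono_null (fun ζ hζ => ?_) (line a₁), ?_⟩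
    · obtain ⟨⟨i0, hc⟩, hn⟩ := hζ
      by_contra hne
      apply hn
      rcases lt_or_gt_of_ne hne with hl | hl
      · refine Or.inl (mem_Rc.2 ⟨?_, i0, hl⟩)
        rcases hc with hc | hc
        · exact ⟨hc.1, hc.2.1⟩
        · constructor <;> linarith [hc.1, hc.2.1]
      · rcases hc with hc | hc
        · exact absurd hc.2.2 (not_lt.2 hl.le)
        · exact Or.inr (mem_Rc.2 ⟨⟨hc.1, hc.2.1⟩, hl, hc.2.2⟩)
    · rw [sdiff_eq_empty.2 (union_subset s1 s2), measure_empty]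
  have dj : Disjoint (Rc 0 (2 * (b₃ + b₂)) 0 a₁) (Rc b₃ (b₃ + 2 * b₂) a₁ (a₁ + a₃)) :=
    Set.disjoint_left.2 fun ζ e1 e2 => by
      rw [mem_Rc] at e1 e2
      exact lt_asymm e1.2.2 e2.2.1
  rw [Measure.restrict_congr_set ae, lintegral_union (meas_Rc _ _ _ _) dj,
    rect _ _ _ _ h (hm.mono_measure (Measure.restrict_mono s1 le_rfl)),
    rect _ _ _ _ h (hm.mono_measure (Measure.restrict_mono s2 le_rfl))]

end Pool.Agent.P.MP_3bd355_an
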