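import Pool.Agent.P.MP_3bd355_an.Z.Stmts

/-! The case `A = 0`: package UH. -/

open Set Filter Metric Complex InnerProductSpace MeasureTheory
open scoped Topology ComplexConjugate Real

namespace Pool.Agent.P.MP_3bd355_an

namespace UhP

open Classical in
/-- the folded height -/
noncomputable def ht (fin : Prop) (y : ℝ) : ℝ := if fin then Real.arccos (Real.cos y) else |y|

/-- the folding map -/
noncomputable def fo (fin : Prop) (u : ℂ) : ℂ := u.re + ht fin u.im * I

theorem continuous_ht (fin : Prop) : Continuous (ht fin) := by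
  unfold ht
  by_cases h : fin
  · simp only [if_pos h]; exact Real.continuous_arccos.comp Real.continuous_cos
  · simp only [if_neg h]; exact continuous_abs

theorem continuous_fo (fin : Prop) : Continuous (fo fin) := by
  have := continuous_ht fin
  unfold fo
  fun_prop

theorem fo_re (fin : Prop) (u : ℂ) : (fo fin u).re = u.re := by simp [fo]

theorem fo_im (fin : Prop) (u : ℂ) : (fo fin u).im = ht fin u.im := by simp [fo]

theorem ht_neg (fin : Prop) (y : ℝ) : ht fin (-y) = ht fin y := by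
  unfold ht; rw [Real.cos_neg, abs_neg]

theorem ht_self {fin : Prop} {y : ℝ} (h0 : 0 ≤ y) (h1 : fin → y ≤ π) : ht fin y = y := by
  unfold ht
  split_ifs with h
  · exact Real.arccos_cos h0 (h1 h)
  · exact abs_of_nonneg h0

theorem ht_nonneg (fin : Prop) (y : ℝ) : 0 ≤ ht fin y := by
  unfold ht
  split_ifs
  · exact Real.arccos_nonneg _
  · exact abs_nonneg _

theorem ht_le {fin : Prop} (h : fin) (y : ℝ) : ht fin y ≤ π := by
  unfold ht; rw [if_pos h]; exact Real.arccos_le_pi _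

theorem fo_self {fin : Prop} {u : ℂ} (h0 : 0 ≤ u.im) (h1 : fin → u.im ≤ π) : fo fin u = u :=
  Complex.ext (fo_re _ _) (by rw [fo_im, ht_self h0 h1])

theorem fo_conj (fin : Prop) (u : ℂ) : fo fin (conj u) = fo fin u :=
  Complex.ext (by rw [fo_re, fo_re, conj_re]) (by rw [fo_im, fo_im, conj_im, ht_neg])

theorem per_int {Λ : ℝ} {Ψ : ℂ → ℂ} (h : ∀ u ∈ Str Λ, Ψ (u + 2 * π * I) = Ψ u) (k : ℤ) :
    ∀ u ∈ Str Λ, Ψ (u + k * (2 * π * I)) = Ψ u := by
  induction k using Int.induction_on with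
  | zero => intro u _; simp
  | succ k ih =>
    intro u hu
    rw [← ih u hu, ← h (u + ((k : ℤ) : ℂ) * (2 * π * I)) (by simpa [Str] using hu)]
    congr 1; push_cast; ring
  | pred k ih =>
    intro u hu
    rw [← ih u hu, ← h (u + ((-k - 1 : ℤ) : ℂ) * (2 * π * I)) (by simpa [Str] using hu)]
    congr 1; push_cast; ring

theorem red {Λ : ℝ} {Ψ : ℂ → ℂ} {fin : Prop}
    (h : fin → ∀ u ∈ Str Λ, Ψ (u + 2 * π * I) = Ψ u) {u : ℂ} (hu : u ∈ Str Λ) :
    ∃ u' ∈ FS Λ fin, Ψ u' = Ψ u ∧ fo fin u' = fo fin u := by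
  by_cases hf : fin
  · have hp : (0 : ℝ) < 2 * π := by positivity
    set k := toIocDiv hp (-π) u.im
    have hm := sub_toIocDiv_zsmul_mem_Ioc hp (-π) u.im
    have e : (u + ((-k : ℤ) : ℂ) * (2 * π * I)).im = u.im - k • (2 * π) := by
      simp; ring
    have e' : (u + ((-k : ℤ) : ℂ) * (2 * π * I)).re = u.re := by simp
    refine ⟨u + ((-k : ℤ) : ℂ) * (2 * π * I), ⟨e'.symm ▸ hu.1, e'.symm ▸ hu.2, fun _ => ?_⟩,
      per_int (h hf) _ u hu, Complex.ext (by rw [fo_re, fo_re, e']) ?_⟩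
    · rw [e]; exact ⟨hm.1, by linarith [hm.2]⟩
    · rw [fo_im, fo_im, e]
      unfold ht
      rw [if_pos hf, if_pos hf, zsmul_eq_mul, Real.cos_sub_int_mul_two_pi]
  · exact ⟨u, ⟨hu.1, hu.2, fun h => absurd h hf⟩, rfl, rfl⟩

end UhP

open UhP in
theorem z_uh : Z_UH := by
  intro r B x₀ κ Q v fin Λ u₀ Ψ T h
  choose! σ hσ hΨ using h.surj
  have key : ∀ u ∈ Str Λ, fo fin (σ (Ψ u)) = fo fin u := fun u hu => by
    obtain ⟨u', hu', e1, e2⟩ := red h.per hu
    rw [h.inj (hσ _ (h.maps u hu)) hu' ((hΨ _ (h.maps u hu)).trans e1.symm), e2]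
  refine ⟨fun z => fo fin (σ z), fun z hz => ?_, fun z hz => ?_, fun z hz => ?_, fun u hu hs => ?_⟩
  · have hu := FS_sub_Str _ _ (hσ z hz)
    have hn := (isOpen_Str Λ).mem_nhds hu
    have hm : map Ψ (𝓝 (σ z)) = 𝓝 (Ψ (σ z)) :=
      (h.d.analyticAt hn).hasStrictDerivAt.map_nhds_eq (h.dne _ hu)
    refine ContinuousAt.continuousWithinAt ?_
    rw [hΨ z hz] at hm
    rw [ContinuousAt, ← hm, tendsto_map'_iff]
    refine ((continuous_fo fin).tendsto _).congr' ?_
    filter_upwards [hn] with u hu using (key u hu).symm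
  · have hu := hσ z hz
    have hs : fo fin (σ z) ∈ Str Λ := ⟨by rw [fo_re]; exact hu.1, by rw [fo_re]; exact hu.2.1⟩
    exact ⟨⟨hs.1.le, hs.2.le, by rw [fo_im]; exact ht_nonneg _ _,
      fun hf => by rw [fo_im]; exact ht_le hf _⟩, hs⟩
  · have hu := hσ z hz
    rcases le_total 0 (σ z).im with h0 | h0
    · left
      show Ψ (fo fin (σ z)) = z
      rw [fo_self h0 fun hf => (hu.2.2 hf).2, hΨ z hz]
    · right
      show Ψ (conj (fo fin (σ z))) = z
      rw [← fo_conj, fo_self (by rw [conj_im]; linarith)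
        fun hf => by rw [conj_im]; linarith [(hu.2.2 hf).1], conj_conj, hΨ z hz]
  · refine ⟨(key u hs).trans (fo_self hu.2.2.1 hu.2.2.2), ?_⟩
    show fo fin (σ (Ψ (conj u))) = u
    rw [key _ (conj_mem_Str.2 hs), fo_conj, fo_self hu.2.2.1 hu.2.2.2]

end Pool.Agent.P.MP_3bd355_an
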