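import Pool.Agent.P.MP_3bd355_an.Z.Stmts

/-! The case `A = 0`: package UNF. -/

open Set Filter Metric Complex InnerProductSpace MeasureTheory
open scoped Topology ComplexConjugate Real

namespace Pool.Agent.P.MP_3bd355_an

namespace UnfP

theorem mem_ann {Λ : ℝ} {u : ℂ} (hu : u ∈ Str Λ) : exp (-u) ∈ ann (Real.exp (-Λ)) := by
  refine ⟨?_, ?_⟩ <;> rw [norm_exp, neg_re]
  · exact Real.exp_lt_exp.2 (neg_lt_neg hu.2)
  · exact Real.exp_lt_one_iff.2 (neg_neg_of_pos hu.1)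

theorem ann_ne {Λ : ℝ} {w : ℂ} (hw : w ∈ ann (Real.exp (-Λ))) : w ≠ 0 :=
  norm_pos_iff.1 ((Real.exp_pos _).trans hw.1)

end UnfP

open UnfP in
theorem z_unf (hGEXP : Z_GEXP) : Z_UNF := by
  intro r B x₀ z₁ a b c κ v g Λ u₀ φ ψ hZ _ hN hA
  have hB := hZ.ch.B0
  have hΛ : 0 < Λ := hA.u0.trans hA.u1
  have oA := isOpen_ann (Real.exp (-Λ))
  have hX : IsOpen (XX r κ) :=
    (isOpen_ann r).sdiff (isCompact_Icc.image_of_continuousOn hZ.crit.cont).isClosed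
  have hx0 : (x₀ : ℂ) ∈ XX r κ := ⟨hZ.ch.m0, hZ.crit.avoid⟩
  have hψ : ∀ w ∈ ann (Real.exp (-Λ)), ψ w ∈ XX r κ ∧ φ (ψ w) = w := fun w hw => by
    obtain ⟨z, hz, rfl⟩ := hA.bij.surjOn hw
    rw [hA.linv z hz]
    exact ⟨hz, rfl⟩
  have aψ : ∀ w ∈ ann (Real.exp (-Λ)), AnalyticAt ℂ ψ w := fun w hw =>
    hA.dψ.analyticAt (oA.mem_nhds hw)
  have pψ : ∀ w ∈ ann (Real.exp (-Λ)), deriv φ (ψ w) * deriv ψ w = 1 := fun w hw => by
    have h1 := ((hA.dφ.differentiableAt (hX.mem_nhds (hψ w hw).1)).hasDerivAt.comp w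
      (aψ w hw).differentiableAt.hasDerivAt).congr_of_eventuallyEq (f₁ := fun y => y)
      (by filter_upwards [oA.mem_nhds hw] with y hy using (hψ y hy).2.symm)
    exact h1.unique (hasDerivAt_id' w)
  have nψ : ∀ w ∈ ann (Real.exp (-Λ)), deriv ψ w ≠ 0 := fun w hw =>
    right_ne_zero_of_mul_eq_one (pψ w hw)
  have m0 : (Real.exp (-u₀) : ℂ) ∈ ann (Real.exp (-Λ)) := hA.base ▸ hA.bij.mapsTo hx0
  have b0 : ψ (Real.exp (-u₀)) = x₀ := by rw [← hA.base, hA.linv _ hx0]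
  have ne0 : ∀ w ∈ ann (Real.exp (-Λ)), w ≠ Real.exp (-u₀) → ψ w ≠ x₀ := fun w hw h e =>
    h (by rw [← (hψ w hw).2, e, hA.base])
  have hv : ∀ z ∈ XX r κ, v z = -(B / Λ) * Real.log ‖φ z - 0‖ := fun z hz => by
    rw [sub_zero, hA.abs z hz, Real.log_exp]
    field_simp
  have hG := hGEXP Λ u₀ (fun w => g (ψ w)) hA.u0 hA.u1 (fun w hw => harm_comp
    (hZ.crit.g_harm _ ⟨(hψ w hw.1).1, ne0 w hw.1 hw.2⟩) (aψ w hw.1)) ?_ fun p hp => ?_
  rotate_left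
  · obtain ⟨H, h1, h2⟩ := hZ.crit.g_pole
    obtain ⟨s, hs⟩ := aψ _ m0
    have ad : AnalyticAt ℂ (dslope ψ (Real.exp (-u₀))) (Real.exp (-u₀)) :=
      hs.has_fpower_series_dslope_fslope.analyticAt
    have nd : dslope ψ (Real.exp (-u₀)) (Real.exp (-u₀)) ≠ 0 := by
      rw [dslope_same]
      exact nψ _ m0
    refine ⟨fun w => H (ψ w) - Real.log ‖dslope ψ (Real.exp (-u₀)) w‖,
      (harm_comp (b0 ▸ h1) (aψ _ m0)).sub (ad.harmonicAt_log_norm nd), ?_⟩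
    have l : Tendsto ψ (𝓝[≠] (Real.exp (-u₀) : ℂ)) (𝓝[≠] (x₀ : ℂ)) := by
      refine tendsto_nhdsWithin_iff.2 ⟨b0 ▸ (aψ _ m0).continuousAt.tendsto.mono_left
        nhdsWithin_le_nhds, ?_⟩
      filter_upwards [nhdsWithin_le_nhds (oA.mem_nhds m0), self_mem_nhdsWithin] with w k1 k2
      exact ne0 w k1 k2
    filter_upwards [l.eventually h2, nhdsWithin_le_nhds (ad.continuousAt.eventually_ne nd),
      self_mem_nhdsWithin] with w k1 k2 k3
    have e := sub_smul_dslope ψ (Real.exp (-u₀)) w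
    rw [b0, smul_eq_mul] at e
    rw [k1, ← e, norm_mul, Real.log_mul (norm_ne_zero_iff.2 (sub_ne_zero.2 k3))
      (norm_ne_zero_iff.2 k2)]
    ring
  · refine (tendsto_iff_ultrafilter _ _ _).2 fun F hF => ?_
    have hm : ∀ᶠ w in (F : Filter ℂ), w ∈ ann (Real.exp (-Λ)) := hF self_mem_nhdsWithin
    have hm' : ∀ᶠ w in (F : Filter ℂ), ψ w ∈ XX r κ := hm.mono fun w hw => (hψ w hw).1
    obtain ⟨q, -, hq⟩ := (isCompact_cann r).ultrafilter_le_nhds (F.map ψ)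
      (le_principal_iff.2 (hm'.mono fun w hw => ann_sub_cann r hw.1))
    have hq' : Tendsto ψ F (𝓝 q) := hq
    have k1 : q ∉ XX r κ := fun k => by
      have l1 := (hA.dφ.differentiableAt (hX.mem_nhds k)).continuousAt.tendsto.comp hq'
      have l2 : Tendsto (φ ∘ ψ) F (𝓝 p) :=
        (tendsto_id'.2 (hF.trans nhdsWithin_le_nhds)).congr' (hm.mono fun w hw => (hψ w hw).2.symm)
      have l3 := hA.bij.mapsTo k
      rw [tendsto_nhds_unique l1 l2] at l3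
      exact hp.elim l3.1.ne' l3.2.ne
    have k2 : q ∈ frontier (XX r κ) := by
      rw [hX.frontier_eq]
      exact ⟨mem_closure_of_tendsto hq' hm', k1⟩
    exact (hZ.crit.g_bd q k2).comp (tendsto_nhdsWithin_iff.2 ⟨hq', hm'⟩)
  have key : ∀ w ∈ ann (Real.exp (-Λ)), ψ w ≠ x₀ →
      QD r x₀ z₁ a b c (ψ w) * deriv ψ w ^ 2 * w ^ 2 = -(B / Λ : ℝ) * ((u₀ / Λ : ℝ) +
        (vk (Real.exp (-Λ)) (w / Real.exp (-u₀)) - vk (Real.exp (-Λ)) (w * Real.exp (-u₀))) / 2) := by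
    intro w hw hne
    have h0 := ann_ne hw
    have h1 := grad_comp (harm_diff (hZ.crit.v_harm _ (hψ w hw).1)) (aψ w hw).differentiableAt
    rw [grad_congr (w := fun y => -(B / Λ) * Real.log ‖y - 0‖) (by
      filter_upwards [oA.mem_nhds hw] with y hy
      rw [hv _ (hψ y hy).1, (hψ y hy).2]), grad_const_mul, grad_log h0, sub_zero] at h1
    have h2 := grad_comp (harm_diff (hZ.crit.g_harm _ ⟨(hψ w hw).1, hne⟩))
      (aψ w hw).differentiableAt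
    rw [← hG w hw (fun e => hne (e ▸ b0)), h2, ← hZ.crit.prod _ (hψ w hw).1 hne]
    have h3 : -((B / Λ : ℝ) : ℂ) = grad v (ψ w) * deriv ψ w * w := by
      rw [← h1, ofReal_neg]
      field_simp
    rw [h3]
    ring
  have dΨ : ∀ u ∈ Str Λ, HasDerivAt (fun u => ψ (exp (-u)))
      (deriv ψ (exp (-u)) * (exp (-u) * -1)) u := fun u hu =>
    (aψ _ (mem_ann hu)).differentiableAt.hasDerivAt.comp u (hasDerivAt_neg u).cexp
  have e0 : (Real.exp (-u₀) : ℂ) = exp (-(u₀ : ℂ)) := by push_cast; rfl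
  have hm : Real.exp (-Λ) ^ (u₀ / Λ) = Real.exp (-u₀) := by
    rw [← Real.exp_mul]
    congr 1
    field_simp
  refine ⟨⟨⟨fun _ => hN, fun _ => trivial⟩, fun u hu =>
    (dΨ u hu).differentiableAt.differentiableWithinAt, fun u hu => ?_,
    fun u hu => (hψ _ (mem_ann hu)).1, fun u hu u' hu' e => ?_, fun z hz => ?_, fun _ u _ => ?_,
    ?_, fun u hu => ?_, fun u hu hne => ?_, fun p _ _ => ⟨π, Eventually.of_forall
      fun z u hu _ => abs_le.2 ⟨(hu.2.2 trivial).1.le, (hu.2.2 trivial).2⟩⟩⟩,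
    Real.exp (-Λ), u₀ / Λ, φ, Real.exp_pos _, Real.exp_lt_one_iff.2 (neg_neg_of_pos hΛ),
    div_pos hA.u0 hΛ, (div_lt_one hΛ).2 hA.u1, hA.dφ, hA.bij, hm ▸ hA.base, ?_,
    fun z hz => ?_, fun z hz hne => ?_⟩
  · rw [(dΨ u hu).deriv]
    exact mul_ne_zero (nψ _ (mem_ann hu)) (mul_ne_zero (exp_ne_zero _) (by norm_num))
  · have e1 : exp (-u) = exp (-u') := by
      rw [← (hψ _ (mem_ann (FS_sub_Str _ _ hu))).2, ← (hψ _ (mem_ann (FS_sub_Str _ _ hu'))).2]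
      exact congrArg φ e
    rw [exp_neg, exp_neg, inv_inj] at e1
    exact exp_inj_of_neg_pi_lt_of_le_pi (hu.2.2 trivial).1 (hu.2.2 trivial).2
      (hu'.2.2 trivial).1 (hu'.2.2 trivial).2 e1
  · have hw := hA.bij.mapsTo hz
    have h0 := ann_ne hw
    refine ⟨log (φ z)⁻¹, ⟨?_, ?_, fun _ => ⟨neg_pi_lt_log_im _, log_im_le_pi _⟩⟩, ?_⟩
    · rw [log_re, norm_inv, Real.log_inv, neg_pos]
      exact Real.log_neg (norm_pos_iff.2 h0) hw.2
    · rw [log_re, norm_inv, Real.log_inv, neg_lt]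
      exact (Real.lt_log_iff_exp_lt (norm_pos_iff.2 h0)).2 hw.1
    · show ψ (exp (-log (φ z)⁻¹)) = z
      rw [exp_neg, exp_log (inv_ne_zero h0), inv_inv, hA.linv z hz]
  · show ψ (exp (-(u + 2 * π * I))) = ψ (exp (-u))
    rw [exp_neg, exp_neg, exp_periodic u]
  · show ψ (exp (-(u₀ : ℂ))) = x₀
    rw [← e0, b0]
  · show v (ψ (exp (-u))) = _
    rw [hv _ (hψ _ (mem_ann hu)).1, (hψ _ (mem_ann hu)).2, sub_zero, norm_exp, Real.log_exp, neg_re]
    ring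
  · have := key _ (mem_ann hu) hne
    rw [e0, ← exp_sub, ← exp_add] at this
    rw [(dΨ u hu).deriv, Tf, show (u₀ : ℂ) - u = -u - -u₀ by ring,
      show -(u₀ : ℂ) - u = -u + -u₀ by ring, ← this]
    ring
  · rw [hv _ hx0, hA.base, sub_zero, norm_real, Real.norm_of_nonneg (Real.exp_pos _).le,
      Real.log_exp]
    ring
  · rw [hv z hz, sub_zero, Real.log_exp]
    field_simp
  · have hw := hA.bij.mapsTo hz
    have h1 := key _ hw (by rwa [hA.linv z hz])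
    have h2 := pψ _ hw
    rw [hA.linv z hz] at h1 h2
    rw [hm, Real.log_exp, div_neg, ofReal_neg, ← h1]
    linear_combination (-(QD r x₀ z₁ a b c z * φ z ^ 2) * (deriv φ z * deriv ψ (φ z) + 1)) * h2

end Pool.Agent.P.MP_3bd355_an
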