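import Pool.Agent.P.MP_3bd355_an.Z.Stmts

/-! The case `A = 0`: package UNH. -/

open Set Filter Metric Complex InnerProductSpace MeasureTheory
open scoped Topology ComplexConjugate Real

namespace Pool.Agent.P.MP_3bd355_an

namespace UnhP

theorem front {p : ℂ} (hp : p ∈ frontier (Str π)) : p.re = 0 ∨ p.re = π := by
  rw [(isOpen_Str π).frontier_eq] at hp
  have h1 : closure (Str π) ⊆ {u : ℂ | 0 ≤ u.re ∧ u.re ≤ π} :=
    closure_minimal (fun _ h => ⟨h.1.le, h.2.le⟩)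
      ((isClosed_le continuous_const continuous_re).inter
        (isClosed_le continuous_re continuous_const))
  obtain ⟨h2, h3⟩ := h1 hp.1
  rcases h2.eq_or_lt with h | h
  · exact Or.inl h.symm
  · exact Or.inr (h3.eq_or_lt.resolve_right fun h' => hp.2 ⟨h, h'⟩)

/-- A bounded harmonic function on the strip with zero boundary values vanishes. -/
theorem zero {w : ℂ → ℝ} (hw : HarmonicOnNhd w (Str π)) (hb : ∃ C : ℝ, ∀ u ∈ Str π, |w u| ≤ C)
    (hl : ∀ p ∈ frontier (Str π), Tendsto w (𝓝[Str π] p) (𝓝 0)) : ∀ u ∈ Str π, w u = 0 := by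
  obtain ⟨C, hC⟩ := hb
  have hd : Disjoint (ball (-1 : ℂ) 1) (Str π) := disjoint_left.2 fun z hz hs => by
    have h1 := (re_le_norm (z - -1)).trans_lt (mem_ball_iff_norm.1 hz)
    have h2 := hs.1
    simp only [sub_neg_eq_add, add_re, one_re] at h1
    linarith
  intro u hu
  have h1 := (Sub.of_harm hw).mpx_unb (isOpen_Str π) one_pos hd
    ⟨C, fun y hy => (le_abs_self _).trans (hC y hy)⟩ finite_empty
    (fun p hp _ => LS.of_tendsto (hl p hp) le_rfl) u hu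
  have h2 := (Sub.of_harm (u := fun y => -w y) fun y hy => (hw y hy).neg).mpx_unb (isOpen_Str π) one_pos hd
    ⟨C, fun y hy => (neg_le_abs _).trans (hC y hy)⟩ finite_empty
    (fun p hp _ => LS.of_tendsto (hl p hp).neg neg_zero.le) u hu
  linarith

theorem grad_lin (c : ℝ) (u : ℂ) : grad (fun y => c * y.re) u = c := by
  rw [grad_const_mul, grad_re (f := fun y => y) differentiableAt_id, deriv_id'', mul_one]

theorem grad_nlog {M : ℂ → ℂ} {u : ℂ} (hM : DifferentiableAt ℂ M u) (h0 : M u ≠ 0) :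
    grad (fun y => -Real.log ‖M y‖) u = -(deriv M u / M u) := by
  have h1 := grad_comp (u := fun y => Real.log ‖y - 0‖) (harm_diff (harm_log h0)) hM
  rw [grad_log h0] at h1
  have h2 := grad_const_mul (fun y => Real.log ‖M y - 0‖) (-1) u
  rw [h1] at h2
  simp only [sub_zero, neg_mul, one_mul, ofReal_neg, ofReal_one] at h2
  rw [h2]
  ring

end UnhP

theorem z_unh (hMOB : Z_MOB) (hINV : Z_INV) : Z_UNH := by
  intro r B x₀ z₁ a b c κ v g s₀ s₁ φ ψ hZ _ hN hD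
  obtain ⟨u₀, M, hM⟩ := hMOB s₀ s₁ hD.lt hD.lt'
  have hX : IsOpen (XX r κ) :=
    (isOpen_ann r).sdiff (isCompact_Icc.image_of_continuousOn hZ.crit.cont).isClosed
  have hx0 : (x₀ : ℂ) ∈ XX r κ := ⟨hZ.ch.m0, hZ.crit.avoid⟩
  have hψ : ∀ w ∈ ball (0 : ℂ) 1, ψ w ∈ XX r κ ∧ φ (ψ w) = w := fun w hw => by
    obtain ⟨z, hz, rfl⟩ := hD.bij.surjOn hw
    rw [hD.linv z hz]
    exact ⟨hz, rfl⟩
  have dψ : ∀ w ∈ ball (0 : ℂ) 1, DifferentiableAt ℂ ψ w := fun w hw =>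
    hD.dψ.differentiableAt (isOpen_ball.mem_nhds hw)
  have dM : ∀ u ∈ Str π, DifferentiableAt ℂ M u := fun u hu =>
    hM.d.differentiableAt ((isOpen_Str π).mem_nhds hu)
  have nψ : ∀ w ∈ ball (0 : ℂ) 1, deriv ψ w ≠ 0 := fun w hw e => by
    have h1 := ((hD.dφ.differentiableAt (hX.mem_nhds (hψ w hw).1)).hasDerivAt.comp w
      (dψ w hw).hasDerivAt).congr_of_eventuallyEq (f₁ := fun y => y)
      (by filter_upwards [isOpen_ball.mem_nhds hw] with y hy using (hψ y hy).2.symm)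
    have h2 := h1.unique (hasDerivAt_id' w)
    rw [e, mul_zero] at h2
    exact zero_ne_one h2
  obtain ⟨Ψ, hΨ⟩ : ∃ Ψ : ℂ → ℂ, ∀ u, Ψ u = ψ (M u) := ⟨_, fun _ => rfl⟩
  have hΨ' : Ψ = ψ ∘ M := funext hΨ
  have dΨ : ∀ u ∈ Str π, HasDerivAt Ψ (deriv ψ (M u) * deriv M u) u := fun u hu =>
    hΨ' ▸ (dψ _ (hM.bij.mapsTo hu)).hasDerivAt.comp u (dM u hu).hasDerivAt
  have ddΨ : DifferentiableOn ℂ Ψ (Str π) := fun u hu =>
    (dΨ u hu).differentiableAt.differentiableWithinAt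
  have nΨ : ∀ u ∈ Str π, deriv Ψ u ≠ 0 := fun u hu => by
    rw [(dΨ u hu).deriv]
    exact mul_ne_zero (nψ _ (hM.bij.mapsTo hu)) (hM.dne u hu)
  have mΨ : ∀ u ∈ Str π, Ψ u ∈ XX r κ ∧ φ (Ψ u) = M u := fun u hu =>
    hΨ u ▸ hψ _ (hM.bij.mapsTo hu)
  have iΨ : InjOn Ψ (Str π) := fun u hu u' hu' e =>
    hM.bij.injOn hu hu' (by rw [← (mΨ u hu).2, e, (mΨ u' hu').2])
  have sΨ : ∀ z ∈ XX r κ, ∃ u ∈ Str π, Ψ u = z := fun z hz => by
    obtain ⟨u, hu, e⟩ := hM.bij.surjOn (hD.bij.mapsTo hz)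
    exact ⟨u, hu, by rw [hΨ, e, hD.linv z hz]⟩
  have hu0 : (u₀ : ℂ) ∈ Str π := ⟨hM.u0, hM.u1⟩
  have bΨ : Ψ u₀ = x₀ := by rw [hΨ, hM.base, ← hD.base, hD.linv _ hx0]
  have hval : ∀ u ∈ Str π, v (Ψ u) = B / π * u.re := by
    have := UnhP.zero (w := fun u => v (Ψ u) - B / π * u.re) (fun u hu => ?_) ?_ fun p hp => ?_
    · exact fun u hu => sub_eq_zero.1 (this u hu)
    · exact (harm_comp (hZ.crit.v_harm _ (mΨ u hu).1)
        (ddΨ.analyticAt ((isOpen_Str π).mem_nhds hu))).sub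
        (harm_const_mul (AnalyticAt.harmonicAt_re (f := fun y => y) analyticAt_id) _)
    · obtain ⟨C, hC⟩ := hZ.crit.v_bdd
      refine ⟨C + |B / π| * π, fun u hu => (abs_sub _ _).trans (add_le_add (hC _ (mΨ u hu).1.1) ?_)⟩
      rw [abs_mul, abs_of_pos hu.1]
      exact mul_le_mul_of_nonneg_left hu.2.le (abs_nonneg _)
    · have h1 : Tendsto (fun u : ℂ => B / π * u.re) (𝓝[Str π] p) (𝓝 (B / π * p.re)) :=
        ((continuous_const.mul continuous_re).tendsto p).mono_left nhdsWithin_le_nhds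
      have h2 : ∀ q, Tendsto M (𝓝[Str π] p) (𝓝 q) → Tendsto M (𝓝[Str π] p) (𝓝[ball 0 1] q) :=
        fun q h => tendsto_nhdsWithin_iff.2
          ⟨h, eventually_mem_nhdsWithin.mono fun u hu => hM.bij.mapsTo hu⟩
      simp only [hΨ]
      rcases UnhP.front hp with e | e
      · obtain ⟨t, ht, h3⟩ := hM.left p e
        have := ((hD.v0 t ht).comp (h2 _ h3)).sub h1
        rwa [e, mul_zero, sub_zero] at this
      · obtain ⟨t, ht, h3⟩ := hM.right p e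
        have := ((hD.vB t ht).comp (h2 _ h3)).sub h1
        rwa [e, div_mul_cancel₀ _ Real.pi_ne_zero, sub_self] at this
  have hval' : ∀ u ∈ Str π, v (Ψ u) = B * u.re / π := fun u hu => by rw [hval u hu]; ring
  have hpull : ∀ u ∈ Str π, Ψ u ≠ x₀ →
      QD r x₀ z₁ a b c (Ψ u) * deriv Ψ u ^ 2 = Th B u₀ u := fun u hu hne => by
    have hu' : u ≠ u₀ := fun e => hne (e ▸ bΨ)
    have hM0 : M u ≠ 0 := fun e => hu' (hM.bij.injOn hu hu0 (e.trans hM.base.symm))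
    have h1 := grad_comp (harm_diff (hZ.crit.v_harm _ (mΨ u hu).1)) (dΨ u hu).differentiableAt
    rw [grad_congr (w := fun y => B / π * y.re)
      (by filter_upwards [(isOpen_Str π).mem_nhds hu] with y hy using hval y hy),
      UnhP.grad_lin] at h1
    have h2 := grad_comp (harm_diff (hZ.crit.g_harm _ ⟨(mΨ u hu).1, hne⟩))
      (dΨ u hu).differentiableAt
    rw [grad_congr (w := fun y => -Real.log ‖M y‖) (by
      filter_upwards [(isOpen_Str π).mem_nhds hu, (dM u hu).continuousAt.eventually_ne hM0]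
        with y hy hy0
      rw [hD.green _ (mΨ y hy).1 fun e => hy0 (by rw [← (mΨ y hy).2, e, hD.base]), (mΨ y hy).2]),
      UnhP.grad_nlog (dM u hu) hM0, hM.lder u hu hu'] at h2
    rw [← hZ.crit.prod _ (mΨ u hu).1 hne, Th, ofReal_mul, mul_div_assoc, h1, h2]
    ring
  refine ⟨u₀, Ψ, hM.u0, hM.u1, ⟨⟨False.elim, hN⟩, ddΨ, nΨ, fun u hu => (mΨ u hu).1,
    iΨ.mono fun u hu => (⟨hu.1, hu.2.1⟩ : u ∈ Str π), fun z hz => ?_, False.elim, bΨ, hval', hpull,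
    fun p hp hK => ?_⟩, ?_⟩
  · obtain ⟨u, hu, e⟩ := sΨ z hz
    exact ⟨u, ⟨hu.1, hu.2, False.elim⟩, e⟩
  · obtain ⟨η, hη, h1⟩ := hD.expo p hp hK
    obtain ⟨C, hC⟩ := hM.ends η hη
    refine ⟨C, h1.mono fun z hz u hu e => ?_⟩
    have hu' : u ∈ Str π := ⟨hu.1, hu.2.1⟩
    rw [← e, (mΨ u hu').2] at hz
    exact hC u hu' hz.1 hz.2
  · obtain ⟨-, h, h1, h2⟩ := hINV (Str π) Ψ (isOpen_Str π) ddΨ iΨ nΨ
    refine ⟨u₀, h, hM.u0, hM.u1, fun z hz => ?_, ⟨fun z hz => ?_, fun z hz z' hz' e => ?_,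
      fun u hu => ⟨Ψ u, (mΨ u hu).1, h1 u hu⟩⟩, bΨ ▸ h1 _ hu0, ?_, fun z hz => ?_,
      fun z hz hne => ?_⟩
    · obtain ⟨u, hu, rfl⟩ := sΨ z hz
      exact (h2 u hu).differentiableAt.differentiableWithinAt
    · obtain ⟨u, hu, rfl⟩ := sΨ z hz
      rw [h1 u hu]
      exact hu
    · obtain ⟨u, hu, rfl⟩ := sΨ z hz
      obtain ⟨u', hu', rfl⟩ := sΨ z' hz'
      rw [h1 u hu, h1 u' hu'] at e
      rw [e]
    · rw [← bΨ, hval' _ hu0, ofReal_re]
    · obtain ⟨u, hu, rfl⟩ := sΨ z hz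
      rw [h1 u hu, hval' u hu]
    · obtain ⟨u, hu, rfl⟩ := sΨ z hz
      have h3 := hpull u hu hne
      have h4 := nΨ u hu
      rw [h1 u hu, (h2 u hu).deriv, ← Th, ← h3]
      field_simp

end Pool.Agent.P.MP_3bd355_an
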