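import Pool.Agent.P.MP_3bd355_an.Z.Stmts

/-! The case `A = 0`: package VKI. -/

open Set Filter Metric Complex InnerProductSpace MeasureTheory
open scoped Topology ComplexConjugate Real

namespace Pool.Agent.P.MP_3bd355_an

namespace VkiP

/-- The kernel on the negative axis. -/
noncomputable def K (Λ s : ℝ) : ℂ := vk (Real.exp (-Λ)) (-(Real.exp s : ℂ))

theorem nrm (s : ℝ) : ‖-(Real.exp s : ℂ)‖ = Real.exp s := by
  rw [norm_neg, norm_real, Real.norm_eq_abs, abs_of_pos (Real.exp_pos s)]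

theorem sq_e (Λ : ℝ) : Real.exp (-Λ) ^ 2 = Real.exp (-(2 * Λ)) := by
  rw [← Real.exp_nat_mul]; congr 1; push_cast; ring

theorem contK {Λ s : ℝ} (hΛ : 0 < Λ) (h1 : -(2 * Λ) < s) (h2 : s < 2 * Λ) :
    ContinuousAt (K Λ) s := by
  have ha : AnalyticAt ℂ (vk (Real.exp (-Λ))) (-(Real.exp s : ℂ)) := by
    refine vk_analytic (Real.exp_pos _) (Real.exp_lt_one_iff.2 (by linarith)) ?_ ?_ ?_
    · rw [nrm, sq_e]; exact Real.exp_lt_exp.2 h1
    · rw [nrm, sq_e, ← Real.exp_add]; exact Real.exp_lt_one_iff.2 (by linarith)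
    · intro h
      have := congrArg re h
      rw [neg_re, ofReal_re, one_re] at this
      linarith [Real.exp_pos s]
  exact ContinuousAt.comp (f := fun s : ℝ => -(Real.exp s : ℂ)) ha.continuousAt (by fun_prop)

theorem oddK (Λ s : ℝ) : K Λ (-s) = -K Λ s := by
  unfold K
  rw [← vk_inv _ (neg_ne_zero.2 (ofReal_ne_zero.2 (Real.exp_pos s).ne')), Real.exp_neg s,
    ofReal_inv, inv_neg]

theorem shiftK {Λ s : ℝ} (hΛ : 0 < Λ) (h1 : 0 < s) (h2 : s < 2 * Λ) :
    K Λ (s - 2 * Λ) = K Λ s + 2 := by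
  unfold K
  rw [← vk_shift (Real.exp_pos _) (Real.exp_lt_one_iff.2 (by linarith))
    (by rw [nrm]; exact Real.one_lt_exp_iff.2 h1)
    (by rw [nrm, sq_e, ← Real.exp_add]; exact Real.exp_lt_one_iff.2 (by linarith)),
    ← ofReal_pow, sq_e, mul_neg, ← ofReal_mul, ← Real.exp_add]
  congr 4
  ring

theorem Tf_eq (B Λ u₀ x : ℝ) : Tf B Λ u₀ (x + π * I) =
    -(B / Λ : ℝ) * ((u₀ / Λ : ℝ) + (K Λ (u₀ - x) - K Λ (-u₀ - x)) / 2) := by
  have e : ∀ a : ℝ, exp (a - (x + π * I)) = -(Real.exp (a - x) : ℂ) := fun a => by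
    rw [← sub_sub, exp_sub, exp_pi_mul_I, ofReal_exp, ofReal_sub, div_neg, div_one]
  have e2 := e (-u₀)
  rw [ofReal_neg] at e2
  unfold Tf K
  rw [e, e2]

end VkiP

open VkiP in
theorem z_vki : Z_VKI := by
  intro B Λ u₀ h0 h1
  have hΛ : 0 < Λ := h0.trans h1
  have c1 : ContinuousOn (fun x : ℝ => K Λ (u₀ - x)) (Icc 0 Λ) := fun x hx =>
    (ContinuousAt.comp (f := fun x : ℝ => u₀ - x) (contK hΛ (by linarith [hx.2])
      (by linarith [hx.1])) (by fun_prop)).continuousWithinAt
  have c2 : ContinuousOn (fun x : ℝ => K Λ (-u₀ - x)) (Icc 0 Λ) := fun x hx =>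
    (ContinuousAt.comp (f := fun x : ℝ => -u₀ - x) (contK hΛ (by linarith [hx.2])
      (by linarith [hx.1])) (by fun_prop)).continuousWithinAt
  refine ⟨?_, ?_⟩
  · simp only [Tf_eq]
    exact continuousOn_const.mul (continuousOn_const.add ((c1.sub c2).div_const _))
  set k : ℝ → ℝ := fun s => (K Λ s).re with hk
  have ik : ∀ a b : ℝ, -(2 * Λ) < a → a < 2 * Λ → -(2 * Λ) < b → b < 2 * Λ →
      IntervalIntegrable k volume a b := fun a b a1 a2 b1 b2 =>
    ContinuousOn.intervalIntegrable fun s hs =>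
      (continuous_re.continuousAt.comp (contK hΛ ((lt_min a1 b1).trans_le hs.1)
        (hs.2.trans_lt (max_lt a2 b2)))).continuousWithinAt
  have e : ∀ x : ℝ, (Tf B Λ u₀ (x + π * I)).re =
      -(B / Λ) * (u₀ / Λ + (k (u₀ - x) - k (-u₀ - x)) / 2) := fun x => by
    rw [Tf_eq, ← ofReal_neg, re_ofReal_mul, add_re, ofReal_re, div_ofNat_re, sub_re]
  have i1 : IntervalIntegrable (fun x => k (u₀ - x)) volume 0 Λ :=
    ContinuousOn.intervalIntegrable_of_Icc hΛ.le (continuous_re.comp_continuousOn c1)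
  have i2 : IntervalIntegrable (fun x => k (-u₀ - x)) volume 0 Λ :=
    ContinuousOn.intervalIntegrable_of_Icc hΛ.le (continuous_re.comp_continuousOn c2)
  have j1 : ∫ s in (-u₀)..u₀, k s = 0 := by
    have a1 := intervalIntegral.integral_comp_neg (a := -u₀) (b := u₀) k
    have a2 : ∀ s, k (-s) = -k s := fun s => by simp only [hk, oddK, neg_re]
    simp only [a2, intervalIntegral.integral_neg, neg_neg] at a1
    linarith
  have j2 : ∫ s in (-u₀ - Λ)..(u₀ - Λ), k s = 2 * u₀ := by
    have a1 := intervalIntegral.integral_comp_sub_left (a := -u₀ - Λ) (b := u₀ - Λ) k (-(2 * Λ))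
    have a2 : ∫ s in (-u₀ - Λ)..(u₀ - Λ), k (-(2 * Λ) - s) =
        ∫ s in (-u₀ - Λ)..(u₀ - Λ), (2 - k s) := by
      refine intervalIntegral.integral_congr fun s hs => ?_
      rw [uIcc_of_le (by linarith)] at hs
      have := shiftK (s := -s) hΛ (by linarith [hs.2]) (by linarith [hs.1])
      simp only [hk]
      rw [show -(2 * Λ) - s = -s - 2 * Λ by ring, this, oddK]
      simp
      ring
    rw [a2, intervalIntegral.integral_sub (by simp)
      (ik _ _ (by linarith) (by linarith) (by linarith) (by linarith)),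
      show -(2 * Λ) - (u₀ - Λ) = -u₀ - Λ by ring, show -(2 * Λ) - (-u₀ - Λ) = u₀ - Λ by ring,
      intervalIntegral.integral_const, smul_eq_mul] at a1
    linarith
  have j3 := intervalIntegral.integral_interval_sub_interval_comm' (f := k) (μ := volume)
    (a := -u₀ - Λ) (b := -u₀) (c := u₀ - Λ) (d := u₀)
    (ik _ _ (by linarith) (by linarith) (by linarith) (by linarith))
    (ik _ _ (by linarith) (by linarith) (by linarith) (by linarith))
    (ik _ _ (by linarith) (by linarith) (by linarith) (by linarith))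
  simp only [e]
  rw [intervalIntegral.integral_const_mul, intervalIntegral.integral_add (by simp)
    ((i1.sub i2).div_const _), intervalIntegral.integral_const, intervalIntegral.integral_div,
    intervalIntegral.integral_sub i1 i2,
    intervalIntegral.integral_comp_sub_left k, intervalIntegral.integral_comp_sub_left k,
    smul_eq_mul, sub_zero, sub_zero, sub_zero]
  have j4 := intervalIntegral.integral_symm (f := k) (μ := volume) (-u₀) u₀
  have j5 := intervalIntegral.integral_symm (f := k) (μ := volume) (-u₀ - Λ) (u₀ - Λ)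
  have j6 : Λ * (u₀ / Λ) = u₀ := by field_simp
  refine mul_eq_zero_of_right _ ?_
  linarith

end Pool.Agent.P.MP_3bd355_an
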