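import Pool.Agent.P.MP_3bd355_an.Z.Stmts

/-! The case `A = 0`: package WELD. -/

open Set Filter Metric Complex InnerProductSpace MeasureTheory
open scoped Topology ComplexConjugate Real

namespace Pool.Agent.P.MP_3bd355_an

namespace WeldP

theorem core {a C : ℝ} (ha : 0 < a) {g : ℝ → ℝ → ℝ} {Y : Set ℝ} {ι : ℝ → ℝ} {l : Filter ℝ}
    [l.IsCountablyGenerated] (hY : IsOpen Y) (hYa : Y ⊆ Ioo (-a) a) (maps : MapsTo ι Y Y)
    (inv : ∀ y ∈ Y, ι (ι y) = y) (der : ∀ y ∈ Y, HasDerivAt ι (-1) y)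
    (hm : ∀ᶠ t in l, ContinuousOn (g t) (Ioo (-a) a))
    (hb : ∀ᶠ t in l, ∀ y ∈ Ioo (-a) a, |g t y| ≤ C)
    (h1 : ∀ y ∈ Y, Tendsto (fun t => g t y + g t (ι y)) l (𝓝 0))
    (h2 : ∀ᵐ y, y ∈ Ioo (-a) a \ Y → ∀ ε > 0, ∀ᶠ t in l, g t y < ε) {η : ℝ} (hη : 0 < η) :
    ∀ᶠ t in l, ∫ y in (-a)..a, g t y ≤ η := by
  have mY : MeasurableSet Y := hY.measurableSet
  have mZ : MeasurableSet (Ioo (-a) a \ Y) := measurableSet_Ioo.diff mY
  have fI : volume (Ioo (-a) a) ≠ ⊤ := measure_Ioo_lt_top.ne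
  have fY : volume Y ≠ ⊤ := ne_top_of_le_ne_top fI (measure_mono hYa)
  have fZ : volume (Ioo (-a) a \ Y) ≠ ⊤ := ne_top_of_le_ne_top fI (measure_mono sdiff_subset)
  have cι : ContinuousOn ι Y := fun y hy => (der y hy).continuousAt.continuousWithinAt
  have img : ι '' Y = Y :=
    Subset.antisymm maps.image_subset fun y hy => ⟨ι y, maps hy, inv y hy⟩
  have inj : InjOn ι Y := fun y hy z hz e => by rw [← inv y hy, e, inv z hz]
  have cov : ∀ u : ℝ → ℝ, ∫ y in Y, u y = ∫ y in Y, u (ι y) := fun u => by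
    have := integral_image_eq_integral_abs_deriv_smul mY
      (fun y hy => (der y hy).hasDerivWithinAt) inj u
    rw [img] at this
    simpa using this
  have T1 : Tendsto (fun t => ∫ y in Y, (g t y + g t (ι y))) l (𝓝 (∫ _y in Y, (0 : ℝ))) := by
    refine tendsto_integral_filter_of_dominated_convergence (fun _ => C + C) ?_ ?_
      (integrableOn_const fY) ((ae_restrict_iff' mY).2 (ae_of_all _ h1))
    · filter_upwards [hm] with t ht
      exact ((ht.mono hYa).add (ht.comp cι fun y hy => hYa (maps hy))).aestronglyMeasurable mY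
    · filter_upwards [hb] with t ht
      refine (ae_restrict_iff' mY).2 (ae_of_all _ fun y hy => ?_)
      exact (abs_add_le _ _).trans (add_le_add (ht y (hYa hy)) (ht _ (hYa (maps hy))))
  have T2 : Tendsto (fun t => ∫ y in Ioo (-a) a \ Y, max (g t y) 0) l
      (𝓝 (∫ _y in Ioo (-a) a \ Y, (0 : ℝ))) := by
    refine tendsto_integral_filter_of_dominated_convergence (fun _ => C) ?_ ?_
      (integrableOn_const fZ) ((ae_restrict_iff' mZ).2 ?_)
    · filter_upwards [hm] with t ht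
      exact ((ht.mono sdiff_subset).sup continuousOn_const).aestronglyMeasurable mZ
    · filter_upwards [hb] with t ht
      refine (ae_restrict_iff' mZ).2 (ae_of_all _ fun y hy => ?_)
      have := ht y hy.1
      rw [Real.norm_of_nonneg (le_max_right _ _)]
      exact max_le ((le_abs_self _).trans this) ((abs_nonneg _).trans this)
    · filter_upwards [h2] with y hy hyZ
      refine tendsto_order.2 ⟨fun b hb' => Eventually.of_forall fun t => ?_, fun ε hε => ?_⟩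
      · exact hb'.trans_le (le_max_right _ _)
      · filter_upwards [hy hyZ ε hε] with t ht
        exact max_lt ht hε
  rw [integral_zero] at T1 T2
  filter_upwards [hm, hb, T1.eventually (gt_mem_nhds hη),
    T2.eventually (gt_mem_nhds (half_pos hη))] with t ht htb k1 k2
  have iI : IntegrableOn (g t) (Ioo (-a) a) :=
    Integrable.mono' (integrableOn_const (C := C) fI) (ht.aestronglyMeasurable measurableSet_Ioo)
      ((ae_restrict_iff' measurableSet_Ioo).2 (ae_of_all _ htb))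
  have iY : IntegrableOn (g t) Y := iI.mono_set hYa
  have iZ : IntegrableOn (g t) (Ioo (-a) a \ Y) := iI.mono_set sdiff_subset
  have iι : IntegrableOn (fun y => g t (ι y)) Y :=
    Integrable.mono' (integrableOn_const (C := C) fY)
      ((ht.comp cι fun y hy => hYa (maps hy)).aestronglyMeasurable mY)
      ((ae_restrict_iff' mY).2 (ae_of_all _ fun y hy => htb _ (hYa (maps hy))))
  rw [integral_add iY iι, ← cov (g t)] at k1
  have k3 : ∫ y in Ioo (-a) a \ Y, g t y ≤ ∫ y in Ioo (-a) a \ Y, max (g t y) 0 :=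
    integral_mono iZ iZ.pos_part fun y => le_max_left _ _
  rw [intervalIntegral.integral_of_le (by linarith), integral_Ioc_eq_integral_Ioo,
    ← integral_inter_add_sdiff mY iI, inter_eq_right.2 hYa]
  linarith

end WeldP

theorem z_weld : Z_WELD := by
  intro r x₀ z₁ f Fb ι G hf hb hi hg η hη
  have ha : 0 < f.a₁ := hf.sh.1
  obtain ⟨δ, hδ, cG⟩ := hg.cont
  obtain ⟨C, hC⟩ := hg.bdd
  obtain ⟨S, hS, bd⟩ := hg.bd
  have mem : ∀ t ∈ Ioo 0 (min δ f.δ), ∀ y ∈ Ioo (-f.a₁) f.a₁,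
      (y : ℂ) + (t : ℝ) * I ∈ RR f.a₁ f.δ := fun t ht y hy =>
    ⟨by simpa using hy.1, by simpa using hy.2, by simpa using ht.1,
      by simpa using ht.2.trans_le (min_le_right _ _)⟩
  have ev : ∀ᶠ t : ℝ in 𝓝[>] 0, t ∈ Ioo 0 (min δ f.δ) := Ioo_mem_nhdsGT (lt_min hδ hf.fc.δ0)
  refine WeldP.core (C := C) (g := fun t y => G (f.F (y + t * I))) ha hi.opn (fun y hy => hy.1)
    hi.maps hi.inv hi.der ?_ ?_ ?_ ?_ hη
  · filter_upwards [ev] with t ht
    refine cG.comp (hf.fc.d.continuousOn.comp (by fun_prop) (mem t ht)) fun y hy =>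
      ⟨hf.fc.maps _ (mem t ht y hy), ?_⟩
    rw [hf.fc.xF _ (mem t ht y hy)]
    simpa using ht.2.trans_le (min_le_left _ _)
  · filter_upwards [ev] with t ht y hy
    exact hC _ (hf.fc.maps _ (mem t ht y hy))
  · intro y hy
    obtain ⟨s, hs, hr, e⟩ := hy.2.1
    obtain ⟨V, hV, H⟩ := hg.odd s hs hr
    rw [e] at hV H
    obtain ⟨O, hO, hOV, A₁, A₂, p₁, p₂, eq, t₁, t₂⟩ := hi.side y hy V hV
    obtain ⟨γ, -, g₁, g₂⟩ := H O hO hOV A₁ A₂ p₁ p₂ eq
    have := (g₁.comp t₁).add (g₂.comp t₂)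
    rwa [add_neg_cancel] at this
  · have hT : (S ∪ {z₁, Fb f.a₁, Fb (-f.a₁)}).Finite := hS.union (toFinite _)
    have hN : ∀ᵐ y : ℝ, ∀ p ∈ S ∪ {z₁, Fb f.a₁, Fb (-f.a₁)},
        ¬ (y ∈ Ioo (-f.a₁) f.a₁ ∧ Fb y = p) :=
      (ae_ball_iff hT.countable).2 fun p _ => measure_eq_zero_iff_ae_notMem.1 (hb.null p)
    filter_upwards [hN] with y hy hyZ ε hε
    have hn : Fb y ∉ S ∪ {z₁, Fb f.a₁, Fb (-f.a₁)} := fun h => hy _ h ⟨hyZ.1, rfl⟩
    simp only [mem_union, mem_insert_iff, mem_singleton_iff, not_or] at hn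
    have hyc : y ∈ Icc (-f.a₁) f.a₁ := Ioo_subset_Icc_self hyZ.1
    have hp : ‖Fb y‖ = 1 ∨ (‖Fb y‖ = r ∧ Fb y ∈ KK f.κ) := by
      rcases hb.mem y hyc with ⟨s, hs, e⟩ | h
      · rcases hs.2.lt_or_eq with h1 | rfl
        · rcases hs.1.lt_or_eq with h0 | rfl
          · rcases (hf.ka.mem s ⟨hs.1, h1⟩).1.lt_or_eq with h2 | h2
            · exact absurd ⟨hyZ.1, ⟨s, ⟨h0, h1⟩, h2, e⟩, hn.2.2.1, hn.2.2.2⟩ hyZ.2
            · exact Or.inr ⟨e ▸ h2.symm, s, hs, e⟩
          · exact absurd (e.symm.trans hf.ka.start) hn.2.1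
        · exact Or.inl (e ▸ hf.ka.stop)
      · exact Or.inl h
    have p₁ : Tendsto (fun t : ℝ => (y : ℂ) + t * I) (𝓝[>] 0) (𝓝[RR f.a₁ f.δ] (y : ℂ)) := by
      refine tendsto_nhdsWithin_iff.2 ⟨?_, ev.mono fun t ht => mem t ht y hyZ.1⟩
      have : Continuous fun t : ℝ => (y : ℂ) + t * I := by fun_prop
      simpa using (this.tendsto 0).mono_left (nhdsWithin_le_nhds (s := Ioi 0))
    have p₂ : Tendsto (fun t : ℝ => f.F (y + t * I)) (𝓝[>] 0) (𝓝[XX r f.κ] (Fb y)) :=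
      tendsto_nhdsWithin_iff.2 ⟨(hb.lim y hyc).comp p₁,
        ev.mono fun t ht => hf.fc.maps _ (mem t ht y hyZ.1)⟩
    simpa only [zero_add] using p₂.eventually (bd _ hn.1 hp ε hε)

end Pool.Agent.P.MP_3bd355_an
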