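import Pool.Agent.P.MP_3bd355_an.Z.Stmts

/-! The case `A = 0`: package AN. -/

open Set Filter Metric Complex InnerProductSpace MeasureTheory
open scoped Topology ComplexConjugate Real

namespace Pool.Agent.P.MP_3bd355_an

namespace AnP

variable {r B x₀ : ℝ} {z₁ a b : ℂ} {c : ℝ} {κ : ℝ → ℂ} {v g : ℂ → ℝ}

theorem notK (nh : NH r κ) {p : ℂ} (hp : ‖p‖ = r) : p ∉ κ '' Icc 0 1 := by
  rintro ⟨t, ht, rfl⟩
  exact (nh t ht).ne' hp

/-- The map is proper. -/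
theorem proper (h : ZC r B x₀ z₁ a b c κ v g) (ba : BA r B x₀ z₁ a b c κ v) (nh : NH r κ)
    {Λ : ℝ} {φ : ℂ → ℂ} (dφ : ContinuousOn φ (XX r κ))
    (hn : ∀ z ∈ XX r κ, ‖φ z‖ = Real.exp (-(Λ * v z / B))) (C : Set ℂ) (hC : IsCompact C)
    (hCY : C ⊆ ann (Real.exp (-Λ))) : IsCompact (XX r κ ∩ φ ⁻¹' C) := by
  have B0 := h.ch.B0
  have Xo : IsOpen (XX r κ) := (isOpen_ann r).sdiff ba.cont.cpt.isClosed
  have hs : XX r κ ∩ φ ⁻¹' C ⊆ ann r := fun z hz => hz.1.1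
  refine (isCompact_cann r).of_isClosed_subset ?_ (hs.trans (ann_sub_cann r))
  refine isClosed_of_closure_subset fun q hq => ?_
  have hq' : q ∈ cann r := closure_minimal (hs.trans (ann_sub_cann r))
    (Top1P.isClosed_cann r) hq
  have : (𝓝[XX r κ ∩ φ ⁻¹' C] q).NeBot := mem_closure_iff_nhdsWithin_neBot.1 hq
  have key : ∀ L : ℝ, Tendsto v (𝓝[ann r] q) (𝓝 L) → L ≠ 0 ∧ L ≠ B := fun L hL => by
    have h1 : Tendsto (fun z => Real.exp (-(Λ * v z / B))) (𝓝[XX r κ ∩ φ ⁻¹' C] q)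
        (𝓝 (Real.exp (-(Λ * L / B)))) :=
      (Real.continuous_exp.tendsto _).comp
        ((((hL.mono_left (nhdsWithin_mono _ hs)).const_mul Λ).div_const B).neg)
    have h2 : Real.exp (-(Λ * L / B)) ∈ norm '' C := by
      refine (hC.image continuous_norm).isClosed.mem_of_tendsto h1 ?_
      filter_upwards [self_mem_nhdsWithin] with z hz
      exact ⟨φ z, hz.2, hn z hz.1⟩
    obtain ⟨w, hw, e⟩ := h2
    obtain ⟨k1, k2⟩ := hCY hw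
    rw [e] at k1 k2
    constructor
    · rintro rfl
      simp at k2
    · rintro rfl
      rw [mul_div_assoc, div_self B0.ne', mul_one] at k1
      exact k1.false
  have q1 : ‖q‖ < 1 := lt_of_le_of_ne hq'.2 fun e => (key 0 (h.crit.v_outer q e)).1 rfl
  have q2 : r < ‖q‖ := lt_of_le_of_ne hq'.1 fun e =>
    (key B (h.crit.v_inner q e.symm (notK nh e.symm))).2 rfl
  have q3 : q ∈ XX r κ := ⟨⟨q2, q1⟩, fun hk =>
    (key _ (h.crit.v_cont q ⟨q2, q1⟩)).1 (h.crit.v_zero q ⟨q2, q1⟩ hk)⟩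
  refine ⟨q3, show φ q ∈ C from hC.isClosed.mem_of_tendsto (b := 𝓝[XX r κ ∩ φ ⁻¹' C] q)
    ((dφ q q3).mono_left (nhdsWithin_mono _ inter_subset_left)) ?_⟩
  filter_upwards [self_mem_nhdsWithin] with z hz
  exact hz.2

/-- Away from the inner circle `v` stays below `B`. -/
theorem gap (h : ZC r B x₀ z₁ a b c κ v g) (ba : BA r B x₀ z₁ a b c κ v) {ε : ℝ} (hε : 0 < ε) :
    ∃ t < B, ∀ y ∈ ann r, r + ε ≤ ‖y‖ → v y < t := by
  have B0 := h.ch.B0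
  have hT : IsCompact (cann r ∩ {y | r + ε ≤ ‖y‖}) :=
    (isCompact_cann r).inter_right (isClosed_le continuous_const continuous_norm)
  have : ∃ t < B, ∀ y ∈ cann r ∩ {y | r + ε ≤ ‖y‖}, y ∈ ann r → v y < t := by
    refine hT.induction_on (p := fun S => ∃ t < B, ∀ y ∈ S, y ∈ ann r → v y < t)
      ⟨0, B0, fun _ hy => hy.elim⟩ (fun _ _ hst ⟨t, ht, k⟩ => ⟨t, ht, fun y hy => k y (hst hy)⟩)
      (fun _ _ ⟨t, ht, k⟩ ⟨t', ht', k'⟩ => ⟨max t t', max_lt ht ht', fun y hy hy' =>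
        hy.elim (fun e => (k y e hy').trans_le (le_max_left _ _))
          fun e => (k' y e hy').trans_le (le_max_right _ _)⟩) fun q hq => ?_
    obtain ⟨L, hL, hl⟩ : ∃ L < B, Tendsto v (𝓝[ann r] q) (𝓝 L) := by
      rcases hq.1.2.lt_or_eq with k | k
      · have hq' : q ∈ ann r := ⟨lt_of_lt_of_le (by linarith) hq.2, k⟩
        refine ⟨v q, ?_, h.crit.v_cont q hq'⟩
        by_cases hk : q ∈ κ '' Icc 0 1
        · rw [h.crit.v_zero q hq' hk]; exact B0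
        · exact (ba.vpos q ⟨hq', hk⟩).2
      · exact ⟨0, B0, h.crit.v_outer q k⟩
    have h1 := hl.eventually (gt_mem_nhds (show L < (L + B) / 2 by linarith))
    rw [eventually_nhdsWithin_iff] at h1
    exact ⟨_, mem_nhdsWithin_of_mem_nhds h1, (L + B) / 2, by linarith, fun y hy => hy⟩
  obtain ⟨t, ht, k⟩ := this
  exact ⟨t, ht, fun y hy hy' => k y ⟨ann_sub_cann r hy, hy'⟩ hy⟩

theorem bij (hDEG : Z_DEG) (h : ZC r B x₀ z₁ a b c κ v g) (ba : BA r B x₀ z₁ a b c κ v)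
    (nh : NH r κ) {Λ ε : ℝ} {φ : ℂ → ℂ} (hΛ : 0 < Λ) (hε : 0 < ε)
    (dφ : DifferentiableOn ℂ φ (XX r κ))
    (hn : ∀ z ∈ XX r κ, ‖φ z‖ = Real.exp (-(Λ * v z / B)))
    (hN : {z : ℂ | r < ‖z‖ ∧ ‖z‖ < r + ε} ⊆ XX r κ)
    (hinj : InjOn φ {z : ℂ | r < ‖z‖ ∧ ‖z‖ < r + ε}) :
    BijOn φ (XX r κ) (ann (Real.exp (-Λ))) ∧ ∀ y ∈ XX r κ, deriv φ y ≠ 0 := by
  have r0 := h.ch.r0
  have B0 := h.ch.B0
  obtain ⟨t, ht, hgap⟩ := gap h ba hε
  have hp : ‖(r : ℂ)‖ = r := by rw [norm_real, Real.norm_of_nonneg r0.le]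
  have : (𝓝[ann r] (r : ℂ)).NeBot := mem_closure_iff_nhdsWithin_neBot.1 (by
    rw [closure_ann r0 h.ch.r1]; exact ⟨hp.ge, hp.le.trans h.ch.r1.le⟩)
  have e1 := (h.crit.v_inner _ hp (notK nh hp)).eventually (lt_mem_nhds ht)
  have e2 : ∀ᶠ z in 𝓝[ann r] (r : ℂ), ‖z‖ < r + ε :=
    mem_nhdsWithin_of_mem_nhds ((continuous_norm.tendsto' _ _ hp).eventually
      (gt_mem_nhds (by linarith)))
  obtain ⟨z, z1, z2, z3⟩ := (e1.and (e2.and self_mem_nhdsWithin)).exists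
  refine hDEG _ _ _ φ z ((isOpen_ann r).sdiff ba.cont.cpt.isClosed)
    (ba.main_eq ▸ preconn_main r _) (isOpen_ann _) (preconn_ann (Real.exp_pos _)) dφ
    (fun y hy => ?_) (proper h ba nh dφ.continuousOn hn)
    ((isOpen_lt continuous_const continuous_norm).inter (isOpen_lt continuous_norm continuous_const))
    hN hinj ⟨z3.1, z2⟩ fun y hy e => ⟨hy.1.1, ?_⟩
  · obtain ⟨k1, k2⟩ := ba.vpos y hy
    constructor
    · rw [hn y hy, Real.exp_lt_exp, neg_lt_neg_iff, div_lt_iff₀ B0]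
      exact mul_lt_mul_of_pos_left k2 hΛ
    · rw [hn y hy]
      exact Real.exp_lt_one_iff.2 (neg_neg_of_pos (by positivity))
  · by_contra hc
    have k1 := hgap y hy.1 (not_lt.1 hc)
    have k2 := hn y hy
    rw [e, hn z (hN ⟨z3.1, z2⟩), Real.exp_eq_exp, neg_inj, div_left_inj' B0.ne',
      mul_right_inj' hΛ.ne'] at k2
    linarith

end AnP

theorem z_an (hCONJ : Z_CONJ) (hDEG : Z_DEG) (hINV : Z_INV) : Z_AN := by
  intro r B x₀ z₁ a b c κ v g h ba nh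
  obtain ⟨Λ, ε, φ, hΛ, hε, dφ, hn, hN, hinj⟩ := hCONJ r B x₀ z₁ a b c κ v g h ba nh
  have B0 := h.ch.B0
  have Xo : IsOpen (XX r κ) := (isOpen_ann r).sdiff ba.cont.cpt.isClosed
  have hx : (x₀ : ℂ) ∈ XX r κ := ⟨h.ch.m0, h.crit.avoid⟩
  have w0 : 0 < ‖φ x₀‖ := by rw [hn _ hx]; exact Real.exp_pos _
  have w1 : φ x₀ ≠ 0 := norm_pos_iff.1 w0
  obtain ⟨τ, τ1, τ2⟩ : ∃ τ : ℂ, ‖τ‖ = 1 ∧ τ * φ x₀ = ‖φ x₀‖ :=
    ⟨‖φ x₀‖ / φ x₀, by rw [norm_div, norm_real, norm_norm, div_self w0.ne'],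
      div_mul_cancel₀ _ w1⟩
  have τ0 : τ ≠ 0 := norm_pos_iff.1 (τ1 ▸ one_pos)
  have d' : DifferentiableOn ℂ (fun z => τ * φ z) (XX r κ) := dφ.const_mul τ
  have n' : ∀ z ∈ XX r κ, ‖τ * φ z‖ = Real.exp (-(Λ * v z / B)) := fun z hz => by
    rw [norm_mul, τ1, one_mul, hn z hz]
  obtain ⟨hb, hd⟩ := AnP.bij hDEG h ba nh hΛ hε d' n' hN fun x hx y hy e =>
    hinj hx hy (mul_left_cancel₀ τ0 e)
  obtain ⟨-, ψ, k1, k2⟩ := hINV _ _ Xo d' hb.injOn hd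
  obtain ⟨v1, v2⟩ := ba.vpos _ hx
  refine ⟨Λ, Λ * v x₀ / B, fun z => τ * φ z, ψ, by positivity, ?_, d', hb, hd, fun w hw => ?_, k1,
    ?_, n'⟩
  · rw [div_lt_iff₀ B0]
    exact mul_lt_mul_of_pos_left v2 hΛ
  · obtain ⟨z, hz, rfl⟩ := hb.surjOn hw
    exact (k2 z hz).differentiableAt.differentiableWithinAt
  · rw [τ2, hn _ hx]

end Pool.Agent.P.MP_3bd355_an
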