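import Pool.Agent.P.MP_3bd355_an.Z.Stmts

/-! The case `A = 0`: package BA. -/

open Set Filter Metric Complex InnerProductSpace MeasureTheory
open scoped Topology ComplexConjugate Real

namespace Pool.Agent.P.MP_3bd355_an

namespace BaP

theorem ls_of_tendsto {u : ℂ → ℝ} {U : Set ℂ} {p : ℂ} {c : ℝ} (h : Tendsto u (𝓝[U] p) (𝓝 c)) :
    LS u U p c := fun _ hε => h.eventually (gt_mem_nhds (lt_add_of_pos_right c hε))

/-- The frontier of a component lies in the frontier of the open set. -/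
theorem frontier_comp {X : Set ℂ} (hX : IsOpen X) (z : ℂ) :
    frontier (connectedComponentIn X z) ⊆ frontier X := by
  intro p hp
  rw [hX.connectedComponentIn.frontier_eq] at hp
  rw [hX.frontier_eq]
  refine ⟨closure_mono (connectedComponentIn_subset X z) hp.1, fun hpX => hp.2 ?_⟩
  obtain ⟨y, hy1, hy2⟩ := mem_closure_iff.1 hp.1 _ (hX.connectedComponentIn (x := p))
    (mem_connectedComponentIn hpX)
  rw [connectedComponentIn_eq hy2, ← connectedComponentIn_eq hy1]
  exact mem_connectedComponentIn hpX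

end BaP

open BaP Top1P in
theorem z_ba : Z_BA := by
  intro r B x₀ z₁ a b c κ v g h
  have hc := h.ch
  have hk := h.crit
  have h1 := all_CRIT1 _ _ _ _ _ _ _ _ _ _ _ hc hk
  have hend : ‖κ 1‖ = 1 := (hk.end_zero rfl).1
  have hcont : Cont r (KK κ) := by
    refine ⟨hc.r0, hc.r1, isCompact_Icc.image_of_continuousOn hk.cont,
      isPreconnected_Icc.image _ hk.cont, ⟨κ 0, ⟨0, by simp, rfl⟩, κ 1, ⟨1, by simp, rfl⟩, ?_⟩,
      ?_, ?_⟩
    · intro e
      have := hc.m1.2
      rw [← hk.start, e, hend] at this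
      exact lt_irrefl _ this
    · rintro _ ⟨t, ht, rfl⟩
      exact h1.2.2.1 t ht
    · rintro _ ⟨t, ht, rfl⟩
      exact h.low t ht
  have hXo : IsOpen (XX r κ) := (isOpen_ann r).sdiff hcont.cpt.isClosed
  have hnz : NZ r x₀ z₁ a b c := by
    have e1 : ∀ᶠ t in 𝓝[Icc 0 1] (0 : ℝ), r < ‖κ t‖ :=
      (hk.cont 0 (by simp)).norm.eventually (lt_mem_nhds (by simpa [hk.start] using hc.m1.1))
    have e2 : ∀ᶠ t in 𝓝[>] (0 : ℝ), t ∈ Ioo (0 : ℝ) 1 := Ioo_mem_nhdsGT one_pos
    have e3 : 𝓝[>] (0 : ℝ) ≤ 𝓝[Icc 0 1] 0 :=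
      nhdsWithin_le_of_mem (mem_of_superset e2 Ioo_subset_Icc_self)
    obtain ⟨t, ht1, ht2⟩ := ((e1.filter_mono e3).and e2).exists
    obtain ⟨-, ρ, hρ, e⟩ := hk.traj t ht2 ht1
    refine ⟨κ t, ⟨ht1, (hk.mem t ⟨ht2.1.le, ht2.2⟩).2⟩,
      fun e' => hk.avoid ⟨t, Ioo_subset_Icc_self ht2, e'⟩, fun e' => ?_, fun e' => ?_⟩
    · rw [← hk.start] at e'
      exact ht2.1.ne' (hk.inj (Ioo_subset_Icc_self ht2) (by simp) e')
    · rw [e', zero_mul] at e
      exact hρ.ne' (by exact_mod_cast neg_eq_zero.1 e.symm)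
  have hx0 : (x₀ : ℂ) ∈ main r (KK κ) := hcont.mem_main hc.m0 (by simp) hk.avoid
  have hmain : main r (KK κ) = XX r κ := by
    refine Subset.antisymm (main_sub _ _) fun z hz => ?_
    by_contra hzm
    have hW : IsOpen (connectedComponentIn (XX r κ) z) := hXo.connectedComponentIn
    have hWs := connectedComponentIn_subset (XX r κ) z
    have hne : ∀ y ∈ connectedComponentIn (XX r κ) z, y ≠ x₀ := by
      rintro _ hy rfl
      apply hzm
      rw [main, connectedComponentIn_eq hx0, ← connectedComponentIn_eq hy]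
      exact mem_connectedComponentIn hz
    have hg : HarmonicOnNhd g (connectedComponentIn (XX r κ) z) := fun y hy =>
      hk.g_harm y ⟨hWs hy, hne y hy⟩
    have hb : Bornology.IsBounded (connectedComponentIn (XX r κ) z) :=
      (bdd_ann r).subset (hWs.trans sdiff_subset)
    have hl : ∀ p ∈ frontier (connectedComponentIn (XX r κ) z),
        Tendsto g (𝓝[connectedComponentIn (XX r κ) z] p) (𝓝 0) := fun p hp =>
      (hk.g_bd p (frontier_comp hXo z hp)).mono_left (nhdsWithin_mono _ hWs)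
    have g1 := (Sub.of_harm hg).mp0 hW hb fun p hp => ls_of_tendsto (hl p hp)
    have g2 := (Sub.of_harm hg.neg).mp0 hW hb (c := 0) fun p hp =>
      ls_of_tendsto (by have := (hl p hp).neg; rwa [neg_zero] at this)
    obtain ⟨S, hS, -, -, hQ⟩ := hnz.finite hc.r0 hc.r1 hc.m0 hc.m1
    obtain ⟨y, hy, hyS⟩ :=
      (infinite_of_mem_nhds z (hW.mem_nhds (mem_connectedComponentIn hz))).exists_notMem_finite hS
    refine hQ y (ann_sub_cann r (hWs hy).1) hyS ?_
    have e : g =ᶠ[𝓝 y] fun _ => 0 := by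
      filter_upwards [hW.mem_nhds hy] with w hw
      have g3 : -g w ≤ 0 := g2 w hw
      linarith [g1 w hw]
    rw [← hk.prod y (hWs hy) (hne y hy), grad_congr e, grad_const, mul_zero]
  have hdense : ∀ p ∈ cann r, p ∈ closure (XX r κ) := by
    intro p hp
    rw [← closure_ann hc.r0 hc.r1] at hp
    have hd : Dense (KK κ)ᶜ := interior_eq_empty_iff_dense_compl.1 (arc_interior hk.cont hk.inj)
    exact closure_minimal (hd.open_subset_closure_inter (isOpen_ann r)) isClosed_closure hp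
  have hex : Ex r (KK κ) = sphere 0 r \ KK κ := by
    ext p
    simp only [Ex, hmain, mem_ofPred_eq, Set.mem_sdiff, mem_sphere_zero_iff_norm]
    exact ⟨fun hp => ⟨hp.1, hp.2.1⟩,
      fun hp => ⟨hp.1, hp.2, hdense p ⟨hp.1.ge, hp.1.le.trans hc.r1.le⟩⟩⟩
  have tr : ∀ (p : ℂ) (m : ℝ), Tendsto v (𝓝[ann r] p) (𝓝 m) →
      Tendsto (indicator (XX r κ) v) (𝓝[main r (KK κ)] p) (𝓝 m) := fun p m hp => by
    rw [hmain]
    refine (hp.mono_left (nhdsWithin_mono _ sdiff_subset)).congr' ?_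
    filter_upwards [self_mem_nhdsWithin] with z hz using (indicator_of_mem hz v).symm
  have hsol : Sol r 0 B (KK κ) (indicator (XX r κ) v) := by
    refine ⟨fun z hz => ?_, ?_, fun z hz => indicator_of_notMem (hmain ▸ hz) v, fun p hp hpe => ?_,
      fun p hp _ => tr p 0 (hk.v_outer p hp), fun p hp => tr p B (hk.v_inner p hp.1 hp.2.1)⟩
    · rw [hmain] at hz
      refine (harmonicAt_congr_nhds ?_).1 (hk.v_harm z hz)
      filter_upwards [hXo.mem_nhds hz] with w hw using (indicator_of_mem hw v).symm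
    · obtain ⟨C, hC⟩ := hk.v_bdd
      refine ⟨max C 0, fun z => ?_⟩
      by_cases hz : z ∈ XX r κ
      · rw [indicator_of_mem hz]; exact (hC z hz.1).trans (le_max_left _ _)
      · rw [indicator_of_notMem hz, abs_zero]; exact le_max_right _ _
    · have hp' := hcont.sub hp
      refine tr p 0 ?_
      rcases hp'.1.eq_or_lt with e | e
      · exact hk.v_hug p e.symm (hex ▸ hpe)
      rcases hp'.2.eq_or_lt with e' | e'
      · exact hk.v_outer p e'
      · have := hk.v_cont p ⟨e, e'⟩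
        rwa [ContinuousWithinAt, hk.v_zero p ⟨e, e'⟩ hp] at this
  refine ⟨hcont, hmain, hnz, hsol, hex, fun z hz => ⟨?_, ?_⟩, hdense⟩
  · have := hsol.pos_of_zero hcont hc.B0 z (hmain ▸ hz)
    rwa [indicator_of_mem hz] at this
  · refine ((h1.2.1 z hz.1).2).lt_of_ne fun e => ?_
    have hz0 := harm_zero_of_min (u := fun y => B - v y) hXo (hmain ▸ preconn_main _ _)
      (fun y hy => (harmonicAt_const B).sub (hk.v_harm y hy))
      (fun y hy => sub_nonneg.2 (h1.2.1 y hy.1).2) hz (sub_eq_zero.2 e.symm)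
    have hn : (𝓝[XX r κ] (1 : ℂ)).NeBot :=
      mem_closure_iff_nhdsWithin_neBot.1 (hdense 1 ⟨by simpa using hc.r1.le, by simp⟩)
    have t1 : Tendsto v (𝓝[XX r κ] (1 : ℂ)) (𝓝 0) :=
      (hk.v_outer 1 (by simp)).mono_left (nhdsWithin_mono _ sdiff_subset)
    have t2 : Tendsto v (𝓝[XX r κ] (1 : ℂ)) (𝓝 B) := by
      refine tendsto_const_nhds.congr' ?_
      filter_upwards [self_mem_nhdsWithin] with y hy using sub_eq_zero.1 (hz0 y hy)
    exact hc.B0.ne (tendsto_nhds_unique t1 t2)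

end Pool.Agent.P.MP_3bd355_an
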