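import Pool.Agent.P.MP_3bd355_an.Z.Stmts

/-! The case `A = 0`: package ENDS. -/

open Set Filter Metric Complex InnerProductSpace MeasureTheory
open scoped Topology ComplexConjugate Real

namespace Pool.Agent.P.MP_3bd355_an

namespace EndsP

theorem go {r : ℝ} {κ : ℝ → ℂ} {x G : ℂ → ℝ} {W : ℝ → ℝ} (hg : GO r κ x G) (hW : Continuous W)
    (hm : Monotone W) (ho : ∀ t, W (-t) = -W t) : GO r κ x fun z => W (G z) := by
  have W0 : W 0 = 0 := by have := ho 0; rw [neg_zero] at this; linarith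
  obtain ⟨δ, hδ, cG⟩ := hg.cont
  obtain ⟨C, hC⟩ := hg.bdd
  obtain ⟨S, hS, bd⟩ := hg.bd
  refine ⟨⟨δ, hδ, hW.comp_continuousOn cG⟩, ⟨W C, fun z hz => ?_⟩,
    ⟨S, hS, fun p hp hq ε hε => ?_⟩, fun t ht hr => ?_⟩
  · have := abs_le.1 (hC z hz)
    exact abs_le.2 ⟨ho C ▸ hm this.1, hm this.2⟩
  · have h1 : ∀ᶠ s in 𝓝 (0 : ℝ), W s < ε := hW.continuousAt.eventually
      (gt_mem_nhds (W0.trans_lt hε))
    obtain ⟨s, hs, hs0⟩ := ((h1.filter_mono (nhdsWithin_le_nhds (s := Ioi 0))).and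
      self_mem_nhdsWithin).exists
    filter_upwards [bd p hp hq s hs0] with z hz
    rw [zero_add] at hz ⊢
    exact (hm hz.le).trans_lt hs
  · obtain ⟨V, hV, H⟩ := hg.odd t ht hr
    refine ⟨V, hV, fun O hO hOV A₁ A₂ p₁ p₂ e => ?_⟩
    obtain ⟨γ, -, g₁, g₂⟩ := H O hO hOV A₁ A₂ p₁ p₂ e
    exact ⟨W γ, trivial, (hW.tendsto _).comp g₁, ho γ ▸ (hW.tendsto _).comp g₂⟩

theorem core {a c C η : ℝ} (ha : 0 < a) {u v : ℝ → ℝ} (hu : ContinuousOn u (Ioo (-a) a))
    (hb : ∀ y ∈ Ioo (-a) a, |u y| ≤ C) (e : ∀ y ∈ Ioo 0 a, v y = c - u y - u (-y))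
    (h : ∫ y in (-a)..a, u y ≤ η) :
    IntervalIntegrable v volume 0 a ∧ c * a - η ≤ ∫ y in (0 : ℝ)..a, v y := by
  have iI : IntegrableOn u (Ioo (-a) a) :=
    Integrable.mono' (integrableOn_const (C := C) measure_Ioo_lt_top.ne)
      (hu.aestronglyMeasurable measurableSet_Ioo)
      ((ae_restrict_iff' measurableSet_Ioo).2 (ae_of_all _ hb))
  have i1 : IntervalIntegrable u volume 0 a :=
    (intervalIntegrable_iff_integrableOn_Ioo_of_le ha.le).2
      (iI.mono_set (Ioo_subset_Ioo_left (by linarith)))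
  have i2 : IntervalIntegrable u volume (-a) 0 :=
    (intervalIntegrable_iff_integrableOn_Ioo_of_le (by linarith)).2
      (iI.mono_set (Ioo_subset_Ioo_right ha.le))
  have i3 : IntervalIntegrable (fun y => u (-y)) volume 0 a := by
    simpa using ((IntervalIntegrable.iff_comp_neg (by finiteness)).1 i2).symm
  have i4 : IntervalIntegrable (fun y => c - u y - u (-y)) volume 0 a :=
    (intervalIntegrable_const.sub i1).sub i3
  refine ⟨(intervalIntegrable_iff_integrableOn_Ioo_of_le ha.le).2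
    (((intervalIntegrable_iff_integrableOn_Ioo_of_le ha.le).1 i4).congr_fun
      (fun y hy => (e y hy).symm) measurableSet_Ioo), ?_⟩
  have e1 : ∫ y in (0 : ℝ)..a, v y = ∫ y in (0 : ℝ)..a, (c - u y - u (-y)) := by
    rw [intervalIntegral.integral_of_le ha.le, intervalIntegral.integral_of_le ha.le,
      integral_Ioc_eq_integral_Ioo, integral_Ioc_eq_integral_Ioo]
    exact setIntegral_congr_fun measurableSet_Ioo e
  rw [e1, intervalIntegral.integral_sub (intervalIntegrable_const.sub i1) i3,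
    intervalIntegral.integral_sub intervalIntegrable_const i1, intervalIntegral.integral_const,
    intervalIntegral.integral_comp_neg, neg_zero, smul_eq_mul, sub_zero]
  rw [← intervalIntegral.integral_add_adjacent_intervals i2 i1] at h
  linarith

end EndsP

theorem z_ends : Z_ENDS := by
  intro r x₀ z₁ f f' ξ G W hf hd hwe hW hm ho hr η hη
  have ha : 0 < f'.a₁ := hf.sh.1
  have hg := EndsP.go hd.go hW hm ho
  obtain ⟨δ, hδ, cG⟩ := hg.cont
  obtain ⟨C, hC⟩ := hg.bdd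
  obtain ⟨δ₁, hδ₁, en⟩ := hd.ends
  filter_upwards [hwe _ hg η hη, Ioo_mem_nhdsGT hδ, Ioo_mem_nhdsGT hδ₁, Ioo_mem_nhdsGT hf.fc.δ0]
    with t h0 h1 h2 h3
  have mem : ∀ y ∈ Ioo (-f'.a₁) f'.a₁, (y : ℂ) + (t : ℝ) * I ∈ RR f'.a₁ f'.δ := fun y hy =>
    ⟨by simpa using hy.1, by simpa using hy.2, by simpa using h3.1, by simpa using h3.2⟩
  refine EndsP.core (C := C) ha (u := fun y : ℝ => W (G (f'.F (y + t * I)))) ?_
    (fun y hy => hC _ (hf.fc.maps _ (mem y hy))) (fun y hy => ?_) h0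
  · refine cG.comp (hf.fc.d.continuousOn.comp (by fun_prop) mem) fun y hy =>
      ⟨hf.fc.maps _ (mem y hy), ?_⟩
    show f'.x (f'.F _) < δ
    rw [hf.fc.xF _ (mem y hy)]
    simpa using h1.2
  · rw [(en t h2 y hy).1, (en t h2 y hy).2, hr, ← (hf.fc.rel t h3 y hy).1,
      ← (hf.fc.rel t h3 y hy).2, ofReal_neg]

end Pool.Agent.P.MP_3bd355_an
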