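import Pool.Agent.P.MP_3bd355_an.Z.Stmts

/-! The case `A = 0`: package FY2. -/

open Set Filter Metric Complex InnerProductSpace MeasureTheory
open scoped Topology ComplexConjugate Real

namespace Pool.Agent.P.MP_3bd355_an

namespace Fy2P

theorem uniq {v : ℂ → ℝ} {γ : ℝ → ℂ} {l : Filter ℝ} {p : ℂ} {S : Set ℂ} {a c : ℝ}
    (hp : MapClusterPt p l γ) (hS : ∀ᶠ t in l, γ t ∈ S) (h1 : Tendsto (fun t => v (γ t)) l (𝓝 c))
    (h2 : Tendsto v (𝓝[S] p) (𝓝 a)) : a = c := by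
  have : NeBot (𝓝 p ⊓ map γ l) := hp
  refine tendsto_nhds_unique (l := 𝓝 p ⊓ map γ l) (h2.mono_left ?_)
    ((tendsto_map'_iff.2 h1).mono_left inf_le_right)
  exact inf_le_inf_left _ (le_principal_iff.2 hS)

theorem clos {γ : ℝ → ℂ} {l : Filter ℝ} {p : ℂ} {S : Set ℂ}
    (hp : MapClusterPt p l γ) (hS : ∀ᶠ t in l, γ t ∈ S) : p ∈ closure S :=
  mem_closure_iff_clusterPt.2 (ClusterPt.mono hp (le_principal_iff.2 hS))

variable {d : Dat}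

theorem clus (h : GF d) {γ : ℝ → ℂ} {l : Filter ℝ} [l.NeBot] {c : ℝ}
    (hS : ∀ᶠ t in l, γ t ∈ XX d.r d.κ) (h1 : Tendsto (fun t => d.v (γ t)) l (𝓝 c)) :
    ∃ p, MapClusterPt p l γ ∧ ((p ∈ ann d.r ∧ d.v p = c) ∨ (‖p‖ = 1 ∧ 0 = c) ∨
      (‖p‖ = d.r ∧ (p ∉ KK d.κ → d.B = c))) := by
  have hA : ∀ᶠ t in l, γ t ∈ ann d.r := hS.mono fun t ht => ht.1
  obtain ⟨p, hp, hc⟩ := (isCompact_cann d.r).exists_mapClusterPt (f := l) (u := γ)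
    (le_principal_iff.2 (hA.mono fun t ht => ⟨ht.1.le, ht.2.le⟩))
  refine ⟨p, hc, ?_⟩
  rcases hp.1.lt_or_eq with k1 | k1
  · rcases hp.2.lt_or_eq with k2 | k2
    · exact Or.inl ⟨⟨k1, k2⟩, uniq hc hA h1 (h.zc.crit.v_cont p ⟨k1, k2⟩)⟩
    · exact Or.inr (Or.inl ⟨k2, uniq hc hA h1 (h.zc.crit.v_outer p k2)⟩)
  · exact Or.inr (Or.inr ⟨k1.symm, fun k => uniq hc hA h1 (h.zc.crit.v_inner p k1.symm k)⟩)

theorem str (y : ℝ) {t : ℝ} (ht : t ∈ Ioo 0 d.Λ) : (t + y * I : ℂ) ∈ Str d.Λ := by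
  simpa [Str] using ht

theorem limv (h : GF d) (y : ℝ) {l : Filter ℝ} {s : ℝ} (hl : l ≤ 𝓝 s)
    (hS : ∀ᶠ t in l, t ∈ Ioo 0 d.Λ) :
    Tendsto (fun t : ℝ => d.v (d.Ψ (t + y * I))) l (𝓝 (d.B * s / d.Λ)) := by
  have : Tendsto (fun t : ℝ => d.B * t / d.Λ) l (𝓝 (d.B * s / d.Λ)) :=
    (Continuous.tendsto (by fun_prop) s).mono_left hl
  refine this.congr' (hS.mono fun t ht => ?_)
  simp only
  rw [h.un.val _ (str y ht)]
  simp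

theorem innr (h : GF d) (y : ℝ) {s : ℝ} (hs : s < d.Λ) {S : Set ℂ}
    (hS : ∀ t ∈ Ioo s d.Λ, d.Ψ (t + y * I) ∈ S) : ∃ p ∈ closure S, ‖p‖ = d.r := by
  have k : ∀ᶠ t in 𝓝[<] d.Λ, t ∈ Ioo 0 d.Λ := Ioo_mem_nhdsLT h.Λ0
  have k' : ∀ᶠ t in 𝓝[<] d.Λ, t ∈ Ioo s d.Λ := Ioo_mem_nhdsLT hs
  have e := limv h y nhdsWithin_le_nhds k
  rw [mul_div_assoc, div_self h.Λ0.ne', mul_one] at e
  obtain ⟨p, hp, hc⟩ := clus h (k.mono fun t ht => h.un.maps _ (str y ht)) e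
  refine ⟨p, clos hp (k'.mono hS), ?_⟩
  rcases hc with hc | hc | hc
  · by_cases hK : p ∈ KK d.κ
    · exact absurd ((h.zc.crit.v_zero p hc.1 hK).symm.trans hc.2) h.B0.ne
    · exact absurd hc.2 (h.ba.vpos p ⟨hc.1, hK⟩).2.ne
  · exact absurd hc.2 h.B0.ne
  · exact hc.1

theorem cnt (h : GF d) (y : ℝ) : ContinuousOn (fun t : ℝ => d.Ψ (t + y * I)) (Ioo 0 d.Λ) :=
  h.un.d.continuousOn.comp (by fun_prop) fun _ ht => str y ht

theorem x_cut (h : GF d) {u : ℂ} (hu : u ∈ Str d.Λ) (hi : u.im = 0) (hr : d.u₀ ≤ u.re) :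
    d.x (d.Ψ u) = d.b₃ + d.b₂ := by
  rw [(h.x_Psi ⟨hu.1.le, hu.2.le, hi.ge, fun _ => hi.trans_le Real.pi_pos.le⟩ hu).1]
  rcases hr.lt_or_eq with hr | hr
  · have : d.Φ u ∈ d.Φ '' {u | u.im = 0 ∧ d.u₀ < u.re ∧ u.re < d.Λ} := ⟨u, ⟨hi, hr, hu.2⟩, rfl⟩
    rw [h.lb.br] at this
    exact this.1
  · rw [show u = d.u₀ from Complex.ext hr.symm hi, h.lb.p0, ofReal_re]

theorem x_top (h : GF d) (hf : d.fin) {u : ℂ} (hu : u ∈ Str d.Λ) (hi : u.im = π) :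
    d.x (d.Ψ u) ≤ d.b₃ := by
  rw [(h.x_Psi ⟨hu.1.le, hu.2.le, Real.pi_pos.le.trans hi.ge, fun _ => hi.le⟩ hu).1]
  rcases lt_trichotomy u.re d.cc with k | k | k
  · have : d.Φ u ∈ d.Φ '' {u | u.im = π ∧ 0 < u.re ∧ u.re < d.cc} := ⟨u, ⟨hi, hu.1, k⟩, rfl⟩
    rw [h.lb.tl hf] at this
    exact this.2.2.le
  · rw [show u = d.cc + π * I from Complex.ext (by simpa using k) (by simpa using hi), h.lb.pc hf]
    simp
  · have : d.Φ u ∈ d.Φ '' {u | u.im = π ∧ d.cc < u.re ∧ u.re < d.Λ} := ⟨u, ⟨hi, k, hu.2⟩, rfl⟩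
    rw [h.lb.tr hf] at this
    exact this.1.le

theorem kclos (h : GF d) {T : Set ℝ} (hT : T ⊆ Icc 0 1) {t : ℝ} (ht : t ∈ closure T) :
    d.κ t ∈ closure (d.κ '' T) :=
  ((h.ka.cont t (closure_minimal hT isClosed_Icc ht)).mono hT).mem_closure_image ht

end Fy2P

open Fy2P in
theorem z_fy2 : Z_FY2 := by
  intro d h fx
  have b3 := h.lb.sh.nonneg.2
  have sub : Ico d.u₀ d.Λ ⊆ Ioo 0 d.Λ := fun t ht => ⟨h.md.u0.trans_le ht.1, ht.2⟩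
  refine ⟨⟨(fun t : ℝ => d.Ψ (t + (0 : ℝ) * I)) '' Ico d.u₀ d.Λ,
    isPreconnected_Ico.image _ ((cnt h 0).mono sub), ?_,
    ⟨d.u₀, ⟨le_rfl, h.md.u1⟩, by simpa using h.un.base⟩, ?_,
    innr h 0 h.md.u1 fun t ht => ⟨t, Ioo_subset_Ico_self ht, rfl⟩⟩, ?_⟩
  · rintro _ ⟨t, ht, rfl⟩
    exact (h.un.maps _ (str 0 (sub ht))).1
  · rintro _ ⟨t, ht, rfl⟩
    exact x_cut h (str 0 (sub ht)) (by simp) (by simpa using ht.1)
  by_cases hf : d.fin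
  · have nh := h.un.nh.1 hf
    set T : Set ℂ := (fun t : ℝ => d.Ψ (t + π * I)) '' Ioo 0 d.Λ with hT
    have T1 : IsPreconnected T := isPreconnected_Ioo.image _ (cnt h π)
    have T2 : T ⊆ ann d.r := by
      rintro _ ⟨t, ht, rfl⟩
      exact (h.un.maps _ (str π ht)).1
    have T3 : ∀ z ∈ T, d.x z ≤ d.b₃ := by
      rintro _ ⟨t, ht, rfl⟩
      exact x_top h hf (str π ht) (by simp)
    have T4 : ∃ p ∈ closure T, ‖p‖ = d.r := innr h π h.Λ0 fun t ht => ⟨t, ht, rfl⟩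
    have k : ∀ᶠ t in 𝓝[>] (0 : ℝ), t ∈ Ioo 0 d.Λ := Ioo_mem_nhdsGT h.Λ0
    have e := limv h π nhdsWithin_le_nhds k
    rw [mul_zero, zero_div] at e
    obtain ⟨p, hp, hc⟩ := clus h (k.mono fun t ht => h.un.maps _ (str π ht)) e
    have hpT : p ∈ closure T := clos hp (k.mono fun t ht => ⟨t, ht, rfl⟩)
    rcases hc with hc | hc | hc
    · have hK : p ∈ KK d.κ := by
        by_contra hK
        exact absurd hc.2 (h.ba.vpos p ⟨hc.1, hK⟩).1.ne'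
      obtain ⟨t, ht, rfl⟩ := hK
      have ht1 : t < 1 := lt_of_le_of_ne ht.2 (by
        rintro rfl
        exact absurd h.ka.stop hc.1.2.ne)
      refine ⟨insert (d.κ t) T ∪ d.κ '' Ico 0 1, IsPreconnected.union (d.κ t) (mem_insert _ _)
        ⟨t, ⟨ht.1, ht1⟩, rfl⟩ (T1.subset_closure (subset_insert _ _)
          (insert_subset hpT subset_closure))
        (isPreconnected_Ico.image _ (h.ka.cont.mono Ico_subset_Icc_self)), ?_, ?_, ?_,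
        d.κ 1, closure_mono subset_union_right (kclos h Ico_subset_Icc_self ?_), h.ka.stop⟩
      · rintro z ((rfl | hz) | ⟨s, hs, rfl⟩)
        · exact hc.1
        · exact T2 hz
        · exact ⟨nh s (Ico_subset_Icc_self hs), (h.ka.mem s hs).2⟩
      · rintro z ((rfl | hz) | ⟨s, hs, rfl⟩)
        · rw [fx.zero _ ⟨t, ht, rfl⟩]; exact b3
        · exact T3 z hz
        · rw [fx.zero _ ⟨s, Ico_subset_Icc_self hs, rfl⟩]; exact b3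
      · obtain ⟨q, hq, e⟩ := T4
        exact ⟨q, closure_mono ((subset_insert _ _).trans subset_union_left) hq, e⟩
      · rw [closure_Ico zero_ne_one]
        exact right_mem_Icc.2 zero_le_one
    · exact ⟨T, T1, T2, T3, T4, p, hpT, hc.1⟩
    · refine absurd (hc.2 ?_) h.B0.ne'
      rintro ⟨t, ht, rfl⟩
      exact absurd hc.1 (nh t ht).ne'
  · rcases h.zc.crit.touch with k | ⟨s₁, s₂, k0, k1, k2, k3, -⟩
    · exact absurd (h.un.nh.2 k) hf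
    have sb : Ioo s₂ 1 ⊆ Icc 0 1 := fun t ht => ⟨(k0.trans_le k1).le.trans ht.1.le, ht.2.le⟩
    refine ⟨d.κ '' Ioo s₂ 1, isPreconnected_Ioo.image _ (h.ka.cont.mono sb), ?_, ?_,
      ⟨d.κ s₂, kclos h sb ?_, (k3 s₂ ⟨(k0.trans_le k1).le, k2.le⟩).2 ⟨k1, le_rfl⟩⟩,
      d.κ 1, kclos h sb ?_, h.ka.stop⟩
    · rintro _ ⟨t, ht, rfl⟩
      have := h.ka.mem t ⟨(sb ht).1, ht.2⟩
      exact ⟨lt_of_le_of_ne this.1 fun e => absurd ((k3 t (sb ht)).1 e.symm).2 (not_le.2 ht.1),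
        this.2⟩
    · rintro _ ⟨t, ht, rfl⟩
      rw [fx.zero _ ⟨t, sb ht, rfl⟩]; exact b3
    · rw [closure_Ioo k2.ne]; exact left_mem_Icc.2 k2.le
    · rw [closure_Ioo k2.ne]; exact right_mem_Icc.2 k2.le

end Pool.Agent.P.MP_3bd355_an
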