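import Pool.Agent.P.MP_3bd355_an.Z.Stmts

/-! The case `A = 0`: package LEAF2. -/

open Set Filter Metric Complex InnerProductSpace MeasureTheory
open scoped Topology ComplexConjugate Real

namespace Pool.Agent.P.MP_3bd355_an

namespace Leaf2P

theorem closed (hD : Z_DINI) {F g : ℝ → ℝ} {A B s₁ s₂ : ℝ} (h1 : A ≤ s₁) (h2 : s₁ ≤ s₂)
    (h3 : s₂ ≤ B) (hF : ContinuousOn F (Icc A B)) (hg : ContinuousOn g (Ioo A B))
    (h0 : ∀ t ∈ Ioo A B, 0 ≤ g t)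
    (hd : ∀ t ∈ Ioo A B, ∀ ε > 0, ∀ᶠ s in 𝓝 t, |F s - F t| ≤ (g t + ε) * |s - t|)
    (he : F A = F B) :
    ENNReal.ofReal (2 * |F s₂ - F s₁|) ≤ ∫⁻ t in Ioo A B, ENNReal.ofReal (g t) := by
  have k : ∀ a b, A ≤ a → a ≤ b → b ≤ B →
      ENNReal.ofReal |F b - F a| ≤ ∫⁻ t in Ioo a b, ENNReal.ofReal (g t) := fun a b ha hab hb =>
    hD F g a b hab (hF.mono (Icc_subset_Icc ha hb)) (hg.mono (Ioo_subset_Ioo ha hb))
      (fun t ht => h0 t (Ioo_subset_Ioo ha hb ht)) fun t ht => hd t (Ioo_subset_Ioo ha hb ht)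
  have d1 : Disjoint (Ioo A s₁) (Ioo s₁ s₂) :=
    disjoint_left.2 fun t ht ht' => lt_asymm ht.2 ht'.1
  have d2 : Disjoint (Ioo A s₁ ∪ Ioo s₁ s₂) (Ioo s₂ B) :=
    disjoint_left.2 fun t ht ht' => ht.elim (fun h => lt_asymm (h.2.trans_le h2) ht'.1)
      fun h => lt_asymm h.2 ht'.1
  have hs : Ioo A s₁ ∪ Ioo s₁ s₂ ∪ Ioo s₂ B ⊆ Ioo A B :=
    union_subset (union_subset (Ioo_subset_Ioo le_rfl (h2.trans h3)) (Ioo_subset_Ioo h1 h3))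
      (Ioo_subset_Ioo (h1.trans h2) le_rfl)
  refine le_trans ?_ (lintegral_mono_set hs)
  rw [lintegral_union measurableSet_Ioo d2, lintegral_union measurableSet_Ioo d1]
  refine le_trans ?_ (add_le_add (add_le_add (k A s₁ le_rfl h1 (h2.trans h3)) (k s₁ s₂ h1 h2 h3))
    (k s₂ B (h1.trans h2) h3 le_rfl))
  rw [← ENNReal.ofReal_add (abs_nonneg _) (abs_nonneg _),
    ← ENNReal.ofReal_add (by positivity) (abs_nonneg _)]
  refine ENNReal.ofReal_le_ofReal ?_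
  have := abs_sub_le (F s₂) (F B) (F s₁)
  rw [abs_sub_comm (F s₂) (F B), ← he, abs_sub_comm (F A) (F s₁)] at this
  rw [← he]
  linarith

theorem near {S U : Set ℂ} {Y : ℂ → ℝ} {p : ℂ} {c : ℝ} (hS : S ⊆ U) (hp : p ∈ closure S)
    (h : Tendsto Y (𝓝[U] p) (𝓝 c)) {P : ℝ → Prop} (hP : ∀ᶠ y in 𝓝 c, P y) : ∃ z ∈ S, P (Y z) := by
  have := mem_closure_iff_nhdsWithin_neBot.1 hp
  obtain ⟨z, h1, h2⟩ :=
    (((h.mono_left (nhdsWithin_mono p hS)).eventually hP).and self_mem_nhdsWithin).exists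
  exact ⟨z, h2, h1⟩

theorem chain {W : ℝ → ℝ} {γ : ℝ → ℝ} {t w d : ℝ} (hw : 0 ≤ w) (hd : 0 ≤ d)
    (hW : HasDerivAt W w (γ t)) (hγ : ContinuousAt γ t)
    (h : ∀ ε > 0, ∀ᶠ s in 𝓝 t, |γ s - γ t| ≤ (d + ε) * |s - t|) :
    ∀ ε > 0, ∀ᶠ s in 𝓝 t, |W (γ s) - W (γ t)| ≤ (w * d + ε) * |s - t| := by
  intro ε hε
  have hp : 0 < w + d + 1 := by positivity
  set e := min 1 (ε / (w + d + 1)) with he
  have e0 : 0 < e := lt_min one_pos (div_pos hε hp)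
  have e1 : e ≤ 1 := min_le_left _ _
  have e2 : e * (w + d + 1) ≤ ε := (le_div_iff₀ hp).1 (min_le_right _ _)
  have h1 := hγ.eventually (hW.isLittleO.bound e0)
  filter_upwards [h1, h e e0] with s k1 k2
  rw [Real.norm_eq_abs, Real.norm_eq_abs, smul_eq_mul] at k1
  have k3 : |W (γ s) - W (γ t)| ≤ (w + e) * |γ s - γ t| := by
    have := abs_add_le (W (γ s) - W (γ t) - (γ s - γ t) * w) ((γ s - γ t) * w)
    rw [sub_add_cancel, abs_mul, abs_of_nonneg hw] at this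
    linarith
  refine k3.trans ((mul_le_mul_of_nonneg_left k2 (by positivity)).trans ?_)
  rw [← mul_assoc]
  refine mul_le_mul_of_nonneg_right ?_ (abs_nonneg _)
  nlinarith

end Leaf2P

open Leaf2P in
theorem z_leaf2 (hDINI : Z_DINI) : Z_LEAF2 := by
  intro r x₀ z₁ f f' ξ ω hf hf' hm hω h0 y hy
  have ha : 0 < f'.a₃ := by linarith [hy.1, hy.2]
  have hy0 : 0 < y := hf'.sh.1.trans hy.1
  obtain ⟨lc, le, lm, ll⟩ := hf'.fy.lev y hy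
  have hdd : ∀ t ∈ Ioo f'.b₃ (f'.b₃ + 2 * f'.b₂),
      (t + y * I : ℂ) ∈ DD2 f'.a₁ f'.a₃ f'.b₃ f'.b₂ := fun t ht =>
    ⟨by simpa using hy0, Or.inr ⟨by simpa using ht.1, by simpa using ht.2, by simpa using hy.2⟩⟩
  have han : ∀ t ∈ Icc f'.b₃ (f'.b₃ + 2 * f'.b₂), f'.Z (t + y * I) ∈ ann r := fun t ht => by
    rcases ht.1.eq_or_lt with rfl | k1
    · exact lm
    rcases ht.2.eq_or_lt with rfl | k2
    · exact le ▸ lm
    exact (hf'.fz.maps _ (hdd t ⟨k1, k2⟩)).1.1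
  obtain ⟨t₁, ht₁, e₁⟩ : ∃ t ∈ Icc f'.b₃ (f'.b₃ + 2 * f'.b₂),
      f.x (f'.Z (t + y * I)) = f.b₃ + f.b₂ := by
    obtain ⟨σ, s1, s2, s3, s4, p, hp, hr⟩ := hf.fy.sig
    obtain ⟨z, hz, k⟩ := near s2 hp (hf'.fy.inn ha p hr) (lt_mem_nhds hy.2)
    obtain ⟨q, hq, eq⟩ := s1.intermediate_value s3 hz (hf'.fy.cont.mono s2)
      ⟨hf'.fy.base.le.trans hy.1.le, k.le⟩
    obtain ⟨t, ht, e⟩ := ll q (s2 hq) eq
    exact ⟨t, ht, by rw [e, s4 q hq]⟩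
  obtain ⟨t₂, ht₂, e₂⟩ : ∃ t ∈ Icc f'.b₃ (f'.b₃ + 2 * f'.b₂), f.x (f'.Z (t + y * I)) ≤ f.b₃ := by
    obtain ⟨τ, s1, s2, s4, ⟨p, hp, hr⟩, p', hp', hr'⟩ := hf.fy.tau
    obtain ⟨z, hz, k⟩ := near s2 hp (hf'.fy.inn ha p hr) (lt_mem_nhds hy.2)
    obtain ⟨z', hz', k'⟩ := near s2 hp' (hf'.fy.out p' hr') (gt_mem_nhds hy.1)
    obtain ⟨q, hq, eq⟩ := s1.intermediate_value hz' hz (hf'.fy.cont.mono s2) ⟨k'.le, k.le⟩
    obtain ⟨t, ht, e⟩ := ll q (s2 hq) eq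
    exact ⟨t, ht, by rw [e]; exact s4 q hq⟩
  let γ : ℝ → ℝ := fun t => f.x (f'.Z (t + y * I))
  let W : ℝ → ℝ := fun s => ∫ u in f.b₃..s, ω u
  have hW : ∀ s, HasDerivAt W (ω s) s := fun s => (hω.integral_hasStrictDerivAt _ s).hasDerivAt
  have hWc : Continuous W := continuous_iff_continuousAt.2 fun s => (hW s).continuousAt
  have hγ : ContinuousOn γ (Icc f'.b₃ (f'.b₃ + 2 * f'.b₂)) := hf.fx.cont.comp lc han
  have hl : Continuous fun t : ℝ => (t + y * I : ℂ) := by fun_prop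
  have hd0 : ∀ ζ, 0 ≤ den f f' ζ := fun ζ => by unfold den; positivity
  have main : ∀ s₁ ∈ Icc f'.b₃ (f'.b₃ + 2 * f'.b₂), ∀ s₂ ∈ Icc f'.b₃ (f'.b₃ + 2 * f'.b₂), s₁ ≤ s₂ →
      ENNReal.ofReal (2 * |W (γ s₂) - W (γ s₁)|) ≤ ∫⁻ t in Ioo f'.b₃ (f'.b₃ + 2 * f'.b₂),
        ENNReal.ofReal (ω (γ t) * den f f' (t + y * I)) := fun s₁ k₁ s₂ k₂ k => by
    refine Leaf2P.closed hDINI (F := fun t => W (γ t)) k₁.1 k k₂.2 (hWc.comp_continuousOn hγ)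
      ((hω.comp_continuousOn (hγ.mono Ioo_subset_Icc_self)).mul
        (hm.cont.comp hl.continuousOn hdd))
      (fun t _ => mul_nonneg (h0 _) (hd0 _)) (fun t ht => ?_) (congrArg (fun z => W (f.x z)) le)
    refine chain (h0 _) (hd0 _) (hW _) (hγ.continuousAt (Icc_mem_nhds ht.1 ht.2)) fun ε hε => ?_
    filter_upwards [(hl.tendsto t).eventually (hm.domx _ (hdd t ht) ε hε)] with s hs
    rwa [add_sub_add_right_eq_sub, ← ofReal_sub, norm_real, Real.norm_eq_abs] at hs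
  have hn : W (γ t₂) ≤ 0 := by
    show ∫ u in f.b₃..γ t₂, ω u ≤ 0
    rw [intervalIntegral.integral_symm, neg_nonpos]
    exact intervalIntegral.integral_nonneg e₂ fun u _ => h0 u
  have hb : W (f.b₃ + f.b₂) ≤ |W (γ t₁) - W (γ t₂)| := by
    rw [show γ t₁ = f.b₃ + f.b₂ from e₁]
    exact le_trans (by linarith) (le_abs_self _)
  refine le_trans (ENNReal.ofReal_le_ofReal (mul_le_mul_of_nonneg_left hb zero_le_two)) ?_
  rcases le_total t₁ t₂ with k | k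
  · rw [abs_sub_comm]; exact main t₁ ht₁ t₂ ht₂ k
  · exact main t₂ ht₂ t₁ ht₁ k

end Pool.Agent.P.MP_3bd355_an
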