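import Pool.Agent.P.MP_3bd355_an.Z.Stmts

/-! The case `A = 0`: package STRIP. -/

open Set Filter Metric Complex InnerProductSpace MeasureTheory
open scoped Topology ComplexConjugate Real

namespace Pool.Agent.P.MP_3bd355_an

namespace StripP

open PicAP

theorem tend {r : ℝ} (h0 : 0 < r) (h1 : r < 1) {p : ℂ} (hp : ‖p‖ = r) (t : ℝ) :
    ‖zc p t‖ = r ∧ Tendsto (zc p) (𝓝[upH] (t : ℂ)) (𝓝[ann r] (zc p t)) := by
  have hn : ‖zc p t‖ = r := by rw [norm_zc, hp]; simp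
  refine ⟨hn, ?_⟩
  have hc : Tendsto (zc p) (𝓝[upH] (t : ℂ)) (𝓝 (zc p t)) :=
    (cont_zc p).continuousAt.tendsto.mono_left nhdsWithin_le_nhds
  refine tendsto_nhdsWithin_iff.2 ⟨hc, ?_⟩
  have h2 : ∀ᶠ η in 𝓝[upH] (t : ℂ), ‖zc p η‖ < 1 :=
    hc.norm.eventually (gt_mem_nhds (hn.trans_lt h1))
  filter_upwards [h2, self_mem_nhdsWithin] with η h2 h3
  refine ⟨?_, h2⟩
  rw [norm_zc, hp]
  exact lt_mul_of_one_lt_right h0 (Real.one_lt_exp_iff.2 h3)

theorem deriv_zc (p η : ℂ) : deriv (zc p) η = -I * zc p η := by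
  have h : HasDerivAt (zc p) (p * (exp (-I * η) * (-I * 1))) η :=
    (((hasDerivAt_id η).const_mul (-I)).cexp).const_mul p
  rw [h.deriv, zc]; ring

theorem loc {r B x₀ : ℝ} {z₁ a b : ℂ} {c : ℝ} {κ : ℝ → ℂ} {v g : ℂ → ℝ}
    (hz : ZC r B x₀ z₁ a b c κ v g) (hb : BA r B x₀ z₁ a b c κ v) (hn : NH r κ) {p : ℂ}
    (hp : ‖p‖ = r) : ∀ᶠ z in 𝓝 p, r < ‖z‖ → z ∈ XX r κ ∧ (z * grad v z).re < 0 := by
  have h0 := hz.ch.r0
  have h1 := hz.ch.r1
  have hp0 : p ≠ 0 := by rintro rfl; rw [norm_zero] at hp; exact h0.ne hp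
  have hK : IsClosed (KK κ) := (isCompact_Icc.image_of_continuousOn hz.crit.cont).isClosed
  have hoff : ∀ q : ℂ, ‖q‖ = r → q ∉ KK κ := by
    rintro _ hq ⟨t, ht, rfl⟩
    exact (hn t ht).ne' hq
  have hW : ∀ᶠ η in 𝓝[upH] ((0 : ℝ) : ℂ), zc p η ∈ XX r κ := by
    obtain ⟨e, ht⟩ := tend h0 h1 hp 0
    filter_upwards [ht.eventually self_mem_nhdsWithin, ht.eventually
      (mem_nhdsWithin_of_mem_nhds (hK.isOpen_compl.mem_nhds (hoff _ e)))] with η k1 k2
    exact ⟨k1, k2⟩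
  have hh : ∀ η, zc p η ∈ XX r κ → HarmonicAt (fun η => v (zc p η)) η := fun η hη =>
    harm_comp (hz.crit.v_harm _ hη) (ana_zc p η)
  obtain ⟨Φ, hΦ⟩ := refAt_of_tendsto (u := fun η => B - v (zc p η)) (x := 0)
    (hW.mono fun η hη => (harmonicAt_const B).sub (hh η hη))
    (Eventually.of_forall fun t => by
      obtain ⟨e, ht⟩ := tend h0 h1 hp t
      have := ((hz.crit.v_inner _ e (hoff _ e)).comp ht).const_sub B
      rwa [sub_self] at this)
  have hd := hΦ.hopf (hW.mono fun η hη => sub_pos.2 (hb.vpos _ hη).2)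
  have hd' : ∀ᶠ η in 𝓝 ((0 : ℝ) : ℂ), 0 < (deriv Φ η).re :=
    (continuous_re.continuousAt.comp hΦ.1.deriv.continuousAt).eventually (lt_mem_nhds hd)
  have hall : ∀ᶠ η in 𝓝[upH] ((0 : ℝ) : ℂ),
      zc p η ∈ XX r κ ∧ (zc p η * grad v (zc p η)).re < 0 := by
    filter_upwards [hW, hΦ.grad, hd'.filter_mono nhdsWithin_le_nhds] with η k1 k2 k3
    refine ⟨k1, ?_⟩
    rw [grad_sub (differentiableAt_const B) (harm_diff (hh η k1)), grad_const,
      grad_comp (harm_diff (hz.crit.v_harm _ k1)) (ana_zc p η).differentiableAt, deriv_zc] at k2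
    have e : zc p η * grad v (zc p η) = -deriv Φ η := by
      apply mul_left_cancel₀ I_ne_zero
      linear_combination k2
    rw [e, neg_re]
    linarith
  filter_upwards [(zi_tendsto hp0).eventually (eventually_nhdsWithin_iff.1 hall)] with z k hr
  have hz0 : z ≠ 0 := by rintro rfl; rw [norm_zero] at hr; exact absurd h0 (not_lt.2 hr.le)
  have hu : zi p z ∈ upH := by
    show 0 < (zi p z).im
    rw [zi_im, hp]
    exact Real.log_pos ((one_lt_div h0).2 hr)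
  have := k hu
  rwa [zc_zi hp0 hz0] at this

end StripP

theorem z_strip : Z_STRIP := by
  intro r B x₀ z₁ a b c κ v g hz hb hn
  have h0 := hz.ch.r0
  obtain ⟨δ, hδ, hs⟩ := (isCompact_sphere (0 : ℂ) r).exists_thickening_subset_open
    (t := interior {z : ℂ | r < ‖z‖ → z ∈ XX r κ ∧ (z * grad v z).re < 0}) isOpen_interior
    fun p hp => mem_interior_iff_mem_nhds.2 (StripP.loc hz hb hn (mem_sphere_zero_iff_norm.1 hp))
  refine ⟨δ, hδ, fun z h1 h2 => interior_subset (hs ?_) h1⟩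
  have hz0 : 0 < ‖z‖ := h0.trans h1
  rw [mem_thickening_iff]
  refine ⟨((r / ‖z‖ : ℝ) : ℂ) * z, ?_, ?_⟩
  · rw [mem_sphere_zero_iff_norm, norm_mul, norm_real, Real.norm_of_nonneg (by positivity),
      div_mul_cancel₀ _ hz0.ne']
  · rw [dist_eq_norm, show z - ((r / ‖z‖ : ℝ) : ℂ) * z = ((1 - r / ‖z‖ : ℝ) : ℂ) * z by
      push_cast; ring, norm_mul, norm_real,
      Real.norm_of_nonneg (sub_nonneg.2 ((div_le_one hz0).2 h1.le)), sub_mul, one_mul,
      div_mul_cancel₀ _ hz0.ne']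
    linarith

end Pool.Agent.P.MP_3bd355_an
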