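import Pool.Agent.P.MP_3bd355_an.Z.Stmts

/-! Uniqueness of the critical configuration for `A = 0`. -/

open Set Filter Metric Complex InnerProductSpace MeasureTheory
open scoped Topology ComplexConjugate Real

namespace Pool.Agent.P.MP_3bd355_an

/-- Every configuration carries a frame. -/
def Z_GF : Prop := ∀ (r B x₀ : ℝ) (z₁ a b : ℂ) (c : ℝ) (κ : ℝ → ℂ) (v g : ℂ → ℝ),
  ZC r B x₀ z₁ a b c κ v g →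
  (∃ fin Λ u₀ cc Ψ T Φ U w a₁ a₃ b₃ b₂,
    GF ⟨r, B, x₀, z₁, a, b, c, κ, v, g, fin, Λ, u₀, cc, Ψ, T, Φ, U, w, a₁, a₃, b₃, b₂⟩) ∧
  (NH r κ → FormN r B x₀ κ (QD r x₀ z₁ a b c) v) ∧
  (¬ NH r κ → FormH r B x₀ κ (QD r x₀ z₁ a b c) v)

/-- Every configuration carries a flat structure. -/
def Z_FL : Prop := ∀ (r B x₀ : ℝ) (z₁ a b : ℂ) (c : ℝ) (κ : ℝ → ℂ) (v g : ℂ → ℝ),
  ZC r B x₀ z₁ a b c κ v g → ∃ f : Fl, FL r x₀ z₁ f ∧ f.κ = κ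

/-- The data of the length-area comparison of two flat structures. -/
def Z_CMP : Prop := ∀ (r x₀ : ℝ) (z₁ : ℂ) (f f' : Fl), FL r x₀ z₁ f → FL r x₀ z₁ f' →
  ∃ ξ G, DV r f f' ξ G ∧ DM f f' ξ ∧ EN f f' ξ id ∧ LW f f'

theorem z_gf (hBA : Z_BA) (hKA : Z_KA) (hAN : Z_AN) (hUNF : Z_UNF) (hDI : Z_DI) (hUNH : Z_UNH)
    (hTF : Z_TF) (hTH : Z_TH) (hPH : Z_PH) (hLB : Z_LB) (hLI : Z_LI) (hUH : Z_UH) : Z_GF := by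
  intro r B x₀ z₁ a b c κ v g h
  have ba := hBA _ _ _ _ _ _ _ _ _ _ h
  have ka := hKA _ _ _ _ _ _ _ _ _ _ h ba
  have key : ∀ fin Λ u₀ cc Ψ T, UN r B x₀ κ (QD r x₀ z₁ a b c) v fin Λ u₀ Ψ T →
      MD Λ u₀ cc fin T → ∃ fin Λ u₀ cc Ψ T Φ U w a₁ a₃ b₃ b₂,
      GF ⟨r, B, x₀, z₁, a, b, c, κ, v, g, fin, Λ, u₀, cc, Ψ, T, Φ, U, w, a₁, a₃, b₃, b₂⟩ := by
    intro fin Λ u₀ cc Ψ T un md
    obtain ⟨Φ, ph⟩ := hPH _ _ _ _ _ md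
    obtain ⟨a₁, a₃, b₃, b₂, lb⟩ := hLB _ _ _ _ _ _ md ph
    obtain ⟨U, li⟩ := hLI _ _ _ _ _ _ _ _ _ _ md ph lb
    obtain ⟨w, uh⟩ := hUH _ _ _ _ _ _ _ _ _ _ _ un
    exact ⟨fin, Λ, u₀, cc, Ψ, T, Φ, U, w, a₁, a₃, b₃, b₂, h, ba, ka, un, md, ph, lb, li, uh⟩
  by_cases hn : NH r κ
  · obtain ⟨Λ, u₀, φ, ψ, an⟩ := hAN _ _ _ _ _ _ _ _ _ _ h ba hn
    obtain ⟨un, fo⟩ := hUNF _ _ _ _ _ _ _ _ _ _ _ _ _ _ h ba hn an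
    obtain ⟨cc, md⟩ := hTF B Λ u₀ h.ch.B0 an.u0 an.u1
    exact ⟨key _ _ _ _ _ _ un md, fun _ => fo, fun e => absurd hn e⟩
  · obtain ⟨s₀, s₁, φ, ψ, di⟩ := hDI _ _ _ _ _ _ _ _ _ _ h ba hn
    obtain ⟨u₀, Ψ, h0, h1, un, fo⟩ := hUNH _ _ _ _ _ _ _ _ _ _ _ _ _ _ h ba hn di
    exact ⟨key _ _ _ _ _ _ un (hTH B u₀ h.ch.B0 h0 h1), fun e => absurd e hn, fun _ => fo⟩

theorem z_fl (hGF : Z_GF) (hAS : Z_AS) (hFX : Z_FX) (hL1 : Z_LIP1) (hL2 : Z_LIP2) (hFZ : Z_FZ)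
    (hFC : Z_FC) (hFN : Z_FN) (hFY : Z_FY) : Z_FL := by
  intro r B x₀ z₁ a b c κ v g h
  obtain ⟨⟨fin, Λ, u₀, cc, Ψ, T, Φ, U, w, a₁, a₃, b₃, b₂, gf⟩, -⟩ := hGF _ _ _ _ _ _ _ _ _ _ h
  have fx := hFX _ gf
  obtain ⟨δ, fc⟩ := hFC _ gf
  obtain ⟨N, S, fn⟩ := hFN _ δ gf fx fc
  refine ⟨⟨κ, _, a₁, a₃, b₃, b₂, δ, _, _, _, _, N, S⟩, ⟨gf.ka, gf.lb.sh, fx,
    hL2 _ _ _ _ _ _ _ gf.ka fx (hL1 _ gf), hFZ _ gf, fc, fn, hFY _ gf fx, fun h3 => ?_⟩, rfl⟩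
  have hf : fin := gf.lb.fin_iff.2 h3
  obtain rfl : fin = True := eq_true hf
  exact ⟨_, hAS _ _ _ _ _ _ _ _ _ _ gf.md gf.ph gf.lb gf.li⟩

theorem z_cmp (hSQ : Z_SQR) (hDEV : Z_DEV) (hFB : Z_FB) (hIO : Z_IOTA) (hWE : Z_WELD)
    (hDOM : Z_DOM) (hEN : Z_ENDS) (hL1 : Z_LEAF1) (hL2 : Z_LEAF2) : Z_CMP := by
  intro r x₀ z₁ f f' h h'
  obtain ⟨l, hl⟩ := hSQ _ _ _ _ _ h.ka
  obtain ⟨l', hl'⟩ := hSQ _ _ _ _ _ h'.ka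
  obtain ⟨ξ, G, dv⟩ := hDEV _ _ _ _ _ l l' h h' hl hl'
  obtain ⟨Fb, fb⟩ := hFB _ _ _ _ _ _ _ _ _ _ _ h'.ka h'.fx h'.fc h'.sh.1
  obtain ⟨ι, io⟩ := hIO _ _ _ _ _ _ _ _ _ _ _ _ h'.ka h'.fx h'.fc h'.sh.1 fb
  have dm := hDOM _ _ _ _ _ _ _ h h' dv
  have en := fun W => hEN _ _ _ f f' ξ G W h' dv fun G' go => hWE _ _ _ _ _ _ G' h' fb io go
  exact ⟨ξ, G, dv, dm, en id continuous_id monotone_id (fun _ => rfl) (fun _ => rfl),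
    fun ω h1 h2 => ⟨hL1 _ _ _ _ _ _ _ ω h h' dv dm en h1 h2, hL2 _ _ _ _ _ _ ω h h' dm h1 h2⟩⟩

theorem z_uniq (hBA : Z_BA) (hFL : Z_FL) (hC : Z_CMP) (hJ : Z_JEN) (hAR : Z_ARITH) (hAT : Z_ANTI)
    (hE1 : Z_EQ1) (hE2 : Z_EQ2) (hK : Z_KEQ) : Z_UNIQ := by
  intro r B x₀ z₁ a b a' b' c c' κ κ' v g v' g' h h'
  obtain ⟨f, hf, rfl⟩ := hFL _ _ _ _ _ _ _ _ _ _ h
  obtain ⟨f', hf', rfl⟩ := hFL _ _ _ _ _ _ _ _ _ _ h'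
  have ji : ∀ f f' : Fl, FL r x₀ z₁ f → FL r x₀ z₁ f' →
      JI f.a₁ f.a₃ f.b₃ f.b₂ f'.a₁ f'.a₃ f'.b₃ f'.b₂ := fun f f' k k' => by
    obtain ⟨ξ, G, -, dm, -, lw⟩ := hC _ _ _ f f' k k'
    exact hJ _ _ _ _ _ ξ k k' dm lw
  have nlt : ∀ f f' : Fl, FL r x₀ z₁ f → FL r x₀ z₁ f' → ¬ f.a₃ * f'.a₁ < f'.a₃ * f.a₁ :=
    fun f f' k k' hlt => by
      obtain ⟨p1, p2, p3⟩ := hAR _ _ _ _ _ _ _ _ k.sh k'.sh (ji f f' k k') (ji f' f k' k) hlt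
      obtain ⟨s, hs⟩ := k.as p1
      obtain ⟨s', hs'⟩ := k'.as ((mul_pos_iff_of_pos_right k.sh.1).1
        ((mul_pos p1 k'.sh.1).trans hlt))
      exact hAT _ _ _ _ _ _ _ _ s s' hs hs' hlt p2 p3
  have sub : ∀ f f' : Fl, FL r x₀ z₁ f → FL r x₀ z₁ f' → KK f'.κ ∩ ann r ⊆ KK f.κ ∩ ann r :=
    fun f f' k k' => by
      obtain ⟨ξ, G, dv, dm, en, lw⟩ := hC _ _ _ f f' k k'
      obtain ⟨m, m0, m1, m2⟩ := hE1 _ _ _ f f' ξ k k' dm lw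
        (le_antisymm (not_lt.1 (nlt f' f k' k)) (not_lt.1 (nlt f f' k k'))) (ji f f' k k')
        (ji f' f k' k)
      exact subset_inter (hE2 _ _ _ f f' ξ G m k k' dv dm en m0 m1 m2) inter_subset_right
  exact hK _ _ _ _ _ _ _ _ _ _ _ _ _ _ _ _ h h' (hBA _ _ _ _ _ _ _ _ _ _ h)
    (hBA _ _ _ _ _ _ _ _ _ _ h') ((sub f f' hf hf').antisymm (sub f' f hf' hf))

end Pool.Agent.P.MP_3bd355_an
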